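import Pool.Agent.Lib.MP_092512_nt.FP.Defs
import Pool.Agent.Lib.MT.Inv

/-!
# F_P, AmatAdd: the operators `AL c` add up

PROOF of `AL_AL`: exchange the sums (`Finset.mul_sum`, `sum_comm`), `∏_p A(ρ p)(τ p) * ∏_p A'(τ p)(σ p)` summed over all `τ` is
`∏_p ∑_t A(ρ p)(t) A'(t)(σ p)` (`Finset.prod_univ_sum` and `Fintype.piFinset_univ`; the same step is in `MT.sum_lam`, file
Lib/MT/Inv.lean, which is the case `d = -1/p`), and for one prime `∑_t Amat c r t * Amat d t s = Amat (c + d) r s`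
(`Fintype.sum_option`; cases `r`, `s` = none/some).
`AL_zero`: `Amat 0` is the identity matrix.  `AL_ext`: a nonzero value at `ρ` needs an extension `σ` of `ρ` with `L σ ≠ 0`
(as `MT.lam_ext`).  `AL_avd`: for `c p l = c p m = 0` (all `p`) and `ρ` avoiding `l`, `m` only the `σ` avoiding `l`, `m`
contribute, so the values of `L` there suffice.  `AL_abs`: `|∏| ≤` and `∑_s |Amat c r s| ≤ 1 + ∑_j |c j|` for every `r`
(for `r = some i` the sum is 1), as `MT.abs_lam_le`.
-/

set_option autoImplicit false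

open Finset

namespace Pool.Agent.Lib.MP_092512_nt.FP

open Pool.Agent.Lib.MT

variable {P : Finset ℕ} {ι : Type} [Fintype ι] [DecidableEq ι]

private lemma AmatAdd_amat (c d : ι → ℝ) (a b : Option ι) :
    ∑ s : Option ι, Amat c a s * Amat d s b = Amat (fun j => c j + d j) a b := by
  rw [Fintype.sum_option]
  rcases a with _ | i <;> rcases b with _ | j
  · simp [Amat]
  · simp [Amat, add_comm]
  · simp [Amat]
  · simp [Amat]

omit [DecidableEq ι] in
private lemma AmatAdd_prod_sum (f : {p : ℕ // p ∈ P} → Option ι → ℝ) :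
    ∑ σ : Col P ι, ∏ p : {p : ℕ // p ∈ P}, f p (σ p) = ∏ p : {p : ℕ // p ∈ P}, ∑ s : Option ι, f p s := by
  rw [Finset.prod_univ_sum, Fintype.piFinset_univ]

theorem AL_AL (c d : {p : ℕ // p ∈ P} → ι → ℝ) (L : Col P ι → ℝ) (ρ : Col P ι) :
    AL c (AL d L) ρ = AL (fun p j => c p j + d p j) L ρ := by
  simp only [AL, Finset.mul_sum]
  rw [Finset.sum_comm]
  refine Finset.sum_congr rfl fun τ _ => ?_
  have h1 : ∀ σ : Col P ι, (∏ p : {p : ℕ // p ∈ P}, Amat (c p) (ρ p) (σ p)) *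
      ((∏ p : {p : ℕ // p ∈ P}, Amat (d p) (σ p) (τ p)) * L τ) =
      (∏ p : {p : ℕ // p ∈ P}, (Amat (c p) (ρ p) (σ p) * Amat (d p) (σ p) (τ p))) * L τ := by
    intro σ
    rw [Finset.prod_mul_distrib, mul_assoc]
  simp only [h1]
  rw [← Finset.sum_mul]
  congr 1
  rw [AmatAdd_prod_sum (fun p s => Amat (c p) (ρ p) s * Amat (d p) s (τ p))]
  refine Finset.prod_congr rfl fun p _ => ?_
  rw [AmatAdd_amat]

theorem AL_zero (L : Col P ι → ℝ) (ρ : Col P ι) : AL (fun _ _ => 0) L ρ = L ρ := by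
  rw [AL]
  have h1 : ∀ (a b : Option ι), Amat (fun _ : ι => (0 : ℝ)) a b = if a = b then 1 else 0 := by
    intro a b
    rcases a with _ | i <;> rcases b with _ | j <;> simp [Amat]
  have h2 : ∀ τ : Col P ι, (∏ p : {p : ℕ // p ∈ P},
      Amat (fun _ : ι => (0 : ℝ)) (ρ p) (τ p)) = if ρ = τ then 1 else 0 := by
    intro τ
    simp only [h1]
    split_ifs with h
    · rw [h]; simp
    · have h3 : ∃ p, ρ p ≠ τ p := by
        by_contra hc
        push Not at hc
        exact h (funext hc)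
      obtain ⟨p, hp⟩ := h3
      exact Finset.prod_eq_zero (mem_univ p) (by rw [if_neg hp])
  simp only [h2]
  simp

theorem lam_AL (L : Col P ι → ℝ) : lam L = AL (fun p _ => -(1 / ((p : ℕ) : ℝ))) L := by
  funext ρ
  rfl

theorem AL_ext (c : {p : ℕ // p ∈ P} → ι → ℝ) (L : Col P ι → ℝ) (ρ : Col P ι) (h : AL c L ρ ≠ 0) :
    ∃ σ, L σ ≠ 0 ∧ ∀ p i, ρ p = some i → σ p = some i := by
  rw [AL] at h
  obtain ⟨τ, _, hτ⟩ := Finset.exists_ne_zero_of_sum_ne_zero h
  refine ⟨τ, right_ne_zero_of_mul hτ, fun p i hpi => ?_⟩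
  have h1 := Finset.prod_ne_zero_iff.1 (left_ne_zero_of_mul hτ) p (mem_univ p)
  rw [hpi] at h1
  rcases h2 : τ p with _ | j
  · rw [h2] at h1
    exact absurd rfl h1
  · rw [h2] at h1
    by_cases hij : i = j
    · rw [hij]
    · exfalso
      apply h1
      simp [Amat, hij]

theorem AL_avd (c : {p : ℕ // p ∈ P} → ι → ℝ) (l m : ι) (hc : ∀ p, c p l = 0 ∧ c p m = 0)
    (L L' : Col P ι → ℝ) (hL : ∀ σ, Avd l m σ → L σ = L' σ) (ρ : Col P ι) (hρ : Avd l m ρ) :
    AL c L ρ = AL c L' ρ := by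
  rw [AL, AL]
  refine Finset.sum_congr rfl fun σ _ => ?_
  by_cases hσ : Avd l m σ
  · rw [hL σ hσ]
  · have h0 : (∏ p : {p : ℕ // p ∈ P}, Amat (c p) (ρ p) (σ p)) = 0 := by
      unfold Avd at hσ
      push Not at hσ
      obtain ⟨p, hp⟩ := hσ
      refine Finset.prod_eq_zero (mem_univ p) ?_
      have key : ∀ x : ι, (c p x = 0) → (ρ p ≠ some x) → σ p = some x →
          Amat (c p) (ρ p) (σ p) = 0 := by
        intro x hx hρx hσx
        rw [hσx]
        rcases h2 : ρ p with _ | j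
        · simpa [Amat] using hx
        · have hjx : j ≠ x := by
            rintro rfl
            exact hρx h2
          simp [Amat, hjx]
      by_cases hl : σ p = some l
      · exact key l (hc p).1 (hρ p).1 hl
      · exact key m (hc p).2 (hρ p).2 (hp hl)
    rw [h0, zero_mul, zero_mul]

theorem AL_abs (c : {p : ℕ // p ∈ P} → ι → ℝ) (L : Col P ι → ℝ) (B : ℝ) (hL : ∀ σ, |L σ| ≤ B)
    (ρ : Col P ι) : |AL c L ρ| ≤ B * ∏ p : {p : ℕ // p ∈ P}, (1 + ∑ j, |c p j|) := by
  have hB : 0 ≤ B := (abs_nonneg _).trans (hL ρ)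
  rw [AL]
  calc |∑ τ : Col P ι, (∏ p : {p : ℕ // p ∈ P}, Amat (c p) (ρ p) (τ p)) * L τ|
      ≤ ∑ τ : Col P ι, |(∏ p : {p : ℕ // p ∈ P}, Amat (c p) (ρ p) (τ p)) * L τ| :=
        Finset.abs_sum_le_sum_abs _ _
    _ ≤ ∑ τ : Col P ι, B * ∏ p : {p : ℕ // p ∈ P}, |Amat (c p) (ρ p) (τ p)| := by
        refine Finset.sum_le_sum fun τ _ => ?_
        rw [abs_mul, Finset.abs_prod, mul_comm B]
        exact mul_le_mul_of_nonneg_left (hL τ) (Finset.prod_nonneg fun _ _ => abs_nonneg _)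
    _ = B * ∏ p : {p : ℕ // p ∈ P}, ∑ s : Option ι, |Amat (c p) (ρ p) s| := by
        rw [← Finset.mul_sum, AmatAdd_prod_sum (fun p s => |Amat (c p) (ρ p) s|)]
    _ ≤ _ := by
        refine mul_le_mul_of_nonneg_left ?_ hB
        refine Finset.prod_le_prod (fun p _ => Finset.sum_nonneg fun _ _ => abs_nonneg _) fun p _ => ?_
        rw [Fintype.sum_option]
        rcases h1 : ρ p with _ | i
        · simp only [Amat]
          rw [abs_one]
        · simp only [Amat]
          have h2 : ∑ x : ι, |if i = x then (1 : ℝ) else 0| = 1 := by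
            rw [Finset.sum_eq_single i]
            · simp
            · intro b _ hb
              rw [if_neg (Ne.symm hb), abs_zero]
            · intro h; exact absurd (mem_univ i) h
          rw [h2, abs_zero, zero_add]
          have h0 : 0 ≤ ∑ j, |c p j| := Finset.sum_nonneg fun _ _ => abs_nonneg _
          linarith

end Pool.Agent.Lib.MP_092512_nt.FP
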