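import Pool.Agent.Lib.BV.Main

/-!
# F_P, BVd: Bombieri-Vinogradov with the worst reduced class, at `X + a` and `2X + a`, level `X^(1/2 - δ)`

PROOF. Copy of `MT.layF_bv` (file Lib/MT/LayF.lean, 9/20 there) with `BV.bvp (A+1) K δ`: if `δ ≥ 1/2` use `min δ (1/4)` in place of `δ`
(`X^(1/2-δ) ≤ X^(1/2 - min δ (1/4))` for `X ≥ 1`).
-/

set_option autoImplicit false

open Finset

namespace Pool.Agent.Lib.MP_092512_nt.FP

private theorem BVd_mod (Y q c : ℕ) : BV.EE BV.th Y q c = BV.EE BV.th Y q (c % q) := by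
  unfold BV.EE
  have h1 : (Icc 1 Y).filter (fun n => n ≡ c [MOD q]) = (Icc 1 Y).filter (fun n => n ≡ c % q [MOD q]) := by
    refine filter_congr (fun n _ => ?_)
    have h2 : c % q ≡ c [MOD q] := Nat.mod_modEq c q
    exact ⟨fun h => h.trans h2.symm, fun h => h.trans h2⟩
  rw [h1]

private theorem BVd_worst (Y q : ℕ) : ∃ l : ℕ, 1 ≤ q →
    (l.Coprime q ∧ ∀ c : ℕ, c.Coprime q → |BV.EE BV.th Y q c| ≤ |BV.EE BV.th Y q l|) := by
  by_cases hq : 1 ≤ q
  · have hne : ((range q).filter (fun c => c.Coprime q)).Nonempty := by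
      refine ⟨1 % q, ?_⟩
      rw [mem_filter, mem_range]
      refine ⟨Nat.mod_lt _ hq, ?_⟩
      have : Nat.Coprime 1 q := Nat.coprime_one_left q
      rw [Nat.Coprime, ← Nat.gcd_rec, Nat.gcd_comm]
      exact this
    obtain ⟨l, hl, hmax⟩ := exists_max_image _ (fun c => |BV.EE BV.th Y q c|) hne
    refine ⟨l, fun _ => ⟨(mem_filter.mp hl).2, fun c hc => ?_⟩⟩
    rw [BVd_mod Y q c]
    refine hmax (c % q) ?_
    rw [mem_filter, mem_range]
    refine ⟨Nat.mod_lt _ hq, ?_⟩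
    rw [Nat.Coprime, ← Nat.gcd_rec, Nat.gcd_comm]
    exact hc
  · exact ⟨0, fun h => absurd h hq⟩

theorem bvd (A K : ℕ) (δ : ℝ) (hδ : 0 < δ) : ∃ X₀ : ℕ, ∀ X : ℕ, X₀ ≤ X → ∀ a : ℕ, a ≤ X →
    ∃ E : ℕ → ℝ, (∀ q, 0 ≤ E q) ∧
      (∀ q c, 1 ≤ q → Nat.Coprime c q →
        |BV.EE BV.th (2 * X + a) q c| + |BV.EE BV.th (X + a) q c| ≤ E q) ∧
      ∀ Q : ℕ, (Q : ℝ) ≤ (X : ℝ) ^ (1 / 2 - δ) →
        ∑ q ∈ Icc 1 Q, (K : ℝ) ^ q.primeFactors.card * E q ≤ X / (Real.log X) ^ A := by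
  obtain ⟨X₁, h1⟩ := BV.bvp (A + 1) K (min δ (1 / 4)) (lt_min hδ (by norm_num))
  obtain ⟨X₂, h2⟩ : ∃ X₂ : ℕ, ∀ X : ℕ, X₂ ≤ X → 5 ≤ Real.log X := by
    have h3 : Filter.Tendsto (fun X : ℕ => Real.log (X : ℝ)) Filter.atTop Filter.atTop :=
      Real.tendsto_log_atTop.comp tendsto_natCast_atTop_atTop
    exact Filter.eventually_atTop.mp (h3.eventually_ge_atTop 5)
  refine ⟨X₁ + X₂ + 1, fun X hX a ha => ?_⟩
  have hl5 := h2 X (by omega)
  have hX1 : 1 ≤ X := by omega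
  have hX0 : (0 : ℝ) < (X : ℝ) := by exact_mod_cast hX1
  choose l hl using BVd_worst
  refine ⟨fun q => |BV.EE BV.th (2 * X + a) q (l (2 * X + a) q)| +
    |BV.EE BV.th (X + a) q (l (X + a) q)|, fun q => by positivity, fun q c hq hc => ?_, fun Q hQ => ?_⟩
  · exact add_le_add ((hl (2 * X + a) q hq).2 c hc) ((hl (X + a) q hq).2 c hc)
  · have key : ∀ Y : ℕ, X ≤ Y → ∀ t : ℝ, (Y : ℝ) ≤ t * X →
        ∑ q ∈ Icc 1 Q, (K : ℝ) ^ q.primeFactors.card * |BV.EE BV.th Y q (l Y q)| ≤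
          t * X / (Real.log X) ^ (A + 1) := by
      intro Y hY t ht
      have hYr : (X : ℝ) ≤ (Y : ℝ) := by exact_mod_cast hY
      have e1 : (Q : ℝ) ≤ (Y : ℝ) ^ (1 / 2 - min δ (1 / 4) : ℝ) := by
        have hX1r : (1 : ℝ) ≤ X := by exact_mod_cast hX1
        have h4 := min_le_left δ (1 / 4 : ℝ)
        have h5 := min_le_right δ (1 / 4 : ℝ)
        refine le_trans hQ (le_trans (Real.rpow_le_rpow_of_exponent_le hX1r
          (by linarith : 1 / 2 - δ ≤ 1 / 2 - min δ (1 / 4))) ?_)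
        exact Real.rpow_le_rpow hX0.le hYr (by linarith)
      have e2 := h1 Y (by omega) Q e1 (l Y) (fun q hq => (hl Y q (mem_Icc.mp hq).1).1)
      refine le_trans e2 ?_
      have e3 : Real.log X ≤ Real.log Y := Real.log_le_log hX0 hYr
      have e4 : 0 < Real.log X := by linarith
      refine div_le_div₀ (le_trans (Nat.cast_nonneg _) ht) ht (by positivity) ?_
      exact pow_le_pow_left₀ e4.le e3 _
    have har : (a : ℝ) ≤ (X : ℝ) := by exact_mod_cast ha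
    have k1 := key (2 * X + a) (by omega) 3 (by push_cast; linarith)
    have k2 := key (X + a) (by omega) 2 (by push_cast; linarith)
    have e5 : ∑ q ∈ Icc 1 Q, (K : ℝ) ^ q.primeFactors.card *
        (|BV.EE BV.th (2 * X + a) q (l (2 * X + a) q)| + |BV.EE BV.th (X + a) q (l (X + a) q)|) =
        ∑ q ∈ Icc 1 Q, (K : ℝ) ^ q.primeFactors.card * |BV.EE BV.th (2 * X + a) q (l (2 * X + a) q)| +
        ∑ q ∈ Icc 1 Q, (K : ℝ) ^ q.primeFactors.card * |BV.EE BV.th (X + a) q (l (X + a) q)| := by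
      rw [← sum_add_distrib]
      exact sum_congr rfl (fun q _ => mul_add _ _ _)
    refine le_trans (le_of_eq e5) (le_trans (add_le_add k1 k2) ?_)
    have e4 : 0 < Real.log X := by linarith
    rw [← add_div, div_le_div_iff₀ (by positivity) (by positivity), pow_succ]
    have e6 : 0 < (Real.log X) ^ A := by positivity
    have e7 : (3 * (X : ℝ) + 2 * X) * (Real.log X) ^ A = X * ((Real.log X) ^ A * 5) := by ring
    rw [e7]
    exact mul_le_mul_of_nonneg_left (mul_le_mul_of_nonneg_left hl5 e6.le) hX0.le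

end Pool.Agent.Lib.MP_092512_nt.FP
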