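import Pool.Agent.Lib.MP_092512_nt.FP.Defs

/-!
# F_P, EntB: the mutual information is at most `log C2`

PROOF.  `S n = ∑_j X n j > 0`, `b = N a/W`.  `log (N X_j/S) = log (N X_j/(b C2)) + log C2 + log (b/S) ≤ N X_j/(b C2) - 1 + log C2 + b/S - 1`
where `X_j > 0`; times `X_j/S`, sum over `j`: `N ∑ X_j^2/(S b C2) + log C2 - 2 + b/S`.  Multiply by `w n S n/(N a) ≥ 0` and sum over `n ∈ I`,
`∑ w n S n = N a`: `≤ (∑ w n ∑_j X_j^2)/(a b C2) + log C2 - 2 + b (∑_{n ∈ I} w n)/(N a) ≤ 1 + log C2 - 2 + 1`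
(`W ∑ w ∑ X^2 ≤ C2 N a^2`, `∑_I w ≤ W`).
-/

set_option autoImplicit false

open Finset

namespace Pool.Agent.Lib.MP_092512_nt.FP

private lemma entB_pt (N b C2 S x : ℝ) (hN : 0 < N) (hb : 0 < b) (hC : 0 < C2) (hS : 0 < S)
    (hx : 0 ≤ x) :
    (x / S) * Real.log (N * (x / S)) ≤
      (x / S) * (N * x / (b * C2) - 1 + Real.log C2 + (b / S - 1)) := by
  rcases hx.eq_or_lt with h0 | h0
  · rw [← h0]
    simp
  · apply mul_le_mul_of_nonneg_left _ (by positivity)
    have h1 : Real.log (N * (x / S)) =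
        Real.log (N * x / (b * C2)) + Real.log C2 + Real.log (b / S) := by
      rw [← Real.log_mul (by positivity) (by positivity), ← Real.log_mul (by positivity) (by positivity)]
      congr 1
      field_simp
    have h2 := Real.log_le_sub_one_of_pos (show 0 < N * x / (b * C2) by positivity)
    have h3 := Real.log_le_sub_one_of_pos (show 0 < b / S by positivity)
    rw [h1]
    linarith

theorem entB {ι : Type} (N : ℕ) (hN : 1 ≤ N) (I : Finset ι) (w : ι → ℝ) (X : ι → Fin N → ℝ)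
    (a W C2 : ℝ) (ha : 0 < a) (hW : 0 < W) (hC : 0 < C2) (hw : ∀ n ∈ I, 0 ≤ w n)
    (hX : ∀ n ∈ I, ∀ j, 0 ≤ X n j) (hS : ∀ n ∈ I, 0 < ∑ j, X n j) (hwW : ∑ n ∈ I, w n ≤ W)
    (h1 : ∀ j, ∑ n ∈ I, w n * X n j = a)
    (h2 : W * ∑ n ∈ I, w n * ∑ j, X n j ^ 2 ≤ C2 * (N * a ^ 2)) :
    ∑ n ∈ I, (w n * (∑ j, X n j) / (N * a)) *
        ∑ j, (X n j / ∑ j, X n j) * Real.log (N * (X n j / ∑ j, X n j)) ≤ Real.log C2 := by
  have hN0 : (0 : ℝ) < N := by exact_mod_cast hN
  obtain ⟨b, hb⟩ : ∃ b : ℝ, b = N * a / W := ⟨_, rfl⟩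
  have hb0 : 0 < b := by rw [hb]; positivity
  have hsumS : ∑ n ∈ I, w n * ∑ j, X n j = N * a := by
    simp_rw [mul_sum]
    rw [sum_comm, sum_congr rfl (fun j _ => h1 j)]
    simp
  have hpt : ∀ n ∈ I, (w n * (∑ j, X n j) / (N * a)) *
        ∑ j, (X n j / ∑ j, X n j) * Real.log (N * (X n j / ∑ j, X n j)) ≤
      (w n * ∑ j, X n j ^ 2) / (a * b * C2) + (Real.log C2 - 2) * (w n * (∑ j, X n j) / (N * a)) +
        b * w n / (N * a) := by
    intro n hn
    have hS0 := hS n hn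
    obtain ⟨S, hSd⟩ : ∃ S : ℝ, S = ∑ j, X n j := ⟨_, rfl⟩
    rw [← hSd] at hS0 ⊢
    have e1 : ∑ j, (X n j / S) * Real.log (N * (X n j / S)) ≤
        N * (∑ j, X n j ^ 2) / (S * (b * C2)) + (Real.log C2 - 2 + b / S) := by
      calc ∑ j, (X n j / S) * Real.log (N * (X n j / S))
          ≤ ∑ j, (X n j / S) * (N * X n j / (b * C2) - 1 + Real.log C2 + (b / S - 1)) :=
            sum_le_sum (fun j _ => entB_pt N b C2 S (X n j) hN0 hb0 hC hS0 (hX n hn j))
        _ = ∑ j, (N / (S * (b * C2)) * X n j ^ 2 + X n j * ((Real.log C2 - 2 + b / S) / S)) := by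
            apply sum_congr rfl
            intro j _
            field_simp
            ring
        _ = _ := by
            rw [sum_add_distrib, ← mul_sum, ← sum_mul, ← hSd]
            field_simp
    have e2 : 0 ≤ w n * S / (N * a) := by
      have := hw n hn
      positivity
    refine (mul_le_mul_of_nonneg_left e1 e2).trans (le_of_eq ?_)
    field_simp
    ring
  refine (sum_le_sum hpt).trans ?_
  rw [sum_add_distrib, sum_add_distrib, ← sum_div, ← mul_sum, ← sum_div, hsumS, ← sum_div, ← mul_sum,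
    div_self (by positivity)]
  have e3 : (∑ n ∈ I, w n * ∑ j, X n j ^ 2) / (a * b * C2) ≤ 1 := by
    rw [div_le_one (by positivity), hb]
    have : a * (N * a / W) * C2 = C2 * (N * a ^ 2) / W := by
      field_simp
    rw [this, le_div_iff₀ hW]
    linarith
  have e4 : b * ∑ n ∈ I, w n ≤ N * a := by
    calc b * ∑ n ∈ I, w n ≤ b * W := mul_le_mul_of_nonneg_left hwW hb0.le
      _ = N * a := by rw [hb]; field_simp
  have e5 : b * ∑ n ∈ I, w n / 1 = b * ∑ n ∈ I, w n := by simp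
  have e6 : (b * ∑ n ∈ I, w n) / (N * a) ≤ 1 := by
    rw [div_le_one (by positivity)]
    exact e4
  linarith

end Pool.Agent.Lib.MP_092512_nt.FP
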