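import Pool.Agent.Lib.MP_092512_nt.FP.Defs

/-!
# F_P, EntC: small relative entropy and little mass on `B` make the complement of `B` large

PROOF.  `n = card α`, `t = ∑_{B} f ≤ τ < 1`, `G` the complement of `B` (nonempty, else `t = 1`), `γ = |G|/n ∈ (0,1]`.  `φ = 1/γ` on `G`, `exp (-L)` on `B`; `A = (1/n) ∑ φ = 1 + exp (-L) |B|/n ≤ 1 + exp (-L)`.
For `f v > 0`: `log (φ v/(A n f v)) ≤ φ v/(A n f v) - 1`, times `f v`, sum (all `v`): `∑ f (log φ - log A - log (n f)) ≤ (∑ φ)/(A n) - 1 = 0`.  So
`∑ f log (n f) ≥ ∑ f log φ - log A ≥ (1-t) log (1/γ) - t L - exp (-L)` (`log A ≤ A - 1`), and `(1-τ) log (1/γ) ≤ (1-t) log (1/γ)`, `t L ≤ τ L`.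
-/

set_option autoImplicit false

open Finset

namespace Pool.Agent.Lib.MP_092512_nt.FP

theorem entC {α : Type} [Fintype α] [DecidableEq α] (f : α → ℝ) (hf : ∀ v, 0 ≤ f v)
    (hf1 : ∑ v, f v = 1) (B : Finset α) (τ h L : ℝ) (hτ : ∑ v ∈ B, f v ≤ τ) (hτ1 : τ < 1)
    (hL : 0 ≤ L) (hh : ∑ v, f v * Real.log (Fintype.card α * f v) ≤ h) :
    B.card < Fintype.card α ∧
      (1 - τ) * Real.log (Fintype.card α / ((Fintype.card α : ℝ) - B.card)) ≤
        h + τ * L + Real.exp (-L) := by
  have hBle : B.card ≤ Fintype.card α := card_le_univ B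
  have hlt : B.card < Fintype.card α := by
    rcases lt_or_eq_of_le hBle with h1 | h1
    · exact h1
    · exfalso
      have h2 : B = univ := (card_eq_iff_eq_univ B).1 h1
      rw [h2, hf1] at hτ
      linarith
  refine ⟨hlt, ?_⟩
  obtain ⟨n, hn⟩ : ∃ n : ℝ, n = (Fintype.card α : ℝ) := ⟨_, rfl⟩
  obtain ⟨b, hb⟩ : ∃ b : ℝ, b = (B.card : ℝ) := ⟨_, rfl⟩
  rw [← hn, ← hb]
  rw [← hn] at hh
  have hbn : b < n := by rw [hb, hn]; exact_mod_cast hlt
  have hb0 : 0 ≤ b := by rw [hb]; positivity
  have hn0 : 0 < n := by linarith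
  have hg0 : 0 < n - b := by linarith
  obtain ⟨φ, hφ⟩ : ∃ φ : α → ℝ, φ = fun v => if v ∈ B then Real.exp (-L) else n / (n - b) := ⟨_, rfl⟩
  have hφ0 : ∀ v, 0 < φ v := by
    intro v
    rw [hφ]
    dsimp only
    split_ifs
    · exact Real.exp_pos _
    · positivity
  have hcomp : ((univ.filter (fun v => v ∉ B)).card : ℝ) = n - b := by
    have h1 : (univ.filter (fun v => v ∉ B)) = Bᶜ := by
      ext v
      simp
    rw [h1, card_compl, Nat.cast_sub hBle, hn, hb]
  have hsumφ : ∑ v, φ v = Real.exp (-L) * b + n := by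
    rw [← sum_filter_add_sum_filter_not univ (fun v => v ∈ B)]
    have h1 : ∑ v ∈ univ.filter (fun v => v ∈ B), φ v = b * Real.exp (-L) := by
      rw [sum_congr rfl (g := fun _ => Real.exp (-L)) (fun v hv => by
        rw [hφ]
        exact if_pos (mem_filter.1 hv).2), sum_const, nsmul_eq_mul]
      congr 1
      rw [hb]
      congr 2
      ext v
      simp
    have h2 : ∑ v ∈ univ.filter (fun v => v ∉ B), φ v = (n - b) * (n / (n - b)) := by
      rw [sum_congr rfl (g := fun _ => n / (n - b)) (fun v hv => by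
        rw [hφ]
        exact if_neg (mem_filter.1 hv).2), sum_const, nsmul_eq_mul, hcomp]
    rw [h1, h2, mul_div_cancel₀ _ hg0.ne']
    ring
  obtain ⟨A, hA⟩ : ∃ A : ℝ, A = (Real.exp (-L) * b + n) / n := ⟨_, rfl⟩
  have hA1 : A ≤ 1 + Real.exp (-L) := by
    rw [hA, div_le_iff₀ hn0]
    have := Real.exp_pos (-L)
    nlinarith
  have hA0 : 0 < A := by
    rw [hA]
    have := Real.exp_pos (-L)
    positivity
  -- Gibbs
  have key : ∀ v, f v * Real.log (φ v) - f v * Real.log A - f v * Real.log (n * f v) ≤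
      φ v / (A * n) - f v := by
    intro v
    rcases (hf v).eq_or_lt with h0 | h0
    · rw [← h0]
      have := hφ0 v
      simp only [zero_mul, sub_zero]
      positivity
    · have h1 : 0 < φ v / (A * n * f v) := by
        have := hφ0 v
        positivity
      have h2 := Real.log_le_sub_one_of_pos h1
      have h3 : Real.log (φ v / (A * n * f v)) = Real.log (φ v) - Real.log A - Real.log (n * f v) := by
        rw [Real.log_div (hφ0 v).ne' (by positivity), mul_assoc, Real.log_mul hA0.ne' (by positivity)]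
        ring
      rw [h3] at h2
      have h4 := mul_le_mul_of_nonneg_left h2 h0.le
      have h5 : f v * (φ v / (A * n * f v) - 1) = φ v / (A * n) - f v := by
        field_simp
      rw [h5] at h4
      linarith
  have hsum := sum_le_sum (s := univ) (fun v _ => key v)
  rw [sum_sub_distrib, sum_sub_distrib, sum_sub_distrib, hf1, ← sum_div, hsumφ, ← sum_mul, hf1,
    one_mul] at hsum
  have hAn : (Real.exp (-L) * b + n) / (A * n) = 1 := by
    rw [hA]
    have := Real.exp_pos (-L)
    field_simp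
  rw [hAn, sub_self] at hsum
  obtain ⟨t, ht⟩ : ∃ t : ℝ, t = ∑ v ∈ B, f v := ⟨_, rfl⟩
  have hlogφ : ∑ v, f v * Real.log (φ v) = t * (-L) + (1 - t) * Real.log (n / (n - b)) := by
    rw [← sum_filter_add_sum_filter_not univ (fun v => v ∈ B)]
    have h1 : ∑ v ∈ univ.filter (fun v => v ∈ B), f v * Real.log (φ v) = t * (-L) := by
      rw [sum_congr rfl (g := fun v => f v * (-L)) (fun v hv => by
        rw [hφ]
        dsimp only
        rw [if_pos (mem_filter.1 hv).2, Real.log_exp]), ← sum_mul, ht]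
      congr 2
      ext v
      simp
    have h2 : ∑ v ∈ univ.filter (fun v => v ∉ B), f v * Real.log (φ v) =
        (1 - t) * Real.log (n / (n - b)) := by
      rw [sum_congr rfl (g := fun v => f v * Real.log (n / (n - b))) (fun v hv => by
        rw [hφ]
        dsimp only
        rw [if_neg (mem_filter.1 hv).2]), ← sum_mul]
      congr 1
      have h3 := sum_filter_add_sum_filter_not univ (fun v => v ∈ B) f
      have h4 : ∑ v ∈ univ.filter (fun v => v ∈ B), f v = t := by
        rw [ht]
        congr 1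
        ext v
        simp
      rw [h4, hf1] at h3
      linarith
    rw [h1, h2]
  rw [hlogφ] at hsum
  have hlogA : Real.log A ≤ Real.exp (-L) := by
    have := Real.log_le_sub_one_of_pos hA0
    linarith
  have hlog0 : 0 ≤ Real.log (n / (n - b)) := by
    apply Real.log_nonneg
    rw [le_div_iff₀ hg0]
    linarith
  have htτ : t ≤ τ := by rw [ht]; exact hτ
  have e1 : (1 - τ) * Real.log (n / (n - b)) ≤ (1 - t) * Real.log (n / (n - b)) :=
    mul_le_mul_of_nonneg_right (by linarith) hlog0
  have e2 : t * L ≤ τ * L := mul_le_mul_of_nonneg_right htτ hL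
  linarith

end Pool.Agent.Lib.MP_092512_nt.FP
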