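import Pool.Agent.Lib.MP_092512_nt.FP.EntA
import Pool.Agent.Lib.MP_092512_nt.FP.EntB
import Pool.Agent.Lib.MP_092512_nt.FP.EntC

/-!
# F_P, EntM: the entropy lemma

PROOF.  `k = k' + 1`.  `J = I.filter (0 < S n)`, `S n = ∑_j X n j`; on `I \ J` all `X n j = 0`, so the sums over `J` are the same.  `q n = w n S n/(N a)`, `p n j = X n j/S n`:
`∑_j p n j = 1`, `∑_{n∈J} q n p n j = a/(N a) = 1/N`.  `entA` (with `k'`), `entB` (`W = ∑_I w`): the relative entropy of `mix J q p` (a probability on `Fin k → Fin N`, `mix_sum`, card `N^k`) is at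
most `k' log C2`.  `∑_{v∈Bad} mix ≤ τ` is the hypothesis divided by `N a`.  `entC`: `(1-τ) log (1/γ) ≤ k' log C2 + τ L + exp (-L)`, `γ = (N^k - |Bad|)/N^k`.
Given `ε` take `L = 8/ε`, `τ = min (1/2) (min (ε^2/64) (ε/(16 k)))`: `log (1/γ) ≤ (1 + 2τ)(k' log C2) + 2(τ L + exp (-L)) ≤ k' log C2 + ε`, so
`γ ≥ C2^(-k') exp (-ε) ≥ C2^(-k') (1 - ε) ≥ C2^(-k') - ε`.
-/

set_option autoImplicit false

open Finset

namespace Pool.Agent.Lib.MP_092512_nt.FP

/-- the numerical part -/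
private lemma entM_num (k' : ℕ) (ε τ C2 T g : ℝ) (hε : 0 < ε) (hτ : 0 < τ) (h2 : τ ≤ 1 / 2)
    (h3 : τ ≤ ε ^ 2 / 64) (h4 : τ ≤ ε / (16 * ((k' : ℝ) + 1))) (hC1 : 1 ≤ C2) (hC5 : C2 ≤ 5)
    (hg : 0 < g) (hgT : g ≤ T)
    (h : (1 - τ) * Real.log (T / g) ≤ k' * Real.log C2 + τ * (8 / ε) + Real.exp (-(8 / ε))) :
    ((1 / C2) ^ k' - ε) * T ≤ g := by
  have hT : 0 < T := by linarith
  have hC0 : 0 < C2 := by linarith
  obtain ⟨x, hx⟩ : ∃ x : ℝ, x = Real.log (T / g) := ⟨_, rfl⟩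
  have hx0 : 0 ≤ x := by
    rw [hx]
    apply Real.log_nonneg
    rw [le_div_iff₀ hg]
    linarith
  rw [← hx] at h
  have hexp : Real.exp (-(8 / ε)) ≤ ε / 8 := by
    rw [Real.exp_neg]
    have h5 : 8 / ε ≤ Real.exp (8 / ε) := by
      have := Real.add_one_le_exp (8 / ε)
      linarith
    calc (Real.exp (8 / ε))⁻¹ ≤ (8 / ε)⁻¹ := inv_anti₀ (by positivity) h5
      _ = ε / 8 := by rw [inv_div]
  have hτL : τ * (8 / ε) ≤ ε / 8 := by
    calc τ * (8 / ε) ≤ (ε ^ 2 / 64) * (8 / ε) := mul_le_mul_of_nonneg_right h3 (by positivity)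
      _ = ε / 8 := by field_simp; norm_num
  have hlog0 : 0 ≤ Real.log C2 := Real.log_nonneg hC1
  have hlog4 : Real.log C2 ≤ 4 := by
    have := Real.log_le_sub_one_of_pos hC0
    linarith
  obtain ⟨H, hH⟩ : ∃ H : ℝ, H = k' * Real.log C2 := ⟨_, rfl⟩
  have hk0 : (0 : ℝ) ≤ k' := Nat.cast_nonneg _
  have hH0 : 0 ≤ H := by rw [hH]; positivity
  have hτH : τ * H ≤ ε / 4 := by
    have h6 : H ≤ 4 * ((k' : ℝ) + 1) := by rw [hH]; nlinarith
    calc τ * H ≤ τ * (4 * ((k' : ℝ) + 1)) := mul_le_mul_of_nonneg_left h6 hτ.le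
      _ ≤ (ε / (16 * ((k' : ℝ) + 1))) * (4 * ((k' : ℝ) + 1)) :=
          mul_le_mul_of_nonneg_right h4 (by positivity)
      _ = ε / 4 := by field_simp; norm_num
  rw [← hH] at h
  have hxle : x ≤ H + ε := by
    -- (1 - τ) x ≤ H + ε/4, (1+2τ)(1-τ) ≥ 1 as τ ≤ 1/2
    have h7 : (1 - τ) * x ≤ H + ε / 4 := by linarith
    have h8 : x ≤ (1 + 2 * τ) * ((1 - τ) * x) := by
      have : 0 ≤ τ * (1 - 2 * τ) * x :=
        mul_nonneg (mul_nonneg hτ.le (by linarith)) hx0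
      nlinarith
    have h9 : (1 + 2 * τ) * ((1 - τ) * x) ≤ (1 + 2 * τ) * (H + ε / 4) :=
      mul_le_mul_of_nonneg_left h7 (by linarith)
    have h10 : (1 + 2 * τ) * (H + ε / 4) ≤ H + ε := by
      have h11 : 2 * τ * (ε / 4) ≤ ε / 4 := by nlinarith
      nlinarith
    linarith
  have hgx : g = T * Real.exp (-x) := by
    rw [hx, Real.exp_neg, Real.exp_log (by positivity)]
    field_simp
  have h12 : Real.exp (-(H + ε)) ≤ Real.exp (-x) := Real.exp_le_exp.mpr (by linarith)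
  have h13 : Real.exp (-(H + ε)) = (1 / C2) ^ k' * Real.exp (-ε) := by
    rw [show -(H + ε) = -H + -ε by ring, Real.exp_add]
    congr 1
    rw [hH, one_div, inv_pow, ← Real.rpow_natCast C2 k', ← Real.rpow_neg hC0.le,
      Real.rpow_def_of_pos hC0]
    congr 1
    ring
  have h14 : 1 - ε ≤ Real.exp (-ε) := by
    have := Real.add_one_le_exp (-ε)
    linarith
  have h15 : (1 / C2) ^ k' ≤ 1 := pow_le_one₀ (by positivity) (by rw [div_le_one hC0]; exact hC1)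
  have h16 : 0 < (1 / C2) ^ k' := by positivity
  have h17 : (1 / C2) ^ k' - ε ≤ (1 / C2) ^ k' * Real.exp (-ε) := by nlinarith
  calc ((1 / C2) ^ k' - ε) * T ≤ ((1 / C2) ^ k' * Real.exp (-ε)) * T :=
        mul_le_mul_of_nonneg_right h17 hT.le
    _ ≤ Real.exp (-x) * T := by
        apply mul_le_mul_of_nonneg_right _ hT.le
        rw [← h13]; exact h12
    _ = g := by rw [hgx]; ring

theorem entM (k : ℕ) (hk : 1 ≤ k) (ε : ℝ) (hε : 0 < ε) : ∃ τ : ℝ, 0 < τ ∧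
    ∀ (ι : Type) (I : Finset ι) (N : ℕ) (w : ι → ℝ) (X : ι → Fin N → ℝ) (a C2 : ℝ)
      (Bad : Finset (Fin k → Fin N)), 1 ≤ N → 0 < a → 1 ≤ C2 → C2 ≤ 5 → (∀ n ∈ I, 0 ≤ w n) →
      (∀ n ∈ I, ∀ j, 0 ≤ X n j) → (∀ j, ∑ n ∈ I, w n * X n j = a) →
      (∑ n ∈ I, w n) * ∑ n ∈ I, w n * ∑ j, X n j ^ 2 ≤ C2 * (N * a ^ 2) →
      ∑ v ∈ Bad, ∑ n ∈ I, w n * (∑ j, X n j) * ∏ i, (X n (v i) / ∑ j, X n j) ≤ τ * (N * a) →
      ((1 / C2) ^ (k - 1) - ε) * (N : ℝ) ^ k ≤ (N : ℝ) ^ k - Bad.card := by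
  classical
  obtain ⟨k', rfl⟩ : ∃ k', k = k' + 1 := ⟨k - 1, by omega⟩
  refine ⟨min (1 / 2) (min (ε ^ 2 / 64) (ε / (16 * ((k' : ℝ) + 1)))), by positivity, ?_⟩
  obtain ⟨τ, hτd⟩ : ∃ τ : ℝ, τ = min (1 / 2) (min (ε ^ 2 / 64) (ε / (16 * ((k' : ℝ) + 1)))) :=
    ⟨_, rfl⟩
  rw [← hτd]
  have hτ : 0 < τ := by rw [hτd]; positivity
  have hτ2 : τ ≤ 1 / 2 := by rw [hτd]; exact min_le_left _ _
  have hτ3 : τ ≤ ε ^ 2 / 64 := by
    rw [hτd]; exact (min_le_right _ _).trans (min_le_left _ _)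
  have hτ4 : τ ≤ ε / (16 * ((k' : ℝ) + 1)) := by
    rw [hτd]; exact (min_le_right _ _).trans (min_le_right _ _)
  intro ι I N w X a C2 Bad hN ha hC1 hC5 hw hX hXa hW hBad
  have hN0 : (0 : ℝ) < N := by exact_mod_cast hN
  have hNa : 0 < (N : ℝ) * a := by positivity
  obtain ⟨J, hJd⟩ : ∃ J : Finset ι, J = I.filter (fun n => 0 < ∑ j, X n j) := ⟨_, rfl⟩
  have hJI : J ⊆ I := by rw [hJd]; exact filter_subset _ _
  have hJS : ∀ n ∈ J, 0 < ∑ j, X n j := by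
    intro n hn
    rw [hJd] at hn
    exact (mem_filter.mp hn).2
  have hzero : ∀ n ∈ I, n ∉ J → ∀ j, X n j = 0 := by
    intro n hn hnJ j
    have h1 : ¬ (0 < ∑ j, X n j) := by
      intro h
      apply hnJ
      rw [hJd]
      exact mem_filter.mpr ⟨hn, h⟩
    have h2 : ∑ j, X n j = 0 := le_antisymm (not_lt.mp h1) (sum_nonneg fun j _ => hX n hn j)
    exact (sum_eq_zero_iff_of_nonneg (fun j _ => hX n hn j)).mp h2 j (mem_univ _)
  have hXJ : ∀ j, ∑ n ∈ J, w n * X n j = a := by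
    intro j
    rw [← hXa j]
    apply sum_subset hJI
    intro n hn hnJ
    rw [hzero n hn hnJ j, mul_zero]
  have hWJ : (∑ n ∈ I, w n) * ∑ n ∈ J, w n * ∑ j, X n j ^ 2 ≤ C2 * (N * a ^ 2) := by
    refine le_trans (le_of_eq ?_) hW
    congr 1
    apply sum_subset hJI
    intro n hn hnJ
    have : ∑ j, X n j ^ 2 = 0 := sum_eq_zero fun j _ => by rw [hzero n hn hnJ j]; ring
    rw [this, mul_zero]
  have hWpos : 0 < ∑ n ∈ I, w n := by
    rcases (sum_nonneg hw).lt_or_eq with h | h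
    · exact h
    · exfalso
      have h1 := (sum_eq_zero_iff_of_nonneg hw).mp h.symm
      have h2 := hXa ⟨0, by omega⟩
      rw [sum_eq_zero (fun n hn => by rw [h1 n hn, zero_mul])] at h2
      linarith
  have hwJ : ∀ n ∈ J, 0 ≤ w n := fun n hn => hw n (hJI hn)
  have hXJ0 : ∀ n ∈ J, ∀ j, 0 ≤ X n j := fun n hn => hX n (hJI hn)
  obtain ⟨q, hq⟩ : ∃ q : ι → ℝ, q = fun n => w n * (∑ j, X n j) / (N * a) := ⟨_, rfl⟩
  obtain ⟨p, hp⟩ : ∃ p : ι → Fin N → ℝ, p = fun n j => X n j / ∑ j, X n j := ⟨_, rfl⟩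
  have hq0 : ∀ n ∈ J, 0 ≤ q n := by
    intro n hn
    rw [hq]
    have := hJS n hn
    have := hwJ n hn
    positivity
  have hp0 : ∀ n ∈ J, ∀ j, 0 ≤ p n j := by
    intro n hn j
    rw [hp]
    exact div_nonneg (hXJ0 n hn j) (hJS n hn).le
  have hp1 : ∀ n ∈ J, ∑ j, p n j = 1 := by
    intro n hn
    rw [hp]
    simp only
    rw [← sum_div]
    exact div_self (hJS n hn).ne'
  have hu : ∀ j, ∑ n ∈ J, q n * p n j = 1 / N := by
    intro j
    have h1 : ∑ n ∈ J, q n * p n j = ∑ n ∈ J, (w n * X n j) / (N * a) := by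
      apply sum_congr rfl
      intro n hn
      rw [hq, hp]
      simp only
      have := (hJS n hn).ne'
      field_simp
    rw [h1, ← sum_div, hXJ j]
    field_simp
  have hA := entA k' N hN J q p hq0 hp0 hp1 hu
  have hB := entB N hN J w X a (∑ n ∈ I, w n) C2 ha hWpos (by linarith) hwJ hXJ0 hJS
    (sum_le_sum_of_subset_of_nonneg hJI (fun n hn _ => hw n hn)) hXJ hWJ
  have hB' : ∑ n ∈ J, q n * ∑ j, p n j * Real.log (N * p n j) ≤ Real.log C2 := by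
    rw [hq, hp]
    exact hB
  have hM := mix_sum (k' + 1) N J q p hN hp1 hu
  have hcard : (Fintype.card (Fin (k' + 1) → Fin N) : ℝ) = (N : ℝ) ^ (k' + 1) := by
    rw [Fintype.card_fun, Fintype.card_fin, Fintype.card_fin]
    push_cast
    ring
  have hmix0 : ∀ v : Fin (k' + 1) → Fin N, 0 ≤ mix J q p v := by
    intro v
    unfold mix
    exact sum_nonneg fun n hn => mul_nonneg (hq0 n hn) (prod_nonneg fun i _ => hp0 n hn _)
  have hBadτ : ∑ v ∈ Bad, mix J q p v ≤ τ := by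
    have h1 : ∀ v ∈ Bad, mix J q p v =
        (∑ n ∈ I, w n * (∑ j, X n j) * ∏ i, (X n (v i) / ∑ j, X n j)) / (N * a) := by
      intro v _
      unfold mix
      rw [sum_div]
      have h2 : ∑ n ∈ J, q n * ∏ i, p n (v i) =
          ∑ n ∈ J, w n * (∑ j, X n j) * (∏ i, (X n (v i) / ∑ j, X n j)) / (N * a) := by
        apply sum_congr rfl
        intro n _
        rw [hq, hp]
        simp only
        ring
      rw [h2]
      apply sum_subset hJI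
      intro n hn hnJ
      have : ∑ j, X n j = 0 := sum_eq_zero fun j _ => hzero n hn hnJ j
      rw [this]
      simp
    rw [sum_congr rfl h1, ← sum_div, div_le_iff₀ hNa]
    exact hBad
  have hC := entC (mix J q p) hmix0 hM Bad τ (k' * Real.log C2) (8 / ε) hBadτ (by linarith)
    (by positivity) (by
      rw [hcard]
      refine hA.trans ?_
      exact mul_le_mul_of_nonneg_left hB' (Nat.cast_nonneg _))
  rw [hcard] at hC
  have hlt : (Bad.card : ℝ) < (N : ℝ) ^ (k' + 1) := by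
    rw [← hcard]
    exact_mod_cast hC.1
  have hk' : k' + 1 - 1 = k' := by omega
  rw [hk']
  exact entM_num k' ε τ C2 ((N : ℝ) ^ (k' + 1)) ((N : ℝ) ^ (k' + 1) - Bad.card) hε hτ hτ2 hτ3 hτ4
    hC1 hC5 (by linarith) (by
      have : (0 : ℝ) ≤ Bad.card := Nat.cast_nonneg _
      linarith) hC.2

end Pool.Agent.Lib.MP_092512_nt.FP
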