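import Pool.Agent.Lib.MP_092512_nt.FP.NT
import Pool.Agent.Lib.MP_092512_nt.FP.EntM

/-!
# F_P, Bins: `N` bins, at least `(4^(1-k) - ε) N^k` tuples of bins are hit simultaneously

PROOF.  `τ` from `entM k (ε/4)`.  `N ≥ 4k²/ε`; `η` so small that with `C2 = (4+η)/(1-η)^2 + 2Nη` we have `C2 ≤ 5` and `(1/C2)^(k-1) ≥ (1/4)^(k-1) - ε/4`; `M₀` from `nt_main η`, `M = M₀ + 1`.  Let `h : Fin (N*M) → ℕ` enumerate
the union of the `U j` (`N M ≥ M₀` elements; disjoint sets of `M` elements), `w`, `μ` from `nt_main` with `N*M`, `W = ∑ w`.  `P1(a) = ∑_{x + a prime} w x ≥ (1-η) μ W > 0`, `c_a = (1-η) μ W/P1(a) ∈ (0,1]`,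
`X x j = ∑_{a ∈ U j} c_a [x + a prime]`: `∑_x w x X x j = M (1-η) μ W =: a₀` for all `j`, and
`∑_x w x (X x j)^2 ≤ ∑_{a≠b ∈ U j} (4+η) μ^2 W + ∑_a c_a^2 P1(a) ≤ (4+η) M^2 μ^2 W + a₀`, so `W ∑_x w ∑_j X^2 ≤ N ((4+η)/(1-η)^2 a₀^2 + W a₀) ≤ C2 N a₀^2`
as `W/a₀ = 1/(M (1-η) μ) ≤ N η/(1-η) ≤ 2 N η` (`N M μ ≥ 1/η`).
`Bad`: the injective `v` such that `cnt X (univ.image y) < X/(log X)^C` for all `y` with `y i ∈ U (v i)`.  For `v ∈ Bad` and `x` with `∏_i X x (v i) ≠ 0` there is `y`, `y i ∈ U (v i)`, with all `x + y i` prime, so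
`∑_x w x S x ∏ (X x (v i)/S x) ≤ N M ∑_y ∑_{x : all x + y i prime} w x ≤ N M · M^k · W/log X` (`S x ≤ N M`, the quotients are `≤ 1`; last clause of `nt_main`), and
`N^k N M M^k W/log X ≤ τ N a₀` for large `X` (`a₀ ≥ W/(2η N)`).  `entM`: `N^k - |Bad| ≥ ((1/C2)^(k-1) - ε/4) N^k`.  The non-injective `v` are at most `k² N^(k-1) ≤ (ε/4) N^k`; the injective `v ∉ Bad` are those counted.
-/

set_option autoImplicit false

open Finset

namespace Pool.Agent.Lib.MP_092512_nt.FP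

private theorem Bins_eta (k N : ℕ) (ε : ℝ) (hε : 0 < ε) : ∃ η : ℝ, 0 < η ∧ η ≤ 1 / 8 ∧
    1 ≤ (4 + η) / (1 - η) ^ 2 + 2 * N * η ∧ (4 + η) / (1 - η) ^ 2 + 2 * N * η ≤ 5 ∧
    (1 / 4 : ℝ) ^ (k - 1) - ε / 4 ≤ (1 / ((4 + η) / (1 - η) ^ 2 + 2 * N * η)) ^ (k - 1) := by
  obtain ⟨F, hF⟩ : ∃ F : ℝ → ℝ, F = fun η : ℝ => (4 + η) / (1 - η) ^ 2 + 2 * N * η := ⟨_, rfl⟩
  have hF0 : F 0 = 4 := by
    rw [hF]
    norm_num
  have hc : ContinuousAt F 0 := by
    rw [hF]
    refine ContinuousAt.add (ContinuousAt.div ?_ ?_ ?_) ?_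
    · exact continuousAt_const.add continuousAt_id
    · exact (continuousAt_const.sub continuousAt_id).pow 2
    · norm_num
    · exact continuousAt_const.mul continuousAt_id
  have hc2 : ContinuousAt (fun η => (1 / F η) ^ (k - 1)) 0 :=
    (continuousAt_const.div hc (by rw [hF0]; norm_num)).pow _
  have h1 : ∀ᶠ η in nhds (0 : ℝ), F η < 5 :=
    hc.eventually_lt continuousAt_const (by rw [hF0]; norm_num)
  have h2 : ∀ᶠ η in nhds (0 : ℝ), 1 < F η :=
    (continuousAt_const (y := (1 : ℝ))).eventually_lt hc (by rw [hF0]; norm_num)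
  have h3 : ∀ᶠ η in nhds (0 : ℝ), (1 / 4 : ℝ) ^ (k - 1) - ε / 4 < (1 / F η) ^ (k - 1) :=
    (continuousAt_const (y := (1 / 4 : ℝ) ^ (k - 1) - ε / 4)).eventually_lt hc2 (by
      rw [hF0]
      linarith)
  obtain ⟨δ, hδ, h4⟩ := Metric.eventually_nhds_iff.1 (h1.and (h2.and h3))
  have h5 : min (δ / 2) (1 / 8) ≤ δ / 2 := min_le_left _ _
  have h6 : 0 < min (δ / 2) (1 / 8 : ℝ) := lt_min (by linarith) (by norm_num)
  obtain ⟨h7, h8, h9⟩ := h4 (y := min (δ / 2) (1 / 8)) (by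
    rw [Real.dist_eq, sub_zero, abs_of_pos h6]
    linarith)
  rw [hF] at h7 h8 h9
  exact ⟨min (δ / 2) (1 / 8), h6, min_le_right _ _, h8.le, h7.le, h9.le⟩

open Classical in
private theorem Bins_inj (k N : ℕ) :
    (univ.filter (fun v : Fin k → Fin N => ¬ Function.Injective v)).card ≤
      k ^ 2 * N ^ (k - 1) := by
  have hone : ∀ p : Fin k × Fin k, p.1 ≠ p.2 →
      (univ.filter (fun v : Fin k → Fin N => v p.1 = v p.2)).card ≤ N ^ (k - 1) := by
    rintro ⟨i, j⟩ hij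
    have hcard : Fintype.card ({x : Fin k // ¬ x = i} → Fin N) = N ^ (k - 1) := by
      rw [Fintype.card_fun, Fintype.card_fin, Fintype.card_subtype_compl,
        Fintype.card_subtype_eq, Fintype.card_fin]
    rw [← hcard, ← card_univ]
    refine card_le_card_of_injOn (fun v x => v x.1) (fun _ _ => mem_coe.2 (mem_univ _)) ?_
    intro v hv v' hv' he
    rw [mem_coe, mem_filter] at hv hv'
    have h1 : ∀ x, x ≠ i → v x = v' x := fun x hx => congrFun he ⟨x, hx⟩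
    funext x
    by_cases hx : x = i
    · rw [hx]
      have h2 : v i = v j := hv.2
      have h3 : v' i = v' j := hv'.2
      rw [h2, h3]
      exact h1 j (Ne.symm hij)
    · exact h1 x hx
  have hsub : univ.filter (fun v : Fin k → Fin N => ¬ Function.Injective v) ⊆
      (univ.filter (fun p : Fin k × Fin k => p.1 ≠ p.2)).biUnion
        (fun p => univ.filter (fun v : Fin k → Fin N => v p.1 = v p.2)) := by
    intro v hv
    rw [mem_filter] at hv
    have h1 := hv.2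
    unfold Function.Injective at h1
    push Not at h1
    obtain ⟨i, j, h2, h3⟩ := h1
    rw [mem_biUnion]
    exact ⟨(i, j), mem_filter.2 ⟨mem_univ _, h3⟩, mem_filter.2 ⟨mem_univ _, h2⟩⟩
  calc (univ.filter (fun v : Fin k → Fin N => ¬ Function.Injective v)).card ≤
        ((univ.filter (fun p : Fin k × Fin k => p.1 ≠ p.2)).biUnion
        (fun p => univ.filter (fun v : Fin k → Fin N => v p.1 = v p.2))).card := card_le_card hsub
    _ ≤ (univ.filter (fun p : Fin k × Fin k => p.1 ≠ p.2)).card * N ^ (k - 1) :=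
        card_biUnion_le_card_mul _ _ _ fun p hp => hone p (mem_filter.1 hp).2
    _ ≤ k ^ 2 * N ^ (k - 1) := by
        refine Nat.mul_le_mul_right _ ((card_le_univ _).trans ?_)
        rw [Fintype.card_prod, Fintype.card_fin, pow_two]

open Classical in
private theorem Bins_mom (I : Finset ℕ) (w : ℕ → ℝ) (hw : ∀ x, 0 ≤ w x) (V : Finset ℕ)
    (pp : ℕ → ℕ → Prop) (c : ℕ → ℝ) (b β : ℝ) (hc0 : ∀ a ∈ V, 0 ≤ c a) (hc1 : ∀ a ∈ V, c a ≤ 1)
    (h1 : ∀ a ∈ V, c a * ∑ x ∈ I.filter (fun x => pp x a), w x = b) (hβ : 0 ≤ β)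
    (h2 : ∀ a ∈ V, ∀ a' ∈ V, a ≠ a' →
      ∑ x ∈ I.filter (fun x => pp x a ∧ pp x a'), w x ≤ β) :
    ∑ x ∈ I, w x * (∑ a ∈ V, if pp x a then c a else 0) = V.card * b ∧
    ∑ x ∈ I, w x * (∑ a ∈ V, if pp x a then c a else 0) ^ 2 ≤
      (V.card : ℝ) ^ 2 * β + V.card * b := by
  have hs : ∀ a, ∑ x ∈ I, w x * (if pp x a then c a else 0) =
      c a * ∑ x ∈ I.filter (fun x => pp x a), w x := by
    intro a
    rw [sum_filter, mul_sum]
    refine sum_congr rfl fun x _ => ?_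
    split_ifs
    · ring
    · ring
  constructor
  · calc ∑ x ∈ I, w x * (∑ a ∈ V, if pp x a then c a else 0) =
          ∑ x ∈ I, ∑ a ∈ V, w x * (if pp x a then c a else 0) :=
          sum_congr rfl fun x _ => mul_sum _ _ _
      _ = ∑ a ∈ V, ∑ x ∈ I, w x * (if pp x a then c a else 0) := sum_comm
      _ = ∑ a ∈ V, b := sum_congr rfl fun a ha => by rw [hs a, h1 a ha]
      _ = V.card * b := by rw [sum_const, nsmul_eq_mul]
  · have hpair : ∀ a ∈ V, ∀ a' ∈ V, ∑ x ∈ I, w x * ((if pp x a then c a else 0) *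
        (if pp x a' then c a' else 0)) ≤ β + if a = a' then b else 0 := by
      intro a ha a' ha'
      by_cases haa : a = a'
      · subst haa
        rw [if_pos rfl, ← h1 a ha, ← hs a]
        refine le_trans (sum_le_sum fun x _ => ?_) (le_add_of_nonneg_left hβ)
        refine mul_le_mul_of_nonneg_left ?_ (hw x)
        split_ifs
        · exact mul_le_of_le_one_left (hc0 a ha) (hc1 a ha)
        · rw [mul_zero]
      · rw [if_neg haa, add_zero]
        refine le_trans ?_ (h2 a ha a' ha' haa)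
        rw [sum_filter]
        refine sum_le_sum fun x _ => ?_
        by_cases p1 : pp x a
        · by_cases p2 : pp x a'
          · rw [if_pos p1, if_pos p2, if_pos ⟨p1, p2⟩]
            have h3 : c a * c a' ≤ 1 := mul_le_one₀ (hc1 a ha) (hc0 a' ha') (hc1 a' ha')
            exact mul_le_of_le_one_right (hw x) h3
          · rw [if_neg p2, mul_zero, mul_zero, if_neg fun h => p2 h.2]
        · rw [if_neg p1, zero_mul, mul_zero, if_neg fun h => p1 h.1]
    calc ∑ x ∈ I, w x * (∑ a ∈ V, if pp x a then c a else 0) ^ 2 =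
          ∑ x ∈ I, ∑ a ∈ V, ∑ a' ∈ V, w x * ((if pp x a then c a else 0) *
            (if pp x a' then c a' else 0)) := by
          refine sum_congr rfl fun x _ => ?_
          rw [pow_two, sum_mul_sum, mul_sum]
          exact sum_congr rfl fun a _ => mul_sum _ _ _
      _ = ∑ a ∈ V, ∑ a' ∈ V, ∑ x ∈ I, w x * ((if pp x a then c a else 0) *
            (if pp x a' then c a' else 0)) := by
          rw [sum_comm]
          exact sum_congr rfl fun a _ => sum_comm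
      _ ≤ ∑ a ∈ V, ∑ a' ∈ V, (β + if a = a' then b else 0) :=
          sum_le_sum fun a ha => sum_le_sum fun a' ha' => hpair a ha a' ha'
      _ = ∑ a ∈ V, (V.card * β + b) := by
          refine sum_congr rfl fun a ha => ?_
          rw [sum_add_distrib, sum_const, nsmul_eq_mul, sum_ite_eq, if_pos ha]
      _ = (V.card : ℝ) ^ 2 * β + V.card * b := by
          rw [sum_const, nsmul_eq_mul]
          ring

open Classical in
private theorem Bins_bad {k N M : ℕ} (I : Finset ℕ) (w : ℕ → ℝ) (hw : ∀ x, 0 ≤ w x)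
    (U : Fin N → Finset ℕ) (hU : ∀ j, (U j).card = M) (pp : ℕ → ℕ → Prop) (c : ℕ → ℝ)
    (hc0 : ∀ j, ∀ a ∈ U j, 0 ≤ c a) (hc1 : ∀ j, ∀ a ∈ U j, c a ≤ 1) (κ : ℝ) (hκ : 0 ≤ κ)
    (Bad : Finset (Fin k → Fin N))
    (hbad : ∀ v ∈ Bad, ∀ y : Fin k → ℕ, (∀ i, y i ∈ U (v i)) →
      ∑ x ∈ I.filter (fun x => ∀ i, pp x (y i)), w x ≤ κ) (Xf : ℕ → Fin N → ℝ)
    (hXf : ∀ x j, Xf x j = ∑ a ∈ U j, if pp x a then c a else 0) :
    ∑ v ∈ Bad, ∑ x ∈ I, w x * (∑ j, Xf x j) * ∏ i, (Xf x (v i) / ∑ j, Xf x j) ≤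
      (N : ℝ) ^ k * (N * M * ((M : ℝ) ^ k * κ)) := by
  have hX0 : ∀ x j, 0 ≤ Xf x j := by
    intro x j
    rw [hXf]
    refine sum_nonneg fun a ha => ?_
    split_ifs
    · exact hc0 j a ha
    · exact le_rfl
  have hX1 : ∀ x j, Xf x j ≤ M := by
    intro x j
    rw [hXf]
    calc ∑ a ∈ U j, (if pp x a then c a else 0) ≤ ∑ a ∈ U j, (1 : ℝ) := by
          refine sum_le_sum fun a ha => ?_
          split_ifs
          · exact hc1 j a ha
          · exact zero_le_one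
      _ = M := by rw [sum_const, hU j, nsmul_eq_mul, mul_one]
  have hS0 : ∀ x, 0 ≤ ∑ j, Xf x j := fun x => sum_nonneg fun j _ => hX0 x j
  have hS1 : ∀ x, ∑ j, Xf x j ≤ N * M := by
    intro x
    calc ∑ j, Xf x j ≤ ∑ _j : Fin N, (M : ℝ) := sum_le_sum fun j _ => hX1 x j
      _ = N * M := by rw [sum_const, card_univ, Fintype.card_fin, nsmul_eq_mul]
  have hNM : (0 : ℝ) ≤ N * M := by positivity
  have hone : ∀ v ∈ Bad, ∑ x ∈ I, w x * (∑ j, Xf x j) * ∏ i, (Xf x (v i) / ∑ j, Xf x j) ≤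
      N * M * ((M : ℝ) ^ k * κ) := by
    intro v hv
    have hpt : ∀ x ∈ I, w x * (∑ j, Xf x j) * ∏ i, (Xf x (v i) / ∑ j, Xf x j) ≤
        N * M * ∑ y ∈ Fintype.piFinset (fun i => U (v i)),
          if ∀ i, pp x (y i) then w x else 0 := by
      intro x _
      have hR : 0 ≤ ∑ y ∈ Fintype.piFinset (fun i => U (v i)),
          if ∀ i, pp x (y i) then w x else 0 := by
        refine sum_nonneg fun y _ => ?_
        split_ifs
        · exact hw x
        · exact le_rfl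
      by_cases hz : ∃ i, Xf x (v i) = 0
      · obtain ⟨i, hi⟩ := hz
        have h3 : ∏ i, (Xf x (v i) / ∑ j, Xf x j) = 0 :=
          prod_eq_zero (mem_univ i) (by rw [hi, zero_div])
        rw [h3, mul_zero]
        exact mul_nonneg hNM hR
      · push Not at hz
        have hex : ∀ i, ∃ a ∈ U (v i), pp x a := by
          intro i
          have h3 := hz i
          rw [hXf] at h3
          obtain ⟨a, ha, h4⟩ := exists_ne_zero_of_sum_ne_zero h3
          refine ⟨a, ha, ?_⟩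
          by_contra h5
          exact h4 (if_neg h5)
        choose y hy1 hy2 using hex
        have h3 : w x ≤ ∑ y ∈ Fintype.piFinset (fun i => U (v i)),
            if ∀ i, pp x (y i) then w x else 0 := by
          have h4 := single_le_sum (f := fun y : Fin k → ℕ => if ∀ i, pp x (y i) then w x else 0)
            (s := Fintype.piFinset (fun i => U (v i))) (fun y _ => by
              show (0 : ℝ) ≤ if ∀ i, pp x (y i) then w x else 0
              split_ifs
              · exact hw x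
              · exact le_rfl) (Fintype.mem_piFinset.2 hy1)
          simp only [if_pos hy2] at h4
          exact h4
        have h5 : ∏ i, (Xf x (v i) / ∑ j, Xf x j) ≤ 1 := by
          refine prod_le_one (fun i _ => div_nonneg (hX0 x _) (hS0 x)) fun i _ => ?_
          exact div_le_one_of_le₀ (single_le_sum (fun j _ => hX0 x j) (mem_univ (v i))) (hS0 x)
        calc w x * (∑ j, Xf x j) * ∏ i, (Xf x (v i) / ∑ j, Xf x j) ≤
              w x * (∑ j, Xf x j) :=
              mul_le_of_le_one_right (mul_nonneg (hw x) (hS0 x)) h5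
          _ ≤ w x * (N * M) := mul_le_mul_of_nonneg_left (hS1 x) (hw x)
          _ = N * M * w x := mul_comm _ _
          _ ≤ _ := mul_le_mul_of_nonneg_left h3 hNM
    calc ∑ x ∈ I, w x * (∑ j, Xf x j) * ∏ i, (Xf x (v i) / ∑ j, Xf x j) ≤
          ∑ x ∈ I, N * M * ∑ y ∈ Fintype.piFinset (fun i => U (v i)),
            (if ∀ i, pp x (y i) then w x else 0) := sum_le_sum hpt
      _ = N * M * ∑ y ∈ Fintype.piFinset (fun i => U (v i)),
            ∑ x ∈ I, (if ∀ i, pp x (y i) then w x else 0) := by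
          rw [← mul_sum, sum_comm]
      _ ≤ N * M * ∑ _y ∈ Fintype.piFinset (fun i => U (v i)), κ := by
          refine mul_le_mul_of_nonneg_left (sum_le_sum fun y hy => ?_) hNM
          rw [← sum_filter]
          exact hbad v hv y (Fintype.mem_piFinset.1 hy)
      _ = N * M * ((M : ℝ) ^ k * κ) := by
          rw [sum_const, nsmul_eq_mul, Fintype.card_piFinset]
          congr 2
          rw [Nat.cast_prod]
          rw [prod_congr rfl (fun i _ => by rw [hU (v i)]), prod_const, card_univ,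
            Fintype.card_fin]
  calc ∑ v ∈ Bad, ∑ x ∈ I, w x * (∑ j, Xf x j) * ∏ i, (Xf x (v i) / ∑ j, Xf x j) ≤
        Bad.card • (N * M * ((M : ℝ) ^ k * κ)) := sum_le_card_nsmul _ _ _ hone
    _ = (Bad.card : ℝ) * (N * M * ((M : ℝ) ^ k * κ)) := nsmul_eq_mul _ _
    _ ≤ (N : ℝ) ^ k * (N * M * ((M : ℝ) ^ k * κ)) := by
        refine mul_le_mul_of_nonneg_right ?_ (by positivity)
        have h3 := card_le_univ Bad
        rw [Fintype.card_fun, Fintype.card_fin, Fintype.card_fin] at h3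
        exact_mod_cast h3

open Classical in
theorem bins (k : ℕ) (hk : 1 ≤ k) (ε : ℝ) (hε : 0 < ε) : ∃ N M : ℕ, 1 ≤ N ∧ 1 ≤ M ∧
    ∀ B : ℕ, ∃ C X₀ : ℕ, ∀ X : ℕ, X₀ ≤ X → ∀ U : Fin N → Finset ℕ, (∀ j, (U j).card = M) →
    (∀ i j, i ≠ j → Disjoint (U i) (U j)) → (∀ j, ∀ a ∈ U j, (a : ℝ) ≤ (Real.log X) ^ B) →
    (∀ p : ℕ, p.Prime → ∃ r : ℕ, ∀ j, ∀ a ∈ U j, ¬ a ≡ r [MOD p]) →
    ((1 / 4 : ℝ) ^ (k - 1) - ε) * (N : ℝ) ^ k ≤
      ((univ.filter (fun v : Fin k → Fin N => Function.Injective v ∧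
        ∃ y : Fin k → ℕ, (∀ i, y i ∈ U (v i)) ∧
          (X : ℝ) / (Real.log X) ^ C ≤ cnt X (univ.image y))).card : ℝ) := by
  obtain ⟨τ, hτ, hent⟩ := entM k hk (ε / 4) (by linarith)
  obtain ⟨N, hN1, hN2⟩ : ∃ N : ℕ, 1 ≤ N ∧ (k : ℝ) ^ 2 ≤ ε / 4 * N := by
    obtain ⟨m, hm⟩ := exists_nat_ge ((k : ℝ) ^ 2 / (ε / 4))
    refine ⟨m + 1, by omega, ?_⟩
    rw [div_le_iff₀ (by linarith)] at hm
    push_cast
    nlinarith
  obtain ⟨η, hη0, hη1, hC1, hC5, hCk⟩ := Bins_eta k N ε hε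
  obtain ⟨M₀, hM₀⟩ := nt_main η hη0 hη1
  refine ⟨N, M₀ + 1, hN1, by omega, fun B => ?_⟩
  obtain ⟨M, hM⟩ : ∃ M, M = M₀ + 1 := ⟨_, rfl⟩
  rw [← hM]
  have hM1 : 1 ≤ M := by omega
  obtain ⟨C, X₁, hX₁⟩ := hM₀ (N * M) (by nlinarith) B
  obtain ⟨X₂, hX₂⟩ := exists_nat_ge (Real.exp (2 * ((N : ℝ) ^ k * (N * M * (M : ℝ) ^ k)) / τ + 1))
  refine ⟨C, max X₁ X₂, fun X hX U hU hdis hUB hadm => ?_⟩
  have hXX₂ : (X₂ : ℝ) ≤ X := by exact_mod_cast (le_max_right X₁ X₂).trans hX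
  have hlog : 2 * ((N : ℝ) ^ k * (N * M * (M : ℝ) ^ k)) / τ + 1 ≤ Real.log X := by
    rw [← Real.log_exp (2 * ((N : ℝ) ^ k * (N * M * (M : ℝ) ^ k)) / τ + 1)]
    exact Real.log_le_log (Real.exp_pos _) (hX₂.trans hXX₂)
  have hlog0 : 0 < Real.log X := by
    have h3 : 0 ≤ 2 * ((N : ℝ) ^ k * (N * M * (M : ℝ) ^ k)) / τ := by positivity
    linarith
  -- the union
  obtain ⟨A, hA⟩ : ∃ A : Finset ℕ, A = univ.biUnion U := ⟨_, rfl⟩
  have hAcard : A.card = N * M := by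
    rw [hA, card_biUnion fun i _ j _ hij => hdis i j hij, sum_congr rfl fun j _ => hU j,
      sum_const, card_univ, Fintype.card_fin, smul_eq_mul]
  have hUA : ∀ j, ∀ a ∈ U j, a ∈ A := fun j a ha => by
    rw [hA]
    exact mem_biUnion.2 ⟨j, mem_univ _, ha⟩
  have hAU : ∀ a ∈ A, ∃ j, a ∈ U j := fun a ha => by
    rw [hA] at ha
    obtain ⟨j, _, h3⟩ := mem_biUnion.1 ha
    exact ⟨j, h3⟩
  have hh : ∀ a ∈ A, ∃ i, A.orderEmbOfFin hAcard i = a := by
    intro a ha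
    have h3 := A.range_orderEmbOfFin hAcard
    have h4 : a ∈ Set.range (A.orderEmbOfFin hAcard) := by
      rw [h3]
      exact ha
    exact h4
  obtain ⟨w, μ, hw, hW, hμ, hone, htwo, hsmall⟩ := hX₁ X ((le_max_left X₁ X₂).trans hX)
    (A.orderEmbOfFin hAcard) (A.orderEmbOfFin hAcard).injective
    (fun i => by
      obtain ⟨j, hj⟩ := hAU _ (A.orderEmbOfFin_mem hAcard i)
      exact hUB j _ hj)
    (fun p hp => by
      obtain ⟨r, hr⟩ := hadm p hp
      refine ⟨r, fun i => ?_⟩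
      obtain ⟨j, hj⟩ := hAU _ (A.orderEmbOfFin_mem hAcard i)
      exact hr j _ hj)
  obtain ⟨pp, hpp⟩ : ∃ pp : ℕ → ℕ → Prop, ∀ x a, pp x a ↔ (x + a).Prime :=
    ⟨fun x a => (x + a).Prime, fun _ _ => Iff.rfl⟩
  obtain ⟨W, hWd⟩ : ∃ W, W = ∑ x ∈ Ioc X (2 * X), w x := ⟨_, rfl⟩
  rw [← hWd] at hW hone htwo hsmall
  have hNpos : (0 : ℝ) < N := by exact_mod_cast hN1
  have hMpos : (0 : ℝ) < M := by exact_mod_cast hM1
  have hμ0 : 0 < μ := by
    by_contra hcon
    push Not at hcon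
    have h3 : (0 : ℝ) < 1 / η := by positivity
    have h4 : ((N * M : ℕ) : ℝ) * μ ≤ 0 := mul_nonpos_of_nonneg_of_nonpos (Nat.cast_nonneg _) hcon
    linarith
  obtain ⟨b, hb⟩ : ∃ b, b = (1 - η) * μ * W := ⟨_, rfl⟩
  have hb0 : 0 < b := by
    rw [hb]
    have : 0 < 1 - η := by linarith
    positivity
  obtain ⟨P1, hP1⟩ : ∃ P1 : ℕ → ℝ, P1 = fun a =>
    ∑ x ∈ (Ioc X (2 * X)).filter (fun x => pp x a), w x := ⟨_, rfl⟩
  have hP1b : ∀ a ∈ A, b ≤ P1 a := by
    intro a ha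
    obtain ⟨i, rfl⟩ := hh a ha
    have h3 := hone i
    rw [hb, hP1]
    refine h3.trans (le_of_eq ?_)
    show _ = ∑ x ∈ (Ioc X (2 * X)).filter (fun x => pp x (A.orderEmbOfFin hAcard i)), w x
    rw [sum_filter, sum_filter]
    refine sum_congr rfl fun x _ => ?_
    by_cases h4 : (x + A.orderEmbOfFin hAcard i).Prime
    · rw [if_pos h4, if_pos ((hpp _ _).2 h4)]
    · rw [if_neg h4, if_neg fun h5 => h4 ((hpp _ _).1 h5)]
  obtain ⟨c, hc⟩ : ∃ c : ℕ → ℝ, c = fun a => b / P1 a := ⟨_, rfl⟩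
  have hc0 : ∀ a ∈ A, 0 ≤ c a := by
    intro a ha
    rw [hc]
    exact div_nonneg hb0.le (hb0.le.trans (hP1b a ha))
  have hc1 : ∀ a ∈ A, c a ≤ 1 := by
    intro a ha
    rw [hc]
    exact div_le_one_of_le₀ (hP1b a ha) (hb0.le.trans (hP1b a ha))
  have hcP : ∀ a ∈ A, c a * P1 a = b := by
    intro a ha
    rw [hc]
    exact div_mul_cancel₀ _ (hb0.trans_le (hP1b a ha)).ne'
  have hβ0 : 0 ≤ (4 + η) * μ ^ 2 * W := by positivity
  have htwo' : ∀ a ∈ A, ∀ a' ∈ A, a ≠ a' →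
      ∑ x ∈ (Ioc X (2 * X)).filter (fun x => pp x a ∧ pp x a'), w x ≤
        (4 + η) * μ ^ 2 * W := by
    intro a ha a' ha' hne
    obtain ⟨i, rfl⟩ := hh a ha
    obtain ⟨i', rfl⟩ := hh a' ha'
    have h3 := htwo i i' fun h3 => hne (by rw [h3])
    refine le_trans (le_of_eq ?_) h3
    rw [sum_filter, sum_filter]
    refine sum_congr rfl fun x _ => ?_
    by_cases h4 : (x + A.orderEmbOfFin hAcard i).Prime ∧ (x + A.orderEmbOfFin hAcard i').Prime
    · rw [if_pos h4, if_pos ⟨(hpp _ _).2 h4.1, (hpp _ _).2 h4.2⟩]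
    · rw [if_neg h4, if_neg fun h5 => h4 ⟨(hpp _ _).1 h5.1, (hpp _ _).1 h5.2⟩]
  have hmom := fun j : Fin N => Bins_mom (Ioc X (2 * X)) w hw (U j) pp c b
    ((4 + η) * μ ^ 2 * W) (fun a ha => hc0 a (hUA j a ha)) (fun a ha => hc1 a (hUA j a ha))
    (fun a ha => by
      have h3 := hcP a (hUA j a ha)
      simp only [hP1] at h3
      exact h3) hβ0
    (fun a ha a' ha' hne => htwo' a (hUA j a ha) a' (hUA j a' ha') hne)
  obtain ⟨Xf, hXf⟩ : ∃ Xf : ℕ → Fin N → ℝ, ∀ x j, Xf x j =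
    ∑ a ∈ U j, if pp x a then c a else 0 := ⟨fun x j => _, fun x j => rfl⟩
  obtain ⟨a₀, ha₀⟩ : ∃ a₀ : ℝ, a₀ = M * b := ⟨_, rfl⟩
  have ha₀pos : 0 < a₀ := by
    rw [ha₀]
    positivity
  have hm1 : ∀ j, ∑ x ∈ Ioc X (2 * X), w x * Xf x j = a₀ := by
    intro j
    have h3 := (hmom j).1
    rw [hU j] at h3
    rw [ha₀, ← h3]
    exact sum_congr rfl fun x _ => by rw [hXf]
  have hm2 : ∀ j, ∑ x ∈ Ioc X (2 * X), w x * Xf x j ^ 2 ≤
      (M : ℝ) ^ 2 * ((4 + η) * μ ^ 2 * W) + a₀ := by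
    intro j
    have h3 := (hmom j).2
    rw [hU j] at h3
    rw [ha₀]
    refine le_trans (le_of_eq ?_) h3
    exact sum_congr rfl fun x _ => by rw [hXf]
  have hη3 : 0 < 1 - η := by linarith
  have hμ2 : 1 ≤ η * (N * M * μ) := by
    rw [div_le_iff₀ hη0] at hμ
    push_cast at hμ
    linarith
  -- `W ≤ 2 N η a₀`
  have hWa : W ≤ 2 * N * η * a₀ := by
    rw [ha₀, hb]
    have h3 : (1 : ℝ) ≤ 2 * (1 - η) := by linarith
    calc W = 1 * 1 * W := by ring
      _ ≤ 2 * (1 - η) * (η * (N * M * μ)) * W := by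
          refine mul_le_mul_of_nonneg_right (mul_le_mul h3 hμ2 zero_le_one (by linarith)) hW.le
      _ = 2 * N * η * (M * ((1 - η) * μ * W)) := by ring
  have hsec : (∑ x ∈ Ioc X (2 * X), w x) * ∑ x ∈ Ioc X (2 * X), w x * ∑ j, Xf x j ^ 2 ≤
      ((4 + η) / (1 - η) ^ 2 + 2 * N * η) * (N * a₀ ^ 2) := by
    rw [← hWd]
    have h3 : ∑ x ∈ Ioc X (2 * X), w x * ∑ j, Xf x j ^ 2 ≤
        N * ((M : ℝ) ^ 2 * ((4 + η) * μ ^ 2 * W) + a₀) := by
      calc ∑ x ∈ Ioc X (2 * X), w x * ∑ j, Xf x j ^ 2 =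
            ∑ j, ∑ x ∈ Ioc X (2 * X), w x * Xf x j ^ 2 := by
            rw [sum_comm]
            exact sum_congr rfl fun x _ => mul_sum _ _ _
        _ ≤ ∑ _j : Fin N, ((M : ℝ) ^ 2 * ((4 + η) * μ ^ 2 * W) + a₀) :=
            sum_le_sum fun j _ => hm2 j
        _ = _ := by rw [sum_const, card_univ, Fintype.card_fin, nsmul_eq_mul]
    have h4 : (M : ℝ) ^ 2 * ((4 + η) * μ ^ 2 * W) * W = (4 + η) / (1 - η) ^ 2 * a₀ ^ 2 := by
      rw [ha₀, hb]
      field_simp
    calc W * ∑ x ∈ Ioc X (2 * X), w x * ∑ j, Xf x j ^ 2 ≤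
          W * (N * ((M : ℝ) ^ 2 * ((4 + η) * μ ^ 2 * W) + a₀)) :=
          mul_le_mul_of_nonneg_left h3 hW.le
      _ = N * ((M : ℝ) ^ 2 * ((4 + η) * μ ^ 2 * W) * W + W * a₀) := by ring
      _ = N * ((4 + η) / (1 - η) ^ 2 * a₀ ^ 2 + W * a₀) := by rw [h4]
      _ ≤ N * ((4 + η) / (1 - η) ^ 2 * a₀ ^ 2 + 2 * N * η * a₀ * a₀) := by
          refine mul_le_mul_of_nonneg_left (add_le_add_right ?_ _) hNpos.le
          exact mul_le_mul_of_nonneg_right hWa ha₀pos.le
      _ = ((4 + η) / (1 - η) ^ 2 + 2 * N * η) * (N * a₀ ^ 2) := by ring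
  -- the bad tuples
  obtain ⟨good, hgood⟩ : ∃ good : (Fin k → Fin N) → Prop, good = fun v =>
    ∃ y : Fin k → ℕ, (∀ i, y i ∈ U (v i)) ∧
      (X : ℝ) / (Real.log X) ^ C ≤ cnt X (univ.image y) := ⟨_, rfl⟩
  have hbadsum : ∑ v ∈ univ.filter (fun v : Fin k → Fin N => Function.Injective v ∧ ¬ good v),
      ∑ x ∈ Ioc X (2 * X), w x * (∑ j, Xf x j) * ∏ i, (Xf x (v i) / ∑ j, Xf x j) ≤
        τ * (N * a₀) := by
    have h3 := Bins_bad (k := k) (Ioc X (2 * X)) w hw U hU pp c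
      (fun j a ha => hc0 a (hUA j a ha)) (fun j a ha => hc1 a (hUA j a ha)) (W / Real.log X)
      (div_nonneg hW.le hlog0.le)
      (univ.filter (fun v : Fin k → Fin N => Function.Injective v ∧ ¬ good v))
      (fun v hv y hy => by
        have hv2 := (mem_filter.1 hv).2.2
        rw [hgood] at hv2
        push Not at hv2
        have h4 := hv2 y hy
        refine hsmall _ (filter_subset _ _) ?_
        have h5 : ((Ioc X (2 * X)).filter fun x => ∀ i, pp x (y i)).card =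
            cnt X (univ.image y) := by
          unfold cnt
          refine congrArg card ?_
          ext x
          rw [mem_filter, mem_filter]
          refine and_congr_right fun _ => ?_
          constructor
          · intro h6 d hd
            obtain ⟨i, _, rfl⟩ := mem_image.1 hd
            exact (hpp _ _).1 (h6 i)
          · intro h6 i
            exact (hpp _ _).2 (h6 _ (mem_image_of_mem _ (mem_univ i)))
        rw [h5]
        exact h4.le) Xf hXf
    refine h3.trans ?_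
    have h4 : 2 * ((N : ℝ) ^ k * (N * M * (M : ℝ) ^ k)) ≤ τ * Real.log X := by
      have h5 : 2 * ((N : ℝ) ^ k * (N * M * (M : ℝ) ^ k)) / τ ≤ Real.log X := by linarith
      rw [div_le_iff₀ hτ] at h5
      linarith
    have h6 : W ≤ 2 * (N * a₀) := by
      refine hWa.trans ?_
      have h7 : η * (N * a₀) ≤ 1 * (N * a₀) :=
        mul_le_mul_of_nonneg_right (by linarith) (by positivity)
      linarith
    calc (N : ℝ) ^ k * (N * M * ((M : ℝ) ^ k * (W / Real.log X))) =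
          (2 * ((N : ℝ) ^ k * (N * M * (M : ℝ) ^ k))) * (W / 2) / Real.log X := by ring
      _ ≤ (τ * Real.log X) * (W / 2) / Real.log X := by
          refine div_le_div_of_nonneg_right (mul_le_mul_of_nonneg_right h4 (by linarith)) hlog0.le
      _ = τ * (W / 2) := by
          field_simp
      _ ≤ τ * (N * a₀) := mul_le_mul_of_nonneg_left (by linarith) hτ.le
  have hE := hent ℕ (Ioc X (2 * X)) N w Xf a₀ ((4 + η) / (1 - η) ^ 2 + 2 * N * η)
    (univ.filter (fun v : Fin k → Fin N => Function.Injective v ∧ ¬ good v)) hN1 ha₀pos hC1 hC5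
    (fun x _ => hw x) (fun x _ j => by
      rw [hXf]
      refine sum_nonneg fun a ha => ?_
      split_ifs
      · exact hc0 a (hUA j a ha)
      · exact le_rfl) hm1 hsec hbadsum
  -- counting
  have hcount : N ^ k ≤ (univ.filter (fun v : Fin k → Fin N => Function.Injective v ∧
        good v)).card + (univ.filter (fun v : Fin k → Fin N => Function.Injective v ∧
        ¬ good v)).card + k ^ 2 * N ^ (k - 1) := by
    have h3 := Bins_inj k N
    have h4 : (univ : Finset (Fin k → Fin N)).card = N ^ k := by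
      rw [card_univ, Fintype.card_fun, Fintype.card_fin, Fintype.card_fin]
    have h5 : (univ : Finset (Fin k → Fin N)) ⊆ (univ.filter (fun v : Fin k → Fin N =>
        Function.Injective v ∧ good v) ∪ univ.filter (fun v : Fin k → Fin N =>
        Function.Injective v ∧ ¬ good v)) ∪
        univ.filter (fun v : Fin k → Fin N => ¬ Function.Injective v) := by
      intro v _
      rw [mem_union, mem_union, mem_filter, mem_filter, mem_filter]
      by_cases h6 : Function.Injective v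
      · by_cases h7 : good v
        · exact Or.inl (Or.inl ⟨mem_univ _, h6, h7⟩)
        · exact Or.inl (Or.inr ⟨mem_univ _, h6, h7⟩)
      · exact Or.inr ⟨mem_univ _, h6⟩
    have h6 := (card_le_card h5).trans (card_union_le _ _)
    have h7 := card_union_le (univ.filter (fun v : Fin k → Fin N =>
        Function.Injective v ∧ good v)) (univ.filter (fun v : Fin k → Fin N =>
        Function.Injective v ∧ ¬ good v))
    omega
  have hcountR : (N : ℝ) ^ k ≤ (univ.filter (fun v : Fin k → Fin N => Function.Injective v ∧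
        good v)).card + (univ.filter (fun v : Fin k → Fin N => Function.Injective v ∧
        ¬ good v)).card + (k : ℝ) ^ 2 * (N : ℝ) ^ (k - 1) := by
    exact_mod_cast hcount
  have hnon : (k : ℝ) ^ 2 * (N : ℝ) ^ (k - 1) ≤ ε / 4 * (N : ℝ) ^ k := by
    obtain ⟨k', rfl⟩ : ∃ k', k = k' + 1 := ⟨k - 1, by omega⟩
    rw [Nat.add_sub_cancel]
    calc ((k' + 1 : ℕ) : ℝ) ^ 2 * (N : ℝ) ^ k' ≤ ε / 4 * N * (N : ℝ) ^ k' :=
          mul_le_mul_of_nonneg_right hN2 (by positivity)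
      _ = ε / 4 * (N : ℝ) ^ (k' + 1) := by ring
  have hNk : 0 ≤ (N : ℝ) ^ k := by positivity
  have hfin : ((1 / 4 : ℝ) ^ (k - 1) - ε / 4) * (N : ℝ) ^ k ≤
      (1 / ((4 + η) / (1 - η) ^ 2 + 2 * N * η)) ^ (k - 1) * (N : ℝ) ^ k :=
    mul_le_mul_of_nonneg_right hCk hNk
  have hεN : 0 ≤ ε * (N : ℝ) ^ k := by positivity
  have hres : ((1 / 4 : ℝ) ^ (k - 1) - ε) * (N : ℝ) ^ k ≤
      (univ.filter (fun v : Fin k → Fin N => Function.Injective v ∧ good v)).card := by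
    nlinarith
  rw [hgood] at hres
  exact hres

end Pool.Agent.Lib.MP_092512_nt.FP
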