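import Pool.Agent.Lib.MP_092512_nt.FP.Box

/-!
# F_P, Blow: from transversals of `N` disjoint `m`-sets to a proportion of all `k`-subsets

PROOF.  `n = |V|`.  If `γ < ε` or so there is nothing to prove; assume `|Gd| < (γ - ε) binom(n,k)`, `Gd` the good `k`-subsets, so `γ > ε`.  For `y ∈ V^N` (all functions) let `H(y)` be the
set of the injective `v : Fin k → Fin N` with `y ∘ v` injective and `{y (v i)}` good.  For fixed injective `v` the number of `y` with `v ∈ H(y)` is `k! |Gd| n^(N-k)` (the entries at `v i` are one of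
the `k!` orderings of a good set, the others are free; `≤` is enough), so `∑_y |H(y)| ≤ N^k k! |Gd| n^(N-k) ≤ N^k (γ-ε) n^N` (`k! binom(n,k) ≤ n^k`).  Hence at most
`((γ-ε)/γ) n^N ≤ (1-ε) n^N` of the `y` have `|H(y)| ≥ γ N^k` (Markov; `γ ≤ 1`), at most `N² n^(N-1) ≤ (ε/2) n^N` are not injective (large `n`), and at
least `(ε/2) n^N` are injective with `|H(y)| < γ N^k`.  Pigeonhole over the `2^(N^k)` possible sets: `(ε/2) 2^(-N^k) n^N` of them have the same `H`.  `box`: `U_1 × ... × U_N` inside
this set.  The `U_i` are pairwise disjoint: for `a ∈ U_i ∩ U_j` some `y` in the product has `y i = y j = a` (`U` nonempty, `m ≥ 1`), not injective.  If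
an injective `v` has `y'`, `y' i ∈ U (v i)`, `image y'` good, extend `y'` to `y` in the product with `y ∘ v = y'` (`y'` is injective as the `U` are disjoint): `v ∈ H`.
So fewer than `γ N^k` injective `v` have such a `y'`: contradiction.  (`N < k` or `n < k`: there are no injective `v`, resp. no `k`-subsets; `N ≥ k` may be assumed.)
-/

set_option autoImplicit false

open Finset

namespace Pool.Agent.Lib.MP_092512_nt.FP

/-- the fibres of `y ↦ y ∘ v` -/
private theorem Blow_fib {k N : ℕ} (V : Finset ℕ) (v : Fin k → Fin N)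
    (hv : Function.Injective v) (z : Fin k → ℕ) :
    ((Fintype.piFinset (fun _ : Fin N => V)).filter (fun y => y ∘ v = z)).card ≤
      V.card ^ (N - k) := by
  classical
  have hsub : (Fintype.piFinset (fun _ : Fin N => V)).filter (fun y => y ∘ v = z) ⊆
      Fintype.piFinset (fun j : Fin N => if h : ∃ i, v i = j then {z h.choose} else V) := by
    intro y hy
    rw [mem_filter, Fintype.mem_piFinset] at hy
    rw [Fintype.mem_piFinset]
    intro j
    by_cases h : ∃ i, v i = j
    · rw [dif_pos h, mem_singleton]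
      have h1 := congrFun hy.2 h.choose
      have h2 : y (v h.choose) = z h.choose := h1
      rwa [h.choose_spec] at h2
    · rw [dif_neg h]
      exact hy.1 j
  refine (card_le_card hsub).trans ?_
  rw [Fintype.card_piFinset]
  have h1 : ∀ j : Fin N, (if h : ∃ i, v i = j then {z h.choose} else V : Finset ℕ).card =
      if j ∈ univ.image v then 1 else V.card := by
    intro j
    by_cases h : ∃ i, v i = j
    · have h2 : j ∈ univ.image v := by
        obtain ⟨i, hi⟩ := h
        exact mem_image.2 ⟨i, mem_univ i, hi⟩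
      rw [dif_pos h, if_pos h2, card_singleton]
    · have h2 : j ∉ univ.image v := by
        intro h3
        obtain ⟨i, _, hi⟩ := mem_image.1 h3
        exact h ⟨i, hi⟩
      rw [dif_neg h, if_neg h2]
  rw [prod_congr rfl (fun j _ => h1 j), prod_ite, prod_const_one, one_mul, prod_const]
  have h2 : (univ.filter (fun j : Fin N => j ∉ univ.image v)).card = N - k := by
    have h3 : univ.filter (fun j : Fin N => j ∉ univ.image v) = (univ.image v)ᶜ := by
      ext j
      simp
    rw [h3, card_compl, card_image_of_injective _ hv]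
    simp
  rw [h2]

/-- the number of orderings -/
private theorem Blow_ord {k : ℕ} (V : Finset ℕ) (Gd : Finset ℕ → Prop) [DecidablePred Gd] :
    ((Fintype.piFinset (fun _ : Fin k => V)).filter
      (fun z => Function.Injective z ∧ Gd (univ.image z))).card ≤
      k.factorial * ((powersetCard k V).filter Gd).card := by
  classical
  refine card_le_mul_card_image_of_maps_to (f := fun z : Fin k → ℕ => univ.image z) ?_ _ ?_
  · intro z hz
    rw [mem_filter, Fintype.mem_piFinset] at hz
    rw [mem_filter, mem_powersetCard]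
    refine ⟨⟨?_, ?_⟩, hz.2.2⟩
    · intro a ha
      obtain ⟨i, _, hi⟩ := mem_image.1 ha
      rw [← hi]
      exact hz.1 i
    · rw [card_image_of_injective _ hz.2.1]
      simp
  · intro T hT
    rw [mem_filter, mem_powersetCard] at hT
    have hc := hT.1.2
    have hsub : ((Fintype.piFinset (fun _ : Fin k => V)).filter
        (fun z => Function.Injective z ∧ Gd (univ.image z))).filter
        (fun z => univ.image z = T) ⊆
        (univ : Finset (Equiv.Perm (Fin k))).image
          (fun σ => fun i => T.orderEmbOfFin hc (σ i)) := by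
      intro z hz
      rw [mem_filter, mem_filter] at hz
      obtain ⟨⟨_, hinj, _⟩, him⟩ := hz
      have hex : ∀ i, ∃ j, T.orderEmbOfFin hc j = z i := by
        intro i
        have h1 : z i ∈ T := by
          rw [← him]
          exact mem_image.2 ⟨i, mem_univ i, rfl⟩
        have h2 : z i ∈ Set.range (T.orderEmbOfFin hc) := by
          rw [range_orderEmbOfFin]
          exact h1
        exact h2
      choose σ hσ using hex
      have hσi : Function.Injective σ := by
        intro i j hij
        apply hinj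
        rw [← hσ i, ← hσ j, hij]
      refine mem_image.2 ⟨Equiv.ofBijective σ (Finite.injective_iff_bijective.1 hσi),
        mem_univ _, ?_⟩
      funext i
      exact hσ i
    refine (card_le_card hsub).trans (card_image_le.trans ?_)
    rw [card_univ, Fintype.card_perm, Fintype.card_fin]

private theorem Blow_eq {N : ℕ} (V : Finset ℕ) {i j : Fin N} (hij : i ≠ j) :
    V.card * ((Fintype.piFinset (fun _ : Fin N => V)).filter (fun y => y i = y j)).card ≤
      V.card ^ N := by
  classical
  have h1 : (V ×ˢ (Fintype.piFinset (fun _ : Fin N => V)).filter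
      (fun y => y i = y j)).card ≤ (Fintype.piFinset (fun _ : Fin N => V)).card := by
    refine card_le_card_of_injOn (fun q => Function.update q.2 j q.1) ?_ ?_
    · intro q hq
      rw [mem_coe, mem_product, mem_filter, Fintype.mem_piFinset] at hq
      rw [mem_coe, Fintype.mem_piFinset]
      intro l
      show Function.update q.2 j q.1 l ∈ V
      by_cases hl : l = j
      · subst hl
        rw [Function.update_self]
        exact hq.1
      · rw [Function.update_of_ne hl]
        exact hq.2.1 l
    · rintro ⟨a, y⟩ hq ⟨b, y'⟩ hq' h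
      rw [mem_coe, mem_product, mem_filter] at hq hq'
      have h2 : ∀ l, Function.update y j a l = Function.update y' j b l := fun l =>
        congrFun h l
      have h3 : a = b := by
        have h4 := h2 j
        rwa [Function.update_self, Function.update_self] at h4
      have h5 : ∀ l, l ≠ j → y l = y' l := by
        intro l hl
        have h4 := h2 l
        rwa [Function.update_of_ne hl, Function.update_of_ne hl] at h4
      have h6 : y = y' := by
        funext l
        by_cases hl : l = j
        · have h7 : y i = y j := hq.2.2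
          have h8 : y' i = y' j := hq'.2.2
          rw [hl, ← h7, ← h8]
          exact h5 i hij
        · exact h5 l hl
      rw [h3, h6]
  rw [card_product, Fintype.card_piFinset_const] at h1
  simpa using h1

private theorem Blow_inj {N : ℕ} (V : Finset ℕ) :
    V.card * ((Fintype.piFinset (fun _ : Fin N => V)).filter
      (fun y => ¬ Function.Injective y)).card ≤ N ^ 2 * V.card ^ N := by
  classical
  have hsub : (Fintype.piFinset (fun _ : Fin N => V)).filter
      (fun y => ¬ Function.Injective y) ⊆
      (univ.filter (fun q : Fin N × Fin N => q.1 ≠ q.2)).biUnion (fun q =>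
        (Fintype.piFinset (fun _ : Fin N => V)).filter (fun y => y q.1 = y q.2)) := by
    intro y hy
    rw [mem_filter] at hy
    obtain ⟨hy1, hy2⟩ := hy
    rw [Function.not_injective_iff] at hy2
    obtain ⟨i, j, h1, h2⟩ := hy2
    exact mem_biUnion.2 ⟨(i, j), mem_filter.2 ⟨mem_univ _, h2⟩, mem_filter.2 ⟨hy1, h1⟩⟩
  calc V.card * ((Fintype.piFinset (fun _ : Fin N => V)).filter
        (fun y => ¬ Function.Injective y)).card
      ≤ V.card * ∑ q ∈ univ.filter (fun q : Fin N × Fin N => q.1 ≠ q.2),
        ((Fintype.piFinset (fun _ : Fin N => V)).filter (fun y => y q.1 = y q.2)).card :=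
        Nat.mul_le_mul_left _ ((card_le_card hsub).trans card_biUnion_le)
    _ = ∑ q ∈ univ.filter (fun q : Fin N × Fin N => q.1 ≠ q.2), V.card *
        ((Fintype.piFinset (fun _ : Fin N => V)).filter (fun y => y q.1 = y q.2)).card :=
        mul_sum _ _ _
    _ ≤ ∑ _q ∈ univ.filter (fun q : Fin N × Fin N => q.1 ≠ q.2), V.card ^ N := by
        refine sum_le_sum fun q hq => ?_
        exact Blow_eq V (mem_filter.1 hq).2
    _ ≤ N ^ 2 * V.card ^ N := by
        rw [sum_const, smul_eq_mul]
        refine Nat.mul_le_mul_right _ ?_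
        refine (card_filter_le _ _).trans ?_
        rw [card_univ, Fintype.card_prod, Fintype.card_fin, pow_two]

/-- the sum of the numbers of good transversals -/
private theorem Blow_sum {k N : ℕ} (V : Finset ℕ) (Gd : Finset ℕ → Prop) [DecidablePred Gd]
    [∀ y : Fin N → ℕ, DecidablePred (fun v : Fin k → Fin N => Function.Injective v ∧
      Function.Injective (y ∘ v) ∧ Gd (univ.image (y ∘ v)))] :
    ∑ y ∈ Fintype.piFinset (fun _ : Fin N => V), (univ.filter (fun v : Fin k → Fin N =>
      Function.Injective v ∧ Function.Injective (y ∘ v) ∧ Gd (univ.image (y ∘ v)))).card *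
      V.card ^ k ≤
      N ^ k * (k.factorial * ((powersetCard k V).filter Gd).card) * V.card ^ N := by
  classical
  have h1 : ∑ y ∈ Fintype.piFinset (fun _ : Fin N => V), (univ.filter (fun v : Fin k → Fin N =>
      Function.Injective v ∧ Function.Injective (y ∘ v) ∧ Gd (univ.image (y ∘ v)))).card =
      ∑ v : Fin k → Fin N, ((Fintype.piFinset (fun _ : Fin N => V)).filter (fun y =>
        Function.Injective v ∧ Function.Injective (y ∘ v) ∧ Gd (univ.image (y ∘ v)))).card := by
    simp only [card_filter]
    rw [sum_comm]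
  rw [← sum_mul, h1, sum_mul]
  have h2 : ∀ v : Fin k → Fin N, ((Fintype.piFinset (fun _ : Fin N => V)).filter (fun y =>
        Function.Injective v ∧ Function.Injective (y ∘ v) ∧
          Gd (univ.image (y ∘ v)))).card * V.card ^ k ≤
      (k.factorial * ((powersetCard k V).filter Gd).card) * V.card ^ N := by
    intro v
    by_cases hv : Function.Injective v
    · have hkN : k ≤ N := by
        have h3 := Fintype.card_le_of_injective v hv
        simpa using h3
      have h4 : ((Fintype.piFinset (fun _ : Fin N => V)).filter (fun y =>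
          Function.Injective v ∧ Function.Injective (y ∘ v) ∧
            Gd (univ.image (y ∘ v)))).card ≤
          V.card ^ (N - k) * ((Fintype.piFinset (fun _ : Fin k => V)).filter
            (fun z => Function.Injective z ∧ Gd (univ.image z))).card := by
        refine card_le_mul_card_image_of_maps_to (f := fun y : Fin N → ℕ => y ∘ v) ?_ _ ?_
        · intro y hy
          rw [mem_filter, Fintype.mem_piFinset] at hy
          rw [mem_filter, Fintype.mem_piFinset]
          exact ⟨fun i => hy.1 (v i), hy.2.2⟩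
        · intro z _
          refine (card_le_card ?_).trans (Blow_fib V v hv z)
          intro y hy
          rw [mem_filter, mem_filter] at hy
          exact mem_filter.2 ⟨hy.1.1, hy.2⟩
      calc _ ≤ (V.card ^ (N - k) * ((Fintype.piFinset (fun _ : Fin k => V)).filter
            (fun z => Function.Injective z ∧ Gd (univ.image z))).card) * V.card ^ k :=
            Nat.mul_le_mul_right _ h4
        _ ≤ (V.card ^ (N - k) * (k.factorial * ((powersetCard k V).filter Gd).card)) *
            V.card ^ k :=
            Nat.mul_le_mul_right _ (Nat.mul_le_mul_left _ (Blow_ord V Gd))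
        _ = (k.factorial * ((powersetCard k V).filter Gd).card) *
            (V.card ^ (N - k) * V.card ^ k) := by ring
        _ = _ := by rw [← pow_add, Nat.sub_add_cancel hkN]
    · have h5 : (Fintype.piFinset (fun _ : Fin N => V)).filter (fun y =>
          Function.Injective v ∧ Function.Injective (y ∘ v) ∧ Gd (univ.image (y ∘ v))) = ∅ := by
        rw [filter_eq_empty_iff]
        intro y _ h6
        exact hv h6.1
      rw [h5, card_empty, zero_mul]
      exact Nat.zero_le _
  refine (sum_le_sum fun v _ => h2 v).trans ?_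
  rw [sum_const, smul_eq_mul, card_univ, Fintype.card_fun, Fintype.card_fin, Fintype.card_fin]
  exact le_of_eq (by ring)

open Classical in
theorem blow (k N m : ℕ) (hN : 1 ≤ N) (hm : 1 ≤ m) (ε : ℝ) (hε : 0 < ε) : ∃ V₀ : ℕ, ∀ V : Finset ℕ,
    V₀ ≤ V.card → ∀ Gd : Finset ℕ → Prop, ∀ γ : ℝ, γ ≤ 1 →
    (∀ U : Fin N → Finset ℕ, (∀ i, U i ⊆ V ∧ (U i).card = m) →
      (∀ i j, i ≠ j → Disjoint (U i) (U j)) →
      γ * (N : ℝ) ^ k ≤ ((univ.filter (fun v : Fin k → Fin N => Function.Injective v ∧
        ∃ y : Fin k → ℕ, (∀ i, y i ∈ U (v i)) ∧ Gd (univ.image y))).card : ℝ)) →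
    (γ - ε) * ((powersetCard k V).card : ℝ) ≤ ((powersetCard k V).filter Gd).card := by
  obtain ⟨V₁, hV₁⟩ := box N m (ε / 2 / 2 ^ (N ^ k)) (by positivity)
  refine ⟨max V₁ (⌈2 * (N : ℝ) ^ 2 / ε⌉₊ + 1), fun V hV Gd γ hγ hyp => ?_⟩
  by_contra hcon
  rw [not_le] at hcon
  have hγε : 0 < γ - ε := by
    by_contra h
    rw [not_lt] at h
    have h1 : (γ - ε) * ((powersetCard k V).card : ℝ) ≤ 0 :=
      mul_nonpos_of_nonpos_of_nonneg h (Nat.cast_nonneg _)
    have h2 : (0 : ℝ) ≤ (((powersetCard k V).filter Gd).card : ℝ) := Nat.cast_nonneg _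
    linarith
  have hγ0 : 0 < γ := by linarith
  have hnV : (⌈2 * (N : ℝ) ^ 2 / ε⌉₊ : ℝ) + 1 ≤ (V.card : ℝ) := by
    have h1 : ⌈2 * (N : ℝ) ^ 2 / ε⌉₊ + 1 ≤ V.card := (le_max_right _ _).trans hV
    exact_mod_cast h1
  have hn1 : 2 * (N : ℝ) ^ 2 / ε ≤ (V.card : ℝ) := by
    have h1 := Nat.le_ceil (2 * (N : ℝ) ^ 2 / ε)
    linarith
  have hn0 : 0 < (V.card : ℝ) := by
    have h1 : (0 : ℝ) ≤ (⌈2 * (N : ℝ) ^ 2 / ε⌉₊ : ℝ) := Nat.cast_nonneg _
    linarith
  have hN0 : 0 < (N : ℝ) := by exact_mod_cast hN
  set Y : Finset (Fin N → ℕ) := Fintype.piFinset (fun _ : Fin N => V) with hY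
  have hYc : (Y.card : ℝ) = (V.card : ℝ) ^ N := by
    rw [hY, Fintype.card_piFinset_const]
    push_cast
    simp
  set H : (Fin N → ℕ) → Finset (Fin k → Fin N) := fun y => univ.filter
    (fun v : Fin k → Fin N => Function.Injective v ∧ Function.Injective (y ∘ v) ∧
      Gd (univ.image (y ∘ v))) with hH
  -- the sum
  have hsum : ∑ y ∈ Y, ((H y).card : ℝ) ≤ (N : ℝ) ^ k * (γ - ε) * (V.card : ℝ) ^ N := by
    have h1 := Blow_sum (N := N) (k := k) V Gd
    rw [← sum_mul] at h1
    have h2 : (∑ y ∈ Y, ((H y).card : ℝ)) * (V.card : ℝ) ^ k ≤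
        (N : ℝ) ^ k * ((k.factorial : ℝ) * (((powersetCard k V).filter Gd).card : ℝ)) *
          (V.card : ℝ) ^ N := by exact_mod_cast h1
    have h3 : (k.factorial : ℝ) * ((powersetCard k V).card : ℝ) ≤ (V.card : ℝ) ^ k := by
      rw [card_powersetCard]
      have h4 := Nat.descFactorial_le_pow V.card k
      rw [Nat.descFactorial_eq_factorial_mul_choose] at h4
      exact_mod_cast h4
    have h4 : (k.factorial : ℝ) * (((powersetCard k V).filter Gd).card : ℝ) ≤
        (γ - ε) * (V.card : ℝ) ^ k := by
      have hk : (0 : ℝ) ≤ (k.factorial : ℝ) := Nat.cast_nonneg _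
      calc (k.factorial : ℝ) * (((powersetCard k V).filter Gd).card : ℝ)
          ≤ (k.factorial : ℝ) * ((γ - ε) * ((powersetCard k V).card : ℝ)) :=
            mul_le_mul_of_nonneg_left hcon.le hk
        _ = (γ - ε) * ((k.factorial : ℝ) * ((powersetCard k V).card : ℝ)) := by ring
        _ ≤ _ := mul_le_mul_of_nonneg_left h3 hγε.le
    have h5 : (∑ y ∈ Y, ((H y).card : ℝ)) * (V.card : ℝ) ^ k ≤
        ((N : ℝ) ^ k * (γ - ε) * (V.card : ℝ) ^ N) * (V.card : ℝ) ^ k := by
      refine h2.trans ?_
      have h6 : (0 : ℝ) ≤ (N : ℝ) ^ k := by positivity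
      have h7 : (0 : ℝ) ≤ (V.card : ℝ) ^ N := by positivity
      calc _ ≤ (N : ℝ) ^ k * ((γ - ε) * (V.card : ℝ) ^ k) * (V.card : ℝ) ^ N :=
            mul_le_mul_of_nonneg_right (mul_le_mul_of_nonneg_left h4 h6) h7
        _ = _ := by ring
    exact le_of_mul_le_mul_right h5 (by positivity)
  -- many transversals
  set B1 : Finset (Fin N → ℕ) := Y.filter (fun y => γ * (N : ℝ) ^ k ≤ ((H y).card : ℝ)) with hB1
  set B2 : Finset (Fin N → ℕ) := Y.filter (fun y => ¬ Function.Injective y) with hB2
  have hB1c : (B1.card : ℝ) ≤ (1 - ε) * (V.card : ℝ) ^ N := by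
    have h1 : (B1.card : ℝ) * (γ * (N : ℝ) ^ k) ≤ (N : ℝ) ^ k * (γ - ε) * (V.card : ℝ) ^ N := by
      refine le_trans ?_ hsum
      calc (B1.card : ℝ) * (γ * (N : ℝ) ^ k) = ∑ _y ∈ B1, γ * (N : ℝ) ^ k := by
            rw [sum_const, nsmul_eq_mul]
        _ ≤ ∑ y ∈ B1, ((H y).card : ℝ) := sum_le_sum fun y hy => (mem_filter.1 hy).2
        _ ≤ _ := sum_le_sum_of_subset_of_nonneg (filter_subset _ _)
            (fun _ _ _ => Nat.cast_nonneg _)
    have h2 : (B1.card : ℝ) * γ ≤ (γ - ε) * (V.card : ℝ) ^ N := by
      have h3 : (0 : ℝ) < (N : ℝ) ^ k := by positivity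
      have h4 : ((B1.card : ℝ) * γ) * (N : ℝ) ^ k ≤
          ((γ - ε) * (V.card : ℝ) ^ N) * (N : ℝ) ^ k := by
        calc _ = (B1.card : ℝ) * (γ * (N : ℝ) ^ k) := by ring
          _ ≤ _ := h1
          _ = _ := by ring
      exact le_of_mul_le_mul_right h4 h3
    have h3 : (B1.card : ℝ) * γ ≤ ((1 - ε) * (V.card : ℝ) ^ N) * γ := by
      refine h2.trans ?_
      have h4 : (0 : ℝ) ≤ (V.card : ℝ) ^ N := by positivity
      have h5 : γ - ε ≤ (1 - ε) * γ := by nlinarith
      calc _ ≤ ((1 - ε) * γ) * (V.card : ℝ) ^ N := mul_le_mul_of_nonneg_right h5 h4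
        _ = _ := by ring
    exact le_of_mul_le_mul_right h3 hγ0
  have hB2c : (B2.card : ℝ) ≤ ε / 2 * (V.card : ℝ) ^ N := by
    have h1 : (V.card : ℝ) * (B2.card : ℝ) ≤ (N : ℝ) ^ 2 * (V.card : ℝ) ^ N := by
      have h2 := Blow_inj (N := N) V
      exact_mod_cast h2
    have h2 : (N : ℝ) ^ 2 ≤ ε / 2 * (V.card : ℝ) := by
      rw [div_le_iff₀ hε] at hn1
      linarith
    have h3 : (V.card : ℝ) * (B2.card : ℝ) ≤ (V.card : ℝ) * (ε / 2 * (V.card : ℝ) ^ N) := by
      refine h1.trans ?_
      have h4 : (0 : ℝ) ≤ (V.card : ℝ) ^ N := by positivity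
      calc _ ≤ (ε / 2 * (V.card : ℝ)) * (V.card : ℝ) ^ N := mul_le_mul_of_nonneg_right h2 h4
        _ = _ := by ring
    exact le_of_mul_le_mul_left h3 hn0
  set Y0 : Finset (Fin N → ℕ) := Y \ (B1 ∪ B2) with hY0
  have hY0c : ε / 2 * (V.card : ℝ) ^ N ≤ (Y0.card : ℝ) := by
    have h1 : Y.card ≤ Y0.card + (B1.card + B2.card) := by
      have h2 : Y.card ≤ Y0.card + (B1 ∪ B2).card := by
        have h3 : Y ⊆ Y0 ∪ (B1 ∪ B2) := by
          intro y hy
          by_cases h4 : y ∈ B1 ∪ B2
          · exact mem_union_right _ h4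
          · exact mem_union_left _ (mem_sdiff.2 ⟨hy, h4⟩)
        exact (card_le_card h3).trans (card_union_le _ _)
      have h3 := card_union_le B1 B2
      omega
    have h2 : (Y.card : ℝ) ≤ (Y0.card : ℝ) + ((B1.card : ℝ) + (B2.card : ℝ)) := by
      exact_mod_cast h1
    rw [hYc] at h2
    linarith
  -- pigeonhole
  obtain ⟨H0, _, hH0⟩ := exists_le_card_fiber_of_nsmul_le_card_of_maps_to
    (s := Y0) (t := (univ : Finset (Finset (Fin k → Fin N)))) (f := H)
    (b := ε / 2 / 2 ^ (N ^ k) * (V.card : ℝ) ^ N) (fun _ _ => mem_univ _) univ_nonempty (by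
      rw [card_univ, Fintype.card_finset, Fintype.card_fun, Fintype.card_fin, Fintype.card_fin,
        nsmul_eq_mul]
      push_cast
      refine le_trans (le_of_eq ?_) hY0c
      field_simp)
  obtain ⟨U, hU1, hU2⟩ := hV₁ V ((le_max_left _ _).trans hV) (Y0.filter (fun y => H y = H0))
    (by
      intro y hy i
      have h1 : y ∈ Y := (mem_sdiff.1 (mem_filter.1 hy).1).1
      exact Fintype.mem_piFinset.1 h1 i) hH0
  have hUne : ∀ i, ∃ a, a ∈ U i := by
    intro i
    have h1 : 0 < (U i).card := by
      rw [(hU1 i).2]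
      omega
    exact card_pos.1 h1
  choose c hc using hUne
  have hF : ∀ y : Fin N → ℕ, (∀ i, y i ∈ U i) → Function.Injective y ∧
      ((H y).card : ℝ) < γ * (N : ℝ) ^ k ∧ H y = H0 := by
    intro y hy
    obtain ⟨h1, h2⟩ := mem_filter.1 (hU2 y hy)
    obtain ⟨h3, h4⟩ := mem_sdiff.1 h1
    rw [mem_union, not_or] at h4
    refine ⟨?_, ?_, h2⟩
    · by_contra h5
      exact h4.2 (mem_filter.2 ⟨h3, h5⟩)
    · by_contra h5
      exact h4.1 (mem_filter.2 ⟨h3, not_lt.1 h5⟩)
  have hdis : ∀ i j, i ≠ j → Disjoint (U i) (U j) := by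
    intro i j hij
    rw [disjoint_left]
    intro a hai haj
    obtain ⟨h1, _, _⟩ := hF (fun l => if l = i then a else if l = j then a else c l) (by
      intro l
      by_cases h1 : l = i
      · subst h1
        simpa using hai
      · by_cases h2 : l = j
        · subst h2
          simpa [h1] using haj
        · simpa [h1, h2] using hc l)
    apply hij
    apply h1
    simp
  have h1 := hyp U hU1 hdis
  obtain ⟨_, h2, h3⟩ := hF c hc
  have h4 : univ.filter (fun v : Fin k → Fin N => Function.Injective v ∧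
      ∃ y : Fin k → ℕ, (∀ i, y i ∈ U (v i)) ∧ Gd (univ.image y)) ⊆ H0 := by
    intro v hv
    rw [mem_filter] at hv
    obtain ⟨_, hv1, y', hy', hg⟩ := hv
    have h5 : ∀ i, (fun j => if h : ∃ i, v i = j then y' h.choose else c j) (v i) = y' i := by
      intro i
      have h : ∃ i', v i' = v i := ⟨i, rfl⟩
      show (if h : ∃ i', v i' = v i then y' h.choose else c (v i)) = y' i
      rw [dif_pos h]
      exact congrArg y' (hv1 h.choose_spec)
    obtain ⟨k1, _, k3⟩ := hF (fun j => if h : ∃ i, v i = j then y' h.choose else c j) (by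
      intro j
      by_cases h : ∃ i, v i = j
      · obtain ⟨i, rfl⟩ := h
        have h6 := h5 i
        show (fun j => if h : ∃ i, v i = j then y' h.choose else c j) (v i) ∈ U (v i)
        rw [h6]
        exact hy' i
      · show (if h : ∃ i, v i = j then y' h.choose else c j) ∈ U j
        rw [dif_neg h]
        exact hc j)
    rw [← k3, hH]
    refine mem_filter.2 ⟨mem_univ _, hv1, k1.comp hv1, ?_⟩
    have h6 : (fun j => if h : ∃ i, v i = j then y' h.choose else c j) ∘ v = y' := by
      funext i
      exact h5 i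
    rw [h6]
    exact hg
  have h5 := card_le_card h4
  rw [h3] at h2
  have h6 : ((univ.filter (fun v : Fin k → Fin N => Function.Injective v ∧
      ∃ y : Fin k → ℕ, (∀ i, y i ∈ U (v i)) ∧ Gd (univ.image y))).card : ℝ) ≤
      (H0.card : ℝ) := by exact_mod_cast h5
  linarith

end Pool.Agent.Lib.MP_092512_nt.FP
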