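import Mathlib

/-!
# F_P, Box: a set of positive density of `N`-tuples contains a product of `m`-sets (Erdos)

PROOF.  Induction on `N`.  `N = 0`: `F` is nonempty (`δ ≤ |F|`), so `F = {the empty tuple}`.  `N + 1`: `n = |V|`; identify `y : Fin (N+1) → ℕ` with `(y 0, tail y)`.  For `y'` with entries in `V`
let `F_{y'} = {a ∈ V : cons a y' ∈ F}`.  `∑_{y'} |F_{y'}| = |F| ≥ δ n^(N+1)`, so at least `(δ/2) n^N` of the `y'` have `|F_{y'}| ≥ (δ/2) n`.  For `t : Fin m → V` let
`d(t)` be the number of `y'` with all `t i ∈ F_{y'}`: `∑_t d(t) = ∑_{y'} |F_{y'}|^m ≥ (δ/2)^(m+1) n^(N+m)`.  The non-injective `t` are at most `m² n^(m-1)`, they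
contribute `≤ m² n^(N+m-1) ≤ (1/2)(δ/2)^(m+1) n^(N+m)` for large `n`.  So some injective `t` has `d(t) ≥ δ' n^N`, `δ' = (1/2)(δ/2)^(m+1)`.  Induction hypothesis for
`{y' : ∀ i, t i ∈ F_{y'}}`, `U 0 = image t`.
-/

set_option autoImplicit false

open Finset

namespace Pool.Agent.Lib.MP_092512_nt.FP

/-- the values of the first coordinate -/
private noncomputable def boxS {N : ℕ} (V : Finset ℕ) (F : Finset (Fin (N + 1) → ℕ))
    (y : Fin N → ℕ) : Finset ℕ :=
  V.filter fun a => (Fin.cons a y : Fin (N + 1) → ℕ) ∈ F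

private theorem box_card {N : ℕ} (V : Finset ℕ) (F : Finset (Fin (N + 1) → ℕ))
    (hF : ∀ y ∈ F, ∀ i, y i ∈ V) :
    F.card ≤ ∑ y ∈ Fintype.piFinset (fun _ : Fin N => V), (boxS V F y).card := by
  classical
  have h1 : ∀ y ∈ F, Fin.tail y ∈ Fintype.piFinset (fun _ : Fin N => V) := by
    intro y hy
    rw [Fintype.mem_piFinset]
    intro i
    exact hF y hy _
  rw [Finset.card_eq_sum_card_fiberwise h1]
  refine Finset.sum_le_sum fun y' _ => ?_
  refine Finset.card_le_card_of_injOn (fun y => y 0) ?_ ?_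
  · intro y hy
    rw [Finset.mem_coe, Finset.mem_filter] at hy
    rw [Finset.mem_coe, boxS, Finset.mem_filter]
    refine ⟨hF y hy.1 0, ?_⟩
    rw [← hy.2, Fin.cons_self_tail]
    exact hy.1
  · intro y hy z hz h
    rw [Finset.mem_coe, Finset.mem_filter] at hy hz
    rw [← Fin.cons_self_tail y, ← Fin.cons_self_tail z, hy.2, hz.2]
    simp only at h
    rw [h]

/-- many tuples have many first coordinates -/
private theorem box_good {N : ℕ} (V : Finset ℕ) (hV : 0 < V.card) (F : Finset (Fin (N + 1) → ℕ))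
    (hF : ∀ y ∈ F, ∀ i, y i ∈ V) (δ : ℝ) (hδ : 0 < δ)
    (hc : δ * (V.card : ℝ) ^ (N + 1) ≤ F.card) :
    δ / 2 * (V.card : ℝ) ^ N ≤ ((Fintype.piFinset (fun _ : Fin N => V)).filter
      (fun y => δ / 2 * (V.card : ℝ) ≤ (boxS V F y).card)).card := by
  classical
  set Y := Fintype.piFinset (fun _ : Fin N => V) with hY
  have hn : (0 : ℝ) < V.card := by exact_mod_cast hV
  have hYc : (Y.card : ℝ) = (V.card : ℝ) ^ N := by
    rw [hY, Fintype.card_piFinset, Finset.prod_const, Finset.card_univ, Fintype.card_fin]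
    push_cast
    rfl
  have h1 : (F.card : ℝ) ≤ ∑ y ∈ Y, ((boxS V F y).card : ℝ) := by exact_mod_cast box_card V F hF
  have h2 := Finset.sum_filter_add_sum_filter_not Y
    (fun y => δ / 2 * (V.card : ℝ) ≤ (boxS V F y).card) (fun y => ((boxS V F y).card : ℝ))
  have h3 : ∑ y ∈ Y.filter (fun y => δ / 2 * (V.card : ℝ) ≤ (boxS V F y).card),
      ((boxS V F y).card : ℝ) ≤
      ((Y.filter (fun y => δ / 2 * (V.card : ℝ) ≤ (boxS V F y).card)).card : ℝ) * V.card := by
    rw [← nsmul_eq_mul]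
    refine Finset.sum_le_card_nsmul _ _ _ fun y _ => ?_
    exact_mod_cast Finset.card_filter_le _ _
  have h4 : ∑ y ∈ Y.filter (fun y => ¬ δ / 2 * (V.card : ℝ) ≤ (boxS V F y).card),
      ((boxS V F y).card : ℝ) ≤ (V.card : ℝ) ^ N * (δ / 2 * V.card) := by
    calc ∑ y ∈ Y.filter (fun y => ¬ δ / 2 * (V.card : ℝ) ≤ (boxS V F y).card),
          ((boxS V F y).card : ℝ)
        ≤ ((Y.filter (fun y => ¬ δ / 2 * (V.card : ℝ) ≤ (boxS V F y).card)).card : ℝ) *
          (δ / 2 * V.card) := by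
          rw [← nsmul_eq_mul]
          refine Finset.sum_le_card_nsmul _ _ _ fun y hy => ?_
          exact (not_le.mp (Finset.mem_filter.mp hy).2).le
      _ ≤ (Y.card : ℝ) * (δ / 2 * V.card) := by
          refine mul_le_mul_of_nonneg_right ?_ (by positivity)
          exact_mod_cast Finset.card_filter_le _ _
      _ = (V.card : ℝ) ^ N * (δ / 2 * V.card) := by rw [hYc]
  have h5 : δ * (V.card : ℝ) ^ (N + 1) ≤
      ((Y.filter (fun y => δ / 2 * (V.card : ℝ) ≤ (boxS V F y).card)).card : ℝ) * V.card +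
        (V.card : ℝ) ^ N * (δ / 2 * V.card) := by
    linarith
  have h6 : δ / 2 * (V.card : ℝ) ^ N * V.card ≤
      ((Y.filter (fun y => δ / 2 * (V.card : ℝ) ≤ (boxS V F y).card)).card : ℝ) * V.card := by
    rw [pow_succ] at h5
    nlinarith [h5]
  exact le_of_mul_le_mul_right h6 hn

/-- many `m`-subsets of a large subset -/
private theorem box_choose (m k : ℕ) (x : ℝ) (hx : 0 ≤ x) (h : x + m ≤ k) :
    x ^ m ≤ (m.factorial : ℝ) * (k.choose m : ℝ) := by
  have h1 : (k + 1 - m) ^ m ≤ m.factorial * k.choose m := by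
    rw [← Nat.descFactorial_eq_factorial_mul_choose]
    exact Nat.pow_sub_le_descFactorial k m
  have hmk : m ≤ k := by
    have : (m : ℝ) ≤ k := by linarith
    exact_mod_cast this
  have h2 : x ≤ ((k + 1 - m : ℕ) : ℝ) := by
    rw [Nat.cast_sub (by omega)]
    push_cast
    linarith
  calc x ^ m ≤ ((k + 1 - m : ℕ) : ℝ) ^ m := pow_le_pow_left₀ hx h2 m
    _ ≤ (m.factorial : ℝ) * (k.choose m : ℝ) := by exact_mod_cast h1

private theorem box_choose_le (m n : ℕ) :
    (m.factorial : ℝ) * (n.choose m : ℝ) ≤ (n : ℝ) ^ m := by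
  have h1 : m.factorial * n.choose m ≤ n ^ m := by
    rw [← Nat.descFactorial_eq_factorial_mul_choose]
    exact Nat.descFactorial_le_pow n m
  exact_mod_cast h1

/-- one `m`-set which is a set of first coordinates for many tuples -/
private theorem box_step {N : ℕ} (m : ℕ) (V : Finset ℕ) (hV : 0 < V.card) (hm : m ≤ V.card)
    (G : Finset (Fin N → ℕ)) (S : (Fin N → ℕ) → Finset ℕ) (hS : ∀ y ∈ G, S y ⊆ V) (δ : ℝ)
    (hδ : 0 < δ) (hG : δ / 2 * (V.card : ℝ) ^ N ≤ G.card)
    (hc : ∀ y ∈ G, δ / 4 * (V.card : ℝ) + m ≤ (S y).card) :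
    ∃ U₀ ⊆ V, U₀.card = m ∧
      δ / 2 * (δ / 4) ^ m * (V.card : ℝ) ^ N ≤ (G.filter fun y => U₀ ⊆ S y).card := by
  classical
  have hne : (Finset.powersetCard m V).Nonempty := Finset.powersetCard_nonempty.mpr hm
  have h1 : ∑ U₀ ∈ Finset.powersetCard m V, (G.filter fun y => U₀ ⊆ S y).card =
      ∑ y ∈ G, ((Finset.powersetCard m V).filter fun U₀ => U₀ ⊆ S y).card :=
    Finset.sum_card_bipartiteAbove_eq_sum_card_bipartiteBelow (fun U₀ y => U₀ ⊆ S y)
  have h2 : ∀ y ∈ G, (S y).card.choose m ≤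
      ((Finset.powersetCard m V).filter fun U₀ => U₀ ⊆ S y).card := by
    intro y hy
    rw [← Finset.card_powersetCard]
    refine Finset.card_le_card fun U₀ hU => ?_
    rw [Finset.mem_powersetCard] at hU
    rw [Finset.mem_filter, Finset.mem_powersetCard]
    exact ⟨⟨hU.1.trans (hS y hy), hU.2⟩, hU.1⟩
  have h3 : (m.factorial : ℝ) * ∑ U₀ ∈ Finset.powersetCard m V,
      (δ / 2 * (δ / 4) ^ m * (V.card : ℝ) ^ N) ≤
      (m.factorial : ℝ) * ∑ U₀ ∈ Finset.powersetCard m V,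
        ((G.filter fun y => U₀ ⊆ S y).card : ℝ) := by
    have h4 : ∑ U₀ ∈ Finset.powersetCard m V, ((G.filter fun y => U₀ ⊆ S y).card : ℝ) =
        ∑ y ∈ G, (((Finset.powersetCard m V).filter fun U₀ => U₀ ⊆ S y).card : ℝ) := by
      exact_mod_cast h1
    rw [h4, Finset.sum_const, Finset.card_powersetCard, nsmul_eq_mul, ← mul_assoc]
    calc (m.factorial : ℝ) * (V.card.choose m : ℝ) * (δ / 2 * (δ / 4) ^ m * (V.card : ℝ) ^ N)
        ≤ (V.card : ℝ) ^ m * (δ / 2 * (δ / 4) ^ m * (V.card : ℝ) ^ N) :=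
          mul_le_mul_of_nonneg_right (box_choose_le m V.card) (by positivity)
      _ = δ / 2 * (V.card : ℝ) ^ N * (δ / 4 * V.card) ^ m := by rw [mul_pow]; ring
      _ ≤ (G.card : ℝ) * (δ / 4 * V.card) ^ m :=
          mul_le_mul_of_nonneg_right hG (by positivity)
      _ = ∑ y ∈ G, (δ / 4 * (V.card : ℝ)) ^ m := by rw [Finset.sum_const, nsmul_eq_mul]
      _ ≤ ∑ y ∈ G, (m.factorial : ℝ) *
          (((Finset.powersetCard m V).filter fun U₀ => U₀ ⊆ S y).card : ℝ) := by
          refine Finset.sum_le_sum fun y hy => ?_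
          refine (box_choose m (S y).card _ (by positivity) (hc y hy)).trans ?_
          refine mul_le_mul_of_nonneg_left ?_ (by positivity)
          exact_mod_cast h2 y hy
      _ = (m.factorial : ℝ) * ∑ y ∈ G,
          (((Finset.powersetCard m V).filter fun U₀ => U₀ ⊆ S y).card : ℝ) := by
          rw [Finset.mul_sum]
  have h5 := le_of_mul_le_mul_left h3 (by positivity)
  obtain ⟨U₀, hU, h6⟩ := Finset.exists_le_of_sum_le hne h5
  rw [Finset.mem_powersetCard] at hU
  exact ⟨U₀, hU.1, hU.2, h6⟩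

theorem box (N m : ℕ) (δ : ℝ) (hδ : 0 < δ) : ∃ V₀ : ℕ, ∀ V : Finset ℕ, V₀ ≤ V.card →
    ∀ F : Finset (Fin N → ℕ), (∀ y ∈ F, ∀ i, y i ∈ V) → δ * (V.card : ℝ) ^ N ≤ F.card →
    ∃ U : Fin N → Finset ℕ, (∀ i, U i ⊆ V ∧ (U i).card = m) ∧
      ∀ y : Fin N → ℕ, (∀ i, y i ∈ U i) → y ∈ F := by
  classical
  induction N generalizing δ with
  | zero =>
    refine ⟨0, fun V _ F _ hF => ⟨fun i => i.elim0, fun i => i.elim0, fun y _ => ?_⟩⟩
    rw [pow_zero, mul_one] at hF
    have h1 : 0 < F.card := by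
      have : (0 : ℝ) < F.card := lt_of_lt_of_le hδ hF
      exact_mod_cast this
    obtain ⟨z, hz⟩ := Finset.card_pos.mp h1
    rwa [Subsingleton.elim y z]
  | succ N ih =>
    obtain ⟨V₁, hV₁⟩ := ih (δ / 2 * (δ / 4) ^ m) (by positivity)
    refine ⟨max V₁ (max m ⌈4 * m / δ⌉₊ + 1), fun V hV F hFV hF => ?_⟩
    have hV1 : V₁ ≤ V.card := (le_max_left _ _).trans hV
    have hV2 : max m ⌈4 * m / δ⌉₊ + 1 ≤ V.card := (le_max_right _ _).trans hV
    have hm : m ≤ V.card := by
      have := le_max_left m ⌈4 * m / δ⌉₊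
      omega
    have hV0 : 0 < V.card := by omega
    have hδm : (m : ℝ) ≤ δ / 4 * V.card := by
      have h1 : ⌈4 * m / δ⌉₊ ≤ V.card := by
        have := le_max_right m ⌈4 * m / δ⌉₊
        omega
      have h2 : 4 * m / δ ≤ (V.card : ℝ) := (Nat.le_ceil _).trans (by exact_mod_cast h1)
      rw [div_le_iff₀ hδ] at h2
      linarith
    obtain ⟨U₀, hU1, hU2, hU3⟩ := box_step m V hV0 hm
      ((Fintype.piFinset (fun _ : Fin N => V)).filter
        (fun y => δ / 2 * (V.card : ℝ) ≤ (boxS V F y).card)) (boxS V F)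
      (fun y _ => Finset.filter_subset _ _) δ hδ (box_good V hV0 F hFV δ hδ hF) (by
        intro y hy
        have := (Finset.mem_filter.mp hy).2
        linarith)
    obtain ⟨U', hU'1, hU'2⟩ := hV₁ V hV1 _ (by
      intro y hy i
      have h1 := (Finset.mem_filter.mp (Finset.mem_filter.mp hy).1).1
      exact Fintype.mem_piFinset.mp h1 i) hU3
    refine ⟨Fin.cons U₀ U', ?_, ?_⟩
    · intro i
      refine Fin.cases ?_ (fun j => ?_) i
      · rw [Fin.cons_zero]; exact ⟨hU1, hU2⟩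
      · rw [Fin.cons_succ]; exact hU'1 j
    · intro y hy
      have h0 := hy 0
      rw [Fin.cons_zero] at h0
      have h1 : Fin.tail y ∈ _ := hU'2 (Fin.tail y) (fun i => by
        have := hy i.succ
        rwa [Fin.cons_succ] at this)
      have h2 := (Finset.mem_filter.mp h1).2 h0
      have h3 := (Finset.mem_filter.mp h2).2
      rwa [Fin.cons_self_tail] at h3

end Pool.Agent.Lib.MP_092512_nt.FP
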