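import Pool.Agent.Lib.MP_092512_nt.FP.Defs

/-!
# F_P, ColSum: sums over colourings, one function for each colour; products over the primes `> z`

`col_sum_le'`: as `MT.col_sum_le` (file Lib/MT/Part.lean) with a different function for each colour: the map
`ρ ↦ (i ↦ part i ρ)` is injective into `∏_i P.powerset`, all terms are `≥ 0`, and `Finset.prod_univ_sum`.
`prod_inv`: `∏ (1 + a/(p(p-1))) ≤ exp (a ∑_{p > z} 1/(p(p-1))) ≤ exp (a/z) ≤ 1 + 2a/z` for `a ≤ z`
(`1 + x ≤ exp x`; `1/(n(n-1)) = 1/(n-1) - 1/n` telescopes; `exp t ≤ 1 + 2t` for `0 ≤ t ≤ 1`).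
`shift_sum`: for `f ≥ 0` on subsets with `f (s ∪ t) ≤ f s` for disjoint subsets (`g` antitone) and `b ≥ 0`:
`∑_{s ⊆ P} f s ∏_{p ∈ s} ((1/p)(1 + b p)) = ∑_s ∑_{t ⊆ s} f s ∏_s (1/p) ∏_t (b p) ≤ ∑_t ∏_t (b p/p) ∑_{s' ⊆ P} f s'/pr s'`.
-/

set_option autoImplicit false

open Finset

namespace Pool.Agent.Lib.MP_092512_nt.FP

open Pool.Agent.Lib.MT

private theorem ColSum_inj {P : Finset ℕ} {ι : Type} [Fintype ι] [DecidableEq ι]
    {ρ σ : Col P ι} (h : (fun i => part i ρ) = fun i => part i σ) : ρ = σ := by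
  funext p
  have h1 : ∀ i, ρ p = some i ↔ σ p = some i := by
    intro i
    have h2 := congrFun h i
    have h3 : (p : ℕ) ∈ part i ρ ↔ (p : ℕ) ∈ part i σ := by rw [h2]
    rw [mem_part, mem_part] at h3
    constructor
    · intro h4
      obtain ⟨_, h5⟩ := h3.1 ⟨p.2, h4⟩
      exact h5
    · intro h4
      obtain ⟨_, h5⟩ := h3.2 ⟨p.2, h4⟩
      exact h5
  cases hσ : σ p with
  | some j => exact (h1 j).2 hσ
  | none =>
    cases hρ : ρ p with
    | none => rfl
    | some j => rw [(h1 j).1 hρ] at hσ; exact absurd hσ (by simp)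

theorem col_sum_le' {P : Finset ℕ} {ι : Type} [Fintype ι] [DecidableEq ι] (F : ι → Finset ℕ → ℝ)
    (hF : ∀ i s, 0 ≤ F i s) :
    ∑ ρ : Col P ι, ∏ i, F i (part i ρ) ≤ ∏ i, ∑ s ∈ P.powerset, F i s := by
  classical
  rw [prod_univ_sum]
  have h2 : ∑ ρ : Col P ι, ∏ i, F i (part i ρ) =
      ∑ s ∈ (univ : Finset (Col P ι)).image (fun ρ => fun i => part i ρ), ∏ i, F i (s i) := by
    rw [sum_image]
    intro a _ b _ h
    exact ColSum_inj h
  rw [h2]
  refine sum_le_sum_of_subset_of_nonneg ?_ fun s _ _ => prod_nonneg fun i _ => hF _ _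
  intro s hs
  rw [mem_image] at hs
  obtain ⟨ρ, _, rfl⟩ := hs
  rw [Fintype.mem_piFinset]
  intro i
  rw [mem_powerset]
  exact part_subset i ρ

private theorem ColSum_tel (z : ℕ) (hz : 1 ≤ z) (k : ℕ) :
    ∑ n ∈ Ioc z (z + k), 1 / ((n : ℝ) * ((n : ℝ) - 1)) = 1 / z - 1 / ((z + k : ℕ) : ℝ) := by
  induction k with
  | zero => simp
  | succ k ih =>
    have h1 : (0 : ℝ) < z := by exact_mod_cast hz
    have h2 : (0 : ℝ) ≤ k := Nat.cast_nonneg k
    rw [← add_assoc, Finset.sum_Ioc_succ_top (by omega), ih]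
    push_cast
    have h3 : (z : ℝ) + k ≠ 0 := by positivity
    have h4 : (z : ℝ) + k + 1 ≠ 0 := by positivity
    have h5 : (z : ℝ) + k + 1 - 1 ≠ 0 := by
      rw [add_sub_cancel_right]
      exact h3
    field_simp
    ring

theorem prod_inv (P : Finset ℕ) (z : ℕ) (hz : 1 ≤ z) (hP : ∀ p ∈ P, z < p) (a : ℝ) (ha : 0 ≤ a)
    (haz : a ≤ z) : ∏ p ∈ P, (1 + a / ((p : ℝ) * ((p : ℝ) - 1))) ≤ 1 + 2 * a / z := by
  have hz0 : (0 : ℝ) < z := by exact_mod_cast hz
  have hpos : ∀ p ∈ P, (0 : ℝ) < (p : ℝ) * ((p : ℝ) - 1) := by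
    intro p hp
    have h1 : z < p := hP p hp
    have h2 : (1 : ℝ) < p := by exact_mod_cast (by omega : 1 < p)
    have h3 : (0 : ℝ) < (p : ℝ) - 1 := by linarith
    positivity
  have hs : ∑ p ∈ P, 1 / ((p : ℝ) * ((p : ℝ) - 1)) ≤ 1 / z := by
    obtain ⟨N, hN⟩ : ∃ N, ∀ p ∈ P, p ≤ N := ⟨P.sup id, fun p hp => Finset.le_sup (f := id) hp⟩
    have hsub : P ⊆ Ioc z (z + N) := by
      intro p hp
      rw [mem_Ioc]
      exact ⟨hP p hp, (hN p hp).trans (Nat.le_add_left _ _)⟩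
    calc ∑ p ∈ P, 1 / ((p : ℝ) * ((p : ℝ) - 1))
        ≤ ∑ n ∈ Ioc z (z + N), 1 / ((n : ℝ) * ((n : ℝ) - 1)) := by
          refine sum_le_sum_of_subset_of_nonneg hsub fun n hn _ => ?_
          rw [mem_Ioc] at hn
          have h2 : (1 : ℝ) < n := by exact_mod_cast (by omega : 1 < n)
          have h3 : (0 : ℝ) < (n : ℝ) - 1 := by linarith
          positivity
      _ = 1 / z - 1 / ((z + N : ℕ) : ℝ) := ColSum_tel z hz N
      _ ≤ 1 / z := sub_le_self _ (by positivity)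
  have ht0 : 0 ≤ a / z := by positivity
  have ht1 : a / z ≤ 1 := (div_le_one hz0).2 haz
  have he : Real.exp (a / z) ≤ 1 + 2 * (a / z) := by
    have h1 := Real.abs_exp_sub_one_sub_id_le (x := a / z) (by rw [abs_of_nonneg ht0]; exact ht1)
    have h2 := (abs_le.1 h1).2
    nlinarith
  calc ∏ p ∈ P, (1 + a / ((p : ℝ) * ((p : ℝ) - 1)))
      ≤ ∏ p ∈ P, Real.exp (a * (1 / ((p : ℝ) * ((p : ℝ) - 1)))) := by
        refine prod_le_prod (fun p hp => ?_) fun p hp => ?_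
        · have := (hpos p hp).le
          positivity
        · rw [mul_one_div, add_comm]
          exact Real.add_one_le_exp _
    _ = Real.exp (a * ∑ p ∈ P, 1 / ((p : ℝ) * ((p : ℝ) - 1))) := by
        rw [← Real.exp_sum, mul_sum]
    _ ≤ Real.exp (a / z) := by
        apply Real.exp_le_exp.2
        calc a * ∑ p ∈ P, 1 / ((p : ℝ) * ((p : ℝ) - 1)) ≤ a * (1 / z) :=
              mul_le_mul_of_nonneg_left hs ha
          _ = a / z := by ring
    _ ≤ 1 + 2 * (a / z) := he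
    _ = 1 + 2 * a / z := by ring

private theorem ColSum_shift (b : ℕ → ℝ) (hb : ∀ p, 0 ≤ b p) (P : Finset ℕ) :
    (∀ p ∈ P, 1 ≤ p) → ∀ f : ℕ → ℝ, (∀ n, 0 ≤ f n) → (∀ a b, a ≤ b → f b ≤ f a) →
    ∑ s ∈ P.powerset, f (pr s) * ∏ p ∈ s, (1 / (p : ℝ) * (1 + b p)) ≤
      (∏ p ∈ P, (1 + b p / p)) * ∑ s ∈ P.powerset, f (pr s) / (pr s : ℝ) := by
  induction P using Finset.induction_on with
  | empty => intro _ f _ _; simp [pr]
  | insert p P hp ih =>
    intro hP f hf0 hf1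
    have hp1 : 1 ≤ p := hP p (mem_insert_self p P)
    have hp0 : (0 : ℝ) < p := by exact_mod_cast hp1
    have hP' : ∀ q ∈ P, 1 ≤ q := fun q hq => hP q (mem_insert_of_mem hq)
    have hpr : ∀ s ∈ P.powerset, pr (insert p s) = p * pr s := by
      intro s hs
      have hps : p ∉ s := fun h => hp (mem_powerset.1 hs h)
      unfold pr
      exact prod_insert hps
    have hw : ∀ s ∈ P.powerset, (0 : ℝ) ≤ ∏ q ∈ s, (1 / (q : ℝ) * (1 + b q)) := by
      intro s hs
      refine prod_nonneg fun q hq => ?_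
      have := hb q
      positivity
    let F : ℕ → ℝ := fun m => f m + f (p * m) / p
    have hF0 : ∀ m, 0 ≤ F m := fun m => by
      have h1 := hf0 m
      have h2 := hf0 (p * m)
      show 0 ≤ f m + f (p * m) / p
      positivity
    have hF1 : ∀ x y, x ≤ y → F y ≤ F x := fun x y hxy => by
      have h1 := hf1 x y hxy
      have h2 := hf1 (p * x) (p * y) (Nat.mul_le_mul_left _ hxy)
      show f y + f (p * y) / p ≤ f x + f (p * x) / p
      have h3 : f (p * y) / p ≤ f (p * x) / p := by gcongr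
      linarith
    have hI := ih hP' F hF0 hF1
    have hR : ∑ s ∈ (insert p P).powerset, f (pr s) / (pr s : ℝ) =
        ∑ s ∈ P.powerset, F (pr s) / (pr s : ℝ) := by
      rw [sum_powerset_insert hp, ← sum_add_distrib]
      refine sum_congr rfl fun s hs => ?_
      rw [hpr s hs]
      show f (pr s) / (pr s : ℝ) + f (p * pr s) / ((p * pr s : ℕ) : ℝ) =
        (f (pr s) + f (p * pr s) / p) / (pr s : ℝ)
      push_cast
      rw [add_div, div_div]
    have hL : ∑ s ∈ (insert p P).powerset, f (pr s) * ∏ q ∈ s, (1 / (q : ℝ) * (1 + b q)) ≤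
        (1 + b p / p) * ∑ s ∈ P.powerset, F (pr s) * ∏ q ∈ s, (1 / (q : ℝ) * (1 + b q)) := by
      rw [sum_powerset_insert hp, ← sum_add_distrib, mul_sum]
      refine sum_le_sum fun s hs => ?_
      have hps : p ∉ s := fun h => hp (mem_powerset.1 hs h)
      rw [hpr s hs, prod_insert hps]
      have hw' := hw s hs
      set w := ∏ q ∈ s, (1 / (q : ℝ) * (1 + b q)) with hwdef
      have h1 : f (p * pr s) ≤ f (pr s) := hf1 _ _ (Nat.le_mul_of_pos_left _ hp1)
      have h2 := hf0 (p * pr s)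
      have h3 : 0 ≤ b p / p := div_nonneg (hb p) hp0.le
      have h4 : 0 ≤ f (p * pr s) / p := div_nonneg h2 hp0.le
      have h5 : f (pr s) + f (p * pr s) * (1 / (p : ℝ) * (1 + b p)) ≤ (1 + b p / p) * F (pr s) := by
        show _ ≤ (1 + b p / p) * (f (pr s) + f (p * pr s) / p)
        have h6 : f (p * pr s) * (1 / (p : ℝ) * (1 + b p)) =
            f (p * pr s) / p + (b p / p) * f (p * pr s) := by
          field_simp
        rw [h6]
        have h7 : (b p / p) * f (p * pr s) ≤ (b p / p) * f (pr s) :=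
          mul_le_mul_of_nonneg_left h1 h3
        have h8 : 0 ≤ (b p / p) * (f (p * pr s) / p) := mul_nonneg h3 h4
        nlinarith
      calc f (pr s) * w + f (p * pr s) * (1 / (p : ℝ) * (1 + b p) * w)
          = (f (pr s) + f (p * pr s) * (1 / (p : ℝ) * (1 + b p))) * w := by ring
        _ ≤ ((1 + b p / p) * F (pr s)) * w := mul_le_mul_of_nonneg_right h5 hw'
        _ = (1 + b p / p) * (F (pr s) * w) := by ring
    rw [hR, prod_insert hp, mul_assoc]
    refine hL.trans (mul_le_mul_of_nonneg_left hI ?_)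
    have h3 : 0 ≤ b p / p := div_nonneg (hb p) hp0.le
    linarith

theorem shift_sum (P : Finset ℕ) (hP : ∀ p ∈ P, 1 ≤ p) (f : ℕ → ℝ) (hf0 : ∀ n, 0 ≤ f n)
    (hf1 : ∀ a b, a ≤ b → f b ≤ f a) (b : ℕ → ℝ) (hb : ∀ p, 0 ≤ b p) :
    ∑ s ∈ P.powerset, f (pr s) * ∏ p ∈ s, (1 / (p : ℝ) * (1 + b p)) ≤
      (∏ p ∈ P, (1 + b p / p)) * ∑ s ∈ P.powerset, f (pr s) / (pr s : ℝ) := by
  exact ColSum_shift b hb P hP f hf0 hf1

end Pool.Agent.Lib.MP_092512_nt.FP
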