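import Pool.Agent.Lib.MP_092512_nt.FP.Defs
import Pool.Agent.Lib.Sieve.Pair
import Pool.Agent.Lib.Sieve.Lower

/-!
# F_P, Gph: `∑ 1/φ(s)` over squarefree `s ≤ Z` composed of primes `> z` is at least `∏_{p ≤ z}(1 - 1/p) log Z`

PROOF.  `log Z ≤ ∑_{n ≤ Z} 1/n` (`Real.log_le_harmonic..` or similar).  `a = primorial z`: `Sieve.harmonic_le_coprime a Z`:
`∑_{n ≤ Z} 1/n ≤ (a/φ(a)) ∑_{v ≤ Z, (v,a)=1} 1/v`, `φ(a)/a = kap z` (`kap z = ∏_{p ∈ PP 0 z}(1 - 1/p)`,
`Nat.totient_eq_mul_prod_factors`, prime factors of the primorial = primes `≤ z`).  The `v ≤ Z` prime to `a` have all prime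
factors in `(z, Z] ⊆ (z, T]`; group them by `s = v.primeFactors ⊆ PP z T`, `pr s ≤ v ≤ Z`;
`∑_{v ≤ Z, v.primeFactors = s} 1/v ≤ ∏_{p ∈ s} (1/p)/(1 - 1/p) = phs s` (`Sieve.sum_primeFactors_eq_le` with `f v = 1/v`).
-/

set_option autoImplicit false

open Finset

namespace Pool.Agent.Lib.MP_092512_nt.FP

open Pool.Agent.Lib.MT

private theorem Gph_log (Z : ℕ) (hZ : 1 ≤ Z) :
    Real.log Z ≤ ∑ w ∈ Finset.Icc 1 Z, (1 : ℝ) / w := by
  have h1 : Real.log (Z : ℝ) ≤ Real.log ((Z + 1 : ℕ) : ℝ) := by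
    apply Real.log_le_log
    · exact_mod_cast hZ
    · push_cast; linarith
  have h2 := log_add_one_le_harmonic Z
  have h3 : ((harmonic Z : ℚ) : ℝ) = ∑ w ∈ Finset.Icc 1 Z, (1 : ℝ) / w := by
    rw [harmonic_eq_sum_Icc]
    push_cast
    exact Finset.sum_congr rfl fun w _ => (one_div _).symm
  rw [← h3]
  exact h1.trans h2

private theorem Gph_prime {z : ℕ} : ∀ p ∈ PP 0 z, p.Prime := by
  intro p hp
  rw [PP, Finset.mem_filter] at hp
  exact hp.2.1

private theorem Gph_kap (z : ℕ) : 0 < kap z := by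
  rw [kap]
  refine Finset.prod_pos fun p hp => ?_
  have h1 : (1 : ℝ) < p := by exact_mod_cast (Gph_prime p hp).one_lt
  have h2 : 1 / (p : ℝ) < 1 := by rw [div_lt_one (by linarith)]; exact h1
  linarith

private theorem Gph_tot (z : ℕ) : (((∏ p ∈ PP 0 z, p : ℕ)) : ℝ) /
    (Nat.totient (∏ p ∈ PP 0 z, p) : ℝ) = 1 / kap z := by
  have h0 : (∏ p ∈ PP 0 z, p) ≠ 0 := Finset.prod_ne_zero_iff.mpr fun p hp =>
    (Gph_prime p hp).ne_zero
  have h1 := Nat.totient_eq_mul_prod_factors (∏ p ∈ PP 0 z, p)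
  rw [Nat.primeFactors_prod Gph_prime] at h1
  have h2 : (Nat.totient (∏ p ∈ PP 0 z, p) : ℝ) = ((∏ p ∈ PP 0 z, p : ℕ) : ℝ) * kap z := by
    have h3 : (((Nat.totient (∏ p ∈ PP 0 z, p) : ℚ)) : ℝ) =
        (((((∏ p ∈ PP 0 z, p : ℕ) : ℚ)) * ∏ p ∈ PP 0 z, (1 - ((p : ℚ))⁻¹) : ℚ) : ℝ) := by
      rw [h1]
    rw [Rat.cast_natCast] at h3
    rw [h3, Rat.cast_mul, Rat.cast_natCast, Rat.cast_prod, kap]
    congr 1
    refine Finset.prod_congr rfl fun p _ => ?_
    push_cast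
    rw [one_div]
  have h4 : ((∏ p ∈ PP 0 z, p : ℕ) : ℝ) ≠ 0 := by exact_mod_cast h0
  have h5 := (Gph_kap z).ne'
  rw [h2]
  field_simp

theorem Gph (z T Z : ℕ) (hZ : 1 ≤ Z) (hZT : Z ≤ T) : kap z * Real.log Z ≤ Gp (PP z T) Z := by
  classical
  have h0 : (∏ p ∈ PP 0 z, p) ≠ 0 := Finset.prod_ne_zero_iff.mpr fun p hp =>
    (Gph_prime p hp).ne_zero
  have h1 := Sieve.harmonic_le_coprime (∏ p ∈ PP 0 z, p) Z h0
  rw [Gph_tot, one_div, ← div_eq_inv_mul, le_div_iff₀ (Gph_kap z)] at h1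
  have h2 : kap z * Real.log Z ≤
      ∑ v ∈ Finset.Icc 1 Z with v.Coprime (∏ p ∈ PP 0 z, p), (1 : ℝ) / v := by
    refine le_trans ?_ h1
    rw [mul_comm]
    exact mul_le_mul_of_nonneg_right (Gph_log Z hZ) (Gph_kap z).le
  refine h2.trans ?_
  have hmaps : ∀ v ∈ (Finset.Icc 1 Z).filter (fun v => v.Coprime (∏ p ∈ PP 0 z, p)),
      v.primeFactors ∈ (PP z T).powerset.filter (fun s => pr s ≤ Z) := by
    intro v hv
    rw [Finset.mem_filter, Finset.mem_Icc] at hv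
    obtain ⟨⟨hv1, hv2⟩, hv3⟩ := hv
    rw [Finset.mem_filter, Finset.mem_powerset]
    refine ⟨fun p hp => ?_, ?_⟩
    · have hpp := Nat.prime_of_mem_primeFactors hp
      have hpv := Nat.dvd_of_mem_primeFactors hp
      have hple := Nat.le_of_dvd (by omega) hpv
      rw [PP, Finset.mem_filter, Finset.mem_range]
      refine ⟨by omega, hpp, ?_⟩
      by_contra hzp
      have hmem : p ∈ PP 0 z := by
        rw [PP, Finset.mem_filter, Finset.mem_range]
        exact ⟨by omega, hpp, hpp.pos⟩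
      have h3 : p ∣ ∏ p ∈ PP 0 z, p := Finset.dvd_prod_of_mem _ hmem
      exact hpp.one_lt.ne' (Nat.eq_one_of_dvd_coprimes hv3 hpv h3)
    · rw [pr]
      exact (Nat.le_of_dvd (by omega) (Nat.prod_primeFactors_dvd v)).trans hv2
  rw [← Finset.sum_fiberwise_of_maps_to hmaps, Gp]
  refine Finset.sum_le_sum fun s hs => ?_
  rw [Finset.mem_filter, Finset.mem_powerset] at hs
  have hsp : ∀ p ∈ s, p.Prime := by
    intro p hp
    have := hs.1 hp
    rw [PP, Finset.mem_filter] at this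
    exact this.2.1
  have h4 := Sieve.sum_primeFactors_eq_le (fun n => (1 : ℝ) / n) (fun n => by positivity)
    (by norm_num) (fun m n => by push_cast; rw [one_div_mul_one_div]) Z s hsp (by
      intro p hp
      have h1 : (1 : ℝ) < p := by exact_mod_cast (hsp p hp).one_lt
      rw [div_lt_one (by linarith)]
      exact h1)
  have h5 : ∏ p ∈ s, ((1 : ℝ) / p) / (1 - 1 / p) = phs s := by
    rw [phs]
    refine Finset.prod_congr rfl fun p hp => ?_
    have h1 : (1 : ℝ) < p := by exact_mod_cast (hsp p hp).one_lt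
    have h2 : (p : ℝ) ≠ 0 := by linarith
    have h3 : (p : ℝ) - 1 ≠ 0 := by linarith
    have h6 : 1 - 1 / (p : ℝ) ≠ 0 := by
      rw [show 1 - 1 / (p : ℝ) = (p - 1) / p by field_simp]
      exact div_ne_zero h3 h2
    field_simp
  rw [← h5]
  refine le_trans ?_ h4
  refine Finset.sum_le_sum_of_subset_of_nonneg ?_ (fun v _ _ => by positivity)
  intro v hv
  rw [Finset.mem_filter, Finset.mem_filter] at hv
  rw [Finset.mem_filter]
  exact ⟨hv.1.1, hv.2⟩

end Pool.Agent.Lib.MP_092512_nt.FP
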