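import Pool.Agent.Lib.MP_092512_nt.FP.Defs

/-!
# F_P, GrGe: `Gr Z ρ` is not much smaller than `Gp P Z`

PROOF.  (As `MT.GG_ge`, file Lib/MT/S3main.lean.)  Let `U` be the set of the primes coloured by `ρ`.  Every `s ⊆ P` with
`pr s ≤ Z` is `t ∪ s'`, `t = s ∩ U`, `s' = s \ U`, `pr s' ≤ pr s ≤ Z`, `phs s = phs t * phs s'`, so
`Gp P Z ≤ (∑_{t ⊆ U} phs t) * Gr Z ρ` and `∑_{t ⊆ U} phs t = ∏_{p ∈ U} (1 + 1/(p-1)) = ∏_{p ∈ U} p/(p-1)`
(`Finset.prod_one_add`/`Finset.prod_add_one`-type).  `Gr_one`: the term `s = ∅`, all terms `≥ 0`.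
-/

set_option autoImplicit false

open Finset

namespace Pool.Agent.Lib.MP_092512_nt.FP

open Pool.Agent.Lib.MT

variable {P : Finset ℕ} {ι : Type} [Fintype ι] [DecidableEq ι]

private lemma grge_phs_nonneg (hP : ∀ p ∈ P, p.Prime) (s : Finset ℕ) (hs : s ⊆ P) : 0 ≤ phs s := by
  rw [phs]
  refine Finset.prod_nonneg fun p hp => ?_
  have h1 : (2 : ℝ) ≤ p := by exact_mod_cast (hP p (hs hp)).two_le
  exact div_nonneg zero_le_one (by linarith)

theorem Gr_one (hP : ∀ p ∈ P, p.Prime) (Z : ℕ) (hZ : 1 ≤ Z) (ρ : Col P ι) : 1 ≤ Gr Z ρ := by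
  classical
  rw [Gr]
  have h0 : (∅ : Finset ℕ) ∈
      (P.filter (fun p => ∀ i, p ∉ part i ρ)).powerset.filter (fun s => pr s ≤ Z) := by
    rw [mem_filter, mem_powerset]
    refine ⟨Finset.empty_subset _, ?_⟩
    rw [pr, Finset.prod_empty]
    exact hZ
  have h1 : phs ∅ = 1 := by rw [phs, Finset.prod_empty]
  rw [← h1]
  refine Finset.single_le_sum (f := phs) (fun s hs => ?_) h0
  rw [mem_filter, mem_powerset] at hs
  exact grge_phs_nonneg hP s (hs.1.trans (Finset.filter_subset _ _))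

theorem Gr_ge (hP : ∀ p ∈ P, p.Prime) (Z : ℕ) (ρ : Col P ι) :
    Gp P Z ≤ (∏ p : {p : ℕ // p ∈ P}, (if ρ p = none then (1 : ℝ) else
      ((p : ℕ) : ℝ) / (((p : ℕ) : ℝ) - 1))) * Gr Z ρ := by
  classical
  set U := P.filter (fun p => ∀ i, p ∉ part i ρ) with hU
  have hnone : ∀ p : {p : ℕ // p ∈ P}, ρ p = none ↔ (p : ℕ) ∈ U := by
    intro p
    rw [hU, mem_filter]
    constructor
    · intro h
      refine ⟨p.2, fun i hi => ?_⟩
      rw [mem_part] at hi
      obtain ⟨_, h2⟩ := hi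
      rw [h] at h2
      exact absurd h2 (by simp)
    · rintro ⟨_, h⟩
      rcases h2 : ρ p with _ | i
      · rfl
      · exact absurd ((mem_part i ρ p).2 ⟨p.2, h2⟩) (h i)
  have h1 : (∏ p : {p : ℕ // p ∈ P}, (if ρ p = none then (1 : ℝ) else
      ((p : ℕ) : ℝ) / (((p : ℕ) : ℝ) - 1))) = ∑ e ∈ (P \ U).powerset, phs e := by
    have h2 : (∏ p : {p : ℕ // p ∈ P}, (if ρ p = none then (1 : ℝ) else
        ((p : ℕ) : ℝ) / (((p : ℕ) : ℝ) - 1))) =
        ∏ p : {p : ℕ // p ∈ P}, (if (p : ℕ) ∈ U then (1 : ℝ) else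
          ((p : ℕ) : ℝ) / (((p : ℕ) : ℝ) - 1)) := by
      refine Finset.prod_congr rfl fun p _ => ?_
      simp only [hnone]
    rw [h2, Finset.prod_coe_sort P (fun p => if p ∈ U then (1 : ℝ) else (p : ℝ) / ((p : ℝ) - 1))]
    have h3 : ∏ p ∈ P, (if p ∈ U then (1 : ℝ) else (p : ℝ) / ((p : ℝ) - 1)) =
        ∏ p ∈ P \ U, (1 + 1 / ((p : ℝ) - 1)) := by
      rw [Finset.prod_ite, Finset.prod_const_one, one_mul]
      refine Finset.prod_congr ?_ fun p hp => ?_
      · ext p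
        rw [mem_filter, mem_sdiff]
      · have h4 : (2 : ℝ) ≤ p := by exact_mod_cast (hP p (mem_sdiff.1 hp).1).two_le
        have h5 : (p : ℝ) - 1 ≠ 0 := by linarith
        field_simp
        ring
    rw [h3, Finset.prod_one_add]
    rfl
  rw [h1, Gr, ← hU, Finset.sum_mul_sum, ← Finset.sum_product', Gp]
  have hinj : ∀ s ∈ P.powerset.filter (fun s => pr s ≤ Z), ∀ s' ∈ P.powerset.filter
      (fun s => pr s ≤ Z), (s \ U, s ∩ U) = (s' \ U, s' ∩ U) → s = s' := by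
    intro s _ s' _ h
    rw [Prod.mk.injEq] at h
    rw [← Finset.sdiff_union_inter s U, ← Finset.sdiff_union_inter s' U, h.1, h.2]
  have h4 : ∑ s ∈ P.powerset.filter (fun s => pr s ≤ Z), phs s =
      ∑ q ∈ (P.powerset.filter (fun s => pr s ≤ Z)).image (fun s => (s \ U, s ∩ U)),
        phs q.1 * phs q.2 := by
    rw [Finset.sum_image hinj]
    refine Finset.sum_congr rfl fun s _ => ?_
    simp only
    rw [phs, phs, phs, ← Finset.prod_union (Finset.disjoint_sdiff_inter s U),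
      Finset.sdiff_union_inter]
  rw [h4]
  refine Finset.sum_le_sum_of_subset_of_nonneg ?_ (fun q hq _ => ?_)
  · intro q hq
    rw [mem_image] at hq
    obtain ⟨s, hs, rfl⟩ := hq
    rw [mem_filter, mem_powerset] at hs
    rw [mem_product, mem_powerset, mem_filter, mem_powerset]
    refine ⟨Finset.sdiff_subset_sdiff hs.1 le_rfl, Finset.inter_subset_right, ?_⟩
    have h5 : pr (s ∩ U) ≤ pr s := by
      rw [pr, pr]
      refine Finset.prod_le_prod_of_subset_of_one_le' Finset.inter_subset_left (fun p hp _ => ?_)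
      exact (hP p (hs.1 hp)).one_lt.le
    exact h5.trans hs.2
  · rw [mem_product, mem_powerset, mem_filter, mem_powerset] at hq
    refine mul_nonneg (grge_phs_nonneg hP _ (hq.1.trans Finset.sdiff_subset)) ?_
    exact grge_phs_nonneg hP _ (hq.2.1.trans (Finset.filter_subset _ _))

end Pool.Agent.Lib.MP_092512_nt.FP
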