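import Pool.Agent.Lib.MP_092512_nt.FP.Vbd
import Pool.Agent.Lib.MP_092512_nt.FP.GrGe
import Pool.Agent.Lib.MP_092512_nt.FP.Gph

/-!
# F_P, Cost: the value of the form for the pair `l`, `m`

PROOF.  For `ρ` avoiding `l`, `m`: `V^2 ≤ (1 + 2M/z)^2 ∏_{i≠l,m} g(prt i ρ)^2 AA^4` (`V_le`), and by `Gr_ge`, `Gph`:
`1/Gr Z ρ ≤ ∏_{p coloured} (p/(p-1)) / (kap z * log Z)` (`Gr ≥ 1 > 0`, `kap z log Z > 0`).  `(1/(p-1)) (p/(p-1)) = p/(p-1)^2 ≤ (1/p)(1 + 4/p)`
for `p ≥ 3`.  So the sum is at most `(1 + 2M/z)^2 AA^4/(kap z log Z)` times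
`∑_ρ ∏_{i≠l,m} [g(prt i ρ)^2 ∏_{p ∈ part i ρ} (1/p)(1 + 4/p)] ∏_{i=l,m} [part i ρ = ∅] ≤ (∑_s g(pr s)^2 ∏_{p∈s} (1/p)(1+4/p))^(M-2)`
(`col_sum_le'` with `F l s = F m s = if s = ∅ then 1 else 0`; `MT.prod_col`), and by `shift_sum` (`f = g^2`, `b p = 4/p`) the sum over
`s` is `≤ BB ∏_{p∈P}(1 + 4/p^2)`, `∏ (1+4/p^2) ≤ exp (4/z)`, `exp (4M/z) ≤ 1 + 8M/z` as `4M ≤ z`.  (`1/p^2 ≤ 1/(p(p-1))`.)
-/

set_option autoImplicit false

open Finset

namespace Pool.Agent.Lib.MP_092512_nt.FP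

open Pool.Agent.Lib.MT

variable {ι : Type} [Fintype ι] [DecidableEq ι]

private theorem Cost_mem {w R p : ℕ} (h : p ∈ PP w R) : p.Prime ∧ w < p := by
  unfold PP at h
  exact (mem_filter.mp h).2

private theorem Cost_tail (w R : ℕ) (hw1 : 1 ≤ w) : ∑ p ∈ PP w R, 1 / (p : ℝ) ^ 2 ≤ 1 / (w : ℝ) := by
  by_cases hwR : w ≤ R
  · have h1 : ∑ p ∈ PP w R, 1 / (p : ℝ) ^ 2 ≤ ∑ i ∈ Ioc w R, ((i : ℝ) ^ 2)⁻¹ := by
      have h2 : PP w R ⊆ Ioc w R := by
        intro p hp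
        unfold PP at hp
        rw [mem_filter, mem_range] at hp
        rw [mem_Ioc]
        exact ⟨hp.2.2, Nat.lt_succ_iff.mp hp.1⟩
      refine le_trans (sum_le_sum_of_subset_of_nonneg h2 (fun i _ _ => by positivity)) (le_of_eq ?_)
      exact sum_congr rfl (fun i _ => one_div _)
    have h3 := sum_Ioc_inv_sq_le_sub (α := ℝ) (Nat.pos_iff_ne_zero.mp hw1) hwR
    have h4 : (0 : ℝ) ≤ ((R : ℝ))⁻¹ := by positivity
    rw [one_div]
    linarith
  · have h1 : PP w R = ∅ := by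
      refine filter_eq_empty_iff.mpr (fun p hp h => ?_)
      rw [mem_range] at hp
      omega
    rw [h1, sum_empty]
    positivity

private theorem Cost_exp (t : ℝ) (ht : t ≤ 1 / 2) (ht0 : 0 ≤ t) : Real.exp t ≤ 1 + 2 * t := by
  have h1 : 1 - t ≤ Real.exp (-t) := Real.one_sub_le_exp_neg t
  have h2 : Real.exp t * Real.exp (-t) = 1 := by rw [← Real.exp_add, add_neg_cancel, Real.exp_zero]
  have h3 : 0 < Real.exp t := Real.exp_pos t
  have h4 : Real.exp t * (1 - t) ≤ 1 :=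
    (mul_le_mul_of_nonneg_left h1 h3.le).trans (le_of_eq h2)
  have h5 : (1 : ℝ) ≤ (1 + 2 * t) * (1 - t) := by nlinarith
  have h6 : 0 < 1 - t := by linarith
  exact le_of_mul_le_mul_right (h4.trans h5) h6

private theorem Cost_kap (z : ℕ) : 0 < kap z := by
  unfold kap
  refine prod_pos fun p hp => ?_
  have h1 : (1 : ℝ) < p := by exact_mod_cast (Cost_mem hp).1.one_lt
  have h2 : 1 / (p : ℝ) < 1 := by
    rw [div_lt_one (by linarith)]
    exact h1
  linarith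

private theorem Cost_p (p : ℕ) (hp : 3 ≤ p) :
    1 / ((p : ℝ) - 1) * ((p : ℝ) / ((p : ℝ) - 1)) ≤ 1 / (p : ℝ) * (1 + 4 / (p : ℝ)) := by
  have h1 : (3 : ℝ) ≤ p := by exact_mod_cast hp
  have h2 : (0 : ℝ) < (p : ℝ) - 1 := by linarith
  have h3 : (0 : ℝ) < p := by linarith
  have h4 : 1 / ((p : ℝ) - 1) * ((p : ℝ) / ((p : ℝ) - 1)) = p / ((p - 1) * (p - 1)) := by
    field_simp
  have h5 : 1 / (p : ℝ) * (1 + 4 / (p : ℝ)) = (p + 4) / (p * p) := by
    field_simp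
  rw [h4, h5, div_le_div_iff₀ (by positivity) (by positivity)]
  nlinarith [mul_nonneg (by linarith : (0 : ℝ) ≤ p - 3) h3.le]

/-- the functions for the colours -/
private noncomputable def Cost_F (g : ℕ → ℝ) (l m : ι) (i : ι) (s : Finset ℕ) : ℝ :=
  if i = l ∨ i = m then (if s = ∅ then 1 else 0) else
    g (pr s) ^ 2 * ∏ p ∈ s, (1 / (p : ℝ) * (1 + 4 / (p : ℝ)))

private theorem Cost_F0 (g : ℕ → ℝ) (l m : ι) (i : ι) (s : Finset ℕ) : 0 ≤ Cost_F g l m i s := by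
  unfold Cost_F
  split_ifs
  · exact zero_le_one
  · exact le_rfl
  · exact mul_nonneg (sq_nonneg _) (prod_nonneg fun p _ => by positivity)

private theorem Cost_Fprod {P : Finset ℕ} (g : ℕ → ℝ) (l m : ι) (hlm : l ≠ m) (ρ : Col P ι)
    (hρ : Avd l m ρ) :
    ∏ i, Cost_F g l m i (part i ρ) = (∏ i ∈ (univ.erase l).erase m, g (prt i ρ)) ^ 2 *
      ∏ p : {p : ℕ // p ∈ P}, (if ρ p = none then (1 : ℝ) else
        1 / ((p : ℕ) : ℝ) * (1 + 4 / ((p : ℕ) : ℝ))) := by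
  have hl : part l ρ = ∅ := by
    rw [eq_empty_iff_forall_notMem]
    intro p hp
    obtain ⟨h1, h2⟩ := (mem_part l ρ p).mp hp
    exact (hρ ⟨p, h1⟩).1 h2
  have hm : part m ρ = ∅ := by
    rw [eq_empty_iff_forall_notMem]
    intro p hp
    obtain ⟨h1, h2⟩ := (mem_part m ρ p).mp hp
    exact (hρ ⟨p, h1⟩).2 h2
  have hml : m ∈ univ.erase l := mem_erase.mpr ⟨hlm.symm, mem_univ m⟩
  rw [prod_col (fun p => 1 / (p : ℝ) * (1 + 4 / (p : ℝ))) ρ,
    ← mul_prod_erase univ _ (mem_univ l), ← mul_prod_erase (univ.erase l) _ hml,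
    ← mul_prod_erase univ (fun i => ∏ p ∈ part i ρ, (1 / (p : ℝ) * (1 + 4 / (p : ℝ)))) (mem_univ l),
    ← mul_prod_erase (univ.erase l) (fun i => ∏ p ∈ part i ρ, (1 / (p : ℝ) * (1 + 4 / (p : ℝ)))) hml,
    hl, hm, prod_empty]
  have e1 : Cost_F g l m l ∅ = 1 := by
    unfold Cost_F
    simp
  have e2 : Cost_F g l m m ∅ = 1 := by
    unfold Cost_F
    simp
  rw [e1, e2, one_mul, one_mul, one_mul, one_mul, ← prod_pow, ← prod_mul_distrib]
  refine prod_congr rfl fun i hi => ?_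
  rw [mem_erase, mem_erase] at hi
  unfold Cost_F
  rw [if_neg (by
    rintro (h | h)
    · exact hi.2.1 h
    · exact hi.1 h), prt_eq]

private theorem Cost_sum {P : Finset ℕ} (g : ℕ → ℝ) (l m : ι) (hlm : l ≠ m) :
    ∏ i, ∑ s ∈ P.powerset, Cost_F g l m i s =
      (∑ s ∈ P.powerset, g (pr s) ^ 2 * ∏ p ∈ s, (1 / (p : ℝ) * (1 + 4 / (p : ℝ)))) ^
        (Fintype.card ι - 2) := by
  have hml : m ∈ univ.erase l := mem_erase.mpr ⟨hlm.symm, mem_univ m⟩
  have e : ∀ i, i = l ∨ i = m → ∑ s ∈ P.powerset, Cost_F g l m i s = 1 := by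
    intro i hi
    unfold Cost_F
    simp only [if_pos hi]
    rw [sum_ite_eq' P.powerset (∅ : Finset ℕ) (fun _ => (1 : ℝ)), if_pos (empty_mem_powerset P)]
  rw [← mul_prod_erase univ _ (mem_univ l), ← mul_prod_erase (univ.erase l) _ hml,
    e l (Or.inl rfl), e m (Or.inr rfl), one_mul, one_mul]
  have e2 : ∀ i ∈ (univ.erase l).erase m, ∑ s ∈ P.powerset, Cost_F g l m i s =
      ∑ s ∈ P.powerset, g (pr s) ^ 2 * ∏ p ∈ s, (1 / (p : ℝ) * (1 + 4 / (p : ℝ))) := by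
    intro i hi
    rw [mem_erase, mem_erase] at hi
    refine sum_congr rfl fun s _ => ?_
    unfold Cost_F
    rw [if_neg (by
      rintro (h | h)
      · exact hi.2.1 h
      · exact hi.1 h)]
  rw [prod_congr rfl e2, prod_const, card_erase_of_mem hml, card_erase_of_mem (mem_univ l),
    card_univ, Nat.sub_sub]

open Classical in
theorem cost (z T Z : ℕ) (hz : 8 * Fintype.card ι + 2 ≤ z) (hZ : 2 ≤ Z) (hZT : Z ≤ T) (R : ℕ)
    (g : ℕ → ℝ) (hg0 : ∀ n, 0 ≤ g n) (hg1 : ∀ a b, a ≤ b → g b ≤ g a) (l m : ι) (hlm : l ≠ m) :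
    ∑ ρ ∈ univ.filter (fun ρ : Col (PP z T) ι => Avd l m ρ),
        (∏ p : {p : ℕ // p ∈ PP z T}, (if ρ p = none then (1 : ℝ) else 1 / (((p : ℕ) : ℝ) - 1))) *
          ((AL (el l m) (zz g R) ρ) ^ 2 / Gr Z ρ) ≤
      (1 + 2 * Fintype.card ι / z) ^ 2 * (1 + 8 * Fintype.card ι / z) *
        (AA (PP z T) g ^ 4 * BB (PP z T) g ^ (Fintype.card ι - 2) / (kap z * Real.log Z)) := by
  have hz1 : 1 ≤ z := by omega
  have hz0 : (0 : ℝ) < z := by exact_mod_cast hz1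
  have hP : ∀ p ∈ PP z T, p.Prime := fun p hp => (Cost_mem hp).1
  have hPz : ∀ p ∈ PP z T, z < p := fun p hp => (Cost_mem hp).2
  have hM2 : 2 ≤ Fintype.card ι := by
    have h1 : ({l, m} : Finset ι).card ≤ Fintype.card ι := card_le_univ _
    rwa [card_pair hlm] at h1
  have hlog : 0 < Real.log Z := Real.log_pos (by exact_mod_cast hZ)
  have hD : 0 < kap z * Real.log Z := mul_pos (Cost_kap z) hlog
  set D := kap z * Real.log Z with hDdef
  set c1 : ℝ := 1 + 2 * Fintype.card ι / z with hc1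
  have hc10 : 0 ≤ c1 := by positivity
  have hterm : ∀ ρ : Col (PP z T) ι, Avd l m ρ →
      (∏ p : {p : ℕ // p ∈ PP z T}, (if ρ p = none then (1 : ℝ) else 1 / (((p : ℕ) : ℝ) - 1))) *
          ((AL (el l m) (zz g R) ρ) ^ 2 / Gr Z ρ) ≤
        (c1 ^ 2 * AA (PP z T) g ^ 4 / D) * ∏ i, Cost_F g l m i (part i ρ) := by
    intro ρ hρ
    have hG1 := Gr_one hP Z (by omega) ρ
    have hG0 : 0 < Gr Z ρ := by linarith
    have h1 := Gr_ge hP Z ρ
    have h2 := (Gph z T Z (by omega) hZT).trans h1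
    set Qr : ℝ := ∏ p : {p : ℕ // p ∈ PP z T}, (if ρ p = none then (1 : ℝ) else
      ((p : ℕ) : ℝ) / (((p : ℕ) : ℝ) - 1)) with hQr
    have h3 : 1 / Gr Z ρ ≤ Qr / D := by
      rw [div_le_div_iff₀ hG0 hD, one_mul]
      exact h2
    have hV := V_le z hz1 hP hPz (by omega) R g hg0 hg1 l m hlm ρ hρ
    have hV2 : (AL (el l m) (zz g R) ρ) ^ 2 ≤
        c1 ^ 2 * ((∏ i ∈ (univ.erase l).erase m, g (prt i ρ)) ^ 2 * AA (PP z T) g ^ 4) := by
      rw [← sq_abs]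
      refine (pow_le_pow_left₀ (abs_nonneg _) hV 2).trans (le_of_eq ?_)
      ring
    rw [Cost_Fprod g l m hlm ρ hρ]
    set G2 : ℝ := (∏ i ∈ (univ.erase l).erase m, g (prt i ρ)) ^ 2 with hG2
    have hG20 : 0 ≤ G2 := sq_nonneg _
    have hA0 : ∀ p : {p : ℕ // p ∈ PP z T}, (0 : ℝ) <
        (if ρ p = none then (1 : ℝ) else 1 / (((p : ℕ) : ℝ) - 1)) := by
      intro p
      split_ifs
      · exact zero_lt_one
      · have : (1 : ℝ) < ((p : ℕ) : ℝ) := by exact_mod_cast (hP p p.2).one_lt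
        have h5 : (0 : ℝ) < ((p : ℕ) : ℝ) - 1 := by linarith
        positivity
    have h4 : (∏ p : {p : ℕ // p ∈ PP z T}, (if ρ p = none then (1 : ℝ) else
        1 / (((p : ℕ) : ℝ) - 1))) * Qr ≤
        ∏ p : {p : ℕ // p ∈ PP z T}, (if ρ p = none then (1 : ℝ) else
        1 / ((p : ℕ) : ℝ) * (1 + 4 / ((p : ℕ) : ℝ))) := by
      rw [hQr, ← prod_mul_distrib]
      refine prod_le_prod (fun p _ => ?_) (fun p _ => ?_)
      · have h6 := hA0 p
        have h7 : (0 : ℝ) ≤ (if ρ p = none then (1 : ℝ) else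
            ((p : ℕ) : ℝ) / (((p : ℕ) : ℝ) - 1)) := by
          split_ifs
          · exact zero_le_one
          · have : (1 : ℝ) < ((p : ℕ) : ℝ) := by exact_mod_cast (hP p p.2).one_lt
            have h5 : (0 : ℝ) < ((p : ℕ) : ℝ) - 1 := by linarith
            positivity
        exact mul_nonneg h6.le h7
      · split_ifs
        · rw [one_mul]
        · exact Cost_p p (by
            have := hPz p p.2
            omega)
    set Pa : ℝ := ∏ p : {p : ℕ // p ∈ PP z T}, (if ρ p = none then (1 : ℝ) else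
        1 / (((p : ℕ) : ℝ) - 1)) with hPa
    have hPa0 : 0 < Pa := prod_pos fun p _ => hA0 p
    set W : ℝ := ∏ p : {p : ℕ // p ∈ PP z T}, (if ρ p = none then (1 : ℝ) else
        1 / ((p : ℕ) : ℝ) * (1 + 4 / ((p : ℕ) : ℝ))) with hW
    have hA4 : 0 ≤ AA (PP z T) g ^ 4 := by positivity
    calc Pa * ((AL (el l m) (zz g R) ρ) ^ 2 / Gr Z ρ)
        = Pa * ((AL (el l m) (zz g R) ρ) ^ 2 * (1 / Gr Z ρ)) := by ring
      _ ≤ Pa * ((c1 ^ 2 * (G2 * AA (PP z T) g ^ 4)) * (Qr / D)) := by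
          refine mul_le_mul_of_nonneg_left ?_ hPa0.le
          exact mul_le_mul hV2 h3 (by positivity) (by positivity)
      _ = (c1 ^ 2 * AA (PP z T) g ^ 4 / D) * (G2 * (Pa * Qr)) := by ring
      _ ≤ (c1 ^ 2 * AA (PP z T) g ^ 4 / D) * (G2 * W) := by
          refine mul_le_mul_of_nonneg_left (mul_le_mul_of_nonneg_left h4 hG20) (by positivity)
  have hsum : ∑ ρ ∈ univ.filter (fun ρ : Col (PP z T) ι => Avd l m ρ),
      ∏ i, Cost_F g l m i (part i ρ) ≤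
      (∑ s ∈ (PP z T).powerset, g (pr s) ^ 2 * ∏ p ∈ s, (1 / (p : ℝ) * (1 + 4 / (p : ℝ)))) ^
        (Fintype.card ι - 2) := by
    rw [← Cost_sum g l m hlm]
    refine le_trans (sum_le_sum_of_subset_of_nonneg (filter_subset _ _)
      (fun ρ _ _ => prod_nonneg fun i _ => Cost_F0 g l m i _)) ?_
    exact col_sum_le' (fun i s => Cost_F g l m i s) (fun i s => Cost_F0 g l m i s)
  have hshift := shift_sum (PP z T) (fun p hp => (hP p hp).one_lt.le) (fun n => g n ^ 2)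
    (fun n => sq_nonneg _) (fun a b hab => pow_le_pow_left₀ (hg0 b) (hg1 a b hab) 2)
    (fun p => 4 / (p : ℝ)) (fun p => by positivity)
  have hprod : ∏ p ∈ PP z T, (1 + 4 / (p : ℝ) / p) ≤ Real.exp (4 / z) := by
    have h1 := Cost_tail z T hz1
    calc ∏ p ∈ PP z T, (1 + 4 / (p : ℝ) / p) ≤ ∏ p ∈ PP z T, Real.exp (4 / (p : ℝ) / p) := by
          refine prod_le_prod (fun p _ => by positivity) (fun p _ => ?_)
          have := Real.add_one_le_exp (4 / (p : ℝ) / p)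
          linarith
      _ = Real.exp (∑ p ∈ PP z T, 4 / (p : ℝ) / p) := (Real.exp_sum _ _).symm
      _ ≤ Real.exp (4 / z) := by
          apply Real.exp_le_exp.mpr
          have h2 : ∑ p ∈ PP z T, 4 / (p : ℝ) / p = 4 * ∑ p ∈ PP z T, 1 / (p : ℝ) ^ 2 := by
            rw [mul_sum]
            refine sum_congr rfl fun p _ => ?_
            rw [div_div, ← sq]
            ring
          rw [h2]
          have h3 : (4 : ℝ) / z = 4 * (1 / z) := by ring
          rw [h3]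
          exact mul_le_mul_of_nonneg_left h1 (by norm_num)
  have hBB0 : 0 ≤ BB (PP z T) g := sum_nonneg fun s _ => by positivity
  have hS : ∑ s ∈ (PP z T).powerset, g (pr s) ^ 2 * ∏ p ∈ s, (1 / (p : ℝ) * (1 + 4 / (p : ℝ))) ≤
      Real.exp (4 / z) * BB (PP z T) g :=
    hshift.trans (mul_le_mul_of_nonneg_right hprod hBB0)
  have hpow : (∑ s ∈ (PP z T).powerset, g (pr s) ^ 2 *
      ∏ p ∈ s, (1 / (p : ℝ) * (1 + 4 / (p : ℝ)))) ^ (Fintype.card ι - 2) ≤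
      (1 + 8 * Fintype.card ι / z) * BB (PP z T) g ^ (Fintype.card ι - 2) := by
    refine (pow_le_pow_left₀ (sum_nonneg fun s _ => mul_nonneg (sq_nonneg _)
      (prod_nonneg fun p _ => by positivity)) hS _).trans ?_
    rw [mul_pow]
    refine mul_le_mul_of_nonneg_right ?_ (pow_nonneg hBB0 _)
    rw [← Real.exp_nat_mul]
    have hM' : ((Fintype.card ι - 2 : ℕ) : ℝ) ≤ Fintype.card ι := by
      exact_mod_cast Nat.sub_le _ _
    have hzr : (8 : ℝ) * Fintype.card ι + 2 ≤ z := by exact_mod_cast hz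
    have hM0 : (0 : ℝ) ≤ Fintype.card ι := Nat.cast_nonneg _
    have h1 : ((Fintype.card ι - 2 : ℕ) : ℝ) * (4 / z) ≤ 4 * Fintype.card ι / z := by
      rw [mul_div_assoc', mul_comm]
      exact div_le_div_of_nonneg_right (by linarith) hz0.le
    have h2 : 4 * (Fintype.card ι : ℝ) / z ≤ 1 / 2 := by
      rw [div_le_iff₀ hz0]
      linarith
    refine (Real.exp_le_exp.mpr h1).trans ((Cost_exp _ h2 (by positivity)).trans (le_of_eq ?_))
    ring
  have hK0 : 0 ≤ c1 ^ 2 * AA (PP z T) g ^ 4 / D := by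
    have : 0 ≤ AA (PP z T) g ^ 4 := by positivity
    positivity
  calc _ ≤ ∑ ρ ∈ univ.filter (fun ρ : Col (PP z T) ι => Avd l m ρ),
        (c1 ^ 2 * AA (PP z T) g ^ 4 / D) * ∏ i, Cost_F g l m i (part i ρ) :=
        sum_le_sum fun ρ hρ => hterm ρ (mem_filter.mp hρ).2
    _ = (c1 ^ 2 * AA (PP z T) g ^ 4 / D) *
        ∑ ρ ∈ univ.filter (fun ρ : Col (PP z T) ι => Avd l m ρ),
          ∏ i, Cost_F g l m i (part i ρ) := by rw [mul_sum]
    _ ≤ (c1 ^ 2 * AA (PP z T) g ^ 4 / D) *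
        ((1 + 8 * Fintype.card ι / z) * BB (PP z T) g ^ (Fintype.card ι - 2)) :=
        mul_le_mul_of_nonneg_left (hsum.trans hpow) hK0
    _ = _ := by ring

end Pool.Agent.Lib.MP_092512_nt.FP
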