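import Pool.Agent.Lib.MT.Part
import Pool.Agent.Lib.BV.Defs

/-!
# Theorem F_P: definitions

`AL c` is the operator with the kernel `∏_p Amat (c p)` on functions on the colourings of `P`; so
`AL c (AL d L) = AL (c + d) L` and `lam z = AL (-1/p) z`.  `Avd l m ρ`: no prime has the colour `l` or `m`.
`Gp P Z` is the sum of `1/φ(s)` over the squarefree numbers `≤ Z` composed of primes of `P`, `Gr Z ρ` the part of this sum over
the numbers prime to the coloured primes of `ρ`.
-/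

set_option autoImplicit false

open Finset

namespace Pool.Agent.Lib.MP_092512_nt.FP

open Pool.Agent.Lib.MT

/-- the classes of the `-h i` mod `p` -/
def Om {ι : Type} [Fintype ι] (h : ι → ℕ) (p : ℕ) : Finset ℕ :=
  (range p).filter (fun c => ∃ i, p ∣ c + h i)

/-- `∏_{p ∈ s} 1/(p-1)` -/
noncomputable def phs (s : Finset ℕ) : ℝ := ∏ p ∈ s, 1 / ((p : ℝ) - 1)

/-- sum of `1/φ(s)` over the subsets with product `≤ Z` -/
noncomputable def Gp (P : Finset ℕ) (Z : ℕ) : ℝ :=
  ∑ s ∈ P.powerset.filter (fun s => pr s ≤ Z), phs s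

section

variable {P : Finset ℕ} {ι : Type} [Fintype ι] [DecidableEq ι]

/-- the operator with the kernel `∏_p Amat (c p)` -/
noncomputable def AL (c : {p : ℕ // p ∈ P} → ι → ℝ) (L : Col P ι → ℝ) (ρ : Col P ι) : ℝ :=
  ∑ σ : Col P ι, (∏ p : {p : ℕ // p ∈ P}, Amat (c p) (ρ p) (σ p)) * L σ

/-- `1/(p-1)` for the colours other than `l`, `m` -/
noncomputable def ql (l m : ι) (p : {p : ℕ // p ∈ P}) (j : ι) : ℝ :=
  if j = l ∨ j = m then 0 else 1 / (((p : ℕ) : ℝ) - 1)

/-- `-1/p` for the colours `l`, `m`, and `1/(p-1) - 1/p` for the others -/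
noncomputable def el (l m : ι) (p : {p : ℕ // p ∈ P}) (j : ι) : ℝ := ql l m p j - 1 / ((p : ℕ) : ℝ)

/-- no prime has the colour `l` or `m` -/
def Avd (l m : ι) (ρ : Col P ι) : Prop := ∀ p, ρ p ≠ some l ∧ ρ p ≠ some m

/-- sum of `1/φ(s)` over the sets of uncoloured primes with product `≤ Z` -/
noncomputable def Gr (Z : ℕ) (ρ : Col P ι) : ℝ :=
  ∑ s ∈ (P.filter (fun p => ∀ i, p ∉ part i ρ)).powerset.filter (fun s => pr s ≤ Z), phs s

end

/-- `∑_{X + h < n ≤ 2X + h} th n` -/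
noncomputable def Th (X h : ℕ) : ℝ := ∑ n ∈ Ioc (X + h) (2 * X + h), BV.th n

/-- the number of `X < n ≤ 2X` with `n + d` prime for all `d ∈ D` -/
def cnt (X : ℕ) (D : Finset ℕ) : ℕ := ((Ioc X (2 * X)).filter (fun n => ∀ d ∈ D, (n + d).Prime)).card

/-- the mixture of the product weights `∏_i p n (v i)` with the weights `q n` -/
noncomputable def mix {ι : Type} {N k : ℕ} (I : Finset ι) (q : ι → ℝ) (p : ι → Fin N → ℝ)
    (v : Fin k → Fin N) : ℝ := ∑ n ∈ I, q n * ∏ i, p n (v i)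

end Pool.Agent.Lib.MP_092512_nt.FP
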