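import Pool.Agent.Lib.MP_092512_nt.FP.Defs

/-!
# F_P, EntA: relative entropy of a mixture of product laws with uniform one-point law

PROOF of `mix_sum`: `∑_v ∏_i p n (v i) = (∑_j p n j)^k = 1` (`Finset.prod_univ_sum`/`Fintype.sum_pow`-type), `∑_n q n = ∑_j ∑_n q n p n j = 1`.
PROOF of `entA`: `f x = x log x` is convex on `[0, ∞)` (`Real.convexOn_mul_log`).  For `v : Fin (k+1) → Fin N` put `c n = N q n p n (v 0)`: `∑_n c n = 1`, `c n ≥ 0`, and
`N^(k+1) mix v = ∑_n c n y n` with `y n = ∏_{i : Fin k} (N p n (v i.succ))`.  Jensen (`ConvexOn.map_sum_le`): `f (N^(k+1) mix v) ≤ ∑_n c n f (y n)`.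
Sum over `v`, divide by `N^(k+1)`: the left side is `∑_v mix v log (N^(k+1) mix v)`.  On the right, for fixed `n`,
`N^(-(k+1)) ∑_v c n f (y n) = ∑_v q n p n (v 0) ∏_i p n (v i.succ) ∑_i log (N p n (v i.succ))` (if some factor is `0` both sides are `0`: `f 0 = 0` and
the product is `0`), and summing over all coordinates but `i` (`∑_j p n j = 1`) gives `q n * k * ∑_j p n j log (N p n j)`.
-/

set_option autoImplicit false

open Finset

namespace Pool.Agent.Lib.MP_092512_nt.FP

private lemma sum_marg (k N : ℕ) (p g : Fin N → ℝ) (hp : ∑ j, p j = 1) (i0 : Fin k) :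
    ∑ v : Fin k → Fin N, (∏ i, p (v i)) * g (v i0) = ∑ j, p j * g j := by
  have h1 : ∀ v : Fin k → Fin N, (∏ i, p (v i)) * g (v i0) =
      ∏ i, (p (v i) * if i = i0 then g (v i) else 1) := by
    intro v
    rw [prod_mul_distrib, prod_ite_eq' univ i0 (fun i => g (v i))]
    simp
  rw [sum_congr rfl (fun v _ => h1 v)]
  have h2 := prod_univ_sum (fun _ : Fin k => (univ : Finset (Fin N)))
    (fun i j => p j * if i = i0 then g j else 1)
  rw [Fintype.piFinset_univ] at h2
  rw [← h2]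
  have h3 : ∀ i : Fin k, (∑ j : Fin N, p j * if i = i0 then g j else 1) =
      if i = i0 then ∑ j, p j * g j else 1 := by
    intro i
    split_ifs
    · rfl
    · simp [hp]
  rw [prod_congr rfl (fun i _ => h3 i), prod_ite_eq' univ i0 (fun _ => ∑ j, p j * g j)]
  simp

private lemma sum_prod_one (k N : ℕ) (p : Fin N → ℝ) (hp : ∑ j, p j = 1) :
    ∑ v : Fin k → Fin N, (∏ i, p (v i)) = 1 := by
  have h2 := prod_univ_sum (fun _ : Fin k => (univ : Finset (Fin N))) (fun _ j => p j)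
  rw [Fintype.piFinset_univ] at h2
  rw [← h2]
  simp [hp]

theorem mix_sum {ι : Type} (k N : ℕ) (I : Finset ι) (q : ι → ℝ) (p : ι → Fin N → ℝ) (hN : 1 ≤ N)
    (hp1 : ∀ n ∈ I, ∑ j, p n j = 1) (hu : ∀ j, ∑ n ∈ I, q n * p n j = 1 / N) :
    ∑ v : Fin k → Fin N, mix I q p v = 1 := by
  have hN0 : (N : ℝ) ≠ 0 := by
    have : (0 : ℝ) < N := by exact_mod_cast hN
    exact this.ne'
  unfold mix
  rw [sum_comm]
  have h1 : ∀ n ∈ I, ∑ v : Fin k → Fin N, q n * ∏ i, p n (v i) = ∑ j, q n * p n j := by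
    intro n hn
    rw [← mul_sum, sum_prod_one k N (p n) (hp1 n hn), ← mul_sum, hp1 n hn]
  rw [sum_congr rfl h1, sum_comm, sum_congr rfl (fun j _ => hu j)]
  simp [hN0]

theorem entA {ι : Type} (k N : ℕ) (hN : 1 ≤ N) (I : Finset ι) (q : ι → ℝ) (p : ι → Fin N → ℝ)
    (hq : ∀ n ∈ I, 0 ≤ q n) (hp : ∀ n ∈ I, ∀ j, 0 ≤ p n j) (hp1 : ∀ n ∈ I, ∑ j, p n j = 1)
    (hu : ∀ j, ∑ n ∈ I, q n * p n j = 1 / N) :
    ∑ v : Fin (k + 1) → Fin N, mix I q p v * Real.log ((N : ℝ) ^ (k + 1) * mix I q p v) ≤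
      k * ∑ n ∈ I, q n * ∑ j, p n j * Real.log (N * p n j) := by
  have hN0 : (0 : ℝ) < N := by exact_mod_cast hN
  have hJ : ∀ v : Fin (k + 1) → Fin N,
      mix I q p v * Real.log ((N : ℝ) ^ (k + 1) * mix I q p v) ≤
        ∑ n ∈ I, q n * ∑ i : Fin k, (∏ i, p n (v i)) * Real.log (N * p n (v i.succ)) := by
    intro v
    have hc0 : ∀ n ∈ I, 0 ≤ N * (q n * p n (v 0)) := by
      intro n hn
      have h1 := hq n hn
      have h2 := hp n hn (v 0)
      positivity
    have hc1 : ∑ n ∈ I, N * (q n * p n (v 0)) = 1 := by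
      rw [← mul_sum, hu]
      field_simp
    have hy0 : ∀ n ∈ I, (∏ i : Fin k, (N * p n (v i.succ))) ∈ Set.Ici (0 : ℝ) := by
      intro n hn
      rw [Set.mem_Ici]
      apply prod_nonneg
      intro i _
      have h2 := hp n hn (v i.succ)
      positivity
    have hj := Real.convexOn_mul_log.map_sum_le hc0 hc1 hy0
    simp only [smul_eq_mul] at hj
    have hm : ∑ n ∈ I, N * (q n * p n (v 0)) * (∏ i : Fin k, (N * p n (v i.succ))) =
        (N : ℝ) ^ (k + 1) * mix I q p v := by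
      unfold mix
      rw [mul_sum]
      apply sum_congr rfl
      intro n _
      rw [prod_mul_distrib, Fin.prod_univ_succ, prod_const, card_univ, Fintype.card_fin]
      ring
    rw [hm] at hj
    have hpt : ∀ n ∈ I, N * (q n * p n (v 0)) * ((∏ i : Fin k, (N * p n (v i.succ))) *
        Real.log (∏ i : Fin k, (N * p n (v i.succ)))) =
          (N : ℝ) ^ (k + 1) * (q n * ∑ i : Fin k, (∏ i, p n (v i)) * Real.log (N * p n (v i.succ))) := by
      intro n hn
      have hprod : (∏ i : Fin (k + 1), p n (v i)) = p n (v 0) * ∏ i : Fin k, p n (v i.succ) :=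
        Fin.prod_univ_succ _
      by_cases h0 : ∃ i : Fin k, p n (v i.succ) = 0
      · obtain ⟨i, hi⟩ := h0
        have e1 : (∏ i : Fin k, (N * p n (v i.succ))) = 0 :=
          prod_eq_zero (mem_univ i) (by rw [hi, mul_zero])
        have e2 : (∏ i : Fin k, p n (v i.succ)) = 0 := prod_eq_zero (mem_univ i) hi
        rw [hprod, e1, e2]
        simp
      · push Not at h0
        rw [Real.log_prod (fun i _ => mul_ne_zero hN0.ne' (h0 i)), ← mul_sum, hprod,
          prod_mul_distrib, prod_const, card_univ, Fintype.card_fin]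
        ring
    rw [sum_congr rfl hpt, ← mul_sum, mul_assoc] at hj
    exact le_of_mul_le_mul_left hj (by positivity)
  refine (sum_le_sum (fun v _ => hJ v)).trans (le_of_eq ?_)
  rw [sum_comm, mul_sum]
  apply sum_congr rfl
  intro n hn
  rw [← mul_sum, sum_comm]
  have h4 : ∀ i : Fin k, ∑ v : Fin (k + 1) → Fin N,
      (∏ i, p n (v i)) * Real.log (N * p n (v i.succ)) = ∑ j, p n j * Real.log (N * p n j) := by
    intro i
    exact sum_marg (k + 1) N (p n) (fun j => Real.log (N * p n j)) (hp1 n hn) i.succ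
  rw [sum_congr rfl (fun i _ => h4 i), sum_const, card_univ, Fintype.card_fin, nsmul_eq_mul]
  ring

end Pool.Agent.Lib.MP_092512_nt.FP
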