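import Pool.Agent.Lib.MP_092512_nt.FP.Defs

/-!
# F_P, FFeq: only the colourings avoiding `l`, `m` fit `x` if no prime of `P` divides `x + h l` or `x + h m`

PROOF. If `Fit h x σ` and `σ p = some l` then `p ∣ x + h l`: impossible. So the two sums have the same terms (`sum_congr`).
-/

set_option autoImplicit false

open Finset

namespace Pool.Agent.Lib.MP_092512_nt.FP

open Pool.Agent.Lib.MT

variable {P : Finset ℕ} {ι : Type} [Fintype ι] [DecidableEq ι]

theorem FF_eq (h : ι → ℕ) (L L' : Col P ι → ℝ) (l m : ι) (hL : ∀ σ, Avd l m σ → L σ = L' σ) (x : ℕ)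
    (hx : ∀ p ∈ P, ¬ p ∣ x + h l ∧ ¬ p ∣ x + h m) : FF h L x = FF h L' x := by
  classical
  unfold FF
  refine sum_congr rfl fun σ hσ => hL σ fun p => ?_
  rw [mem_filter] at hσ
  have hf : Fit h x σ := hσ.2
  exact ⟨fun h1 => (hx p p.2).1 (hf p l h1), fun h1 => (hx p p.2).2 (hf p m h1)⟩

end Pool.Agent.Lib.MP_092512_nt.FP
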