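import Pool.Agent.Lib.MP_092512_nt.FP.Hit
import Pool.Agent.Lib.DHJ.Main

/-!
# Clusters of `m` primes at the vertices of homothetic copies of every shape, at bounded ratios

PROOF.  Words `w : Fin r → Fin k` (`r` from the density Hales-Jewett theorem for the density `1/10`), positions `a w = ∑_i x i * h (w i)`, `N = k^r` bins of `M'` multiples of
`P = (N M')!` in `[a w, a w + M]`, disjoint (different classes mod `P N`).  `hit`: each bin is hit with probability `≥ 1/5`, so with probability `≥ 1/10` at least `N/10` of the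
bins contain `m` primes and there is a line all of whose bins do; pigeonhole.
-/

set_option autoImplicit false

open Finset

namespace Pool.Agent.Lib.MP_092512_nt.FP

/-- the `j`-th element of the bin with number `v` at the position `a` -/
private def posn (P N a v j : ℕ) : ℕ := P * (N * (a / (P * N) + 1 + j) + v)

private theorem posn_inj {P N a v j j' : ℕ} (hP : 0 < P) (hN : 0 < N)
    (h : posn P N a v j = posn P N a v j') : j = j' := by
  unfold posn at h
  have h1 := Nat.eq_of_mul_eq_mul_left hP h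
  have h2 : N * (a / (P * N) + 1 + j) = N * (a / (P * N) + 1 + j') := by omega
  have h3 := Nat.eq_of_mul_eq_mul_left hN h2
  omega

private theorem posn_disj {P N a a' v v' j j' : ℕ} (hP : 0 < P) (hv : v < N) (hv' : v' < N)
    (h : posn P N a v j = posn P N a' v' j') : v = v' := by
  unfold posn at h
  have h1 := Nat.eq_of_mul_eq_mul_left hP h
  have h2 : (N * (a / (P * N) + 1 + j) + v) % N = v := by
    rw [Nat.mul_add_mod, Nat.mod_eq_of_lt hv]
  have h3 : (N * (a' / (P * N) + 1 + j') + v') % N = v' := by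
    rw [Nat.mul_add_mod, Nat.mod_eq_of_lt hv']
  rw [← h2, ← h3, h1]

private theorem posn_ge {P N a v j : ℕ} (hP : 0 < P) (hN : 0 < N) : a ≤ posn P N a v j := by
  unfold posn
  have h1 : a < P * N * (a / (P * N) + 1) := Nat.lt_mul_div_succ a (Nat.mul_pos hP hN)
  have h2 : P * N * (a / (P * N) + 1) ≤ P * (N * (a / (P * N) + 1 + j) + v) := by
    rw [mul_assoc]
    apply Nat.mul_le_mul_left
    have : N * (a / (P * N) + 1) ≤ N * (a / (P * N) + 1 + j) :=
      Nat.mul_le_mul_left _ (Nat.le_add_right _ _)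
    omega
  omega

private theorem posn_le {P N a v j M : ℕ} (hv : v < N) (hj : j < M) :
    posn P N a v j ≤ a + P * N * (M + 1) := by
  unfold posn
  have h1 : P * N * (a / (P * N)) ≤ a := Nat.mul_div_le a (P * N)
  have h2 : P * (N * (a / (P * N) + 1 + j) + v) =
      P * N * (a / (P * N)) + P * (N * (1 + j) + v) := by ring
  have h3 : P * (N * (1 + j) + v) ≤ P * (N * (M + 1)) := by
    apply Nat.mul_le_mul_left
    have h5 : N * (1 + j) ≤ N * M := Nat.mul_le_mul_left _ (by omega)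
    have h6 : N * (M + 1) = N * M + N := Nat.mul_succ N M
    omega
  rw [h2, mul_assoc P N (M + 1)]
  omega

private theorem GHom_adm (K : ℕ) (A : Finset ℕ) (hA : A.card ≤ K)
    (h : ∀ a ∈ A, K.factorial ∣ a) (p : ℕ) (hp : p.Prime) : ∃ r : ℕ, ∀ a ∈ A, ¬ a ≡ r [MOD p] := by
  rcases le_or_gt p K with h1 | h1
  · refine ⟨1, fun a ha hc => ?_⟩
    have h2 : p ∣ a := (Nat.dvd_factorial hp.pos h1).trans (h a ha)
    have h3 : p ∣ 1 := (hc.dvd_iff dvd_rfl).1 h2
    exact hp.one_lt.ne' (Nat.dvd_one.1 h3)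
  · have h2 : (A.image (fun a => a % p)).card < (range p).card := by
      rw [card_range]
      exact lt_of_le_of_lt card_image_le (lt_of_le_of_lt hA h1)
    obtain ⟨r, hr, hr'⟩ := exists_mem_notMem_of_card_lt_card h2
    refine ⟨r, fun a ha hc => hr' ?_⟩
    rw [mem_image]
    refine ⟨a, ha, ?_⟩
    have h3 : a % p = r % p := hc
    rw [h3, Nat.mod_eq_of_lt (mem_range.1 hr)]

open Classical in
private theorem GHom_pigeon {β : Type} [Fintype β] [Nonempty β] (R : Finset ℕ) (w : ℕ → ℝ)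
    (g : ℕ → β) :
    ∃ v : β, (∑ x ∈ R, w x) / (Fintype.card β : ℝ) ≤ ∑ x ∈ R.filter (fun x => g x = v), w x := by
  have hc : (0 : ℝ) < Fintype.card β := by exact_mod_cast Fintype.card_pos
  have h1 : ∑ v : β, (∑ x ∈ R, w x) / (Fintype.card β : ℝ) ≤
      ∑ v : β, ∑ x ∈ R.filter (fun x => g x = v), w x := by
    rw [sum_const, card_univ, nsmul_eq_mul, mul_div_cancel₀ _ hc.ne']
    refine le_of_eq ?_
    symm
    convert sum_fiberwise R g w
  obtain ⟨v, -, hv⟩ := exists_le_of_sum_le univ_nonempty h1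
  exact ⟨v, hv⟩

open Classical in
private theorem GHom_count {β : Type} [Fintype β] (I : Finset ℕ) (w : ℕ → ℝ) (hw : ∀ x, 0 ≤ w x)
    (G : ℕ → β → Prop) (W : ℝ) (hW : W = ∑ x ∈ I, w x) (hβ : 0 < Fintype.card β)
    (h : ∀ v : β, 1 / 5 * W ≤ ∑ x ∈ I.filter (fun x => G x v), w x) :
    W / 10 ≤ ∑ x ∈ I.filter (fun x => 1 / 10 * (Fintype.card β : ℝ) ≤
      ((univ.filter fun v => G x v).card : ℝ)), w x := by
  obtain ⟨K, hK⟩ : ∃ K : ℝ, K = (Fintype.card β : ℝ) := ⟨_, rfl⟩
  rw [← hK]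
  have hK0 : 0 < K := by rw [hK]; exact_mod_cast hβ
  have h1 : K * (1 / 5 * W) ≤ ∑ x ∈ I, w x * ((univ.filter fun v => G x v).card : ℝ) := by
    calc K * (1 / 5 * W) = ∑ _v : β, (1 / 5 * W) := by
          rw [sum_const, card_univ, nsmul_eq_mul, hK]
      _ ≤ ∑ v : β, ∑ x ∈ I.filter (fun x => G x v), w x := sum_le_sum (fun v _ => h v)
      _ = ∑ x ∈ I, w x * ((univ.filter fun v => G x v).card : ℝ) := by
          rw [sum_congr rfl (fun v _ => sum_filter (fun x => G x v) w), sum_comm]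
          apply sum_congr rfl
          intro x _
          rw [← sum_filter, sum_const, nsmul_eq_mul, mul_comm]
  have h2 : ∑ x ∈ I, w x * ((univ.filter fun v => G x v).card : ℝ) ≤
      K * (∑ x ∈ I.filter (fun x => 1 / 10 * K ≤ ((univ.filter fun v => G x v).card : ℝ)), w x) +
        1 / 10 * K * W := by
    rw [hW, mul_sum, mul_sum, sum_filter, ← sum_add_distrib]
    apply sum_le_sum
    intro x _
    have hc : ((univ.filter fun v => G x v).card : ℝ) ≤ K := by
      rw [hK]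
      exact_mod_cast card_le_univ _
    have hwx := hw x
    split_ifs with hx
    · have : 0 ≤ 1 / 10 * K * w x := by positivity
      nlinarith
    · push Not at hx
      nlinarith
  have h3 : K * (W / 10) ≤ K * (∑ x ∈ I.filter (fun x => 1 / 10 * K ≤
      ((univ.filter fun v => G x v).card : ℝ)), w x) := by linarith
  exact le_of_mul_le_mul_left h3 hK0

private theorem GHom_large (r M B C Q : ℕ) : ∃ X₀ : ℕ, ∀ X : ℕ, X₀ ≤ X → 2 ≤ Real.log X ∧
    (r + M : ℝ) ≤ Real.log X ∧ (Q : ℝ) < Real.log X ∧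
    2 * (r * (Real.log X) ^ (2 * B)) * (Real.log X) ^ C ≤ X := by
  have h1 : ∀ᶠ X : ℕ in Filter.atTop, 2 ≤ Real.log X :=
    (Real.tendsto_log_atTop.comp tendsto_natCast_atTop_atTop).eventually_ge_atTop _
  have h2 : ∀ᶠ X : ℕ in Filter.atTop, (r + M : ℝ) ≤ Real.log X :=
    (Real.tendsto_log_atTop.comp tendsto_natCast_atTop_atTop).eventually_ge_atTop _
  have h3 : ∀ᶠ X : ℕ in Filter.atTop, (Q : ℝ) < Real.log X :=
    (Real.tendsto_log_atTop.comp tendsto_natCast_atTop_atTop).eventually_gt_atTop _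
  have h4 : ∀ᶠ X : ℕ in Filter.atTop, 2 * (r * (Real.log X) ^ (2 * B)) * (Real.log X) ^ C ≤ X := by
    have h5 := (Real.isLittleO_pow_log_id_atTop (n := 2 * B + C)).comp_tendsto
      (tendsto_natCast_atTop_atTop (R := ℝ))
    have h6 := h5.def (c := 1 / (2 * r + 1)) (by positivity)
    filter_upwards [h6, h1] with X hX hX1
    simp only [Function.comp_apply, id_eq, Real.norm_eq_abs, Nat.abs_cast] at hX
    have h7 : 0 ≤ Real.log X ^ (2 * B + C) := by positivity
    rw [abs_of_nonneg h7] at hX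
    have hX' : (2 * r + 1 : ℝ) * Real.log X ^ (2 * B + C) ≤ X := by
      rw [one_div, ← div_eq_inv_mul, le_div_iff₀ (by positivity)] at hX
      linarith
    calc 2 * (r * (Real.log X) ^ (2 * B)) * (Real.log X) ^ C
        = 2 * r * Real.log X ^ (2 * B + C) := by rw [pow_add]; ring
      _ ≤ (2 * r + 1 : ℝ) * Real.log X ^ (2 * B + C) := by linarith
      _ ≤ X := hX'
  obtain ⟨X₀, hX₀⟩ := Filter.eventually_atTop.1 (h1.and (h2.and (h3.and h4)))
  exact ⟨X₀, fun X hX => ⟨(hX₀ X hX).1, (hX₀ X hX).2.1, (hX₀ X hX).2.2.1, (hX₀ X hX).2.2.2⟩⟩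

open Classical in
theorem ghom (k : ℕ) (hk : 1 ≤ k) : ∃ r : ℕ, ∀ m : ℕ, ∃ M : ℕ, ∀ B : ℕ, ∃ C X₀ : ℕ,
    ∀ X : ℕ, X₀ ≤ X →
    ∀ h : Fin k → ℕ, (∀ j, (h j : ℝ) ≤ (Real.log X) ^ B) →
    ∀ x : Fin r → ℕ, (∀ i, (x i : ℝ) ≤ (Real.log X) ^ B) →
    ∃ I : Finset (Fin r), I.Nonempty ∧ ∃ D : Fin k → Finset ℕ,
      (∀ j, (D j).card = m ∧ ∀ d ∈ D j, d ≤ M) ∧
      (X : ℝ) / (Real.log X) ^ C ≤
        (((Ioc X (2 * X)).filter
          (fun n => ∀ j, ∀ d ∈ D j, (n + ((∑ i ∈ I, x i) * h j + d)).Prime)).card : ℝ) := by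
  haveI : Nonempty (Fin k) := ⟨⟨0, hk⟩⟩
  obtain ⟨r, hr⟩ := Pool.Agent.Lib.DHJ.hj (Fin k) (1 / 10) (by norm_num)
  obtain ⟨N, hNd⟩ : ∃ N : ℕ, N = Fintype.card (Fin r → Fin k) := ⟨_, rfl⟩
  have hN : 1 ≤ N := by
    rw [hNd]
    exact Fintype.card_pos
  obtain ⟨e0, -⟩ : ∃ e0 : (Fin r → Fin k) ≃ Fin N, True := by
    rw [hNd]
    exact ⟨Fintype.equivFin _, trivial⟩
  refine ⟨r, fun m => ?_⟩
  obtain ⟨M', hM', hhit⟩ := hit N m hN (1 / 20) (by norm_num)
  obtain ⟨P, hPd⟩ : ∃ P : ℕ, P = (N * M').factorial := ⟨_, rfl⟩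
  have hP : 0 < P := by rw [hPd]; exact Nat.factorial_pos _
  refine ⟨P * N * (M' + 1), fun B => ?_⟩
  obtain ⟨M, hMd⟩ : ∃ M : ℕ, M = P * N * (M' + 1) := ⟨_, rfl⟩
  rw [← hMd]
  obtain ⟨C, X₁, hX₁⟩ := hhit (2 * B + 1)
  obtain ⟨Q, hQd⟩ : ∃ Q : ℕ,
      Q = Fintype.card ((Fin r → Option (Fin k)) × (Fin k → Finset (Fin M'))) := ⟨_, rfl⟩
  have hQ0 : 0 < Q := by rw [hQd]; exact Fintype.card_pos
  obtain ⟨X₂, hX₂⟩ := GHom_large r M B C (10 * Q)
  refine ⟨C + 1, max X₁ X₂, fun X hX h hh x hx => ?_⟩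
  obtain ⟨hL2, hLM, hLQ, hLX⟩ := hX₂ X ((le_max_right _ _).trans hX)
  obtain ⟨L, hLd⟩ : ∃ L : ℝ, L = Real.log X := ⟨_, rfl⟩
  rw [← hLd] at hL2 hLM hLQ hLX hh hx ⊢
  have hL0 : 0 < L := by linarith
  obtain ⟨a, ha⟩ : ∃ a : (Fin r → Fin k) → ℕ, ∀ w, a w = ∑ i, x i * h (w i) := ⟨_, fun _ => rfl⟩
  -- positions are small
  have haL : ∀ w, (a w : ℝ) ≤ r * L ^ (2 * B) := by
    intro w
    rw [ha]
    push_cast
    calc ∑ i, (x i : ℝ) * h (w i) ≤ ∑ _i : Fin r, L ^ B * L ^ B :=
          sum_le_sum (fun i _ => mul_le_mul (hx i) (hh _) (Nat.cast_nonneg _) (by positivity))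
      _ = r * L ^ (2 * B) := by
          rw [sum_const, card_univ, Fintype.card_fin, nsmul_eq_mul, ← pow_add]
          congr 2
          ring
  -- the bins
  obtain ⟨U, hU⟩ : ∃ U : Fin N → Finset ℕ, ∀ v, U v =
      univ.image (fun j : Fin M' => posn P N (a (e0.symm v)) v j) := ⟨_, fun _ => rfl⟩
  have hUc : ∀ v, (U v).card = M' := by
    intro v
    rw [hU, card_image_of_injective, card_univ, Fintype.card_fin]
    intro j j' hjj
    exact Fin.ext (posn_inj hP hN hjj)
  have hUd : ∀ v v', v ≠ v' → Disjoint (U v) (U v') := by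
    intro v v' hvv
    rw [disjoint_left]
    intro y hy hy'
    rw [hU, mem_image] at hy hy'
    obtain ⟨j, -, hj⟩ := hy
    obtain ⟨j', -, hj'⟩ := hy'
    exact hvv (Fin.ext (posn_disj hP v.2 v'.2 (hj.trans hj'.symm)))
  have hUle : ∀ v, ∀ y ∈ U v, y ≤ a (e0.symm v) + M := by
    intro v y hy
    rw [hU, mem_image] at hy
    obtain ⟨j, -, hj⟩ := hy
    rw [← hj, hMd]
    exact posn_le v.2 j.2
  have hUB : ∀ v, ∀ y ∈ U v, (y : ℝ) ≤ L ^ (2 * B + 1) := by
    intro v y hy
    have h1 : (y : ℝ) ≤ a (e0.symm v) + M := by exact_mod_cast hUle v y hy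
    have h2 := haL (e0.symm v)
    have h3 : (1 : ℝ) ≤ L ^ (2 * B) := one_le_pow₀ (by linarith)
    calc (y : ℝ) ≤ r * L ^ (2 * B) + M := by linarith
      _ ≤ r * L ^ (2 * B) + M * L ^ (2 * B) := by
          have : (M : ℝ) * 1 ≤ M * L ^ (2 * B) := mul_le_mul_of_nonneg_left h3 (Nat.cast_nonneg _)
          linarith
      _ = (r + M) * L ^ (2 * B) := by ring
      _ ≤ L * L ^ (2 * B) := mul_le_mul_of_nonneg_right hLM (by positivity)
      _ = L ^ (2 * B + 1) := by rw [pow_succ]; ring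
  have hUadm : ∀ p : ℕ, p.Prime → ∃ s : ℕ, ∀ v, ∀ y ∈ U v, ¬ y ≡ s [MOD p] := by
    intro p hp
    obtain ⟨s, hs⟩ := GHom_adm (N * M') (univ.biUnion U) (by
      rw [card_biUnion fun i _ j _ hij => hUd i j hij, sum_congr rfl fun j _ => hUc j,
        sum_const, card_univ, Fintype.card_fin, smul_eq_mul]) (by
      intro y hy
      rw [mem_biUnion] at hy
      obtain ⟨v, -, hy⟩ := hy
      rw [hU, mem_image] at hy
      obtain ⟨j, -, hj⟩ := hy
      rw [← hj, ← hPd]
      exact dvd_mul_right _ _) p hp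
    exact ⟨s, fun v y hy => hs y (mem_biUnion.2 ⟨v, mem_univ _, hy⟩)⟩
  rw [hLd] at hUB
  obtain ⟨w, hw, hW, hmass, hsmall⟩ := hX₁ X ((le_max_left _ _).trans hX) U hUc hUd hUB hUadm
  rw [← hLd] at hsmall hUB
  obtain ⟨W, hWd⟩ : ∃ W, W = ∑ y ∈ Ioc X (2 * X), w y := ⟨_, rfl⟩
  rw [← hWd] at hW hmass hsmall
  -- many words are hit
  have hcount := GHom_count (β := Fin r → Fin k) (Ioc X (2 * X)) w hw
    (fun y v => m ≤ ((U (e0 v)).filter (fun z => (y + z).Prime)).card) W hWd
    (by rw [← hNd]; omega) (fun v => by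
      have h1 := hmass (e0 v)
      have h2 : (1 / 4 - 1 / 20 : ℝ) = 1 / 5 := by norm_num
      rw [h2] at h1
      convert h1)
  obtain ⟨R, hR⟩ : ∃ R : Finset ℕ, R = (Ioc X (2 * X)).filter (fun y =>
      1 / 10 * (Fintype.card (Fin r → Fin k) : ℝ) ≤
      ((univ.filter fun v : Fin r → Fin k =>
        m ≤ ((U (e0 v)).filter (fun z => (y + z).Prime)).card).card : ℝ)) := ⟨_, rfl⟩
  replace hcount : W / 10 ≤ ∑ y ∈ R, w y := by
    rw [hR]
    convert hcount
  -- lines
  obtain ⟨G, hG⟩ : ∃ G : ℕ → ((Fin r → Option (Fin k)) × (Fin k → Finset (Fin M'))) → Prop,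
      ∀ y o, G y o ↔ ((∃ i, o.1 i = none) ∧ ∀ c : Fin k, (o.2 c).card = m ∧ ∀ j ∈ o.2 c,
        (y + posn P N (a (fun i => (o.1 i).getD c)) (e0 (fun i => (o.1 i).getD c)) j).Prime) :=
    ⟨_, fun _ _ => Iff.rfl⟩
  have hline : ∀ y ∈ R, ∃ o, G y o := by
    intro y hy
    rw [hR, mem_filter] at hy
    have h1 := hy.2
    rw [Fintype.card_fun, Nat.cast_pow] at h1
    obtain ⟨l, hl⟩ := hr (Fin r) (by rw [Fintype.card_fin]) _ h1
    have h2 : ∀ c : Fin k, ∃ J : Finset (Fin M'), J.card = m ∧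
        ∀ j ∈ J, (y + posn P N (a (l c)) (e0 (l c)) j).Prime := by
      intro c
      have h3 := hl c
      rw [mem_filter] at h3
      have h5 : (U (e0 (l c))).filter (fun z => (y + z).Prime) = (univ.filter (fun j : Fin M' =>
          (y + posn P N (a (l c)) (e0 (l c)) j).Prime)).image
            (fun j : Fin M' => posn P N (a (l c)) (e0 (l c)) j) := by
        rw [hU, Equiv.symm_apply_apply, filter_image]
      have h6 := h3.2
      rw [h5, card_image_of_injective _ (fun j j' hjj => Fin.ext (posn_inj hP hN hjj))] at h6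
      obtain ⟨J, hJ, hJc⟩ := exists_subset_card_eq h6
      exact ⟨J, hJc, fun j hj => (mem_filter.1 (hJ hj)).2⟩
    choose jj hjj using h2
    refine ⟨(l.idxFun, jj), (hG _ _).2 ⟨l.proper, fun c => ?_⟩⟩
    have h4 : (fun i => (l.idxFun i).getD c) = l c := by
      funext i
      rw [Combinatorics.Line.apply_def]
    rw [h4]
    exact hjj c
  obtain ⟨g, hg⟩ : ∃ g : ℕ → ((Fin r → Option (Fin k)) × (Fin k → Finset (Fin M'))),
      ∀ y ∈ R, G y (g y) := by
    refine ⟨fun y => if hy : y ∈ R then (hline y hy).choose else Classical.arbitrary _, ?_⟩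
    intro y hy
    simp only [dif_pos hy]
    exact (hline y hy).choose_spec
  obtain ⟨o, ho⟩ := GHom_pigeon R w g
  rw [← hQd] at ho
  obtain ⟨S, hS⟩ : ∃ S : Finset ℕ, S = R.filter (fun y => g y = o) := ⟨_, rfl⟩
  have ho2 : (∑ y ∈ R, w y) / (Q : ℝ) ≤ ∑ y ∈ S, w y := by
    rw [hS]
    convert ho
  have ho' : W / (10 * Q) ≤ ∑ y ∈ S, w y := by
    refine le_trans ?_ ho2
    have hQr : (0 : ℝ) < Q := by exact_mod_cast hQ0
    rw [div_le_div_iff₀ (by positivity) hQr]
    nlinarith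
  have hSsub : S ⊆ Ioc X (2 * X) := by
    rw [hS, hR]
    exact (filter_subset _ _).trans (filter_subset _ _)
  have hScard : (X : ℝ) / L ^ C < S.card := by
    by_contra hcon
    push Not at hcon
    have h1 := hsmall S hSsub hcon
    have h2 : W / L < W / (10 * Q) := by
      apply div_lt_div_of_pos_left hW (by positivity)
      have h5 : ((10 * Q : ℕ) : ℝ) < L := hLQ
      push_cast at h5
      exact h5
    linarith
  have hSG : ∀ y ∈ S, G y o := by
    intro y hy
    rw [hS, mem_filter] at hy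
    rw [← hy.2]
    exact hg y hy.1
  have hSne : S.Nonempty := by
    rw [← card_pos]
    have : (0 : ℝ) < S.card := lt_of_le_of_lt (by positivity) hScard
    exact_mod_cast this
  obtain ⟨y0, hy0⟩ := hSne
  obtain ⟨⟨i0, hi0⟩, -⟩ := (hG _ _).1 (hSG y0 hy0)
  obtain ⟨I, hI⟩ : ∃ I : Finset (Fin r), I = univ.filter (fun i => o.1 i = none) := ⟨_, rfl⟩
  obtain ⟨c0, hc0⟩ : ∃ c0 : ℕ, c0 = ∑ i ∈ univ.filter (fun i => ¬ o.1 i = none),
      x i * h ((o.1 i).getD ⟨0, hk⟩) := ⟨_, rfl⟩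
  have hsplit : ∀ c : Fin k, a (fun i => (o.1 i).getD c) = c0 + (∑ i ∈ I, x i) * h c := by
    intro c
    rw [ha, hc0, hI, ← sum_filter_add_sum_filter_not univ (fun i => o.1 i = none), add_comm, sum_mul]
    congr 1
    · apply sum_congr rfl
      intro i hi
      obtain ⟨s, hs⟩ := Option.ne_none_iff_exists'.1 (mem_filter.1 hi).2
      rw [hs]
      rfl
    · apply sum_congr rfl
      intro i hi
      rw [(mem_filter.1 hi).2]
      rfl
  have hc0L : (c0 : ℝ) ≤ r * L ^ (2 * B) := by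
    refine le_trans ?_ (haL (fun i => (o.1 i).getD ⟨0, hk⟩))
    rw [hsplit]
    push_cast
    have : (0 : ℝ) ≤ (∑ i ∈ I, (x i : ℝ)) * h ⟨0, hk⟩ := by positivity
    linarith
  refine ⟨I, ⟨i0, by rw [hI]; exact mem_filter.2 ⟨mem_univ _, hi0⟩⟩,
    fun c => (o.2 c).image (fun j : Fin M' =>
      posn P N (a (fun i => (o.1 i).getD c)) (e0 (fun i => (o.1 i).getD c)) j -
      a (fun i => (o.1 i).getD c)), ?_, ?_⟩
  · intro c
    constructor
    · rw [card_image_of_injective]
      · exact (((hG _ _).1 (hSG y0 hy0)).2 c).1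
      · intro j j' hjj
        have h1 := posn_ge (P := P) (N := N) (a := a (fun i => (o.1 i).getD c))
          (v := e0 (fun i => (o.1 i).getD c)) (j := j) hP hN
        have h2 := posn_ge (P := P) (N := N) (a := a (fun i => (o.1 i).getD c))
          (v := e0 (fun i => (o.1 i).getD c)) (j := j') hP hN
        have h3 : posn P N (a (fun i => (o.1 i).getD c)) (e0 (fun i => (o.1 i).getD c)) j =
            posn P N (a (fun i => (o.1 i).getD c)) (e0 (fun i => (o.1 i).getD c)) j' := by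
          dsimp only at hjj
          omega
        exact Fin.ext (posn_inj hP hN h3)
    · intro d hd
      rw [mem_image] at hd
      obtain ⟨j, -, hj⟩ := hd
      have h1 := posn_le (P := P) (N := N) (a := a (fun i => (o.1 i).getD c))
        (v := e0 (fun i => (o.1 i).getD c)) (j := j) (M := M') (e0 _).2 j.2
      rw [← hMd] at h1
      omega
  · obtain ⟨T, hT⟩ : ∃ T : Finset ℕ, T = (Ioc X (2 * X)).filter (fun n => ∀ c,
        ∀ d ∈ (o.2 c).image (fun j : Fin M' =>
          posn P N (a (fun i => (o.1 i).getD c)) (e0 (fun i => (o.1 i).getD c)) j -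
          a (fun i => (o.1 i).getD c)), (n + ((∑ i ∈ I, x i) * h c + d)).Prime) := ⟨_, rfl⟩
    have hcardT : S.card ≤ T.card + c0 := by
      have h1 : (S.filter (fun y => y + c0 ≤ 2 * X)).card ≤ T.card := by
        apply card_le_card_of_injOn (fun y => y + c0)
        · intro y hy
          rw [mem_coe, mem_filter] at hy
          have h2 := hSsub hy.1
          rw [mem_Ioc] at h2
          rw [mem_coe, hT, mem_filter, mem_Ioc]
          refine ⟨⟨by have := h2.1; dsimp only; omega, hy.2⟩, fun c d hd => ?_⟩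
          rw [mem_image] at hd
          obtain ⟨j, hjm, hj⟩ := hd
          have h3 := (((hG _ _).1 (hSG y hy.1)).2 c).2 j hjm
          have h4 := hsplit c
          have h5 := posn_ge (P := P) (N := N) (a := a (fun i => (o.1 i).getD c))
            (v := e0 (fun i => (o.1 i).getD c)) (j := j) hP hN
          have h6 : y + c0 + ((∑ i ∈ I, x i) * h c + d) =
              y + posn P N (a (fun i => (o.1 i).getD c)) (e0 (fun i => (o.1 i).getD c)) j := by
            omega
          rw [h6]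
          exact h3
        · intro y _ y' _ hyy
          simpa using hyy
      have h2 : (S.filter (fun y => ¬ y + c0 ≤ 2 * X)).card ≤ c0 := by
        calc (S.filter (fun y => ¬ y + c0 ≤ 2 * X)).card ≤ (Ioc (2 * X - c0) (2 * X)).card := by
              apply card_le_card
              intro y hy
              rw [mem_filter] at hy
              have h3 := hSsub hy.1
              rw [mem_Ioc] at h3 ⊢
              omega
          _ ≤ c0 := by
              rw [Nat.card_Ioc]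
              omega
      have h3 := card_filter_add_card_filter_not (s := S) (fun y => y + c0 ≤ 2 * X)
      omega
    rw [← hT]
    have h1 : (S.card : ℝ) ≤ T.card + c0 := by exact_mod_cast hcardT
    have h2 : (X : ℝ) / L ^ C - r * L ^ (2 * B) ≤ T.card := by linarith
    refine le_trans ?_ h2
    have h3 : 2 * (r * L ^ (2 * B)) ≤ (X : ℝ) / L ^ C := by
      rw [le_div_iff₀ (by positivity)]
      exact hLX
    have h4 : (X : ℝ) / L ^ (C + 1) ≤ (X : ℝ) / L ^ C / 2 := by
      rw [pow_succ, ← div_div]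
      apply div_le_div_of_nonneg_left (by positivity) (by norm_num) hL2
    linarith

end Pool.Agent.Lib.MP_092512_nt.FP
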