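import Pool.Agent.Lib.MP_092512_nt.FP.NT

/-!
# Hit: every one of `N` bins contains `m` primes with probability at least `1/4 - ε`

PROOF.  `η` small, `M ≥ M₀(η)`, `M μ ≥ 1/(η N)`.  For a bin `U` of `M` elements and `b = (1-η) μ W`, `c_a = b/P1(a) ≤ 1`, `Y x = ∑_{a ∈ U} c_a [x + a prime]`: `∑ w Y = M b`,
`∑ w Y^2 ≤ M^2 (4+η) μ^2 W + M b`.  If fewer than `m` of the `x + a` are prime, `Y x ≤ m`; so `M b - m W ≤ ∑_S w Y`, `S` the other `x`, and Cauchy-Schwarz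
`(∑_S w Y)^2 ≤ (∑_S w)(∑ w Y^2)`.
-/

set_option autoImplicit false

open Finset

namespace Pool.Agent.Lib.MP_092512_nt.FP

open Classical in
private theorem Hit_mom (I : Finset ℕ) (w : ℕ → ℝ) (hw : ∀ x, 0 ≤ w x) (V : Finset ℕ)
    (pp : ℕ → ℕ → Prop) (c : ℕ → ℝ) (b β : ℝ) (hc0 : ∀ a ∈ V, 0 ≤ c a) (hc1 : ∀ a ∈ V, c a ≤ 1)
    (h1 : ∀ a ∈ V, c a * ∑ x ∈ I.filter (fun x => pp x a), w x = b) (hβ : 0 ≤ β)
    (h2 : ∀ a ∈ V, ∀ a' ∈ V, a ≠ a' →
      ∑ x ∈ I.filter (fun x => pp x a ∧ pp x a'), w x ≤ β) :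
    ∑ x ∈ I, w x * (∑ a ∈ V, if pp x a then c a else 0) = V.card * b ∧
    ∑ x ∈ I, w x * (∑ a ∈ V, if pp x a then c a else 0) ^ 2 ≤
      (V.card : ℝ) ^ 2 * β + V.card * b := by
  have hs : ∀ a, ∑ x ∈ I, w x * (if pp x a then c a else 0) =
      c a * ∑ x ∈ I.filter (fun x => pp x a), w x := by
    intro a
    rw [sum_filter, mul_sum]
    refine sum_congr rfl fun x _ => ?_
    split_ifs
    · ring
    · ring
  constructor
  · calc ∑ x ∈ I, w x * (∑ a ∈ V, if pp x a then c a else 0) =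
          ∑ x ∈ I, ∑ a ∈ V, w x * (if pp x a then c a else 0) :=
          sum_congr rfl fun x _ => mul_sum _ _ _
      _ = ∑ a ∈ V, ∑ x ∈ I, w x * (if pp x a then c a else 0) := sum_comm
      _ = ∑ a ∈ V, b := sum_congr rfl fun a ha => by rw [hs a, h1 a ha]
      _ = V.card * b := by rw [sum_const, nsmul_eq_mul]
  · have hpair : ∀ a ∈ V, ∀ a' ∈ V, ∑ x ∈ I, w x * ((if pp x a then c a else 0) *
        (if pp x a' then c a' else 0)) ≤ β + if a = a' then b else 0 := by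
      intro a ha a' ha'
      by_cases haa : a = a'
      · subst haa
        rw [if_pos rfl, ← h1 a ha, ← hs a]
        refine le_trans (sum_le_sum fun x _ => ?_) (le_add_of_nonneg_left hβ)
        refine mul_le_mul_of_nonneg_left ?_ (hw x)
        split_ifs
        · exact mul_le_of_le_one_left (hc0 a ha) (hc1 a ha)
        · rw [mul_zero]
      · rw [if_neg haa, add_zero]
        refine le_trans ?_ (h2 a ha a' ha' haa)
        rw [sum_filter]
        refine sum_le_sum fun x _ => ?_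
        by_cases p1 : pp x a
        · by_cases p2 : pp x a'
          · rw [if_pos p1, if_pos p2, if_pos ⟨p1, p2⟩]
            have h3 : c a * c a' ≤ 1 := mul_le_one₀ (hc1 a ha) (hc0 a' ha') (hc1 a' ha')
            exact mul_le_of_le_one_right (hw x) h3
          · rw [if_neg p2, mul_zero, mul_zero, if_neg fun h => p2 h.2]
        · rw [if_neg p1, zero_mul, mul_zero, if_neg fun h => p1 h.1]
    calc ∑ x ∈ I, w x * (∑ a ∈ V, if pp x a then c a else 0) ^ 2 =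
          ∑ x ∈ I, ∑ a ∈ V, ∑ a' ∈ V, w x * ((if pp x a then c a else 0) *
            (if pp x a' then c a' else 0)) := by
          refine sum_congr rfl fun x _ => ?_
          rw [pow_two, sum_mul_sum, mul_sum]
          exact sum_congr rfl fun a _ => mul_sum _ _ _
      _ = ∑ a ∈ V, ∑ a' ∈ V, ∑ x ∈ I, w x * ((if pp x a then c a else 0) *
            (if pp x a' then c a' else 0)) := by
          rw [sum_comm]
          exact sum_congr rfl fun a _ => sum_comm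
      _ ≤ ∑ a ∈ V, ∑ a' ∈ V, (β + if a = a' then b else 0) :=
          sum_le_sum fun a ha => sum_le_sum fun a' ha' => hpair a ha a' ha'
      _ = ∑ a ∈ V, (V.card * β + b) := by
          refine sum_congr rfl fun a ha => ?_
          rw [sum_add_distrib, sum_const, nsmul_eq_mul, sum_ite_eq, if_pos ha]
      _ = (V.card : ℝ) ^ 2 * β + V.card * b := by
          rw [sum_const, nsmul_eq_mul]
          ring

open Classical in
/-- Cauchy-Schwarz -/
private theorem Hit_cs (m : ℕ) (I : Finset ℕ) (w : ℕ → ℝ) (hw : ∀ x, 0 ≤ w x) (V : Finset ℕ)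
    (pp : ℕ → ℕ → Prop) (c : ℕ → ℝ) (b β : ℝ) (hc0 : ∀ a ∈ V, 0 ≤ c a) (hc1 : ∀ a ∈ V, c a ≤ 1)
    (h1 : ∀ a ∈ V, c a * ∑ x ∈ I.filter (fun x => pp x a), w x = b) (hβ : 0 ≤ β)
    (h2 : ∀ a ∈ V, ∀ a' ∈ V, a ≠ a' →
      ∑ x ∈ I.filter (fun x => pp x a ∧ pp x a'), w x ≤ β)
    (hm : m * ∑ x ∈ I, w x ≤ (V.card : ℝ) * b) :
    ((V.card : ℝ) * b - m * ∑ x ∈ I, w x) ^ 2 ≤
      (∑ x ∈ I.filter (fun x => m ≤ (V.filter (fun a => pp x a)).card), w x) *
      ((V.card : ℝ) ^ 2 * β + V.card * b) := by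
  obtain ⟨m1, m2⟩ := Hit_mom I w hw V pp c b β hc0 hc1 h1 hβ h2
  obtain ⟨Y, hY⟩ : ∃ Y : ℕ → ℝ, ∀ x, Y x = ∑ a ∈ V, if pp x a then c a else 0 :=
    ⟨_, fun _ => rfl⟩
  simp only [← hY] at m1 m2
  have hYc : ∀ x, Y x ≤ (V.filter (fun a => pp x a)).card := by
    intro x
    rw [hY, ← sum_filter]
    calc ∑ a ∈ V.filter (fun a => pp x a), c a ≤ ∑ a ∈ V.filter (fun a => pp x a), (1 : ℝ) :=
          sum_le_sum (fun a ha => hc1 a (mem_filter.1 ha).1)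
      _ = _ := by rw [sum_const, nsmul_eq_mul, mul_one]
  obtain ⟨S, hS⟩ : ∃ S : Finset ℕ, S = I.filter (fun x => m ≤ (V.filter (fun a => pp x a)).card) :=
    ⟨_, rfl⟩
  rw [← hS]
  have h3 : (V.card : ℝ) * b - m * ∑ x ∈ I, w x ≤ ∑ x ∈ S, Real.sqrt (w x) * (Real.sqrt (w x) * Y x) := by
    rw [← m1, mul_sum, ← sum_sub_distrib, hS, sum_filter]
    apply sum_le_sum
    intro x hx
    split_ifs with h
    · rw [← mul_assoc, Real.mul_self_sqrt (hw x)]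
      have := hw x
      have : 0 ≤ (m : ℝ) * w x := by positivity
      linarith
    · have h4 : Y x ≤ m := by
        refine (hYc x).trans ?_
        push Not at h
        exact_mod_cast h.le
      have := mul_le_mul_of_nonneg_left h4 (hw x)
      linarith
  have h4 := sum_mul_sq_le_sq_mul_sq S
    (fun x => Real.sqrt (w x)) (fun x => Real.sqrt (w x) * Y x)
  have h6 : ((V.card : ℝ) * b - m * ∑ x ∈ I, w x) ^ 2 ≤
      (∑ x ∈ S, Real.sqrt (w x) * (Real.sqrt (w x) * Y x)) ^ 2 :=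
    pow_le_pow_left₀ (by linarith) h3 2
  refine h6.trans (h4.trans ?_)
  have h5 : ∑ x ∈ S, Real.sqrt (w x) ^ 2 = ∑ x ∈ S, w x :=
    sum_congr rfl (fun x _ => Real.sq_sqrt (hw x))
  rw [h5]
  apply mul_le_mul_of_nonneg_left _ (sum_nonneg (fun x _ => hw x))
  refine le_trans ?_ m2
  calc ∑ x ∈ S, (Real.sqrt (w x) * Y x) ^ 2
      = ∑ x ∈ S, w x * Y x ^ 2 := by
        apply sum_congr rfl
        intro x _
        rw [mul_pow, Real.sq_sqrt (hw x)]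
    _ ≤ ∑ x ∈ I, w x * Y x ^ 2 := by
        apply sum_le_sum_of_subset_of_nonneg (by rw [hS]; exact filter_subset _ _)
        intro x _ _
        have := hw x
        positivity

private theorem Hit_num (N m : ℕ) (ε : ℝ) (hε : 0 < ε) : ∃ η : ℝ, 0 < η ∧ η ≤ 1 / 8 ∧
    0 ≤ 1 - η - m * N * η ∧
    1 / 4 - ε ≤ (1 - η - m * N * η) ^ 2 / ((4 + η) + N * η) := by
  obtain ⟨F, hF⟩ : ∃ F : ℝ → ℝ, F = fun η : ℝ => (1 - η - m * N * η) ^ 2 / ((4 + η) + N * η) :=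
    ⟨_, rfl⟩
  have hF0 : F 0 = 1 / 4 := by
    rw [hF]
    norm_num
  have hc1 : ContinuousAt (fun η : ℝ => 1 - η - (m : ℝ) * (N : ℝ) * η) (0 : ℝ) :=
    (continuousAt_const.sub continuousAt_id).sub (continuousAt_const.mul continuousAt_id)
  have hc : ContinuousAt F 0 := by
    rw [hF]
    refine ContinuousAt.div ?_ ?_ ?_
    · exact hc1.pow 2
    · exact (continuousAt_const.add continuousAt_id).add (continuousAt_const.mul continuousAt_id)
    · norm_num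
  have h2 : ∀ᶠ η in nhds (0 : ℝ), 1 / 4 - ε < F η :=
    (continuousAt_const (y := (1 / 4 - ε : ℝ))).eventually_lt hc (by rw [hF0]; linarith)
  have h3 : ∀ᶠ η in nhds (0 : ℝ), 0 < 1 - η - (m : ℝ) * (N : ℝ) * η :=
    (continuousAt_const (y := (0 : ℝ))).eventually_lt hc1 (by norm_num)
  obtain ⟨δ, hδ, h4⟩ := Metric.eventually_nhds_iff.1 (h2.and h3)
  have h5 : min (δ / 2) (1 / 8) ≤ δ / 2 := min_le_left _ _
  have h6 : 0 < min (δ / 2) (1 / 8 : ℝ) := lt_min (by linarith) (by norm_num)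
  obtain ⟨h7, h8⟩ := h4 (y := min (δ / 2) (1 / 8)) (by
    rw [Real.dist_eq, sub_zero, abs_of_pos h6]
    linarith)
  rw [hF] at h7
  exact ⟨min (δ / 2) (1 / 8), h6, min_le_right _ _, h8.le, h7.le⟩

open Classical in
/-- every bin contains `m` primes with probability at least `1/4 - ε` -/
theorem hit (N m : ℕ) (hN : 1 ≤ N) (ε : ℝ) (hε : 0 < ε) : ∃ M : ℕ, 1 ≤ M ∧
    ∀ B : ℕ, ∃ C X₀ : ℕ, ∀ X : ℕ, X₀ ≤ X → ∀ U : Fin N → Finset ℕ, (∀ j, (U j).card = M) →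
    (∀ i j, i ≠ j → Disjoint (U i) (U j)) → (∀ j, ∀ a ∈ U j, (a : ℝ) ≤ (Real.log X) ^ B) →
    (∀ p : ℕ, p.Prime → ∃ r : ℕ, ∀ j, ∀ a ∈ U j, ¬ a ≡ r [MOD p]) →
    ∃ w : ℕ → ℝ, (∀ x, 0 ≤ w x) ∧ 0 < ∑ x ∈ Ioc X (2 * X), w x ∧
      (∀ j, (1 / 4 - ε) * ∑ x ∈ Ioc X (2 * X), w x ≤
        ∑ x ∈ (Ioc X (2 * X)).filter
          (fun x => m ≤ ((U j).filter (fun a => (x + a).Prime)).card), w x) ∧
      ∀ S ⊆ Ioc X (2 * X), (S.card : ℝ) ≤ X / (Real.log X) ^ C →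
        ∑ x ∈ S, w x ≤ (∑ x ∈ Ioc X (2 * X), w x) / Real.log X := by
  obtain ⟨η, hη0, hη1, hκ0, hnum⟩ := Hit_num N m ε hε
  obtain ⟨M₀, hM₀⟩ := nt_main η hη0 hη1
  refine ⟨M₀ + 1, by omega, fun B => ?_⟩
  obtain ⟨M, hM⟩ : ∃ M, M = M₀ + 1 := ⟨_, rfl⟩
  rw [← hM]
  have hM1 : 1 ≤ M := by omega
  obtain ⟨C, X₁, hX₁⟩ := hM₀ (N * M) (by nlinarith) B
  refine ⟨C, X₁, fun X hX U hU hdis hUB hadm => ?_⟩
  -- the union
  obtain ⟨A, hA⟩ : ∃ A : Finset ℕ, A = univ.biUnion U := ⟨_, rfl⟩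
  have hAcard : A.card = N * M := by
    rw [hA, card_biUnion fun i _ j _ hij => hdis i j hij, sum_congr rfl fun j _ => hU j,
      sum_const, card_univ, Fintype.card_fin, smul_eq_mul]
  have hUA : ∀ j, ∀ a ∈ U j, a ∈ A := fun j a ha => by
    rw [hA]
    exact mem_biUnion.2 ⟨j, mem_univ _, ha⟩
  have hAU : ∀ a ∈ A, ∃ j, a ∈ U j := fun a ha => by
    rw [hA] at ha
    obtain ⟨j, _, h3⟩ := mem_biUnion.1 ha
    exact ⟨j, h3⟩
  have hh : ∀ a ∈ A, ∃ i, A.orderEmbOfFin hAcard i = a := by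
    intro a ha
    have h3 := A.range_orderEmbOfFin hAcard
    have h4 : a ∈ Set.range (A.orderEmbOfFin hAcard) := by
      rw [h3]
      exact ha
    exact h4
  obtain ⟨w, μ, hw, hW, hμ, hone, htwo, hsmall⟩ := hX₁ X hX
    (A.orderEmbOfFin hAcard) (A.orderEmbOfFin hAcard).injective
    (fun i => by
      obtain ⟨j, hj⟩ := hAU _ (A.orderEmbOfFin_mem hAcard i)
      exact hUB j _ hj)
    (fun p hp => by
      obtain ⟨r, hr⟩ := hadm p hp
      refine ⟨r, fun i => ?_⟩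
      obtain ⟨j, hj⟩ := hAU _ (A.orderEmbOfFin_mem hAcard i)
      exact hr j _ hj)
  refine ⟨w, hw, hW, fun j => ?_, hsmall⟩
  obtain ⟨pp, hpp⟩ : ∃ pp : ℕ → ℕ → Prop, ∀ x a, pp x a ↔ (x + a).Prime :=
    ⟨fun x a => (x + a).Prime, fun _ _ => Iff.rfl⟩
  obtain ⟨W, hWd⟩ : ∃ W, W = ∑ x ∈ Ioc X (2 * X), w x := ⟨_, rfl⟩
  rw [← hWd] at hW hone htwo ⊢
  have hNpos : (0 : ℝ) < N := by exact_mod_cast hN
  have hMpos : (0 : ℝ) < M := by exact_mod_cast hM1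
  have hμ0 : 0 < μ := by
    by_contra hcon
    push Not at hcon
    have h3 : (0 : ℝ) < 1 / η := by positivity
    have h4 : ((N * M : ℕ) : ℝ) * μ ≤ 0 := mul_nonpos_of_nonneg_of_nonpos (Nat.cast_nonneg _) hcon
    linarith
  obtain ⟨b, hb⟩ : ∃ b, b = (1 - η) * μ * W := ⟨_, rfl⟩
  have hη2 : 0 < 1 - η := by linarith
  have hb0 : 0 < b := by
    rw [hb]
    positivity
  obtain ⟨P1, hP1⟩ : ∃ P1 : ℕ → ℝ, P1 = fun a =>
    ∑ x ∈ (Ioc X (2 * X)).filter (fun x => pp x a), w x := ⟨_, rfl⟩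
  have hP1b : ∀ a ∈ A, b ≤ P1 a := by
    intro a ha
    obtain ⟨i, rfl⟩ := hh a ha
    have h3 := hone i
    rw [hb, hP1]
    refine h3.trans (le_of_eq ?_)
    show _ = ∑ x ∈ (Ioc X (2 * X)).filter (fun x => pp x (A.orderEmbOfFin hAcard i)), w x
    rw [sum_filter, sum_filter]
    refine sum_congr rfl fun x _ => ?_
    by_cases h4 : (x + A.orderEmbOfFin hAcard i).Prime
    · rw [if_pos h4, if_pos ((hpp _ _).2 h4)]
    · rw [if_neg h4, if_neg fun h5 => h4 ((hpp _ _).1 h5)]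
  obtain ⟨c, hc⟩ : ∃ c : ℕ → ℝ, c = fun a => b / P1 a := ⟨_, rfl⟩
  have hc0 : ∀ a ∈ A, 0 ≤ c a := by
    intro a ha
    rw [hc]
    exact div_nonneg hb0.le (hb0.le.trans (hP1b a ha))
  have hc1 : ∀ a ∈ A, c a ≤ 1 := by
    intro a ha
    rw [hc]
    exact div_le_one_of_le₀ (hP1b a ha) (hb0.le.trans (hP1b a ha))
  have hcP : ∀ a ∈ A, c a * P1 a = b := by
    intro a ha
    rw [hc]
    exact div_mul_cancel₀ _ (hb0.trans_le (hP1b a ha)).ne'
  have hβ0 : 0 ≤ (4 + η) * μ ^ 2 * W := by positivity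
  have htwo' : ∀ a ∈ A, ∀ a' ∈ A, a ≠ a' →
      ∑ x ∈ (Ioc X (2 * X)).filter (fun x => pp x a ∧ pp x a'), w x ≤
        (4 + η) * μ ^ 2 * W := by
    intro a ha a' ha' hne
    obtain ⟨i, rfl⟩ := hh a ha
    obtain ⟨i', rfl⟩ := hh a' ha'
    have h3 := htwo i i' fun h3 => hne (by rw [h3])
    refine le_trans (le_of_eq ?_) h3
    rw [sum_filter, sum_filter]
    refine sum_congr rfl fun x _ => ?_
    by_cases h4 : (x + A.orderEmbOfFin hAcard i).Prime ∧ (x + A.orderEmbOfFin hAcard i').Prime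
    · rw [if_pos h4, if_pos ⟨(hpp _ _).2 h4.1, (hpp _ _).2 h4.2⟩]
    · rw [if_neg h4, if_neg fun h5 => h4 ⟨(hpp _ _).1 h5.1, (hpp _ _).1 h5.2⟩]
  have hNM : 1 ≤ N * η * (M * μ) := by
    have h7 := mul_le_mul_of_nonneg_left hμ hη0.le
    rw [mul_one_div_cancel hη0.ne'] at h7
    push_cast at h7
    linarith
  obtain ⟨κ, hκ⟩ : ∃ κ : ℝ, κ = 1 - η - m * N * η := ⟨_, rfl⟩
  rw [← hκ] at hκ0 hnum
  -- the mean is large
  have hmean : M * μ * W * κ ≤ M * b - m * W := by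
    have h8 : (m : ℝ) * W * 1 ≤ m * W * (N * η * (M * μ)) :=
      mul_le_mul_of_nonneg_left hNM (by positivity)
    rw [hκ, hb]
    nlinarith
  have hmean0 : 0 ≤ M * μ * W * κ := by positivity
  have hcs := Hit_cs m (Ioc X (2 * X)) w hw (U j) pp c b
    ((4 + η) * μ ^ 2 * W) (fun a ha => hc0 a (hUA j a ha)) (fun a ha => hc1 a (hUA j a ha))
    (fun a ha => by
      have h3 := hcP a (hUA j a ha)
      simp only [hP1] at h3
      exact h3) hβ0
    (fun a ha a' ha' hne => htwo' a (hUA j a ha) a' (hUA j a' ha') hne)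
    (by rw [hU j, ← hWd]; linarith)
  rw [hU j, ← hWd] at hcs
  obtain ⟨Hm, hHm⟩ : ∃ Hm : ℝ, Hm = ∑ x ∈ (Ioc X (2 * X)).filter
    (fun x => m ≤ ((U j).filter (fun a => (x + a).Prime)).card), w x := ⟨_, rfl⟩
  have hHm' : ∑ x ∈ (Ioc X (2 * X)).filter
      (fun x => m ≤ ((U j).filter (fun a => pp x a)).card), w x = Hm := by
    rw [hHm]
    apply sum_congr _ (fun _ _ => rfl)
    apply filter_congr
    intro x _
    have : (U j).filter (fun a => pp x a) = (U j).filter (fun a => (x + a).Prime) :=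
      filter_congr (fun a _ => hpp x a)
    rw [this]
  rw [hHm'] at hcs
  rw [← hHm]
  have hHm0 : 0 ≤ Hm := by
    rw [hHm]
    exact sum_nonneg (fun x _ => hw x)
  have e0 : (M * μ * W * κ) ^ 2 ≤ Hm * ((M : ℝ) ^ 2 * ((4 + η) * μ ^ 2 * W) + M * b) :=
    (pow_le_pow_left₀ hmean0 hmean 2).trans hcs
  have e2 : b ≤ N * η * (M * μ ^ 2 * W) := by
    calc b = (1 - η) * μ * W := hb
      _ ≤ 1 * μ * W := by
          apply mul_le_mul_of_nonneg_right _ hW.le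
          apply mul_le_mul_of_nonneg_right _ hμ0.le
          linarith
      _ = 1 * (μ * W) := by ring
      _ ≤ (N * η * (M * μ)) * (μ * W) := mul_le_mul_of_nonneg_right hNM (by positivity)
      _ = _ := by ring
  have e4 : κ ^ 2 * W ≤ Hm * ((4 + η) + N * η) := by
    have h8 : (M ^ 2 * μ ^ 2 * W) * (κ ^ 2 * W) ≤
        (M ^ 2 * μ ^ 2 * W) * (Hm * ((4 + η) + N * η)) := by
      calc (M ^ 2 * μ ^ 2 * W) * (κ ^ 2 * W) = (M * μ * W * κ) ^ 2 := by ring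
        _ ≤ Hm * ((M : ℝ) ^ 2 * ((4 + η) * μ ^ 2 * W) + M * b) := e0
        _ ≤ Hm * ((M : ℝ) ^ 2 * ((4 + η) * μ ^ 2 * W) + M * (N * η * (M * μ ^ 2 * W))) := by
            apply mul_le_mul_of_nonneg_left _ hHm0
            have := mul_le_mul_of_nonneg_left e2 hMpos.le
            linarith
        _ = _ := by ring
    exact le_of_mul_le_mul_left h8 (by positivity)
  have hD : 0 < (4 + η) + N * η := by positivity
  calc (1 / 4 - ε) * W ≤ κ ^ 2 / ((4 + η) + N * η) * W :=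
        mul_le_mul_of_nonneg_right hnum hW.le
    _ = κ ^ 2 * W / ((4 + η) + N * η) := by ring
    _ ≤ Hm := by
        rw [div_le_iff₀ hD]
        exact e4

end Pool.Agent.Lib.MP_092512_nt.FP
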