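import Pool.Agent.Lib.MT.Lay2
import Pool.Agent.Lib.MP_092512_nt.FP.BVd
import Pool.Agent.Lib.MP_092512_nt.FP.Defs

/-!
# F_P, Lay2d: primes `x + h m` weighted by the sieve, level `X^(1/4 - δ)`

PROOF. Copy of `MT.layer2` (file Lib/MT/Lay2.lean) with the following changes.  The primes are those of `PP z T`, `T ≤ X` (used only for
`layA_prod`, `layA_FF`, `lay2_fix`, where `R ≤ X` is enough); the support of `L` is `tot ≤ Q`, `Q ≤ X^(1/4 - δ)`;
`layB_param K B (min δ (1/20))` in place of `1/20`; `bvd` with the level `δ` in place of `layF_bv`: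
`(z+1)^mm * (Q * Q) ≤ X^δ * X^(1/2 - 2δ) = X^(1/2 - δ)`.  (`1/2 - δ ≤ 1`.)
-/

set_option autoImplicit false

open Finset

namespace Pool.Agent.Lib.MP_092512_nt.FP

open Pool.Agent.Lib.MT

theorem layer2d (ι : Type) [Fintype ι] [DecidableEq ι] (K B A : ℕ) (δ : ℝ) (hδ : 0 < δ) : ∃ X₀ : ℕ,
    ∀ X z T Q : ℕ, X₀ ≤ X → (z : ℝ) ≤ (Real.log X) ^ B → T ≤ X → (Q : ℝ) ≤ (X : ℝ) ^ (1 / 4 - δ) →
    ∀ Ω : ℕ → Finset ℕ, (∀ p, (Ω p).card ≤ K) → (∀ p ∈ PP 0 z, ∀ c ∈ Ω p, c < p) →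
    ∀ h : ι → ℕ, (∀ i, (h i : ℝ) ≤ (X : ℝ) ^ (1 / 2 : ℝ)) → ∀ m : ι,
    (∀ p ∈ PP z T, ∀ i j, i ≠ j → ¬ h i ≡ h j [MOD p]) → ∀ L : Col (PP z T) ι → ℝ,
    (∀ σ, |L σ| ≤ ∏ p : {p : ℕ // p ∈ PP z T}, (1 + (Fintype.card ι : ℝ) / ((p : ℕ) : ℝ))) →
    (∀ σ, L σ ≠ 0 → tot σ ≤ Q) →
    |∑ x ∈ Pre Ω z X, BV.th (x + h m) * (FF h L x) ^ 2 -
        Th X (h m) * V2 Ω (h m) z * Qf (q2 m) L| ≤
      X / (Real.log X) ^ A := by
  classical
  set k := Fintype.card ι with hk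
  have hd0 : 0 < min δ (1 / 20) := lt_min hδ (by norm_num)
  have hd1 : min δ (1 / 20) ≤ δ := min_le_left _ _
  have hd2 : min δ (1 / 20) ≤ 1 := (min_le_right _ _).trans (by norm_num)
  obtain ⟨c0, hc0, X1, h1⟩ := layB_param K B (min δ (1 / 20)) hd0
  obtain ⟨C, hC, hprod⟩ := layA_prod k
  obtain ⟨C6, hC6, hprod6⟩ := layA_prod (6 * k)
  obtain ⟨X2, h2⟩ := layA_FF ι (c0 / 8) (by positivity)
  obtain ⟨X3, h3⟩ := bvd (A + 2 * k + 2) (K + (k + 1) ^ 2) δ hδ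
  obtain ⟨X4, h4⟩ := Pool.Agent.Lib.MP_092512_nt.P3.B.ev_pow 24 (c0 / 2) (by positivity) (A + 1)
  obtain ⟨X5, h5⟩ := Pool.Agent.Lib.MP_092512_nt.P3.B.ev_pow (12 * (C ^ (2 * k) * C6 ^ (6 * k))) c0 hc0
    (A + 1 + 8 * k)
  obtain ⟨X6, h6⟩ : ∃ X6 : ℕ, ∀ X : ℕ, X6 ≤ X → max 1 (3 * C ^ (2 * k)) ≤ Real.log X :=
    Filter.eventually_atTop.1 ((Real.tendsto_log_atTop.comp tendsto_natCast_atTop_atTop).eventually_ge_atTop _)
  refine ⟨X1 + X2 + X3 + X4 + X5 + X6 + 3, fun X z R Q hX hz hRX hR Ω hK hΩ h hh m hij L hL hLR => ?_⟩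
  have hX3 : 3 ≤ X := by omega
  have hX1 : (1 : ℝ) ≤ X := by
    have : 1 ≤ X := by omega
    exact_mod_cast this
  have hX0 : (0 : ℝ) < X := by linarith
  have hlog1 : 1 ≤ Real.log X := le_trans (le_max_left _ _) (h6 X (by omega))
  have hlogC : 3 * C ^ (2 * k) ≤ Real.log X := le_trans (le_max_right _ _) (h6 X (by omega))
  have hpw : ∀ t : ℝ, t ≤ 1 → (X : ℝ) ^ t ≤ X := fun t ht => by
    calc (X : ℝ) ^ t ≤ (X : ℝ) ^ (1 : ℝ) := Real.rpow_le_rpow_of_exponent_le hX1 ht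
      _ = X := Real.rpow_one _
  have hhX : ∀ i, h i ≤ X := fun i => by exact_mod_cast (hh i).trans (hpw _ (by norm_num))
  obtain ⟨mm, hm⟩ := h1 X z (by omega) hz
  have hzm : (((z : ℝ) + 1) ^ mm) ≤ (X : ℝ) ^ (min δ (1 / 20)) ∧ (z : ℝ) ≤ (X : ℝ) ^ (min δ (1 / 20)) := by
    have hz0 : (0 : ℝ) ≤ (z : ℝ) := Nat.cast_nonneg z
    have hK0 : (0 : ℝ) ≤ (K : ℝ) := Nat.cast_nonneg K
    have hb1 : (1 : ℝ) ≤ ((K : ℝ) + 2) * (z + 1) := by nlinarith
    have hb2 : (z : ℝ) ≤ ((K : ℝ) + 2) * (z + 1) := by nlinarith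
    have hb4 : (z : ℝ) + 1 ≤ ((K : ℝ) + 2) * (z + 1) := by nlinarith
    have hb3 := hm.2.1
    constructor
    · refine le_trans ?_ hb3
      exact (pow_le_pow_left₀ (by linarith) hb4 mm).trans (pow_le_pow_right₀ hb1 (by omega))
    · refine le_trans (hb2.trans ?_) hb3
      calc ((K : ℝ) + 2) * (z + 1) = (((K : ℝ) + 2) * (z + 1)) ^ 1 := (pow_one _).symm
        _ ≤ (((K : ℝ) + 2) * (z + 1)) ^ (mm + 1) := pow_le_pow_right₀ hb1 (by omega)
  have hzX : z ≤ X := by exact_mod_cast hzm.2.trans (hpw _ hd2)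
  obtain ⟨M0, hM0⟩ : ∃ M0 : ℝ, M0 = ∏ p : {p : ℕ // p ∈ PP z R}, (1 + (k : ℝ) / ((p : ℕ) : ℝ)) :=
    ⟨_, rfl⟩
  have hL' : ∀ σ, |L σ| ≤ M0 := by
    rw [hM0]
    exact hL
  have hM00 : 0 ≤ M0 := (abs_nonneg _).trans (hL' fun _ => none)
  have hM0C : M0 ≤ (C * Real.log X) ^ k := by
    rw [hM0]
    exact hprod X z R hX3 hRX
  rw [lay2_pre Ω (h m) z X hzX (fun x => (FF h L x) ^ 2)]
  have hK' := lay2_Oa_card hK (h m)
  have hΩ' := lay2_Oa_lt hΩ (h m)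
  -- truncation
  have hthb : ∀ x ∈ Ioc X (2 * X), |BV.th (x + h m)| ≤ 2 * (1 + Real.log X) := by
    intro x hx
    rw [mem_Ioc] at hx
    have hxr : (0 : ℝ) < ((x + h m : ℕ) : ℝ) := by
      have : 0 < x + h m := by omega
      exact_mod_cast this
    have h7 : Real.log ((x + h m : ℕ) : ℝ) ≤ Real.log (3 * X) := by
      refine Real.log_le_log hxr ?_
      have := hhX m
      have h8 : x + h m ≤ 3 * X := by omega
      exact_mod_cast h8
    have h8 : Real.log (3 * X) ≤ 2 * (1 + Real.log X) := by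
      rw [Real.log_mul (by norm_num) hX0.ne']
      have h9 : Real.log 3 ≤ 2 := by
        have := Real.log_le_sub_one_of_pos (show (0 : ℝ) < 3 by norm_num)
        linarith
      linarith
    unfold BV.th
    split_ifs
    · rw [abs_of_nonneg (Real.log_natCast_nonneg _)]
      exact h7.trans h8
    · rw [abs_zero]
      linarith
  have hw : ∀ x ∈ Ioc X (2 * X), |BV.th (x + h m) * (FF h L x) ^ 2| ≤
      2 * (1 + Real.log X) * (X : ℝ) ^ (c0 / 4) := by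
    intro x hx
    have h7 := h2 X z R (by omega) hRX h hhX L hL x hx
    rw [abs_mul, abs_pow]
    refine mul_le_mul (hthb x hx) ?_ (by positivity) (by linarith)
    calc |FF h L x| ^ 2 ≤ ((X : ℝ) ^ (c0 / 8)) ^ 2 := pow_le_pow_left₀ (abs_nonneg _) h7 2
      _ = (X : ℝ) ^ (c0 / 4) := by
          rw [← Real.rpow_natCast, ← Real.rpow_mul hX0.le]
          congr 1
          push_cast
          ring
  have t1 := layB_trunc (by omega) hd2 hm (Oa Ω (h m)) hK' (fun p hp c hc => (hΩ' p hp c hc).1)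
    (fun x => BV.th (x + h m) * (FF h L x) ^ 2) (2 * (1 + Real.log X) * (X : ℝ) ^ (c0 / 4))
    (by positivity) hw
  -- fixed d
  obtain ⟨E, hE0, hE1, hE2⟩ := h3 X (by omega) (h m) (hhX m)
  obtain ⟨Q2, hQ⟩ : ∃ Q2 : ℕ, Q2 = ⌊(X : ℝ) ^ (1 / 2 - δ)⌋₊ := ⟨_, rfl⟩
  have hQr : (Q2 : ℝ) ≤ (X : ℝ) ^ (1 / 2 - δ) := by
    rw [hQ]
    exact Nat.floor_le (by positivity)
  have hqQ : ∀ d ⊆ PP 0 z, d.card ≤ mm → ∀ s ∈ GP L m, (∏ p ∈ d, p) * mod2 s.1 s.2 ≤ Q2 := by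
    intro d hd hdm s hs
    unfold GP at hs
    rw [mem_filter] at hs
    have h7 := mod2_le lay_prime s.1 s.2
    have h8 := hLR s.1 hs.2.1
    have h9 := hLR s.2 hs.2.2.1
    rw [hQ]
    refine Nat.le_floor ?_
    have hprodd : (∏ p ∈ d, p) ≤ (z + 1) ^ mm := by
      calc ∏ p ∈ d, p ≤ ∏ _p ∈ d, (z + 1) := prod_le_prod' fun p hp => by
            have h10 := mem_range.1 (mem_filter.1 (hd hp)).1
            omega
        _ = (z + 1) ^ d.card := by rw [prod_const]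
        _ ≤ (z + 1) ^ mm := Nat.pow_le_pow_right (by omega) hdm
    have h10 : (((∏ p ∈ d, p) * mod2 s.1 s.2 : ℕ) : ℝ) ≤ ((z : ℝ) + 1) ^ mm * ((Q : ℝ) * Q) := by
      have h11 : (∏ p ∈ d, p) * mod2 s.1 s.2 ≤ (z + 1) ^ mm * (Q * Q) :=
        Nat.mul_le_mul hprodd (h7.trans (Nat.mul_le_mul h8 h9))
      exact_mod_cast h11
    refine h10.trans ?_
    calc ((z : ℝ) + 1) ^ mm * ((Q : ℝ) * Q) ≤
        (X : ℝ) ^ (min δ (1 / 20)) * ((X : ℝ) ^ (1 / 4 - δ) * (X : ℝ) ^ (1 / 4 - δ)) := by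
          have hR0 : (0 : ℝ) ≤ (Q : ℝ) := Nat.cast_nonneg Q
          exact mul_le_mul hzm.1 (mul_le_mul hR hR hR0 (by positivity)) (by positivity) (by positivity)
      _ = (X : ℝ) ^ (min δ (1 / 20) + (1 / 4 - δ + (1 / 4 - δ))) := by
          rw [← Real.rpow_add hX0, ← Real.rpow_add hX0]
      _ ≤ (X : ℝ) ^ (1 / 2 - δ) := Real.rpow_le_rpow_of_exponent_le hX1 (by linarith)
  have hQX : Q2 ≤ X := by exact_mod_cast hQr.trans (hpw _ (by linarith))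
  unfold Th
  obtain ⟨Θ, hΘ⟩ : ∃ Θ : ℝ, Θ = ∑ n ∈ Ioc (X + h m) (2 * X + h m), BV.th n := ⟨_, rfl⟩
  have t2 := lay_sumd (D := (PP 0 z).powerset.filter (fun d => d.card ≤ mm))
    (fun d => ∑ x ∈ (Ioc X (2 * X)).filter (fun x => ∀ p ∈ d, x % p ∈ Oa Ω (h m) p),
      BV.th (x + h m) * (FF h L x) ^ 2)
    (fun d => ∏ p ∈ d, ((Oa Ω (h m) p).card : ℝ) / ((p : ℝ) - 1))
    (fun d => M0 ^ 2 * ∑ s ∈ GP L m, (∏ p ∈ d, ((Oa Ω (h m) p).card : ℝ)) *
      E ((∏ p ∈ d, p) * mod2 s.1 s.2)) (Θ * Qf (q2 m) L)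
    (fun d hd => by
      have hdz := mem_powerset.1 (mem_filter.1 hd).1
      have h7 := lay2_fix z X R hRX h m hij (Oa Ω (h m)) hΩ' L M0 hL' d hdz
        (fun s hs => (hqQ d hdz (mem_filter.1 hd).2 s hs).trans hQX) E hE1
      rw [← hΘ] at h7
      exact h7)
  have t2' : ∑ d ∈ (PP 0 z).powerset.filter (fun d => d.card ≤ mm),
      M0 ^ 2 * ∑ s ∈ GP L m, (∏ p ∈ d, ((Oa Ω (h m) p).card : ℝ)) *
        E ((∏ p ∈ d, p) * mod2 s.1 s.2) ≤ M0 ^ 2 * (X / (Real.log X) ^ (A + 2 * k + 2)) := by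
    rw [← mul_sum]
    refine mul_le_mul_of_nonneg_left ?_ (by positivity)
    refine le_trans ?_ (hE2 Q2 hQr)
    refine le_trans ?_ (layE_fibre lay_prime z mm K Q2 lay_gt (GP L m) hqQ E hE0)
    refine sum_le_sum fun d _ => sum_le_sum fun s _ => ?_
    refine mul_le_mul_of_nonneg_right ?_ (hE0 _)
    rw [← prod_const]
    exact prod_le_prod (fun p _ => Nat.cast_nonneg _) fun p _ => by exact_mod_cast hK' p
  have t3 := (layB_V hm (Oa Ω (h m)) hK').2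
  have hVeq : V2 Ω (h m) z = ∏ p ∈ PP 0 z, (1 - ((Oa Ω (h m) p).card : ℝ) / ((p : ℝ) - 1)) := rfl
  rw [← hVeq] at t3
  have t5 : ∀ a b c : ℝ, a * b * c = a * c * b := fun a b c => by ring
  rw [t5 Θ (Qf (q2 m) L)] at t2
  have hth0 : ∀ n, 0 ≤ BV.th n := fun n => by
    unfold BV.th
    split_ifs
    · exact Real.log_natCast_nonneg n
    · exact le_refl 0
  have hΘ0 : 0 ≤ Θ := by
    rw [hΘ]
    exact sum_nonneg fun n _ => hth0 n
  have hΘX : Θ ≤ 2 * (1 + Real.log X) * X := by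
    have e : Θ = ∑ x ∈ Ioc X (2 * X), BV.th (x + h m) := by
      rw [hΘ]
      refine (sum_bij (fun x _ => x + h m) ?_ ?_ ?_ ?_).symm
      · intro x hx
        rw [mem_Ioc] at hx ⊢
        omega
      · intro x _ y _ hxy
        exact Nat.add_right_cancel hxy
      · intro n hn
        rw [mem_Ioc] at hn
        exact ⟨n - h m, by rw [mem_Ioc]; omega, Nat.sub_add_cancel (by omega)⟩
      · intro x _
        rfl
    rw [e]
    calc ∑ x ∈ Ioc X (2 * X), BV.th (x + h m) ≤ ∑ _x ∈ Ioc X (2 * X), 2 * (1 + Real.log X) :=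
          sum_le_sum fun x hx => (le_abs_self _).trans (hthb x hx)
      _ = 2 * (1 + Real.log X) * X := by
          rw [sum_const, Nat.card_Ioc, nsmul_eq_mul]
          have e2 : 2 * X - X = X := by omega
          rw [e2]
          ring
  have hQf := layA_Qf (q2 (P := PP z R) m) (fun p i => by
    unfold q2
    split_ifs
    · exact le_refl 0
    · have h7 : (1 : ℝ) ≤ ((p : ℕ) : ℝ) := by exact_mod_cast (lay_prime (p : ℕ) p.2).one_le
      exact div_nonneg zero_le_one (by linarith)) L M0 hL'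
  have hq2 : ∀ p : {p : ℕ // p ∈ PP z R}, 0 ≤ ∑ i, q2 m p i ∧
      ∑ i, q2 m p i ≤ 2 * (k : ℝ) / ((p : ℕ) : ℝ) := by
    intro p
    have hp2 : (2 : ℝ) ≤ ((p : ℕ) : ℝ) := by exact_mod_cast (lay_prime (p : ℕ) p.2).two_le
    have h7 : ∀ i : ι, 0 ≤ q2 m p i ∧ q2 m p i ≤ 2 / ((p : ℕ) : ℝ) := by
      intro i
      unfold q2
      split_ifs
      · exact ⟨le_refl 0, by positivity⟩
      · refine ⟨div_nonneg zero_le_one (by linarith), ?_⟩
        rw [div_le_div_iff₀ (by linarith) (by linarith)]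
        linarith
    refine ⟨sum_nonneg fun i _ => (h7 i).1, (sum_le_sum fun i _ => (h7 i).2).trans (le_of_eq ?_)⟩
    rw [sum_const, card_univ, nsmul_eq_mul]
    ring
  have hp6 : ∏ p : {p : ℕ // p ∈ PP z R}, (1 + 3 * ∑ i, q2 m p i) ≤ (C6 * Real.log X) ^ (6 * k) := by
    refine le_trans (prod_le_prod (fun p _ => ?_) fun p _ => ?_) (hprod6 X z R hX3 hRX)
    · linarith [(hq2 p).1]
    · have h7 := (hq2 p).2
      push_cast
      have h8 : 6 * (k : ℝ) / ((p : ℕ) : ℝ) = 3 * (2 * (k : ℝ) / ((p : ℕ) : ℝ)) := by ring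
      rw [h8]
      linarith
  have hL0 : 0 ≤ Real.log X := by linarith
  have hQf' : |Qf (q2 m) L| ≤ ((C * Real.log X) ^ k) ^ 2 * (C6 * Real.log X) ^ (6 * k) := by
    refine hQf.trans (mul_le_mul (pow_le_pow_left₀ hM00 hM0C 2) hp6 ?_ (by positivity))
    exact prod_nonneg fun p _ => by linarith [(hq2 p).1]
  rw [← hΘ]
  refine (lay_tri t1 (t2.trans t2') t3 hΘ0).trans ?_
  -- numbers
  have hLA : 0 < Real.log X ^ A := by positivity
  have n1 : 2 * (2 * (1 + Real.log X) * (X : ℝ) ^ (c0 / 4)) * X * (X : ℝ) ^ (-c0) ≤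
      X / (3 * (Real.log X) ^ A) := by
    rw [le_div_iff₀ (by positivity)]
    have h7 := h4 X (by omega)
    have h8 : (Real.log X) ^ A ≤ (1 + Real.log X) ^ A := pow_le_pow_left₀ hL0 (by linarith) A
    have h9 : 2 * (2 * (1 + Real.log X) * (X : ℝ) ^ (c0 / 4)) * X * (X : ℝ) ^ (-c0) *
        (3 * (Real.log X) ^ A) ≤ (12 * (1 + Real.log X) ^ (A + 1)) * (X : ℝ) ^ (c0 / 4 + 1 + -c0) := by
      rw [Real.rpow_add hX0, Real.rpow_add hX0, Real.rpow_one, pow_succ]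
      have h10 : 0 ≤ (X : ℝ) ^ (c0 / 4) * X * (X : ℝ) ^ (-c0) * (1 + Real.log X) := by positivity
      nlinarith [mul_le_mul_of_nonneg_left h8 h10]
    refine h9.trans ?_
    have h10 : 12 * (1 + Real.log X) ^ (A + 1) ≤ (X : ℝ) ^ (c0 / 2) := by
      refine le_trans ?_ h7
      have : 0 ≤ (1 + Real.log X) ^ (A + 1) := by positivity
      linarith
    calc 12 * (1 + Real.log X) ^ (A + 1) * (X : ℝ) ^ (c0 / 4 + 1 + -c0)
        ≤ (X : ℝ) ^ (c0 / 2) * (X : ℝ) ^ (c0 / 4 + 1 + -c0) :=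
          mul_le_mul_of_nonneg_right h10 (by positivity)
      _ = (X : ℝ) ^ (c0 / 2 + (c0 / 4 + 1 + -c0)) := by rw [← Real.rpow_add hX0]
      _ ≤ X := hpw _ (by linarith)
  have n2 : M0 ^ 2 * (X / (Real.log X) ^ (A + 2 * k + 2)) ≤ X / (3 * (Real.log X) ^ A) := by
    have h7 : M0 ^ 2 ≤ C ^ (2 * k) * (Real.log X) ^ (2 * k) := by
      refine (pow_le_pow_left₀ hM00 hM0C 2).trans (le_of_eq ?_)
      rw [← pow_mul, mul_pow, mul_comm k 2]
    rw [mul_div_assoc', div_le_div_iff₀ (by positivity) (by positivity)]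
    have h8 : C ^ (2 * k) * 3 ≤ (Real.log X) ^ 2 := by nlinarith
    calc M0 ^ 2 * X * (3 * (Real.log X) ^ A)
        ≤ C ^ (2 * k) * (Real.log X) ^ (2 * k) * X * (3 * (Real.log X) ^ A) := by gcongr
      _ = (C ^ (2 * k) * 3) * (X * (Real.log X) ^ (A + 2 * k)) := by
          rw [pow_add]
          ring
      _ ≤ (Real.log X) ^ 2 * (X * (Real.log X) ^ (A + 2 * k)) :=
          mul_le_mul_of_nonneg_right h8 (by positivity)
      _ = X * (Real.log X) ^ (A + 2 * k + 2) := by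
          rw [pow_add _ (A + 2 * k) 2]
          ring
  have n3 : Θ * (X : ℝ) ^ (-c0) * |Qf (q2 m) L| ≤ X / (3 * (Real.log X) ^ A) := by
    rw [le_div_iff₀ (by positivity)]
    have h7 := h5 X (by omega)
    have hC0 : (0 : ℝ) ≤ C ^ (2 * k) * C6 ^ (6 * k) := by positivity
    have h8 : ((C * Real.log X) ^ k) ^ 2 * (C6 * Real.log X) ^ (6 * k) * (Real.log X) ^ A ≤
        C ^ (2 * k) * C6 ^ (6 * k) * (1 + Real.log X) ^ (A + 8 * k) := by
      have e : ((C * Real.log X) ^ k) ^ 2 * (C6 * Real.log X) ^ (6 * k) * (Real.log X) ^ A =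
          C ^ (2 * k) * C6 ^ (6 * k) * (Real.log X) ^ (A + 8 * k) := by
        have e1 : A + 8 * k = A + (2 * k + 6 * k) := by ring
        rw [← pow_mul, mul_pow, mul_pow, mul_comm k 2, e1, pow_add, pow_add]
        ring
      rw [e]
      exact mul_le_mul_of_nonneg_left (pow_le_pow_left₀ hL0 (by linarith) _) hC0
    calc Θ * (X : ℝ) ^ (-c0) * |Qf (q2 m) L| * (3 * (Real.log X) ^ A)
        ≤ (2 * (1 + Real.log X) * X) * (X : ℝ) ^ (-c0) *
            (((C * Real.log X) ^ k) ^ 2 * (C6 * Real.log X) ^ (6 * k)) * (3 * (Real.log X) ^ A) := by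
          gcongr
      _ = 6 * (1 + Real.log X) * (X * (X : ℝ) ^ (-c0)) *
            (((C * Real.log X) ^ k) ^ 2 * (C6 * Real.log X) ^ (6 * k) * (Real.log X) ^ A) := by ring
      _ ≤ 6 * (1 + Real.log X) * (X * (X : ℝ) ^ (-c0)) *
            (C ^ (2 * k) * C6 ^ (6 * k) * (1 + Real.log X) ^ (A + 8 * k)) :=
          mul_le_mul_of_nonneg_left h8 (by positivity)
      _ = (6 * (C ^ (2 * k) * C6 ^ (6 * k)) * (1 + Real.log X) ^ (A + 1 + 8 * k)) *
            (X * (X : ℝ) ^ (-c0)) := by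
          have e1 : A + 1 + 8 * k = A + 8 * k + 1 := by ring
          rw [e1, pow_succ]
          ring
      _ ≤ (X : ℝ) ^ c0 * (X * (X : ℝ) ^ (-c0)) := by
          refine mul_le_mul_of_nonneg_right (le_trans ?_ h7) (by positivity)
          gcongr
          norm_num
      _ = X := by
          rw [mul_left_comm, ← Real.rpow_add hX0, add_neg_cancel, Real.rpow_zero, mul_one]
  have n4 : X / (3 * (Real.log X) ^ A) + X / (3 * (Real.log X) ^ A) + X / (3 * (Real.log X) ^ A) =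
      X / (Real.log X) ^ A := by
    field_simp
    ring
  linarith

end Pool.Agent.Lib.MP_092512_nt.FP
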