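import Pool.Agent.Lib.MP_092512_nt.FP.Defs
import Pool.Agent.Lib.MT.Mass

/-!
# F_P, MassS: `MT.mass_lower` with the constant `1 - 2η - 2M²/z`

PROOF. As Lib/MT/Mass.lean (constant 1/4 there), with `PP z T` in place of `PP w R` and `η` in place of `1/4`:
`T1 ≤ (2/log R)(M-1) BL BB^(M-2) ≤ 2η BB^(M-1)` (`M BL ≤ η BB log R`), `T2 ≤ M²/z BB^(M-1)`, `T3 ≤ M²/z BB^(M-1)`, and the sum is
`≥ BB^(M-1) - T1 - T2 - T3`.  (`M = card ι`; for `M = 1` directly.)
-/

set_option autoImplicit false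

open Finset

namespace Pool.Agent.Lib.MP_092512_nt.FP

open Pool.Agent.Lib.MT

variable {ι : Type} [Fintype ι] [DecidableEq ι]

/-- `g(pr s)^2/pr s` -/
private noncomputable def mf (g : ℕ → ℝ) (s : Finset ℕ) : ℝ := g (pr s) ^ 2 / (pr s : ℝ)

private theorem mf_nonneg (g : ℕ → ℝ) (s : Finset ℕ) : 0 ≤ mf g s := by
  unfold mf; positivity

private abbrev tup (P : Finset ℕ) (m : ι) : Finset (ι → Finset ℕ) :=
  Fintype.piFinset (fun i => if i = m then {∅} else P.powerset)

private theorem tuple_sum (P : Finset ℕ) (m : ι) (a : ι → Finset ℕ → ℝ) :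
    ∑ s ∈ tup P m, ∏ i ∈ univ.erase m, a i (s i) =
      ∏ i ∈ univ.erase m, ∑ x ∈ P.powerset, a i x := by
  have h1 : ∀ s : ι → Finset ℕ, ∏ i ∈ univ.erase m, a i (s i) =
      ∏ i, (if i = m then (1 : ℝ) else a i (s i)) := by
    intro s
    rw [← Finset.mul_prod_erase univ _ (Finset.mem_univ m)]
    rw [if_pos rfl, one_mul]
    refine Finset.prod_congr rfl (fun i hi => ?_)
    rw [if_neg (Finset.ne_of_mem_erase hi)]
  simp_rw [h1]
  have h2 := (Finset.prod_univ_sum (fun i : ι => if i = m then ({∅} : Finset (Finset ℕ)) else P.powerset)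
    (fun i x => if i = m then (1 : ℝ) else a i x)).symm
  refine Eq.trans ?_ (h2.trans ?_)
  · exact Finset.sum_congr rfl (fun s _ => rfl)
  · rw [← Finset.mul_prod_erase univ _ (Finset.mem_univ m)]
    simp only [if_true, Finset.sum_const, Finset.card_singleton, one_smul, one_mul]
    refine Finset.prod_congr rfl (fun i hi => ?_)
    rw [if_neg (Finset.ne_of_mem_erase hi)]
    refine Finset.sum_congr rfl (fun x _ => ?_)
    rw [if_neg (Finset.ne_of_mem_erase hi)]

private theorem card_er (m : ι) : (univ.erase m : Finset ι).card = Fintype.card ι - 1 := by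
  rw [Finset.card_erase_of_mem (Finset.mem_univ m), Finset.card_univ]

private theorem S0 (P : Finset ℕ) (m : ι) (f : Finset ℕ → ℝ) :
    ∑ s ∈ tup P m, ∏ i ∈ univ.erase m, f (s i) = (∑ x ∈ P.powerset, f x) ^ (Fintype.card ι - 1) := by
  rw [tuple_sum P m (fun _ => f), Finset.prod_const, card_er]

private theorem S1 (P : Finset ℕ) (m i : ι) (hi : i ∈ univ.erase m) (f h : Finset ℕ → ℝ) :
    ∑ s ∈ tup P m, (∏ j ∈ univ.erase m, f (s j)) * h (s i) =
      (∑ x ∈ P.powerset, f x * h x) * (∑ x ∈ P.powerset, f x) ^ (Fintype.card ι - 1 - 1) := by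
  have h1 : ∀ s : ι → Finset ℕ, (∏ j ∈ univ.erase m, f (s j)) * h (s i) =
      ∏ j ∈ univ.erase m, f (s j) * (if j = i then h (s j) else 1) := by
    intro s
    rw [Finset.prod_mul_distrib, Finset.prod_ite_eq' (univ.erase m) i (fun j => h (s j)), if_pos hi]
  simp_rw [h1]
  rw [tuple_sum P m (fun j x => f x * (if j = i then h x else 1)),
    ← Finset.mul_prod_erase _ _ hi]
  congr 1
  · simp
  · have : ∀ j ∈ (univ.erase m).erase i, ∑ x ∈ P.powerset, f x * (if j = i then h x else 1) =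
        ∑ x ∈ P.powerset, f x := by
      intro j hj
      simp [Finset.ne_of_mem_erase hj]
    rw [Finset.prod_congr rfl this, Finset.prod_const, Finset.card_erase_of_mem hi, card_er]

private theorem S2 (P : Finset ℕ) (m i j : ι) (hi : i ∈ univ.erase m) (hj : j ∈ (univ.erase m).erase i)
    (f h : Finset ℕ → ℝ) :
    ∑ s ∈ tup P m, (∏ j ∈ univ.erase m, f (s j)) * (h (s i) * h (s j)) =
      (∑ x ∈ P.powerset, f x * h x) * ((∑ x ∈ P.powerset, f x * h x) *
        (∑ x ∈ P.powerset, f x) ^ (Fintype.card ι - 1 - 1 - 1)) := by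
  have hji : j ≠ i := Finset.ne_of_mem_erase hj
  have hjm : j ∈ univ.erase m := Finset.mem_of_mem_erase hj
  have h1 : ∀ s : ι → Finset ℕ, (∏ l ∈ univ.erase m, f (s l)) * (h (s i) * h (s j)) =
      ∏ l ∈ univ.erase m, f (s l) * ((if l = i then h (s l) else 1) * (if l = j then h (s l) else 1)) := by
    intro s
    rw [Finset.prod_mul_distrib, Finset.prod_mul_distrib,
      Finset.prod_ite_eq' (univ.erase m) i (fun j => h (s j)), if_pos hi,
      Finset.prod_ite_eq' (univ.erase m) j (fun j => h (s j)), if_pos hjm]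
  simp_rw [h1]
  rw [tuple_sum P m (fun l x => f x * ((if l = i then h x else 1) * (if l = j then h x else 1))),
    ← Finset.mul_prod_erase _ _ hi, ← Finset.mul_prod_erase _ _ hj]
  congr 1
  · refine Finset.sum_congr rfl (fun x _ => ?_)
    rw [if_pos rfl, if_neg hji.symm, mul_one]
  congr 1
  · refine Finset.sum_congr rfl (fun x _ => ?_)
    rw [if_neg hji, if_pos rfl, one_mul]
  · have : ∀ l ∈ ((univ.erase m).erase i).erase j,
        ∑ x ∈ P.powerset, f x * ((if l = i then h x else 1) * (if l = j then h x else 1)) =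
        ∑ x ∈ P.powerset, f x := by
      intro l hl
      have h1 : l ≠ j := Finset.ne_of_mem_erase hl
      have h2 : l ≠ i := Finset.ne_of_mem_erase (Finset.mem_of_mem_erase hl)
      simp [h1, h2]
    rw [Finset.prod_congr rfl this, Finset.prod_const, Finset.card_erase_of_mem hj,
      Finset.card_erase_of_mem hi, card_er]

/-- sets containing `p` -/
private theorem mass_p (P : Finset ℕ) (hP : ∀ p ∈ P, 1 ≤ p) (g : ℕ → ℝ) (hg0 : ∀ n, 0 ≤ g n)
    (hg1 : ∀ a b, a ≤ b → g b ≤ g a) (p : ℕ) (hp : p ∈ P) :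
    ∑ x ∈ P.powerset, mf g x * (if p ∈ x then 1 else 0) ≤
      (∑ x ∈ P.powerset, mf g x) / p := by
  have hp1 : 1 ≤ p := hP p hp
  have hp0 : (0 : ℝ) < p := by exact_mod_cast hp1
  rw [Finset.sum_div]
  have e1 : ∑ x ∈ P.powerset, mf g x * (if p ∈ x then 1 else 0) =
      ∑ x ∈ P.powerset.filter (fun x => p ∈ x), mf g x := by
    rw [Finset.sum_filter]
    exact Finset.sum_congr rfl (fun x _ => by split_ifs <;> simp)
  rw [e1]
  have e2 : ∀ x ∈ P.powerset.filter (fun x => p ∈ x), mf g x ≤ mf g (x.erase p) / p := by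
    intro x hx
    rw [Finset.mem_filter, Finset.mem_powerset] at hx
    have hpr : pr x = p * pr (x.erase p) := (Finset.mul_prod_erase x (fun p => p) hx.2).symm
    have hpos : 0 < pr (x.erase p) := Finset.prod_pos (fun q hq =>
      hP q (hx.1 (Finset.mem_of_mem_erase hq)))
    have hposR : (0 : ℝ) < (pr (x.erase p) : ℝ) := by exact_mod_cast hpos
    have hle : g (pr x) ≤ g (pr (x.erase p)) := hg1 _ _ (by rw [hpr]; exact Nat.le_mul_of_pos_left _ hp1)
    unfold mf
    have h3 : g (pr x) ^ 2 ≤ g (pr (x.erase p)) ^ 2 := pow_le_pow_left₀ (hg0 _) hle 2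
    have h4 : ((pr x : ℕ) : ℝ) = p * (pr (x.erase p) : ℝ) := by rw [hpr]; push_cast; ring
    rw [h4, div_div, mul_comm (p : ℝ)]
    exact div_le_div_of_nonneg_right h3 (by positivity)
  refine (Finset.sum_le_sum e2).trans ?_
  have inj : Set.InjOn (fun x : Finset ℕ => x.erase p) (P.powerset.filter (fun x => p ∈ x)) := by
    intro x hx y hy hxy
    have hx' := (Finset.mem_filter.1 (Finset.mem_coe.1 hx)).2
    have hy' := (Finset.mem_filter.1 (Finset.mem_coe.1 hy)).2
    have : insert p (x.erase p) = insert p (y.erase p) := by rw [show x.erase p = y.erase p from hxy]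
    rwa [Finset.insert_erase hx', Finset.insert_erase hy'] at this
  rw [← Finset.sum_image (f := fun x => mf g x / p) inj]
  refine Finset.sum_le_sum_of_subset_of_nonneg ?_ (fun x _ _ => by
    have := mf_nonneg g x
    positivity)
  intro y hy
  rw [Finset.mem_image] at hy
  obtain ⟨x, hx, rfl⟩ := hy
  rw [Finset.mem_filter, Finset.mem_powerset] at hx
  rw [Finset.mem_powerset]
  exact (Finset.erase_subset _ _).trans hx.1

private theorem one_sub_sum_le {α : Type} (s : Finset α) (x : α → ℝ) (h0 : ∀ a ∈ s, 0 ≤ x a)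
    (h1 : ∀ a ∈ s, x a ≤ 1) : 1 - ∑ a ∈ s, x a ≤ ∏ a ∈ s, (1 - x a) := by
  classical
  induction s using Finset.induction_on with
  | empty => simp
  | insert a s ha ih =>
    rw [Finset.sum_insert ha, Finset.prod_insert ha]
    have ih' := ih (fun b hb => h0 b (Finset.mem_insert_of_mem hb))
      (fun b hb => h1 b (Finset.mem_insert_of_mem hb))
    have ha0 := h0 a (Finset.mem_insert_self a s)
    have ha1 := h1 a (Finset.mem_insert_self a s)
    have hs : 0 ≤ ∑ b ∈ s, x b := Finset.sum_nonneg (fun b hb => h0 b (Finset.mem_insert_of_mem hb))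
    have h3 : (1 - x a) * (1 - ∑ b ∈ s, x b) ≤ (1 - x a) * ∏ b ∈ s, (1 - x b) :=
      mul_le_mul_of_nonneg_left ih' (by linarith)
    nlinarith

private theorem sum_sq (w R : ℕ) (hw : 1 ≤ w) : ∑ p ∈ PP w R, (1 : ℝ) / ((p : ℝ) ^ 2) ≤ 1 / (w : ℝ) := by
  have h1 : ∑ p ∈ PP w R, (1 : ℝ) / ((p : ℝ) ^ 2) ≤ ∑ p ∈ Ioc w (max w R), (1 : ℝ) / ((p : ℝ) ^ 2) := by
    refine Finset.sum_le_sum_of_subset_of_nonneg ?_ (fun x _ _ => by positivity)
    intro p hp
    unfold PP at hp
    rw [Finset.mem_filter, Finset.mem_range] at hp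
    rw [Finset.mem_Ioc]
    exact ⟨hp.2.2, le_max_of_le_right (by omega)⟩
  refine h1.trans ?_
  have key : ∀ n : ℕ, w ≤ n → ∑ p ∈ Ioc w n, (1 : ℝ) / ((p : ℝ) ^ 2) ≤ 1 / (w : ℝ) - 1 / (n : ℝ) := by
    intro n hn
    induction n, hn using Nat.le_induction with
    | base => simp
    | succ n hn ih =>
      rw [← Finset.insert_Ioc_right_eq_Ioc_add_one (by omega), Finset.sum_insert (by simp)]
      have hn0 : (0 : ℝ) < n := by exact_mod_cast (by omega : 0 < n)
      have : 1 / (((n + 1 : ℕ) : ℝ) ^ 2) ≤ 1 / n - 1 / ((n + 1 : ℕ) : ℝ) := by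
        push_cast
        rw [div_sub_div _ _ hn0.ne' (by positivity), div_le_div_iff₀ (by positivity) (by positivity)]
        nlinarith
      linarith
  refine (key _ (le_max_left _ _)).trans ?_
  have : (0 : ℝ) ≤ 1 / ((max w R : ℕ) : ℝ) := by positivity
  linarith

theorem mass_low (z T R : ℕ) (hz : Fintype.card ι ≤ z) (hz1 : 1 ≤ z) (hR : 2 ≤ R) (m : ι)
    (g : ℕ → ℝ) (hg0 : ∀ n, 0 ≤ g n) (hg1 : ∀ a b, a ≤ b → g b ≤ g a) (η : ℝ) (hη : 0 ≤ η)
    (hF : Fintype.card ι * BL (PP z T) g ≤ η * (BB (PP z T) g * Real.log R)) :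
    (1 - 2 * η - 2 * (Fintype.card ι : ℝ) ^ 2 / z) * BB (PP z T) g ^ (Fintype.card ι - 1) ≤
      ∑ ρ ∈ univ.filter (fun ρ : Col (PP z T) ι => (∀ p, ρ p ≠ some m) ∧ tot ρ ^ 2 ≤ R),
        (∏ i ∈ univ.erase m, g (prt i ρ) ^ 2) * ∏ p : {p : ℕ // p ∈ PP z T},
          (if ρ p = none then (1 : ℝ) else
            1 / ((p : ℕ) : ℝ) * (1 - Fintype.card ι / ((p : ℕ) : ℝ))) := by
  classical
  set P := PP z T with hPdef
  set k := Fintype.card ι with hk
  have hk1 : 1 ≤ k := Fintype.card_pos_iff.2 ⟨m⟩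
  have hw1 : 1 ≤ z := hz1
  have hkw : k ≤ z := hz
  have hPp : ∀ p ∈ P, z < p := fun p hp => by
    rw [hPdef] at hp; unfold PP at hp; exact (Finset.mem_filter.1 hp).2.2
  have hP1 : ∀ p ∈ P, 1 ≤ p := fun p hp => by have := hPp p hp; omega
  have hlogR : 0 < Real.log R := Real.log_pos (by exact_mod_cast (by omega : 1 < R))
  -- the function of the tuple
  set wt : Finset ℕ → ℝ := fun s => ∏ p ∈ s, (1 - (k : ℝ) / p) with hwt
  set G : (ι → Finset ℕ) → ℝ := fun s =>
    if (∏ i, pr (s i)) ^ 2 ≤ R then ∏ i ∈ univ.erase m, (mf g (s i) * wt (s i)) else 0 with hG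
  have hT : ∑ ρ ∈ univ.filter (fun ρ : Col P ι => (∀ p, ρ p ≠ some m) ∧ tot ρ ^ 2 ≤ R),
        (∏ i ∈ univ.erase m, g (prt i ρ) ^ 2) * ∏ p : {p : ℕ // p ∈ P},
          (if ρ p = none then (1 : ℝ) else 1 / ((p : ℕ) : ℝ) * (1 - k / ((p : ℕ) : ℝ))) =
      ∑ s ∈ (tup P m).filter (fun s => ∀ i j, i ≠ j → Disjoint (s i) (s j)), G s := by
    rw [← disj_sum m G, ← Finset.filter_filter, Finset.sum_filter (p := fun ρ => tot ρ ^ 2 ≤ R)]
    refine Finset.sum_congr rfl (fun ρ hρ => ?_)
    rw [Finset.mem_filter] at hρ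
    have hm : part m ρ = ∅ := by
      rw [Finset.eq_empty_iff_forall_notMem]
      intro p hp
      obtain ⟨h1, h2⟩ := (mem_part m ρ p).1 hp
      exact hρ.2 _ h2
    rw [hG]
    simp only
    have htot : tot ρ = ∏ i, pr (part i ρ) := by
      rw [tot_eq]; exact Finset.prod_congr rfl (fun i _ => prt_eq i ρ)
    rw [htot]
    refine if_congr Iff.rfl ?_ rfl
    rw [prod_col (fun p => 1 / (p : ℝ) * (1 - k / (p : ℝ))) ρ,
      ← Finset.mul_prod_erase univ (fun i => ∏ p ∈ part i ρ, (1 / (p : ℝ) * (1 - k / (p : ℝ))))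
        (Finset.mem_univ m), hm, Finset.prod_empty, one_mul, ← Finset.prod_mul_distrib]
    refine Finset.prod_congr rfl (fun i _ => ?_)
    rw [Finset.prod_mul_distrib, prt_eq, hwt]
    unfold mf
    have : ∏ p ∈ part i ρ, 1 / (p : ℝ) = 1 / (pr (part i ρ) : ℝ) := by
      unfold pr
      rw [Finset.prod_div_distrib, Finset.prod_const_one]
      push_cast
      rfl
    rw [this]
    ring
  rw [hT]
  set B := BB P g with hB
  have hBe : B = ∑ x ∈ P.powerset, mf g x := rfl
  have hB0 : 0 ≤ B := by rw [hBe]; exact Finset.sum_nonneg (fun x _ => mf_nonneg g x)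
  -- pointwise lower bound
  set F : (ι → Finset ℕ) → ℝ := fun s => ∏ i ∈ univ.erase m, mf g (s i) with hFdef
  have hF0 : ∀ s, 0 ≤ F s := fun s => Finset.prod_nonneg (fun i _ => mf_nonneg g _)
  set bad1 : (ι → Finset ℕ) → ℝ := fun s =>
    ∑ i ∈ univ.erase m, 2 / Real.log R * Real.log (pr (s i)) with hbad1
  set bad2 : (ι → Finset ℕ) → ℝ := fun s =>
    ∑ i ∈ univ.erase m, ∑ j ∈ (univ.erase m).erase i, ∑ p ∈ P,
      ((if p ∈ s i then (1 : ℝ) else 0) * (if p ∈ s j then (1 : ℝ) else 0)) with hbad2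
  set bad3 : (ι → Finset ℕ) → ℝ := fun s =>
    ∑ i ∈ univ.erase m, ∑ p ∈ P, (k : ℝ) / p * (if p ∈ s i then (1 : ℝ) else 0) with hbad3
  have hxp : ∀ p ∈ P, 0 ≤ (k : ℝ) / p ∧ (k : ℝ) / p ≤ 1 := by
    intro p hp
    have h1 : (0 : ℝ) < p := by exact_mod_cast hP1 p hp
    refine ⟨by positivity, (div_le_one h1).2 ?_⟩
    have := hPp p hp
    exact_mod_cast (by omega : k ≤ p)
  have hwt0 : ∀ s ⊆ P, 0 ≤ wt s := fun s hs =>
    Finset.prod_nonneg (fun p hp => sub_nonneg.2 (hxp p (hs hp)).2)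
  have htup : ∀ s ∈ tup P m, s m = ∅ ∧ ∀ i, s i ⊆ P := by
    intro s hs
    rw [Fintype.mem_piFinset] at hs
    have hm : s m = ∅ := by simpa using hs m
    refine ⟨hm, fun i => ?_⟩
    by_cases hi : i = m
    · rw [hi, hm]; exact Finset.empty_subset _
    · have := hs i
      rw [if_neg hi] at this
      exact Finset.mem_powerset.1 this
  have hprpos : ∀ s ⊆ P, 1 ≤ pr s := fun s hs =>
    Nat.one_le_iff_ne_zero.2 (Finset.prod_ne_zero_iff.2 (fun p hp => by have := hP1 p (hs hp); omega))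
  have hb1 : ∀ s ∈ tup P m, 0 ≤ bad1 s := fun s hs => Finset.sum_nonneg (fun i _ =>
    mul_nonneg (by positivity) (Real.log_nonneg (by exact_mod_cast hprpos _ ((htup s hs).2 i))))
  have hb2 : ∀ s, 0 ≤ bad2 s := fun s => Finset.sum_nonneg (fun i _ => Finset.sum_nonneg (fun j _ =>
    Finset.sum_nonneg (fun p _ => by split_ifs <;> norm_num)))
  have hb3 : ∀ s, 0 ≤ bad3 s := fun s => Finset.sum_nonneg (fun i _ =>
    Finset.sum_nonneg (fun p hp => mul_nonneg (hxp p hp).1 (by split_ifs <;> norm_num)))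
  have point : ∀ s ∈ tup P m, F s * (1 - bad1 s - bad2 s - bad3 s) ≤
      if (∀ i j, i ≠ j → Disjoint (s i) (s j)) then G s else 0 := by
    intro s hs
    obtain ⟨hsm, hsP⟩ := htup s hs
    have z1 := hb1 s hs
    have z2 := hb2 s
    have z3 := hb3 s
    by_cases hd : ∀ i j, i ≠ j → Disjoint (s i) (s j)
    · rw [if_pos hd, hG]
      simp only
      by_cases hsm2 : (∏ i, pr (s i)) ^ 2 ≤ R
      · rw [if_pos hsm2, Finset.prod_mul_distrib]
        refine mul_le_mul_of_nonneg_left ?_ (hF0 s)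
        have h5 : 1 - bad3 s ≤ ∏ i ∈ univ.erase m, wt (s i) := by
          have h6 : ∏ i ∈ univ.erase m, wt (s i) =
              ∏ x ∈ (univ.erase m).sigma (fun i => s i), (1 - (k : ℝ) / ((x.2 : ℕ) : ℝ)) := by
            rw [Finset.prod_sigma]
          have h7 : bad3 s = ∑ x ∈ (univ.erase m).sigma (fun i => s i), (k : ℝ) / ((x.2 : ℕ) : ℝ) := by
            rw [Finset.sum_sigma, hbad3]
            refine Finset.sum_congr rfl (fun i _ => ?_)
            have : ∀ p ∈ P, (k : ℝ) / p * (if p ∈ s i then (1 : ℝ) else 0) =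
                if p ∈ s i then (k : ℝ) / p else 0 := fun p _ => by split_ifs <;> simp
            rw [Finset.sum_congr rfl this, ← Finset.sum_filter, Finset.filter_mem_eq_inter,
              Finset.inter_eq_right.2 (hsP i)]
          rw [h6, h7]
          refine one_sub_sum_le _ _ (fun x hx => ?_) (fun x hx => ?_)
          · rw [Finset.mem_sigma] at hx
            exact (hxp _ (hsP _ hx.2)).1
          · rw [Finset.mem_sigma] at hx
            exact (hxp _ (hsP _ hx.2)).2
        linarith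
      · rw [if_neg hsm2]
        have h1 : 1 ≤ bad1 s := by
          rw [hbad1]
          simp only
          rw [← Finset.mul_sum]
          have h8 : Real.log ((∏ i, pr (s i) : ℕ) : ℝ) = ∑ i ∈ univ.erase m, Real.log (pr (s i)) := by
            rw [← Finset.mul_prod_erase univ _ (Finset.mem_univ m), hsm]
            have : pr ∅ = 1 := by simp [pr]
            rw [this, one_mul, Nat.cast_prod, Real.log_prod]
            intro i _
            have := hprpos _ (hsP i)
            exact_mod_cast (by omega : pr (s i) ≠ 0)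
          rw [← h8]
          have h9 : (R : ℝ) < ((∏ i, pr (s i) : ℕ) : ℝ) ^ 2 := by
            exact_mod_cast (by omega : R < (∏ i, pr (s i)) ^ 2)
          have h10 : Real.log R ≤ 2 * Real.log ((∏ i, pr (s i) : ℕ) : ℝ) := by
            have := Real.log_le_log (by positivity) h9.le
            rwa [Real.log_pow, Nat.cast_ofNat] at this
          rw [div_mul_eq_mul_div, le_div_iff₀ hlogR, one_mul]
          exact h10
        have := hF0 s
        nlinarith
    · rw [if_neg hd]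
      have h2 : 1 ≤ bad2 s := by
        push Not at hd
        obtain ⟨i, j, hij, hnd⟩ := hd
        rw [Finset.not_disjoint_iff] at hnd
        obtain ⟨p, hpi, hpj⟩ := hnd
        have hi : i ∈ univ.erase m := by
          refine Finset.mem_erase.2 ⟨fun h => ?_, Finset.mem_univ _⟩
          rw [h, hsm] at hpi
          exact absurd hpi (Finset.notMem_empty _)
        have hj : j ∈ (univ.erase m).erase i := by
          refine Finset.mem_erase.2 ⟨hij.symm, Finset.mem_erase.2 ⟨fun h => ?_, Finset.mem_univ _⟩⟩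
          rw [h, hsm] at hpj
          exact absurd hpj (Finset.notMem_empty _)
        have hp : p ∈ P := hsP i hpi
        have n1 : ∀ i j, ∀ p ∈ P, (0 : ℝ) ≤ (if p ∈ s i then (1 : ℝ) else 0) * (if p ∈ s j then (1 : ℝ) else 0) :=
          fun i j p _ => by split_ifs <;> norm_num
        calc (1 : ℝ) = (if p ∈ s i then (1 : ℝ) else 0) * (if p ∈ s j then (1 : ℝ) else 0) := by
              rw [if_pos hpi, if_pos hpj, one_mul]
          _ ≤ ∑ p ∈ P, (if p ∈ s i then (1 : ℝ) else 0) * (if p ∈ s j then (1 : ℝ) else 0) :=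
              Finset.single_le_sum (f := fun p => (if p ∈ s i then (1 : ℝ) else 0) *
                (if p ∈ s j then (1 : ℝ) else 0)) (n1 i j) hp
          _ ≤ ∑ j ∈ (univ.erase m).erase i, ∑ p ∈ P,
                (if p ∈ s i then (1 : ℝ) else 0) * (if p ∈ s j then (1 : ℝ) else 0) :=
              Finset.single_le_sum (f := fun j => ∑ p ∈ P, (if p ∈ s i then (1 : ℝ) else 0) *
                (if p ∈ s j then (1 : ℝ) else 0)) (fun j _ => Finset.sum_nonneg (n1 i j)) hj
          _ ≤ bad2 s :=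
              Finset.single_le_sum (f := fun i => ∑ j ∈ (univ.erase m).erase i, ∑ p ∈ P,
                (if p ∈ s i then (1 : ℝ) else 0) *
                (if p ∈ s j then (1 : ℝ) else 0)) (fun i _ => Finset.sum_nonneg
                  (fun j _ => Finset.sum_nonneg (n1 i j))) hi
      have := hF0 s
      nlinarith
  rw [Finset.sum_filter]
  refine le_trans ?_ (Finset.sum_le_sum point)
  have hexp : ∑ s ∈ tup P m, F s * (1 - bad1 s - bad2 s - bad3 s) =
      ∑ s ∈ tup P m, F s - ∑ s ∈ tup P m, F s * bad1 s - ∑ s ∈ tup P m, F s * bad2 s -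
        ∑ s ∈ tup P m, F s * bad3 s := by
    rw [← Finset.sum_sub_distrib, ← Finset.sum_sub_distrib, ← Finset.sum_sub_distrib]
    exact Finset.sum_congr rfl (fun s _ => by ring)
  rw [hexp]
  have t0 : ∑ s ∈ tup P m, F s = B ^ (k - 1) := S0 P m (mf g)
  have hcard : ((univ.erase m : Finset ι).card : ℝ) ≤ k := by
    rw [card_er]; exact_mod_cast Nat.sub_le _ _
  have hBp : ∀ p ∈ P, ∑ x ∈ P.powerset, mf g x * (if p ∈ x then 1 else 0) ≤ B / p :=
    fun p hp => mass_p P hP1 g hg0 hg1 p hp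
  have hBp0 : ∀ p, 0 ≤ ∑ x ∈ P.powerset, mf g x * (if p ∈ x then (1 : ℝ) else 0) :=
    fun p => Finset.sum_nonneg (fun x _ => mul_nonneg (mf_nonneg g x) (by split_ifs <;> norm_num))
  have hk0 : (0 : ℝ) < k := by exact_mod_cast hk1
  have hBk : 0 ≤ B ^ (k - 1) := pow_nonneg hB0 _
  -- first sum
  have t1 : ∑ s ∈ tup P m, F s * bad1 s ≤ 2 * η * B ^ (k - 1) := by
    have e1 : ∑ s ∈ tup P m, F s * bad1 s =
        ∑ i ∈ univ.erase m, 2 / Real.log R * ∑ s ∈ tup P m, F s * Real.log (pr (s i)) := by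
      simp_rw [hbad1, Finset.mul_sum]
      rw [Finset.sum_comm]
      exact Finset.sum_congr rfl (fun i _ => Finset.sum_congr rfl (fun s _ => by ring))
    rw [e1]
    have e2 : ∀ i ∈ univ.erase m, 2 / Real.log R * ∑ s ∈ tup P m, F s * Real.log (pr (s i)) ≤
        2 * η / k * B ^ (k - 1) := by
      intro i hi
      rw [S1 P m i hi (mf g) (fun x => Real.log (pr x))]
      have e3 : ∑ x ∈ P.powerset, mf g x * Real.log (pr x) = BL P g := by
        unfold BL mf
        exact Finset.sum_congr rfl (fun x _ => by ring)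
      rw [e3, ← hBe]
      have hk2 : k - 1 = (k - 1 - 1) + 1 := by
        have : 0 < (univ.erase m : Finset ι).card := Finset.card_pos.2 ⟨i, hi⟩
        rw [card_er] at this
        omega
      have e4 : B ^ (k - 1) = B * B ^ (k - 1 - 1) := by
        conv_lhs => rw [hk2]
        rw [pow_succ']
      rw [e4]
      have h4 : BL P g ≤ η * (B * Real.log R) / k := by
        rw [le_div_iff₀ (by positivity)]
        linarith
      have hp1 : 0 ≤ B ^ (k - 1 - 1) := pow_nonneg hB0 _
      calc 2 / Real.log R * (BL P g * B ^ (k - 1 - 1))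
          ≤ 2 / Real.log R * (η * (B * Real.log R) / k * B ^ (k - 1 - 1)) := by
            refine mul_le_mul_of_nonneg_left (mul_le_mul_of_nonneg_right h4 hp1) (by positivity)
        _ = 2 * η / k * (B * B ^ (k - 1 - 1)) := by
            field_simp
    refine (Finset.sum_le_sum e2).trans ?_
    rw [Finset.sum_const, nsmul_eq_mul]
    calc ((univ.erase m : Finset ι).card : ℝ) * (2 * η / k * B ^ (k - 1))
        ≤ k * (2 * η / k * B ^ (k - 1)) := mul_le_mul_of_nonneg_right hcard (by positivity)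
      _ = 2 * η * B ^ (k - 1) := by field_simp
  set Q : ℝ := ∑ p ∈ P, (1 : ℝ) / ((p : ℝ) ^ 2) with hQ
  have hQ0 : 0 ≤ Q := Finset.sum_nonneg (fun p _ => by positivity)
  have hQk : Q * k ^ 2 ≤ k ^ 2 / z := by
    have h1 := sum_sq z T hw1
    calc Q * k ^ 2 ≤ 1 / z * k ^ 2 := mul_le_mul_of_nonneg_right h1 (by positivity)
      _ = k ^ 2 / z := by ring
  have t2 : ∑ s ∈ tup P m, F s * bad2 s ≤ (k : ℝ) ^ 2 / z * B ^ (k - 1) := by
    have e1 : ∑ s ∈ tup P m, F s * bad2 s =
        ∑ i ∈ univ.erase m, ∑ j ∈ (univ.erase m).erase i, ∑ p ∈ P, ∑ s ∈ tup P m, F s *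
          ((if p ∈ s i then (1 : ℝ) else 0) * (if p ∈ s j then (1 : ℝ) else 0)) := by
      simp_rw [hbad2, Finset.mul_sum]
      rw [Finset.sum_comm]
      refine Finset.sum_congr rfl (fun i _ => ?_)
      rw [Finset.sum_comm]
      refine Finset.sum_congr rfl (fun j _ => ?_)
      rw [Finset.sum_comm]
    rw [e1]
    have e2 : ∀ i ∈ univ.erase m, ∀ j ∈ (univ.erase m).erase i, ∀ p ∈ P,
        ∑ s ∈ tup P m, F s * ((if p ∈ s i then (1 : ℝ) else 0) * (if p ∈ s j then (1 : ℝ) else 0)) ≤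
        1 / (p : ℝ) ^ 2 * B ^ (k - 1) := by
      intro i hi j hj p hp
      rw [S2 P m i j hi hj (mf g) (fun x => if p ∈ x then (1 : ℝ) else 0), ← hBe]
      have hk2 : k - 1 = (k - 1 - 1 - 1) + 1 + 1 := by
        have h1 : 0 < ((univ.erase m : Finset ι).erase i).card := Finset.card_pos.2 ⟨j, hj⟩
        rw [Finset.card_erase_of_mem hi, card_er] at h1
        omega
      have e4 : B ^ (k - 1) = B * (B * B ^ (k - 1 - 1 - 1)) := by
        conv_lhs => rw [hk2]
        rw [pow_succ', pow_succ']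
      have hp1 : 0 ≤ B ^ (k - 1 - 1 - 1) := pow_nonneg hB0 _
      have hpp : (0 : ℝ) < p := by exact_mod_cast hP1 p hp
      rw [e4]
      calc _ ≤ B / p * (B / p * B ^ (k - 1 - 1 - 1)) := by
            refine mul_le_mul (hBp p hp) (mul_le_mul_of_nonneg_right (hBp p hp) hp1)
              (mul_nonneg (hBp0 p) hp1) (by positivity)
        _ = 1 / (p : ℝ) ^ 2 * (B * (B * B ^ (k - 1 - 1 - 1))) := by
            field_simp
    have e3 : ∀ i ∈ univ.erase m, ∑ j ∈ (univ.erase m).erase i, ∑ p ∈ P, ∑ s ∈ tup P m, F s *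
          ((if p ∈ s i then (1 : ℝ) else 0) * (if p ∈ s j then (1 : ℝ) else 0)) ≤
        k * (Q * B ^ (k - 1)) := by
      intro i hi
      have : ∀ j ∈ (univ.erase m).erase i, ∑ p ∈ P, ∑ s ∈ tup P m, F s *
          ((if p ∈ s i then (1 : ℝ) else 0) * (if p ∈ s j then (1 : ℝ) else 0)) ≤ Q * B ^ (k - 1) := by
        intro j hj
        rw [hQ, Finset.sum_mul]
        exact Finset.sum_le_sum (fun p hp => e2 i hi j hj p hp)
      refine (Finset.sum_le_sum this).trans ?_
      rw [Finset.sum_const, nsmul_eq_mul]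
      refine mul_le_mul_of_nonneg_right ?_ (mul_nonneg hQ0 hBk)
      refine le_trans ?_ hcard
      exact_mod_cast Finset.card_le_card (Finset.erase_subset _ _)
    refine (Finset.sum_le_sum e3).trans ?_
    rw [Finset.sum_const, nsmul_eq_mul]
    calc ((univ.erase m : Finset ι).card : ℝ) * (k * (Q * B ^ (k - 1)))
        ≤ k * (k * (Q * B ^ (k - 1))) := mul_le_mul_of_nonneg_right hcard (by positivity)
      _ = Q * k ^ 2 * B ^ (k - 1) := by ring
      _ ≤ (k : ℝ) ^ 2 / z * B ^ (k - 1) := mul_le_mul_of_nonneg_right hQk hBk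
  have t3 : ∑ s ∈ tup P m, F s * bad3 s ≤ (k : ℝ) ^ 2 / z * B ^ (k - 1) := by
    have e1 : ∑ s ∈ tup P m, F s * bad3 s =
        ∑ i ∈ univ.erase m, ∑ p ∈ P, (k : ℝ) / p * ∑ s ∈ tup P m, F s *
          (if p ∈ s i then (1 : ℝ) else 0) := by
      simp_rw [hbad3, Finset.mul_sum]
      rw [Finset.sum_comm]
      refine Finset.sum_congr rfl (fun i _ => ?_)
      rw [Finset.sum_comm]
      exact Finset.sum_congr rfl (fun p _ => Finset.sum_congr rfl (fun s _ => by ring))
    rw [e1]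
    have e2 : ∀ i ∈ univ.erase m, ∀ p ∈ P,
        (k : ℝ) / p * ∑ s ∈ tup P m, F s * (if p ∈ s i then (1 : ℝ) else 0) ≤
        k * (1 / (p : ℝ) ^ 2 * B ^ (k - 1)) := by
      intro i hi p hp
      rw [S1 P m i hi (mf g) (fun x => if p ∈ x then (1 : ℝ) else 0), ← hBe]
      have hk2 : k - 1 = (k - 1 - 1) + 1 := by
        have : 0 < (univ.erase m : Finset ι).card := Finset.card_pos.2 ⟨i, hi⟩
        rw [card_er] at this
        omega
      have e4 : B ^ (k - 1) = B * B ^ (k - 1 - 1) := by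
        conv_lhs => rw [hk2]
        rw [pow_succ']
      have hp1 : 0 ≤ B ^ (k - 1 - 1) := pow_nonneg hB0 _
      have hpp : (0 : ℝ) < p := by exact_mod_cast hP1 p hp
      rw [e4]
      calc _ ≤ (k : ℝ) / p * (B / p * B ^ (k - 1 - 1)) :=
            mul_le_mul_of_nonneg_left (mul_le_mul_of_nonneg_right (hBp p hp) hp1) (by positivity)
        _ = k * (1 / (p : ℝ) ^ 2 * (B * B ^ (k - 1 - 1))) := by
            field_simp
    have e3 : ∀ i ∈ univ.erase m, ∑ p ∈ P, (k : ℝ) / p * ∑ s ∈ tup P m, F s *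
          (if p ∈ s i then (1 : ℝ) else 0) ≤ k * (Q * B ^ (k - 1)) := by
      intro i hi
      rw [hQ, Finset.sum_mul, Finset.mul_sum]
      exact Finset.sum_le_sum (fun p hp => e2 i hi p hp)
    refine (Finset.sum_le_sum e3).trans ?_
    rw [Finset.sum_const, nsmul_eq_mul]
    calc ((univ.erase m : Finset ι).card : ℝ) * (k * (Q * B ^ (k - 1)))
        ≤ k * (k * (Q * B ^ (k - 1))) := mul_le_mul_of_nonneg_right hcard (by positivity)
      _ = Q * k ^ 2 * B ^ (k - 1) := by ring
      _ ≤ (k : ℝ) ^ 2 / z * B ^ (k - 1) := mul_le_mul_of_nonneg_right hQk hBk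
  rw [t0]
  have hfin : (1 - 2 * η - 2 * (k : ℝ) ^ 2 / z) * B ^ (k - 1) =
      B ^ (k - 1) - 2 * η * B ^ (k - 1) - (k : ℝ) ^ 2 / z * B ^ (k - 1) -
        (k : ℝ) ^ 2 / z * B ^ (k - 1) := by ring
  rw [hfin]
  linarith

end Pool.Agent.Lib.MP_092512_nt.FP
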