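import Pool.Agent.Lib.MP_092512_nt.FP.Defs
import Pool.Agent.Lib.MT.GSum
import Pool.Agent.Lib.MT.OneDim

/-!
# F_P, Num: the choice of the function `g`

PROOF.  `C₁` from `MT.DD_upper`.  `J = Nat.log 2 M` (`2^J ≤ M`), `ℓ = η log R/(4 C₁ M (J+1))`, `g = MT.gg J ℓ` (`gg_nonneg`, `gg_le_one`, `gg_anti`,
`gg_supp`: `g n ≠ 0` gives `n ≤ exp (2^J ℓ) ≤ exp (log R/4)`, so `n^2 ≤ R`).  For `j ≤ J`: `1 ≤ exp (2^j ℓ) ≤ R ≤ T`, `exp ℓ ≥ 2` and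
`≥ (log X)^B ≥ z` for large `X` (`ℓ ≥ c log X`), so `DD_lower`, `DD_upper` apply with `κ = kap z`:
`AA ≥ J κ ℓ/4`, `BB ≤ 2 C₁ κ ℓ`, `BL ≤ (J+1) C₁ κ ℓ^2`, `BB ≥ κ ℓ/2`.  So `M BL ≤ M (J+1) C₁ κ ℓ^2 ≤ η (κℓ/2) log R ≤ η BB log R`
(by the choice of `ℓ`), and `M AA^2/(BB κ log X) ≥ M J^2 ℓ/(32 C₁ log X) ≥ J^2 η θ/(128 C₁^2 (J+1)) ≥ 1/η` if `J` is large, i.e. `M ≥ M₀`.
`AA ≥ BB` as `g ≤ 1` (`g^2 ≤ g`), `BB ≥ 1`: `BB_one`.  See Lib/MT/Ratio.lean for the same steps.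
-/

set_option autoImplicit false

open Finset

namespace Pool.Agent.Lib.MP_092512_nt.FP

open Pool.Agent.Lib.MT

/-- for large `X`: `c log X ≥ 1` and `(log X)^B ≤ exp (c log X)` -/
private theorem Num_large (B : ℕ) (c : ℝ) (hc : 0 < c) : ∃ X₀ : ℕ, ∀ X : ℕ, X₀ ≤ X →
    1 ≤ c * Real.log X ∧ (Real.log X) ^ B ≤ Real.exp (c * Real.log X) ∧ 0 < Real.log X := by
  have h1 : Filter.Tendsto (fun X : ℕ => Real.log X) Filter.atTop Filter.atTop :=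
    Real.tendsto_log_atTop.comp tendsto_natCast_atTop_atTop
  have h2 : ∀ᶠ y : ℝ in Filter.atTop, y ^ B ≤ Real.exp (c * y) := by
    have h3 : (fun y : ℝ => y ^ (B : ℝ)) =o[Filter.atTop] fun y => Real.exp (c * y) :=
      isLittleO_rpow_exp_pos_mul_atTop (B : ℝ) hc
    have h4 := h3.bound (show (0 : ℝ) < 1 by norm_num)
    filter_upwards [h4, Filter.eventually_ge_atTop (0 : ℝ)] with y hy hy0
    rw [one_mul, Real.norm_eq_abs, Real.norm_eq_abs, abs_of_nonneg (Real.exp_pos _).le,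
      Real.rpow_natCast, abs_of_nonneg (pow_nonneg hy0 _)] at hy
    exact hy
  have h5 : ∀ᶠ y : ℝ in Filter.atTop, 1 ≤ c * y :=
    (Filter.tendsto_id.const_mul_atTop hc).eventually_ge_atTop 1
  have h6 := h1.eventually ((h5.and h2).and (Filter.eventually_gt_atTop (0 : ℝ)))
  obtain ⟨X₀, hX₀⟩ := Filter.eventually_atTop.1 h6
  exact ⟨X₀, fun X hX => ⟨(hX₀ X hX).1.1, (hX₀ X hX).1.2, (hX₀ X hX).2⟩⟩

private theorem Num_AA_ge (P : Finset ℕ) (g : ℕ → ℝ) (h0 : ∀ n, 0 ≤ g n) (h1 : ∀ n, g n ≤ 1) :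
    BB P g ≤ AA P g := by
  unfold BB AA
  refine sum_le_sum fun s _ => ?_
  refine div_le_div_of_nonneg_right ?_ (Nat.cast_nonneg _)
  have a1 := h0 (pr s)
  have a2 := h1 (pr s)
  nlinarith

theorem num (η θ : ℝ) (hη : 0 < η) (hη1 : η ≤ 1) (hθ : 0 < θ) : ∃ M₀ : ℕ, ∀ M : ℕ, M₀ ≤ M →
    ∀ B : ℕ, ∃ X₀ : ℕ, ∀ X z T R : ℕ, X₀ ≤ X → (z : ℝ) ≤ (Real.log X) ^ B →
    θ * Real.log X ≤ Real.log R → R ≤ T →
    ∃ g : ℕ → ℝ, (∀ n, 0 ≤ g n) ∧ (∀ n, g n ≤ 1) ∧ (∀ a b, a ≤ b → g b ≤ g a) ∧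
      (∀ n, g n ≠ 0 → n ^ 2 ≤ R) ∧ 1 ≤ BB (PP z T) g ∧ 1 ≤ AA (PP z T) g ∧
      M * BL (PP z T) g ≤ η * (BB (PP z T) g * Real.log R) ∧
      1 / η ≤ M * AA (PP z T) g ^ 2 / (BB (PP z T) g * kap z * Real.log X) := by
  obtain ⟨C₁, hC₁, hDDu⟩ := DD_upper
  obtain ⟨J₀, hJ₀⟩ : ∃ J₀ : ℕ, 256 * C₁ ^ 2 / (η ^ 2 * θ) + 1 ≤ (J₀ : ℝ) := exists_nat_ge _
  have hC₁0 : 0 < C₁ := by linarith
  refine ⟨2 ^ J₀, fun M hM B => ?_⟩
  have hM0 : 0 < M := lt_of_lt_of_le (by positivity) hM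
  have hM0' : M ≠ 0 := by omega
  obtain ⟨J, hJ⟩ : ∃ J : ℕ, J = Nat.log 2 M := ⟨_, rfl⟩
  have hJM : 2 ^ J ≤ M := by rw [hJ]; exact Nat.pow_log_le_self 2 hM0'
  have hJJ : J₀ ≤ J := by
    rw [hJ]
    exact (Nat.le_log_iff_pow_le (by norm_num) hM0').2 hM
  have hJ1 : 256 * C₁ ^ 2 / (η ^ 2 * θ) + 1 ≤ (J : ℝ) := hJ₀.trans (by exact_mod_cast hJJ)
  have hJ2 : (1 : ℝ) ≤ J := by
    have : 0 ≤ 256 * C₁ ^ 2 / (η ^ 2 * θ) := by positivity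
    linarith
  have hMR : (0 : ℝ) < M := by exact_mod_cast hM0
  have hJMR : (2 : ℝ) ^ J ≤ M := by exact_mod_cast hJM
  have hDpos : 0 < 4 * C₁ * M * (J + 1 : ℝ) := by positivity
  obtain ⟨c, hcdef⟩ : ∃ c : ℝ, c = η * θ / (4 * C₁ * M * (J + 1)) := ⟨_, rfl⟩
  have hc : 0 < c := by rw [hcdef]; positivity
  obtain ⟨X₀, hX₀⟩ := Num_large B c hc
  refine ⟨X₀, fun X z T R hX hzB hθR hRT => ?_⟩
  obtain ⟨hX1, hX2, hX3⟩ := hX₀ X hX
  have hlogR : 0 < Real.log R := lt_of_lt_of_le (by positivity) hθR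
  have hRpos : (0 : ℝ) < R := by
    rcases Nat.eq_zero_or_pos R with h | h
    · rw [h] at hlogR
      simp at hlogR
    · exact_mod_cast h
  obtain ⟨ℓ, hℓ⟩ : ∃ ℓ : ℝ, ℓ = η * Real.log R / (4 * C₁ * M * (J + 1)) := ⟨_, rfl⟩
  have hℓ0 : 0 < ℓ := by rw [hℓ]; positivity
  have hℓc : c * Real.log X ≤ ℓ := by
    rw [hℓ, hcdef, div_mul_eq_mul_div]
    refine div_le_div_of_nonneg_right ?_ hDpos.le
    have := mul_le_mul_of_nonneg_left hθR hη.le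
    linarith
  have hMℓ : M * ℓ * (4 * C₁ * (J + 1)) = η * Real.log R := by
    rw [hℓ]
    field_simp
  have hMℓ4 : M * ℓ ≤ Real.log R / 4 := by
    have h1 : (4 : ℝ) ≤ 4 * C₁ * (J + 1) := by nlinarith
    have h2 : M * ℓ * 4 ≤ M * ℓ * (4 * C₁ * (J + 1)) :=
      mul_le_mul_of_nonneg_left h1 (by positivity)
    have h3 : η * Real.log R ≤ 1 * Real.log R := mul_le_mul_of_nonneg_right hη1 hlogR.le
    linarith
  have hpow : ∀ j ≤ J, (2 : ℝ) ^ j * ℓ ≤ Real.log R / 4 := by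
    intro j hj
    have a1 : (2 : ℝ) ^ j ≤ 2 ^ J := pow_le_pow_right₀ (by norm_num) hj
    have a2 : (2 : ℝ) ^ j * ℓ ≤ M * ℓ := mul_le_mul_of_nonneg_right (a1.trans hJMR) hℓ0.le
    exact a2.trans hMℓ4
  have hexpR : ∀ j ≤ J, Real.exp (2 ^ j * ℓ) ≤ T := by
    intro j hj
    have h1 : Real.exp (2 ^ j * ℓ) ≤ R := by
      rw [← Real.exp_log hRpos, Real.exp_le_exp]
      have := hpow j hj
      linarith
    exact h1.trans (by exact_mod_cast hRT)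
  have hexp1 : ∀ j : ℕ, Real.exp ℓ ≤ Real.exp (2 ^ j * ℓ) := by
    intro j
    rw [Real.exp_le_exp]
    exact le_mul_of_one_le_left hℓ0.le (one_le_pow₀ (by norm_num))
  have hexp2 : (2 : ℝ) ≤ Real.exp ℓ := by
    have h1 : ℓ + 1 ≤ Real.exp ℓ := Real.add_one_le_exp ℓ
    linarith
  have hexp3 : (Real.log X) ^ B ≤ Real.exp ℓ := hX2.trans (Real.exp_le_exp.2 hℓc)
  obtain ⟨κ, hκ⟩ : ∃ κ : ℝ, κ = kap z := ⟨_, rfl⟩
  have hκ0 : 0 < κ := hκ ▸ kap_pos z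
  have hDl : ∀ j ≤ J, κ / 2 * (2 ^ j * ℓ) ≤ DD (PP z T) (Real.exp (2 ^ j * ℓ)) := by
    intro j hj
    have a1 := DD_lower z T (Real.exp (2 ^ j * ℓ)) (by
      rw [← Real.exp_zero, Real.exp_le_exp]
      positivity) (hexpR j hj)
    rwa [Real.log_exp, ← hκ] at a1
  have hDu : ∀ j ≤ J, DD (PP z T) (Real.exp (2 ^ j * ℓ)) ≤ C₁ * κ * (2 ^ j * ℓ) := by
    intro j hj
    have a1 := hDDu z T (Real.exp (2 ^ j * ℓ)) (hexp2.trans (hexp1 j))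
      ((hzB.trans hexp3).trans (hexp1 j))
    rwa [Real.log_exp, ← hκ] at a1
  have hAA := AA_lower J ℓ hℓ0.le (PP z T) κ (fun j hj => hDl j hj.le)
  have hBBu := BB_upper J ℓ hℓ0.le (PP z T) κ C₁ hκ0.le (by linarith) hDu
  have hP : ∀ p ∈ PP z T, 1 ≤ p := by
    intro p hp
    unfold PP at hp
    exact ((mem_filter.mp hp).2.1).one_lt.le
  have hBLu := BL_upper J ℓ hℓ0.le (PP z T) hP κ C₁ hκ0.le (by linarith) hDu
  have hBBl := BB_lower J ℓ hℓ0.le (PP z T) κ (by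
    have := hDl 0 (Nat.zero_le _)
    rwa [pow_zero, one_mul] at this)
  have hBB1 := BB_one J ℓ hℓ0.le (PP z T)
  have hAB := Num_AA_ge (PP z T) (gg J ℓ) (gg_nonneg J ℓ) (gg_le_one J ℓ)
  refine ⟨gg J ℓ, gg_nonneg J ℓ, gg_le_one J ℓ, gg_anti J ℓ hℓ0.le, ?_, hBB1, hBB1.trans hAB, ?_, ?_⟩
  · intro n hn
    have a1 := gg_supp J ℓ hℓ0.le n hn
    have a2 : (n : ℝ) ^ 2 ≤ R := by
      calc (n : ℝ) ^ 2 ≤ (Real.exp (2 ^ J * ℓ)) ^ 2 := by gcongr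
        _ = Real.exp (2 * (2 ^ J * ℓ)) := by rw [← Real.exp_nat_mul]; norm_num
        _ ≤ Real.exp (Real.log R) := by
            rw [Real.exp_le_exp]
            have := hpow J le_rfl
            linarith
        _ = R := Real.exp_log hRpos
    exact_mod_cast a2
  · have b1 : (M : ℝ) * BL (PP z T) (gg J ℓ) ≤ M * ((J + 1) * C₁ * κ * ℓ ^ 2) :=
      mul_le_mul_of_nonneg_left hBLu hMR.le
    have b2 : (M : ℝ) * ((J + 1) * C₁ * κ * ℓ ^ 2) = κ * ℓ * (η * Real.log R) / 4 := by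
      rw [← hMℓ]
      ring
    have b3 : η * Real.log R * (κ / 2 * ℓ) ≤ η * Real.log R * BB (PP z T) (gg J ℓ) :=
      mul_le_mul_of_nonneg_left hBBl (by positivity)
    have b4 : 0 ≤ κ * ℓ * (η * Real.log R) := by positivity
    calc (M : ℝ) * BL (PP z T) (gg J ℓ) ≤ κ * ℓ * (η * Real.log R) / 4 := b1.trans b2.le
      _ ≤ η * Real.log R * (κ / 2 * ℓ) := by linarith
      _ ≤ η * Real.log R * BB (PP z T) (gg J ℓ) := b3
      _ = η * (BB (PP z T) (gg J ℓ) * Real.log R) := by ring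
  · rw [← hκ]
    have hBpos : 0 < BB (PP z T) (gg J ℓ) := by linarith
    rw [div_le_div_iff₀ hη (by positivity)]
    -- BB κ log X ≤ M AA^2 η
    have c1 : (J * κ * ℓ / 4) ^ 2 ≤ AA (PP z T) (gg J ℓ) ^ 2 :=
      pow_le_pow_left₀ (by positivity) hAA 2
    have c2 : M * (J * κ * ℓ / 4) ^ 2 * η ≤ M * AA (PP z T) (gg J ℓ) ^ 2 * η :=
      mul_le_mul_of_nonneg_right (mul_le_mul_of_nonneg_left c1 hMR.le) hη.le
    refine le_trans ?_ c2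
    have c3 : 1 * (BB (PP z T) (gg J ℓ) * κ * Real.log X) ≤ 2 * C₁ * κ * ℓ * κ * Real.log X := by
      rw [one_mul]
      exact mul_le_mul_of_nonneg_right (mul_le_mul_of_nonneg_right hBBu hκ0.le) hX3.le
    refine c3.trans ?_
    -- M ℓ J^2 η / 16 ≥ 2 C₁ log X
    have c4 : 256 * C₁ ^ 2 ≤ J * (η ^ 2 * θ) := by
      have h1 : 256 * C₁ ^ 2 / (η ^ 2 * θ) ≤ J := by linarith
      rwa [div_le_iff₀ (by positivity)] at h1
    have c5 : 2 * C₁ * Real.log X * (16 * (4 * C₁ * (J + 1))) ≤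
        J ^ 2 * η * (M * ℓ * (4 * C₁ * (J + 1))) := by
      rw [hMℓ]
      have h1 : 2 * C₁ * Real.log X * (16 * (4 * C₁ * (J + 1))) =
          128 * C₁ ^ 2 * Real.log X * (J + 1) := by ring
      have h2 : 128 * C₁ ^ 2 * Real.log X * (J + 1) ≤ 256 * C₁ ^ 2 * Real.log X * J := by
        have h3 : (J : ℝ) + 1 ≤ 2 * J := by linarith
        have h4 := mul_le_mul_of_nonneg_left h3 (show 0 ≤ 128 * C₁ ^ 2 * Real.log X by positivity)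
        linarith
      have h5 : 256 * C₁ ^ 2 * Real.log X * J ≤ J * (η ^ 2 * θ) * Real.log X * J :=
        mul_le_mul_of_nonneg_right (mul_le_mul_of_nonneg_right c4 hX3.le) (by positivity)
      have h6 : J * (η ^ 2 * θ) * Real.log X * J = J ^ 2 * η * (η * (θ * Real.log X)) := by ring
      have h7 : J ^ 2 * η * (η * (θ * Real.log X)) ≤ J ^ 2 * η * (η * Real.log R) :=
        mul_le_mul_of_nonneg_left (mul_le_mul_of_nonneg_left hθR hη.le) (by positivity)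
      rw [h1]
      linarith
    have c6 : 2 * C₁ * Real.log X * 16 ≤ J ^ 2 * η * (M * ℓ) := by
      have h1 : (2 * C₁ * Real.log X * 16) * (4 * C₁ * (J + 1)) ≤
          (J ^ 2 * η * (M * ℓ)) * (4 * C₁ * (J + 1)) := by linarith
      exact le_of_mul_le_mul_right h1 (by positivity)
    have c7 : 2 * C₁ * κ * ℓ * κ * Real.log X = (2 * C₁ * Real.log X * 16) * (κ ^ 2 * ℓ / 16) := by
      ring
    have c8 : M * (J * κ * ℓ / 4) ^ 2 * η = (J ^ 2 * η * (M * ℓ)) * (κ ^ 2 * ℓ / 16) := by ring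
    rw [c7, c8]
    exact mul_le_mul_of_nonneg_right c6 (by positivity)

end Pool.Agent.Lib.MP_092512_nt.FP
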