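import Pool.Agent.Lib.MP_092512_nt.FP.Defs
import Pool.Agent.Lib.MT.OneDim

/-!
# F_P, OmL: the presieve by the classes `-h i`

PROOF. `Om_card`: the classes are `(p - h i % p) % p`, one for each `i` (image of `univ`); see `MT.Om2_card`.  `Om_eq`: for `p ≤ z` the class
of `-h m` lies in `Om h p`, the others in it are those with `¬ p ∣ c + h m`: their number is `ν - 1`, `ν = card (Om h p)`, and
`1 - (ν-1)/(p-1) = (p-ν)/(p-1)`, `1 - ν/p = (1 - 1/p) (p-ν)/(p-1)`; see `MT.V1_eq` (file Lib/MT/Vlow.lean).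
`Om_low`: `ν ≤ min (M, p-1)` (the class of `-r` is free), so `1 - ν/p ≥ 1/p` for `p ≤ 2M` and `≥ 1 - M/p ≥ (1 - 1/p)^(2M)` for `p > 2M`
(`1 - M/p ≥ exp(-2M/p)`, or Bernoulli in the form `(1-x)^(2M) ≤ 1/(1+2Mx) ≤ 1 - Mx` for `2Mx ≤ 1`);
`∏_{p ≤ z}(1 - 1/p) = kap z ≥ (log X)^(-1/2)`-type bounds are too weak, use Mertens: `kap z ≥ c/log (z+2)`
(`Sieve.mertens_product_upper`), `log (z+2) ≤ C log log X`; all powers of it are at most `log X` for large `X`.
-/

set_option autoImplicit false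

open Finset

namespace Pool.Agent.Lib.MP_092512_nt.FP

open Pool.Agent.Lib.MT

private theorem OmL_mem {ι : Type} [Fintype ι] (h : ι → ℕ) (p c : ℕ) :
    c ∈ Om h p ↔ c < p ∧ ∃ i, p ∣ c + h i := by
  constructor
  · intro hc
    have := (@Finset.mem_filter _ _ (_) _ _).mp hc
    exact ⟨mem_range.mp this.1, this.2⟩
  · intro hc
    exact (@Finset.mem_filter _ _ (_) _ _).mpr ⟨mem_range.mpr hc.1, hc.2⟩

private theorem OmL_PP (z p : ℕ) (h : p ∈ PP 0 z) : p.Prime ∧ p ≤ z := by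
  unfold PP at h
  rw [mem_filter, mem_range] at h
  exact ⟨h.2.1, by omega⟩

theorem Om_lt {ι : Type} [Fintype ι] (h : ι → ℕ) (p : ℕ) : ∀ c ∈ Om h p, c < p := by
  intro c hc
  exact ((OmL_mem h p c).mp hc).1

theorem Om_card {ι : Type} [Fintype ι] (h : ι → ℕ) (p : ℕ) : (Om h p).card ≤ Fintype.card ι := by
  classical
  have hsub : Om h p ⊆ (univ : Finset ι).biUnion (fun i =>
      (range p).filter (fun c => p ∣ c + h i)) := by
    intro c hc
    obtain ⟨hcp, i, hi⟩ := (OmL_mem h p c).mp hc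
    rw [mem_biUnion]
    refine ⟨i, mem_univ _, ?_⟩
    rw [mem_filter, mem_range]
    exact ⟨hcp, hi⟩
  refine (card_le_card hsub).trans ?_
  refine (card_biUnion_le_card_mul univ _ 1 ?_).trans (by rw [card_univ, mul_one])
  intro i _
  rw [card_le_one]
  intro a ha b hb
  rw [mem_filter, mem_range] at ha hb
  have hab : a + h i ≡ b + h i [MOD p] :=
    ((Nat.modEq_zero_iff_dvd.mpr ha.2).trans (Nat.modEq_zero_iff_dvd.mpr hb.2).symm)
  exact Nat.ModEq.eq_of_lt_of_lt (Nat.ModEq.add_right_cancel' _ hab) ha.1 hb.1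

private theorem OmL_dvd (p r : ℕ) (hp : 0 < p) : p ∣ (p - r % p) % p + r := by
  have hlt : r % p < p := Nat.mod_lt _ hp
  have h1 : (p - r % p) % p + r ≡ (p - r % p) + r % p [MOD p] :=
    Nat.ModEq.add (Nat.mod_modEq _ _) (Nat.mod_modEq _ _).symm
  rw [Nat.sub_add_cancel hlt.le] at h1
  exact (Nat.modEq_zero_iff_dvd.mp (h1.trans (Nat.modEq_zero_iff_dvd.mpr dvd_rfl)))

theorem Om_eq {ι : Type} [Fintype ι] (h : ι → ℕ) (z : ℕ) (m : ι) :
    V1 (Om h) z = kap z * V2 (Om h) (h m) z := by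
  classical
  unfold V1 kap V2
  rw [← prod_mul_distrib]
  apply prod_congr rfl
  intro p hp
  obtain ⟨hpp, -⟩ := OmL_PP z p hp
  have hp2 : 2 ≤ p := hpp.two_le
  have hone : ((Om h p).filter (fun c => p ∣ c + h m)).card = 1 := by
    rw [card_eq_one]
    refine ⟨(p - h m % p) % p, ?_⟩
    ext c
    rw [mem_filter, mem_singleton, OmL_mem]
    have hdvd := OmL_dvd p (h m) hpp.pos
    constructor
    · rintro ⟨⟨hc, -⟩, hd⟩
      have h2 : c + h m ≡ (p - h m % p) % p + h m [MOD p] :=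
        (Nat.modEq_zero_iff_dvd.mpr hd).trans (Nat.modEq_zero_iff_dvd.mpr hdvd).symm
      exact Nat.ModEq.eq_of_lt_of_lt (Nat.ModEq.add_right_cancel' _ h2) hc (Nat.mod_lt _ hpp.pos)
    · rintro rfl
      exact ⟨⟨Nat.mod_lt _ hpp.pos, m, hdvd⟩, hdvd⟩
  have hsum := card_filter_add_card_filter_not (s := Om h p) (fun c => p ∣ c + h m)
  rw [hone] at hsum
  have hsumR : (1 : ℝ) + (((Om h p).filter (fun c => ¬ p ∣ c + h m)).card : ℝ) =
      ((Om h p).card : ℝ) := by exact_mod_cast hsum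
  rw [← hsumR]
  have hp0 : (p : ℝ) ≠ 0 := by
    have : (2 : ℝ) ≤ p := by exact_mod_cast hp2
    linarith
  have hp1 : (p : ℝ) - 1 ≠ 0 := by
    have : (2 : ℝ) ≤ p := by exact_mod_cast hp2
    linarith
  field_simp
  ring

private theorem OmL_card_lt {M : ℕ} (h : Fin M → ℕ) (p : ℕ) (hp : 0 < p)
    (hr : ∃ r : ℕ, ∀ i, ¬ h i ≡ r [MOD p]) : (Om h p).card < p := by
  obtain ⟨r, hr⟩ := hr
  have hlt : (p - r % p) % p < p := Nat.mod_lt _ hp
  have hsub : Om h p ⊆ (range p).erase ((p - r % p) % p) := by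
    intro c hc
    obtain ⟨hcp, i, hi⟩ := (OmL_mem h p c).mp hc
    rw [mem_erase, mem_range]
    refine ⟨?_, hcp⟩
    rintro rfl
    apply hr i
    have h2 : (p - r % p) % p + h i ≡ (p - r % p) % p + r [MOD p] :=
      (Nat.modEq_zero_iff_dvd.mpr hi).trans (Nat.modEq_zero_iff_dvd.mpr (OmL_dvd p r hp)).symm
    exact Nat.ModEq.add_left_cancel' _ h2
  have h1 := card_le_card hsub
  rw [card_erase_of_mem (mem_range.mpr hlt), card_range] at h1
  omega

private theorem OmL_pow (K p : ℕ) (hK : K ≤ p) (hp : 0 < p) :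
    (1 - 1 / (p : ℝ)) ^ K ≤ 1 - ((K : ℝ) / 2) / p := by
  have hp' : (0 : ℝ) < p := by exact_mod_cast hp
  have hp1 : (1 : ℝ) ≤ p := by exact_mod_cast hp
  set x : ℝ := 1 / (p : ℝ) with hx
  have hx0 : 0 ≤ x := by positivity
  have hx1 : x ≤ 1 := by rw [hx, div_le_one hp']; exact hp1
  have hKx : (K : ℝ) * x ≤ 1 := by
    rw [hx, mul_one_div, div_le_one hp']
    exact_mod_cast hK
  have hKx0 : 0 ≤ (K : ℝ) * x := by positivity
  have h1 : (1 - x) ^ K * (1 + x) ^ K ≤ 1 := by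
    rw [← mul_pow]
    apply pow_le_one₀
    · nlinarith
    · nlinarith
  have h2 : 1 + (K : ℝ) * x ≤ (1 + x) ^ K := one_add_mul_le_pow (by linarith) K
  have h3 : 0 ≤ (1 - x) ^ K := pow_nonneg (by linarith) K
  have h4 : (1 - x) ^ K * (1 + (K : ℝ) * x) ≤ 1 :=
    le_trans (mul_le_mul_of_nonneg_left h2 h3) h1
  have h5 : (K : ℝ) / 2 / p = (K : ℝ) * x / 2 := by rw [hx]; ring
  rw [h5]
  by_contra hcon
  push Not at hcon
  nlinarith

private theorem OmL_factor {M : ℕ} (h : Fin M → ℕ) (p : ℕ) (hp : p.Prime)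
    (hlt : (Om h p).card < p) :
    (if p < 4 * (M + 1) then 1 / ((4 * (M + 1) : ℕ) : ℝ) else 1) *
      (1 - 1 / (p : ℝ)) ^ (4 * (M + 1)) ≤ 1 - ((Om h p).card : ℝ) / p := by
  have hp0 : (0 : ℝ) < p := by exact_mod_cast hp.pos
  have hp1 : (1 : ℝ) ≤ p := by exact_mod_cast hp.one_le
  have hx : 0 ≤ 1 - 1 / (p : ℝ) := by
    rw [sub_nonneg, div_le_one hp0]
    exact hp1
  have hx1 : 1 - 1 / (p : ℝ) ≤ 1 := by
    have : 0 ≤ 1 / (p : ℝ) := by positivity
    linarith
  split_ifs with hc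
  · have h1 : (1 - 1 / (p : ℝ)) ^ (4 * (M + 1)) ≤ 1 := pow_le_one₀ hx hx1
    have h2 : 1 / ((4 * (M + 1) : ℕ) : ℝ) ≤ 1 / (p : ℝ) :=
      one_div_le_one_div_of_le hp0 (by exact_mod_cast hc.le)
    have h3 : 1 / (p : ℝ) ≤ 1 - ((Om h p).card : ℝ) / p := by
      rw [le_sub_iff_add_le, ← add_div, div_le_one hp0]
      have : (1 : ℝ) + ((Om h p).card : ℝ) ≤ (p : ℝ) := by exact_mod_cast (by omega)
      exact this
    have h4 : 0 ≤ 1 / ((4 * (M + 1) : ℕ) : ℝ) := by positivity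
    calc _ ≤ 1 / ((4 * (M + 1) : ℕ) : ℝ) * 1 := mul_le_mul_of_nonneg_left h1 h4
      _ ≤ _ := by linarith
  · push Not at hc
    rw [one_mul]
    refine (OmL_pow (4 * (M + 1)) p hc hp.pos).trans ?_
    have h1 := Om_card h p
    rw [Fintype.card_fin] at h1
    have h2 : ((Om h p).card : ℝ) ≤ ((4 * (M + 1) : ℕ) : ℝ) / 2 := by
      have : ((Om h p).card : ℝ) ≤ ((M : ℕ) : ℝ) := by exact_mod_cast h1
      push_cast at this ⊢
      linarith
    have h3 : ((Om h p).card : ℝ) / p ≤ ((4 * (M + 1) : ℕ) : ℝ) / 2 / p := by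
      gcongr
    linarith

private theorem OmL_V1 {M : ℕ} (h : Fin M → ℕ) (z : ℕ)
    (hlt : ∀ p : ℕ, p.Prime → (Om h p).card < p) :
    (1 / ((4 * (M + 1) : ℕ) : ℝ)) ^ (4 * (M + 1)) * kap z ^ (4 * (M + 1)) ≤
      V1 (Om h) z := by
  classical
  unfold V1 kap
  have h1 : ∏ p ∈ PP 0 z, ((if p < 4 * (M + 1) then 1 / ((4 * (M + 1) : ℕ) : ℝ) else 1) *
      (1 - 1 / (p : ℝ)) ^ (4 * (M + 1))) ≤ ∏ p ∈ PP 0 z, (1 - ((Om h p).card : ℝ) / p) := by
    apply prod_le_prod
    · intro p hp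
      obtain ⟨hpp, -⟩ := OmL_PP z p hp
      have hp0 : (0 : ℝ) < p := by exact_mod_cast hpp.pos
      have hx : 0 ≤ 1 - 1 / (p : ℝ) := by
        rw [sub_nonneg, div_le_one hp0]
        exact_mod_cast hpp.one_le
      apply mul_nonneg
      · split_ifs <;> positivity
      · positivity
    · intro p hp
      exact OmL_factor h p (OmL_PP z p hp).1 (hlt p (OmL_PP z p hp).1)
  refine le_trans ?_ h1
  rw [prod_mul_distrib, prod_pow]
  have hkap : 0 ≤ ∏ p ∈ PP 0 z, (1 - 1 / (p : ℝ)) := by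
    apply prod_nonneg
    intro p hp
    obtain ⟨hpp, -⟩ := OmL_PP z p hp
    have hp0 : (0 : ℝ) < p := by exact_mod_cast hpp.pos
    rw [sub_nonneg, div_le_one hp0]
    exact_mod_cast hpp.one_le
  apply mul_le_mul_of_nonneg_right _ (pow_nonneg hkap _)
  rw [prod_ite, prod_const_one, mul_one, prod_const]
  apply pow_le_pow_of_le_one (by positivity)
  · rw [div_le_one (by positivity)]
    exact_mod_cast (by omega : 1 ≤ 4 * (M + 1))
  · calc ((PP 0 z).filter (fun p => p < 4 * (M + 1))).card ≤ (range (4 * (M + 1))).card := by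
          apply card_le_card
          intro p hp
          rw [mem_filter] at hp
          rw [mem_range]
          exact hp.2
      _ = 4 * (M + 1) := card_range _

private theorem OmL_kap (B : ℕ) : ∃ C : ℝ, 0 < C ∧ ∀ X z : ℕ, Real.exp 1 ≤ Real.log X →
    (z : ℝ) ≤ (Real.log X) ^ B → 1 / (C * Real.log (Real.log X)) ≤ kap z := by
  obtain ⟨C, hC, h⟩ := Sieve.mertens_product_upper
  refine ⟨1 + C * B, by positivity, fun X z hX hz => ?_⟩
  have hl1 : 1 ≤ Real.log (Real.log X) := by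
    rw [Real.le_log_iff_exp_le (lt_of_lt_of_le (Real.exp_pos _) hX)]
    exact hX
  have hlX : 0 < Real.log X := lt_of_lt_of_le (Real.exp_pos _) hX
  rcases lt_or_ge z 2 with hz2 | hz2
  · have h0 : PP 0 z = ∅ := by
      rw [eq_empty_iff_forall_notMem]
      intro p hp
      obtain ⟨hpp, hpz⟩ := OmL_PP z p hp
      have := hpp.two_le
      omega
    unfold kap
    rw [h0, prod_empty, div_le_one (by positivity)]
    have : 0 ≤ C * B := by positivity
    nlinarith
  · have h1 := h z hz2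
    have hset : (Finset.Icc 1 z).filter Nat.Prime = PP 0 z := by
      unfold PP
      ext p
      rw [mem_filter, mem_filter, mem_Icc, mem_range]
      constructor
      · rintro ⟨⟨a, b⟩, c⟩
        exact ⟨by omega, c, by omega⟩
      · rintro ⟨a, b, c⟩
        exact ⟨⟨by omega, by omega⟩, b⟩
    rw [hset, prod_inv_distrib] at h1
    have hkap : 0 < ∏ p ∈ PP 0 z, (1 - 1 / (p : ℝ)) := by
      apply prod_pos
      intro p hp
      obtain ⟨hpp, -⟩ := OmL_PP z p hp
      have hp0 : (0 : ℝ) < p := by exact_mod_cast hpp.pos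
      rw [sub_pos, div_lt_one hp0]
      exact_mod_cast hpp.one_lt
    unfold kap
    have hz0 : (0 : ℝ) < z := by exact_mod_cast (by omega : 0 < z)
    have h2 : Real.log z ≤ B * Real.log (Real.log X) := by
      have := Real.log_le_log hz0 hz
      rwa [Real.log_pow] at this
    have h3 : (∏ p ∈ PP 0 z, (1 - 1 / (p : ℝ)))⁻¹ ≤ (1 + C * B) * Real.log (Real.log X) := by
      refine h1.trans ?_
      have := mul_le_mul_of_nonneg_left h2 hC.le
      nlinarith
    rw [one_div]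
    exact inv_le_of_inv_le₀ hkap h3

theorem Om_low (M B : ℕ) : ∃ X₀ : ℕ, ∀ X z : ℕ, X₀ ≤ X → (z : ℝ) ≤ (Real.log X) ^ B →
    ∀ h : Fin M → ℕ, (∀ p : ℕ, p.Prime → ∃ r : ℕ, ∀ i, ¬ h i ≡ r [MOD p]) →
    1 / Real.log X ≤ V1 (Om h) z := by
  obtain ⟨C, hC, hk⟩ := OmL_kap B
  set K : ℕ := 4 * (M + 1) with hK
  have hK0 : (0 : ℝ) < (K : ℝ) := by exact_mod_cast (by omega : 0 < K)
  have hc0 : (0 : ℝ) < ((K : ℝ) * (C + 1)) ^ K := by positivity
  have hlim := (Real.isLittleO_pow_log_id_atTop (n := K)).def (inv_pos.mpr hc0)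
  obtain ⟨L₀, hL₀⟩ := Filter.eventually_atTop.mp hlim
  refine ⟨⌈Real.exp (max L₀ (Real.exp 1))⌉₊, fun X z hX hz h hadm => ?_⟩
  have hX1 : Real.exp (max L₀ (Real.exp 1)) ≤ X :=
    le_trans (Nat.le_ceil _) (by exact_mod_cast hX)
  have hX0 : (0 : ℝ) < X := lt_of_lt_of_le (Real.exp_pos _) hX1
  have hL : max L₀ (Real.exp 1) ≤ Real.log X := by
    rw [Real.le_log_iff_exp_le hX0]
    exact hX1
  have he : Real.exp 1 ≤ Real.log X := le_trans (le_max_right _ _) hL
  have hlX : 0 < Real.log X := lt_of_lt_of_le (Real.exp_pos _) he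
  have hl1 : 1 ≤ Real.log (Real.log X) := by
    rw [Real.le_log_iff_exp_le hlX]
    exact he
  have h1 := hk X z he hz
  have h2 := hL₀ (Real.log X) (le_trans (le_max_left _ _) hL)
  rw [Real.norm_of_nonneg (by positivity), id, Real.norm_of_nonneg hlX.le] at h2
  refine le_trans ?_ (OmL_V1 h z (fun p hp => OmL_card_lt h p hp.pos (hadm p hp)))
  rw [← mul_pow]
  have h3 : 1 / ((K : ℝ) * ((C + 1) * Real.log (Real.log X))) ≤ 1 / (K : ℝ) * kap z := by
    have h4 : 1 / ((C + 1) * Real.log (Real.log X)) ≤ kap z := by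
      refine le_trans ?_ h1
      apply one_div_le_one_div_of_le (by positivity)
      nlinarith
    calc 1 / ((K : ℝ) * ((C + 1) * Real.log (Real.log X)))
        = 1 / (K : ℝ) * (1 / ((C + 1) * Real.log (Real.log X))) := by
          field_simp
      _ ≤ _ := mul_le_mul_of_nonneg_left h4 (by positivity)
  have h6 : 1 / Real.log X ≤ (1 / ((K : ℝ) * ((C + 1) * Real.log (Real.log X)))) ^ K := by
    rw [div_pow, one_pow]
    apply one_div_le_one_div_of_le (by positivity)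
    rw [← mul_assoc, mul_pow]
    rw [inv_mul_eq_div, le_div_iff₀ hc0] at h2
    linarith
  exact h6.trans (pow_le_pow_left₀ (by positivity) h3 K)

end Pool.Agent.Lib.MP_092512_nt.FP
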