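import Pool.Agent.Lib.MP_092512_nt.FP.ZmS
import Pool.Agent.Lib.MP_092512_nt.FP.MassS
import Pool.Agent.Lib.MT.YLow

/-!
# F_P, S2m: the main term for one prime, sharp lower bound

PROOF. As Lib/MT/S2main.lean, with `zm_low`, `mass_low` in place of `MT.zm_lower`, `MT.mass_lower` and `MT.YY_lower` (general `P` there):
keep the `ρ` avoiding `m` with `(tot ρ)^2 ≤ R`; `(1 - 2M/z)^2 ≥ 1 - 4M/z`; the total is at least `(1 - 2M/z)^2 AA^2` times the sum of
`mass_low` (if `1 - 2η - 2M²/z < 0` the left side is `≤ 0 ≤` the right side, as `1 - 4M/z ≥ 0`).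
-/

set_option autoImplicit false

open Finset

namespace Pool.Agent.Lib.MP_092512_nt.FP

open Pool.Agent.Lib.MT

variable {ι : Type} [Fintype ι] [DecidableEq ι]

private theorem s2_sum (m : ι) (x : ℝ) :
    ∑ i : ι, (if i = m then (0 : ℝ) else x) = (Fintype.card ι - 1) * x := by
  have h1 : ∀ i : ι, (if i = m then (0 : ℝ) else x) = x - (if i = m then x else 0) := fun i => by
    split_ifs <;> ring
  rw [Finset.sum_congr rfl (fun i _ => h1 i), Finset.sum_sub_distrib, Finset.sum_const,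
    Finset.card_univ, nsmul_eq_mul, Finset.sum_ite_eq' univ m (fun _ => x), if_pos (Finset.mem_univ m)]
  ring

theorem S2m (z T R : ℕ) (hz : 16 * Fintype.card ι ^ 2 ≤ z) (hR : 2 ≤ R) (m : ι)
    (g : ℕ → ℝ) (hg0 : ∀ n, 0 ≤ g n) (hg1 : ∀ a b, a ≤ b → g b ≤ g a)
    (hgR : ∀ n, g n ≠ 0 → n ^ 2 ≤ R) (η : ℝ) (hη : 0 ≤ η)
    (hF : Fintype.card ι * BL (PP z T) g ≤ η * (BB (PP z T) g * Real.log R)) :
    (1 - 4 * Fintype.card ι / z) * (1 - 2 * η - 2 * (Fintype.card ι : ℝ) ^ 2 / z) *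
        (AA (PP z T) g ^ 2 * BB (PP z T) g ^ (Fintype.card ι - 1)) ≤
      ∑ ρ : Col (PP z T) ι, (∏ p : {p : ℕ // p ∈ PP z T}, Dm (q2 m p) (1 - ∑ i, q2 m p i) (ρ p)) *
        (AL (fun p j => q2 m p j - 1 / ((p : ℕ) : ℝ)) (zz g R) ρ) ^ 2 := by
  classical
  have hk1 : 1 ≤ Fintype.card ι := Fintype.card_pos_iff.2 ⟨m⟩
  have hw1 : 1 ≤ z := by nlinarith
  have hkw : Fintype.card ι ≤ z := by nlinarith
  have h8w : 8 * Fintype.card ι ≤ z := by nlinarith
  have hz0 : (0 : ℝ) < z := by exact_mod_cast hw1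
  have h8r : (8 : ℝ) * Fintype.card ι ≤ z := by exact_mod_cast h8w
  obtain ⟨c0, hc0⟩ : ∃ c0 : ℝ, c0 = 1 - 2 * Fintype.card ι / z := ⟨_, rfl⟩
  obtain ⟨X, hX⟩ : ∃ X : ℝ, X = 1 - 2 * η - 2 * (Fintype.card ι : ℝ) ^ 2 / z := ⟨_, rfl⟩
  have hc0n : 0 ≤ c0 := by
    rw [hc0, sub_nonneg, div_le_one hz0]
    have : (0 : ℝ) ≤ Fintype.card ι := by positivity
    linarith
  have h4n : 0 ≤ 1 - 4 * Fintype.card ι / (z : ℝ) := by
    rw [sub_nonneg, div_le_one hz0]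
    have : (0 : ℝ) ≤ Fintype.card ι := by positivity
    linarith
  have hc0q : 1 - 4 * Fintype.card ι / (z : ℝ) ≤ c0 ^ 2 := by
    have : c0 ^ 2 = 1 - 4 * Fintype.card ι / (z : ℝ) + (2 * Fintype.card ι / (z : ℝ)) ^ 2 := by
      rw [hc0]; ring
    rw [this]
    have := sq_nonneg (2 * Fintype.card ι / (z : ℝ))
    linarith
  have hPprime : ∀ p ∈ PP z T, p.Prime := fun p hp => by
    unfold PP at hp; exact (Finset.mem_filter.1 hp).2.1
  have hPw : ∀ p : {p : ℕ // p ∈ PP z T}, z < (p : ℕ) := fun p => by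
    have hp := p.2
    unfold PP at hp
    exact (Finset.mem_filter.1 hp).2.2
  have hp1 : ∀ p : {p : ℕ // p ∈ PP z T}, (1 : ℝ) < ((p : ℕ) : ℝ) := fun p => by
    have := hPw p
    exact_mod_cast (by omega : 1 < p.1)
  have hpk : ∀ p : {p : ℕ // p ∈ PP z T}, ((Fintype.card ι : ℕ) : ℝ) ≤ ((p : ℕ) : ℝ) - 1 := fun p => by
    have := hPw p
    have h2 : Fintype.card ι + 1 ≤ (p : ℕ) := by omega
    have h3 : ((Fintype.card ι + 1 : ℕ) : ℝ) ≤ ((p : ℕ) : ℝ) := by exact_mod_cast h2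
    push_cast at h3
    linarith
  have hk1r : (1 : ℝ) ≤ Fintype.card ι := by exact_mod_cast hk1
  have hq : ∀ p : {p : ℕ // p ∈ PP z T}, 1 - ∑ i, q2 m p i =
      1 - (Fintype.card ι - 1) * (1 / (((p : ℕ) : ℝ) - 1)) := fun p => by
    unfold q2
    rw [s2_sum]
  have hq0 : ∀ p : {p : ℕ // p ∈ PP z T}, 0 ≤ 1 - ∑ i, q2 m p i := fun p => by
    rw [hq p]
    have h1 := hp1 p
    have h2 := hpk p
    have h3 : (0 : ℝ) < ((p : ℕ) : ℝ) - 1 := by linarith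
    rw [mul_one_div, sub_nonneg, div_le_one h3]
    linarith
  have hD0 : ∀ (p : {p : ℕ // p ∈ PP z T}) (s : Option ι), 0 ≤ Dm (q2 m p) (1 - ∑ i, q2 m p i) s := by
    intro p s
    rcases s with _ | i
    · simp [Dm]
    · unfold Dm
      refine mul_nonneg (hq0 p) ?_
      unfold q2
      have h1 := hp1 p
      have h3 : (0 : ℝ) < ((p : ℕ) : ℝ) - 1 := by linarith
      split_ifs
      · exact le_rfl
      · positivity
  have hmass := mass_low z T R hkw hw1 hR m g hg0 hg1 η hη hF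
  rw [← hX] at hmass ⊢
  have hA2 : 0 ≤ (AA (PP z T) g) ^ 2 := sq_nonneg _
  have hS0 : 0 ≤ ∑ ρ ∈ univ.filter (fun ρ : Col (PP z T) ι => (∀ p, ρ p ≠ some m) ∧ tot ρ ^ 2 ≤ R),
        (∏ i ∈ univ.erase m, g (prt i ρ) ^ 2) * ∏ p : {p : ℕ // p ∈ PP z T},
          (if ρ p = none then (1 : ℝ) else
            1 / ((p : ℕ) : ℝ) * (1 - Fintype.card ι / ((p : ℕ) : ℝ))) := by
    refine Finset.sum_nonneg (fun ρ _ => mul_nonneg (Finset.prod_nonneg (fun i _ => sq_nonneg _))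
      (Finset.prod_nonneg (fun p _ => ?_)))
    have h1 := hp1 p
    have h2 := hpk p
    have h3 : (0 : ℝ) < ((p : ℕ) : ℝ) := by linarith
    split_ifs
    · norm_num
    · refine mul_nonneg (by positivity) ?_
      rw [sub_nonneg, div_le_one h3]
      linarith
  have step1 : (1 - 4 * Fintype.card ι / z) * X *
        (AA (PP z T) g ^ 2 * BB (PP z T) g ^ (Fintype.card ι - 1)) ≤
      c0 ^ 2 * (AA (PP z T) g) ^ 2 *
      ∑ ρ ∈ univ.filter (fun ρ : Col (PP z T) ι => (∀ p, ρ p ≠ some m) ∧ tot ρ ^ 2 ≤ R),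
        (∏ i ∈ univ.erase m, g (prt i ρ) ^ 2) * ∏ p : {p : ℕ // p ∈ PP z T},
          (if ρ p = none then (1 : ℝ) else
            1 / ((p : ℕ) : ℝ) * (1 - Fintype.card ι / ((p : ℕ) : ℝ))) := by
    have hB0 : 0 ≤ (BB (PP z T) g) ^ (Fintype.card ι - 1) := by
      refine pow_nonneg ?_ _
      unfold BB
      exact Finset.sum_nonneg (fun s _ => by positivity)
    have hcA : 0 ≤ c0 ^ 2 * (AA (PP z T) g) ^ 2 := mul_nonneg (sq_nonneg _) hA2
    rcases le_total 0 X with hX0 | hX0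
    · have h1 := mul_le_mul_of_nonneg_left hmass hcA
      refine le_trans ?_ h1
      have h2 : 0 ≤ X * (AA (PP z T) g ^ 2 * BB (PP z T) g ^ (Fintype.card ι - 1)) :=
        mul_nonneg hX0 (mul_nonneg hA2 hB0)
      calc (1 - 4 * Fintype.card ι / (z : ℝ)) * X *
          (AA (PP z T) g ^ 2 * BB (PP z T) g ^ (Fintype.card ι - 1)) =
          (1 - 4 * Fintype.card ι / (z : ℝ)) *
            (X * (AA (PP z T) g ^ 2 * BB (PP z T) g ^ (Fintype.card ι - 1))) := by ring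
        _ ≤ c0 ^ 2 * (X * (AA (PP z T) g ^ 2 * BB (PP z T) g ^ (Fintype.card ι - 1))) :=
            mul_le_mul_of_nonneg_right hc0q h2
        _ = _ := by ring
    · refine le_trans ?_ (mul_nonneg hcA hS0)
      exact mul_nonpos_of_nonpos_of_nonneg (mul_nonpos_of_nonneg_of_nonpos h4n hX0)
        (mul_nonneg hA2 hB0)
  refine step1.trans ?_
  rw [Finset.mul_sum]
  refine le_trans (Finset.sum_le_sum (g := fun ρ : Col (PP z T) ι =>
      (∏ p : {p : ℕ // p ∈ PP z T}, Dm (q2 m p) (1 - ∑ i, q2 m p i) (ρ p)) *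
        (AL (fun p j => q2 m p j - 1 / ((p : ℕ) : ℝ)) (zz g R) ρ) ^ 2)
      (fun ρ hρ => ?_)) (Finset.sum_le_sum_of_subset_of_nonneg (Finset.filter_subset _ _)
        (fun ρ _ _ => mul_nonneg (Finset.prod_nonneg (fun p _ => hD0 p _)) (sq_nonneg _)))
  rw [Finset.mem_filter] at hρ
  obtain ⟨-, hρm, hρR⟩ := hρ
  have hz := zm_low z T hkw hw1 R m g hg0 hg1 ρ hρm
  rw [← hc0] at hz
  have hy := YY_lower hPprime R m g hg0 hg1 hgR ρ hρm hρR
  have hA0 : 0 ≤ AA (PP z T) g := by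
    unfold AA
    exact Finset.sum_nonneg (fun s _ => div_nonneg (hg0 _) (by positivity))
  have hy0 : 0 ≤ (∏ i ∈ univ.erase m, g (prt i ρ)) * AA (PP z T) g *
        ∏ p : {p : ℕ // p ∈ PP z T}, (if ρ p = none then (1 : ℝ) else (1 + 1 / ((p : ℕ) : ℝ))⁻¹) :=
    mul_nonneg (mul_nonneg (Finset.prod_nonneg (fun i _ => hg0 _)) hA0)
      (Finset.prod_nonneg (fun p _ => by split_ifs <;> positivity))
  have hsq : (c0 * ((∏ i ∈ univ.erase m, g (prt i ρ)) * AA (PP z T) g *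
        ∏ p : {p : ℕ // p ∈ PP z T}, (if ρ p = none then (1 : ℝ) else (1 + 1 / ((p : ℕ) : ℝ))⁻¹))) ^ 2 ≤
      (AL (fun p j => q2 m p j - 1 / ((p : ℕ) : ℝ)) (zz g R) ρ) ^ 2 := by
    rw [← sq_abs (AL (fun p j => q2 m p j - 1 / ((p : ℕ) : ℝ)) (zz g R) ρ)]
    refine pow_le_pow_left₀ (mul_nonneg hc0n hy0) ?_ 2
    exact (mul_le_mul_of_nonneg_left hy hc0n).trans hz
  refine le_trans ?_ (mul_le_mul_of_nonneg_left hsq (Finset.prod_nonneg (fun p _ => hD0 p (ρ p))))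
  have hprod : ∏ p : {p : ℕ // p ∈ PP z T},
          (if ρ p = none then (1 : ℝ) else
            1 / ((p : ℕ) : ℝ) * (1 - Fintype.card ι / ((p : ℕ) : ℝ))) ≤
      (∏ p : {p : ℕ // p ∈ PP z T}, Dm (q2 m p) (1 - ∑ i, q2 m p i) (ρ p)) *
      (∏ p : {p : ℕ // p ∈ PP z T}, (if ρ p = none then (1 : ℝ) else (1 + 1 / ((p : ℕ) : ℝ))⁻¹)) ^ 2 := by
    rw [← Finset.prod_pow, ← Finset.prod_mul_distrib]
    refine Finset.prod_le_prod (fun p _ => ?_) (fun p _ => ?_)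
    · have h1 := hp1 p
      have h2 := hpk p
      have h3 : (0 : ℝ) < ((p : ℕ) : ℝ) := by linarith
      split_ifs
      · norm_num
      · refine mul_nonneg (by positivity) ?_
        rw [sub_nonneg, div_le_one h3]
        linarith
    · have h1 := hp1 p
      have h2 := hpk p
      have h3 : (0 : ℝ) < ((p : ℕ) : ℝ) := by linarith
      have h4 : (0 : ℝ) < ((p : ℕ) : ℝ) - 1 := by linarith
      by_cases hn : ρ p = none
      · rw [if_pos hn, if_pos hn, hn]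
        simp [Dm]
      · obtain ⟨i, hi⟩ := Option.ne_none_iff_exists'.1 hn
        have him : i ≠ m := fun h => hρm p (by rw [hi, h])
        rw [if_neg hn, if_neg hn, hq p, hi]
        simp only [Dm, q2, if_neg him]
        set x : ℝ := ((p : ℕ) : ℝ)
        set c : ℝ := ((Fintype.card ι : ℕ) : ℝ)
        have e1 : (1 - (c - 1) * (1 / (x - 1))) * (1 / (x - 1)) * ((1 + 1 / x)⁻¹) ^ 2 =
            (x - c) * (x ^ 2 / (x ^ 2 - 1) ^ 2) := by
          have h5 : x + 1 ≠ 0 := by linarith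
          have h6 : x ^ 2 - 1 ≠ 0 := by nlinarith
          field_simp
          ring
        rw [e1]
        have e2 : 1 / x * (1 - c / x) = (x - c) * (1 / x ^ 2) := by
          field_simp
        rw [e2]
        refine mul_le_mul_of_nonneg_left ?_ (by linarith)
        have h7 : 0 < x ^ 2 - 1 := by nlinarith
        rw [div_le_div_iff₀ (by positivity) (by positivity)]
        nlinarith [sq_nonneg x]
  have hg2 : ∏ i ∈ univ.erase m, g (prt i ρ) ^ 2 = (∏ i ∈ univ.erase m, g (prt i ρ)) ^ 2 :=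
    Finset.prod_pow _ _ _
  rw [hg2]
  have hc : 0 ≤ c0 ^ 2 * (AA (PP z T) g) ^ 2 * (∏ i ∈ univ.erase m, g (prt i ρ)) ^ 2 := by positivity
  calc c0 ^ 2 * AA (PP z T) g ^ 2 * ((∏ i ∈ univ.erase m, g (prt i ρ)) ^ 2 *
        ∏ p : {p : ℕ // p ∈ PP z T}, (if ρ p = none then (1 : ℝ) else
            1 / ((p : ℕ) : ℝ) * (1 - Fintype.card ι / ((p : ℕ) : ℝ))))
      = c0 ^ 2 * AA (PP z T) g ^ 2 * (∏ i ∈ univ.erase m, g (prt i ρ)) ^ 2 *
        ∏ p : {p : ℕ // p ∈ PP z T}, (if ρ p = none then (1 : ℝ) else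
            1 / ((p : ℕ) : ℝ) * (1 - Fintype.card ι / ((p : ℕ) : ℝ))) := by ring
    _ ≤ c0 ^ 2 * AA (PP z T) g ^ 2 * (∏ i ∈ univ.erase m, g (prt i ρ)) ^ 2 *
        ((∏ p : {p : ℕ // p ∈ PP z T}, Dm (q2 m p) (1 - ∑ i, q2 m p i) (ρ p)) *
      (∏ p : {p : ℕ // p ∈ PP z T}, (if ρ p = none then (1 : ℝ) else (1 + 1 / ((p : ℕ) : ℝ))⁻¹)) ^ 2) :=
        mul_le_mul_of_nonneg_left hprod hc
    _ = _ := by ring

end Pool.Agent.Lib.MP_092512_nt.FP
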