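import Pool.Agent.Lib.MP_092512_nt.FP.Defs
import Pool.Agent.Lib.SW.SWFinal
import Pool.Agent.Lib.SW.FW1

/-!
# F_P, ThetaA: the prime number theorem on `(X + h, 2X + h]`

PROOF. `SW.pnt 1`: `|∑_{n ≤ x} Λ(n) - x| ≤ C x/log x`; the prime powers contribute `O(√x log x)` (see `MT.theta_low` in Lib/MT/Theta.lean and
`n2_theta`, file QC/N2b.lean, for the passage from `Λ` to `th = log` on the primes).  Difference at `2X + h` and `X + h`, `h ≤ √X`.
-/

set_option autoImplicit false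

open Finset

namespace Pool.Agent.Lib.MP_092512_nt.FP

private theorem ThetaA_split (a b : ℕ) (hab : a ≤ b) : ∑ n ∈ Ioc a b, BV.th n =
    ∑ p ∈ (Icc 1 b).filter Nat.Prime, Real.log p - ∑ p ∈ (Icc 1 a).filter Nat.Prime, Real.log p := by
  have h1 : ∀ m : ℕ, ∑ p ∈ (Icc 1 m).filter Nat.Prime, Real.log p = ∑ n ∈ Ioc 0 m, BV.th n := by
    intro m
    rw [sum_filter]
    refine sum_congr ?_ fun n _ => rfl
    ext n
    simp only [mem_Icc, mem_Ioc]
    omega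
  rw [h1, h1, eq_sub_iff_add_eq, add_comm]
  exact sum_Ioc_consecutive _ (Nat.zero_le a) hab

theorem theta_asymp (η : ℝ) (hη : 0 < η) : ∃ X₀ : ℕ, ∀ X h : ℕ, X₀ ≤ X →
    (h : ℝ) ≤ (X : ℝ) ^ (1 / 2 : ℝ) → (1 - η) * X ≤ Th X h ∧ Th X h ≤ (1 + η) * X := by
  obtain ⟨X₀, h0⟩ := SW.FW1_theta (η / 5) (by positivity)
  refine ⟨max X₀ 1, fun X h hX hh => ?_⟩
  have hX0 : X₀ ≤ X := (le_max_left _ _).trans hX
  have hX1 : 1 ≤ X := (le_max_right _ _).trans hX
  have hX1r : (1 : ℝ) ≤ X := by exact_mod_cast hX1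
  have hh2 : (h : ℝ) ≤ X := by
    refine hh.trans ?_
    calc (X : ℝ) ^ (1 / 2 : ℝ) ≤ (X : ℝ) ^ (1 : ℝ) :=
          Real.rpow_le_rpow_of_exponent_le hX1r (by norm_num)
      _ = X := Real.rpow_one _
  have a1 := h0 (2 * X + h) (by omega)
  have a2 := h0 (X + h) (by omega)
  unfold Th
  rw [ThetaA_split (X + h) (2 * X + h) (by omega)]
  rw [abs_le] at a1 a2
  push_cast at a1 a2
  have h3 : η * (h : ℝ) ≤ η * X := mul_le_mul_of_nonneg_left hh2 hη.le
  constructor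
  · linarith [a1.1, a2.2]
  · linarith [a1.2, a2.1]

end Pool.Agent.Lib.MP_092512_nt.FP
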