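import Pool.Agent.Lib.MP_092512_nt.FP.S2lu
import Pool.Agent.Lib.MP_092512_nt.FP.S2m
import Pool.Agent.Lib.MP_092512_nt.FP.OmL
import Pool.Agent.Lib.MP_092512_nt.FP.ThetaA

/-!
# F_P, OneLo: one prime `x + h m`, sharp lower bound

PROOF.  `S2l` with `K = M`, `δ = 1/20`, `Q = R ≤ X^(1/5)`, `u = zz g R` (`|zz| ≤ 1`, support `tot ≤ R`: see `Ratio_zz`, `Ratio_supp` in Lib/MT/Ratio.lean), `S2m` for the form,
`Th ≥ (1-η) X` (`theta_asymp`), `V2 ≥ 0` (`V2_pos`).  `16M² ≤ η z`: `4M/z ≤ η/4`, `2M²/z ≤ η/8` (`M ≥ 1` as `m : Fin M`), and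
`(1-η)(1-η/4)(1-2η-η/8) ≥ 1 - 4η`.  `h i ≤ z < p`, `h` injective give the condition on `h i ≡ h j`.
-/

set_option autoImplicit false

open Finset

namespace Pool.Agent.Lib.MP_092512_nt.FP

open Pool.Agent.Lib.MT

private theorem OneLo_mem {z T p : ℕ} (hp : p ∈ PP z T) : p ≤ T ∧ p.Prime ∧ z < p := by
  unfold PP at hp
  rw [mem_filter, mem_range, Nat.lt_succ_iff] at hp
  exact hp

private theorem OneLo_pow (a : ℝ) (ha : 0 < a) (n : ℕ) :
    ∀ᶠ X : ℕ in Filter.atTop, (Real.log X) ^ n ≤ (X : ℝ) ^ a := by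
  have h1 : ∀ᶠ x : ℝ in Filter.atTop, (Real.log x) ^ n ≤ x ^ a := by
    have h := isLittleO_log_rpow_rpow_atTop (n : ℝ) ha
    have h2 := h.bound (show (0 : ℝ) < 1 by norm_num)
    filter_upwards [h2, Filter.eventually_ge_atTop 1] with x h3 h4
    have h5 : 0 ≤ Real.log x := Real.log_nonneg h4
    rw [Real.rpow_natCast, Real.norm_of_nonneg (by positivity), Real.norm_of_nonneg (by positivity),
      one_mul] at h3
    exact h3
  exact tendsto_natCast_atTop_atTop.eventually h1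

private theorem OneLo_zz {P : Finset ℕ} {ι : Type} [Fintype ι] [DecidableEq ι] (g : ℕ → ℝ)
    (hg0 : ∀ n, 0 ≤ g n) (hg1 : ∀ n, g n ≤ 1) (R : ℕ) (σ : Col P ι) : |zz g R σ| ≤ 1 := by
  have hmu : |mu σ| = 1 := by
    unfold mu
    rw [Finset.abs_prod]
    refine prod_eq_one fun p _ => ?_
    split_ifs <;> simp
  unfold zz
  rw [abs_mul, hmu, one_mul]
  unfold yy
  split_ifs
  · rw [abs_of_nonneg (prod_nonneg fun i _ => hg0 _)]
    exact prod_le_one (fun i _ => hg0 _) fun i _ => hg1 _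
  · rw [abs_zero]
    exact zero_le_one

private theorem OneLo_supp {P : Finset ℕ} {ι : Type} [Fintype ι] [DecidableEq ι] (g : ℕ → ℝ)
    (R : ℕ) (σ : Col P ι) (h : zz g R σ ≠ 0) : tot σ ≤ R := by
  by_contra hc
  apply h
  unfold zz yy
  rw [if_neg hc, mul_zero]

theorem one_lo (M B A : ℕ) (η : ℝ) (hη : 0 < η) (hη1 : η ≤ 1 / 8) : ∃ X₀ : ℕ, ∀ X z R T : ℕ,
    X₀ ≤ X → 16 * (M : ℝ) ^ 2 ≤ η * z → (z : ℝ) ≤ (Real.log X) ^ B → T ≤ X →
    (R : ℝ) ≤ (X : ℝ) ^ (1 / 5 : ℝ) → 2 ≤ R →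
    ∀ h : Fin M → ℕ, Function.Injective h → (∀ i, h i ≤ z) → ∀ m : Fin M,
    ∀ g : ℕ → ℝ, (∀ n, 0 ≤ g n) → (∀ n, g n ≤ 1) → (∀ a b, a ≤ b → g b ≤ g a) →
    (∀ n, g n ≠ 0 → n ^ 2 ≤ R) →
    M * BL (PP z T) g ≤ η * (BB (PP z T) g * Real.log R) →
    (1 - 4 * η) * (X * V2 (Om h) (h m) z * (AA (PP z T) g ^ 2 * BB (PP z T) g ^ (M - 1))) -
        X / (Real.log X) ^ A ≤
      ∑ x ∈ Pre (Om h) z X,
        BV.th (x + h m) * (FF h (lam (zz g R : Col (PP z T) (Fin M) → ℝ)) x) ^ 2 := by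
  obtain ⟨X₁, hS⟩ := S2l (Fin M) M B A (1 / 20) (by norm_num)
  obtain ⟨X₂, hTh⟩ := theta_asymp η hη
  obtain ⟨X₃, hN⟩ := Filter.eventually_atTop.1 (OneLo_pow (1 / 2) (by norm_num) B)
  refine ⟨max X₁ (max X₂ X₃), ?_⟩
  intro X z R T hX hzη hzB hTX hRX hR2 h hinj hhz m g hg0 hg1 hg2 hgR hF
  simp only [max_le_iff] at hX
  obtain ⟨hX1, hX2, hX3⟩ := hX
  have n3 := hN X hX3
  have hM1 : 1 ≤ M := by
    have := m.2
    omega
  have hM1r : (1 : ℝ) ≤ M := by exact_mod_cast hM1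
  have hcard : Fintype.card (Fin M) = M := Fintype.card_fin M
  have hzr : (128 : ℝ) * M ^ 2 ≤ z := by
    have h1 : η * z ≤ 1 / 8 * z := mul_le_mul_of_nonneg_right hη1 (Nat.cast_nonneg _)
    linarith
  have hz0 : (0 : ℝ) < z := by nlinarith
  have hz128 : 128 * M ^ 2 ≤ z := by exact_mod_cast hzr
  have hPz : ∀ p ∈ PP z T, z < p := fun p hp => (OneLo_mem hp).2.2
  have hΩ : ∀ p ∈ PP 0 z, ∀ c ∈ Om h p, c < p := fun p _ => Om_lt h p
  have hs := hS X z T R hX1 (by rw [hcard]; nlinarith) hzB hTX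
    (by
      have : (1 / 4 - 1 / 20 : ℝ) = 1 / 5 := by norm_num
      rw [this]
      exact hRX) (Om h)
    (fun p => (Om_card h p).trans hcard.le) hΩ h
    (fun i => by
      have h1 : (h i : ℝ) ≤ z := by exact_mod_cast hhz i
      exact h1.trans (hzB.trans n3)) m
    (fun p hp i j hij hmod => by
      have h1 := hPz p hp
      have h2 := hhz i
      have h3 := hhz j
      have h4 : h i % p = h j % p := hmod
      rw [Nat.mod_eq_of_lt (by omega), Nat.mod_eq_of_lt (by omega)] at h4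
      exact hij (hinj h4))
    (zz g R) (fun σ => OneLo_zz g hg0 hg1 R σ) (fun σ hσ => OneLo_supp g R σ hσ)
  refine le_trans ?_ hs
  apply sub_le_sub_right
  have hm := S2m (ι := Fin M) z T R (by rw [hcard]; nlinarith) hR2 m g hg0 hg2 hgR η hη.le
    (by rw [hcard]; exact hF)
  rw [hcard] at hm
  obtain ⟨Fo, hFo⟩ : ∃ Fo : ℝ, Fo = ∑ ρ : Col (PP z T) (Fin M), (∏ p : {p : ℕ // p ∈ PP z T},
      Dm (q2 m p) (1 - ∑ i, q2 m p i) (ρ p)) *
        (AL (fun p j => q2 m p j - 1 / ((p : ℕ) : ℝ)) (zz g R) ρ) ^ 2 := ⟨_, rfl⟩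
  rw [← hFo] at hm ⊢
  obtain ⟨G, hG⟩ : ∃ G : ℝ, G = AA (PP z T) g ^ 2 * BB (PP z T) g ^ (M - 1) := ⟨_, rfl⟩
  have hG0 : 0 ≤ G := by
    rw [hG]
    have h1 : 0 ≤ BB (PP z T) g := by
      unfold BB
      exact sum_nonneg fun s _ => by positivity
    positivity
  rw [← hG] at hm ⊢
  have hV2 : 0 ≤ V2 (Om h) (h m) z := V2_pos (Om h) (h m) z hΩ
  obtain ⟨v, hv⟩ : ∃ v : ℝ, v = V2 (Om h) (h m) z := ⟨_, rfl⟩
  rw [← hv] at hV2 ⊢
  obtain ⟨hT1, -⟩ := hTh X (h m) hX2 (by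
    have h1 : (h m : ℝ) ≤ z := by exact_mod_cast hhz m
    exact h1.trans (hzB.trans n3))
  have hXr : (0 : ℝ) ≤ X := Nat.cast_nonneg _
  have e1 : 4 * (M : ℝ) / z ≤ η / 4 := by
    rw [div_le_iff₀ hz0]
    nlinarith
  have e2 : 2 * (M : ℝ) ^ 2 / z ≤ η / 8 := by
    rw [div_le_iff₀ hz0]
    linarith
  have e3 : (1 - η / 4) * (1 - 2 * η - η / 8) * G ≤ Fo := by
    refine le_trans ?_ hm
    apply mul_le_mul_of_nonneg_right _ hG0
    apply mul_le_mul (by linarith) (by linarith) (by nlinarith) (by linarith)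
  have e4 : 0 ≤ Fo := le_trans (by
    have : 0 ≤ (1 - η / 4) * (1 - 2 * η - η / 8) := by
      apply mul_nonneg <;> linarith
    positivity) e3
  have e5 : (1 - 4 * η) ≤ (1 - η) * ((1 - η / 4) * (1 - 2 * η - η / 8)) := by
    nlinarith [mul_pos hη hη, mul_pos (mul_pos hη hη) hη]
  calc (1 - 4 * η) * (X * v * G) ≤ ((1 - η) * ((1 - η / 4) * (1 - 2 * η - η / 8))) * (X * v * G) :=
        mul_le_mul_of_nonneg_right e5 (by positivity)
    _ = ((1 - η) * X) * v * ((1 - η / 4) * (1 - 2 * η - η / 8) * G) := by ring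
    _ ≤ ((1 - η) * X) * v * Fo := by
        apply mul_le_mul_of_nonneg_left e3
        have : 0 ≤ 1 - η := by linarith
        positivity
    _ ≤ Th X (h m) * v * Fo := by
        apply mul_le_mul_of_nonneg_right _ e4
        exact mul_le_mul_of_nonneg_right hT1 hV2

end Pool.Agent.Lib.MP_092512_nt.FP
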