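import Pool.Agent.Lib.MT.Lay1
import Pool.Agent.Lib.MT.Quad
import Pool.Agent.Lib.MT.Inv
import Pool.Agent.Lib.MT.S1main

/-!
# F_P, S1u: upper bound for the sum of the weights

PROOF. Copy of `MT.layer1` (file Lib/MT/Lay1.lean; the hypothesis `R ≤ X^(1/5)` is used there only for `R ≤ X`) and of `MT.S1_upper`
(file Lib/MT/S1up.lean); `MT.S1_main` for the main term.  (`|zz g R| ≤ 1`, support `tot ≤ R ≤ Q`: see `Ratio_zz`, `Ratio_supp` in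
Lib/MT/Ratio.lean.)
-/

set_option autoImplicit false

open Finset

namespace Pool.Agent.Lib.MP_092512_nt.FP

open Pool.Agent.Lib.MT

private theorem S1u_layer1 (ι : Type) [Fintype ι] [DecidableEq ι] (K B : ℕ) : ∃ c : ℝ, 0 < c ∧ ∃ X₀ : ℕ,
    ∀ X z R Q : ℕ, X₀ ≤ X → (z : ℝ) ≤ (Real.log X) ^ B → R ≤ X →
    (Q : ℝ) ≤ (X : ℝ) ^ (2 / 5 : ℝ) →
    ∀ Ω : ℕ → Finset ℕ, (∀ p, (Ω p).card ≤ K) → (∀ p ∈ PP 0 z, ∀ c ∈ Ω p, c < p) →
    ∀ h : ι → ℕ, (∀ i, h i ≤ X) → ∀ L : Col (PP z R) ι → ℝ,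
    (∀ σ, |L σ| ≤ ∏ p : {p : ℕ // p ∈ PP z R}, (1 + (Fintype.card ι : ℝ) / ((p : ℕ) : ℝ))) →
    (∀ σ, L σ ≠ 0 → tot σ ≤ Q) →
    (∀ σ τ, L σ ≠ 0 → L τ ≠ 0 → ∀ p i j, σ p = some i → τ p = some j → i ≠ j →
      ¬ h i ≡ h j [MOD (p : ℕ)]) →
    |∑ x ∈ Pre Ω z X, (FF h L x) ^ 2 - X * V1 Ω z * Qf (q1 (ι := ι)) L| ≤ (X : ℝ) ^ (1 - c) := by
  classical
  set k := Fintype.card ι with hk
  obtain ⟨c0, hc0, X1, h1⟩ := layB_param K B (1 / 20) (by norm_num)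
  obtain ⟨C, hC, hprod⟩ := layA_prod k
  obtain ⟨C3, hC3, hprod3⟩ := layA_prod (3 * k)
  obtain ⟨c1, hc1, hc10, hc1'⟩ : ∃ c1 : ℝ, 0 < c1 ∧ c1 ≤ c0 ∧ c1 ≤ 1 / 20 :=
    ⟨min c0 (1 / 20), lt_min hc0 (by norm_num), min_le_left _ _, min_le_right _ _⟩
  obtain ⟨X2, h2⟩ := layA_FF ι (c1 / 8) (by positivity)
  obtain ⟨X3, h3⟩ := Pool.Agent.Lib.MP_092512_nt.P3.B.ev_pow (C ^ (4 * k)) (1 / 20) (by norm_num) (4 * k)
  obtain ⟨X4, h4⟩ := Pool.Agent.Lib.MP_092512_nt.P3.B.ev_pow (C ^ (2 * k) * C3 ^ (3 * k)) (c1 / 2)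
    (by positivity) (5 * k)
  obtain ⟨X5, h5⟩ := Pool.Agent.Lib.MP_092512_nt.P3.B.ev_pow 4 (c1 / 4) (by positivity) 0
  refine ⟨c1 / 4, by positivity, X1 + X2 + X3 + X4 + X5 + 3,
    fun X z R Q hX hz hRX hQ Ω hK hΩ h hh L hL hLQ hLc => ?_⟩
  have hX3 : 3 ≤ X := by omega
  have hX1 : (1 : ℝ) ≤ X := by
    have : 1 ≤ X := by omega
    exact_mod_cast this
  have hX0 : (0 : ℝ) < X := by linarith
  have hlog : 0 ≤ Real.log X := Real.log_nonneg hX1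
  obtain ⟨m, hm⟩ := h1 X z (by omega) hz
  obtain ⟨M0, hM0⟩ : ∃ M0 : ℝ, M0 = ∏ p : {p : ℕ // p ∈ PP z R}, (1 + (k : ℝ) / ((p : ℕ) : ℝ)) :=
    ⟨_, rfl⟩
  have hL' : ∀ σ, |L σ| ≤ M0 := by
    rw [hM0]
    exact hL
  have hM00 : 0 ≤ M0 := (abs_nonneg _).trans (hL' fun _ => none)
  have hM0C : M0 ≤ (C * (1 + Real.log X)) ^ k := by
    rw [hM0]
    refine (hprod X z R hX3 hRX).trans (pow_le_pow_left₀ (by positivity) ?_ k)
    exact mul_le_mul_of_nonneg_left (by linarith) (by linarith)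
  -- the sum of the |L|
  have hS := layA_sum (fun p hp => (lay_prime p hp).one_le) L M0 hM0 hL' Q hLQ
  have hS' : ∑ σ, |L σ| ≤ (X : ℝ) ^ (2 / 5 : ℝ) * ((C * (1 + Real.log X)) ^ k) ^ 2 := by
    refine hS.trans (mul_le_mul hQ (pow_le_pow_left₀ hM00 hM0C 2) (by positivity) (by positivity))
  -- the form
  have hQf := layA_Qf (q1 (P := PP z R) (ι := ι)) (fun p _ => by unfold q1; positivity) L M0 hL'
  have hp3 : ∏ p : {p : ℕ // p ∈ PP z R}, (1 + 3 * ∑ i : ι, q1 p i) ≤ (C3 * (1 + Real.log X)) ^ (3 * k) := by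
    refine le_trans (le_of_eq ?_) ((hprod3 X z R hX3 hRX).trans (pow_le_pow_left₀ (by positivity) ?_ _))
    · refine prod_congr rfl fun p _ => ?_
      unfold q1
      rw [sum_const, card_univ, nsmul_eq_mul]
      push_cast
      ring
    · exact mul_le_mul_of_nonneg_left (by linarith) (by linarith)
  have hQf' : |Qf (q1 (ι := ι)) L| ≤ ((C * (1 + Real.log X)) ^ k) ^ 2 * (C3 * (1 + Real.log X)) ^ (3 * k) := by
    refine hQf.trans (mul_le_mul (pow_le_pow_left₀ hM00 hM0C 2) hp3 ?_ (by positivity))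
    exact prod_nonneg fun p _ => by
      have : 0 ≤ ∑ i : ι, q1 p i := sum_nonneg fun i _ => by unfold q1; positivity
      linarith
  -- truncation
  have hw : ∀ x ∈ Ioc X (2 * X), |(FF h L x) ^ 2| ≤ (X : ℝ) ^ (c1 / 4) := by
    intro x hx
    have h6 := h2 X z R (by omega) hRX h hh L hL x hx
    rw [abs_pow]
    calc |FF h L x| ^ 2 ≤ ((X : ℝ) ^ (c1 / 8)) ^ 2 := pow_le_pow_left₀ (abs_nonneg _) h6 2
      _ = (X : ℝ) ^ (c1 / 4) := by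
          rw [← Real.rpow_natCast, ← Real.rpow_mul hX0.le]
          congr 1
          push_cast
          ring
  have t1 := layB_trunc (by omega) (by norm_num) hm Ω hK hΩ (fun x => (FF h L x) ^ 2) ((X : ℝ) ^ (c1 / 4))
    (by positivity) hw
  -- fixed d
  have t2 := lay_sumd (D := (PP 0 z).powerset.filter (fun d => d.card ≤ m))
    (fun d => ∑ x ∈ (Ioc X (2 * X)).filter (fun x => ∀ p ∈ d, x % p ∈ Ω p), (FF h L x) ^ 2)
    (fun d => ∏ p ∈ d, ((Ω p).card : ℝ) / p)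
    (fun d => (∏ p ∈ d, ((Ω p).card : ℝ)) * (∑ σ, |L σ|) ^ 2) (X * Qf (q1 (ι := ι)) L)
    (fun d hd => by
      have h6 := layC_int (lay_prime (z := z) (R := R)) z X lay_gt h L hLc Ω hΩ d
        (mem_powerset.1 (mem_filter.1 hd).1)
      have e : (X : ℝ) * (∏ p ∈ d, ((Ω p).card : ℝ) / p) * Qf (q1 (ι := ι)) L =
        X * Qf (q1 (ι := ι)) L * ∏ p ∈ d, ((Ω p).card : ℝ) / p := by ring
      rw [e] at h6
      exact h6)
  rw [← sum_mul] at t2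
  have t3 := (layB_V hm Ω hK).1
  have t4 := layB_low (by omega) hm Ω hK
  have t5 : ∀ a b c : ℝ, a * b * c = a * c * b := fun a b c => by ring
  rw [t5 (X : ℝ) (Qf (q1 (ι := ι)) L)] at t2
  refine (lay_tri t1 (t2.trans (mul_le_mul_of_nonneg_right t4 (by positivity))) t3 hX0.le).trans ?_
  -- numbers
  have hL1 : (0 : ℝ) ≤ 1 + Real.log X := by linarith
  have n1 : 2 * (X : ℝ) ^ (c1 / 4) * X * (X : ℝ) ^ (-c0) ≤ 2 * (X : ℝ) ^ (1 - c1 / 2) := by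
    have e : 2 * (X : ℝ) ^ (c1 / 4) * X * (X : ℝ) ^ (-c0) = 2 * (X : ℝ) ^ (c1 / 4 + 1 + -c0) := by
      rw [Real.rpow_add hX0, Real.rpow_add hX0, Real.rpow_one]
      ring
    rw [e]
    refine mul_le_mul_of_nonneg_left (Real.rpow_le_rpow_of_exponent_le hX1 ?_) (by norm_num)
    linarith
  have n2 : (X : ℝ) ^ (1 / 20 : ℝ) * (∑ σ, |L σ|) ^ 2 ≤ (X : ℝ) ^ (1 - c1 / 2) := by
    have h6 := h3 X (by omega)
    have h7 : (∑ σ, |L σ|) ^ 2 ≤ ((X : ℝ) ^ (2 / 5 : ℝ) * ((C * (1 + Real.log X)) ^ k) ^ 2) ^ 2 :=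
      pow_le_pow_left₀ (sum_nonneg fun σ _ => abs_nonneg _) hS' 2
    have h8 : ((X : ℝ) ^ (2 / 5 : ℝ) * ((C * (1 + Real.log X)) ^ k) ^ 2) ^ 2 =
        (X : ℝ) ^ (4 / 5 : ℝ) * (C ^ (4 * k) * (1 + Real.log X) ^ (4 * k)) := by
      rw [mul_pow, ← Real.rpow_natCast, ← Real.rpow_mul hX0.le, ← pow_mul, ← pow_mul, mul_pow]
      have e1 : k * (2 * 2) = 4 * k := by ring
      rw [e1]
      congr 2
      push_cast
      norm_num
    calc (X : ℝ) ^ (1 / 20 : ℝ) * (∑ σ, |L σ|) ^ 2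
        ≤ (X : ℝ) ^ (1 / 20 : ℝ) * ((X : ℝ) ^ (4 / 5 : ℝ) * (X : ℝ) ^ (1 / 20 : ℝ)) := by
          rw [h8] at h7
          refine mul_le_mul_of_nonneg_left (h7.trans ?_) (by positivity)
          exact mul_le_mul_of_nonneg_left h6 (by positivity)
      _ = (X : ℝ) ^ (9 / 10 : ℝ) := by
          rw [← Real.rpow_add hX0, ← Real.rpow_add hX0]
          norm_num
      _ ≤ (X : ℝ) ^ (1 - c1 / 2) := Real.rpow_le_rpow_of_exponent_le hX1 (by linarith)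
  have n3 : X * (X : ℝ) ^ (-c0) * |Qf (q1 (ι := ι)) L| ≤ (X : ℝ) ^ (1 - c1 / 2) := by
    have h6 := h4 X (by omega)
    have h7 : ((C * (1 + Real.log X)) ^ k) ^ 2 * (C3 * (1 + Real.log X)) ^ (3 * k) =
        C ^ (2 * k) * C3 ^ (3 * k) * (1 + Real.log X) ^ (5 * k) := by
      rw [← pow_mul, mul_pow, mul_pow]
      have e1 : 5 * k = 2 * k + 3 * k := by ring
      rw [e1, pow_add, mul_comm k 2]
      ring
    rw [h7] at hQf'
    calc X * (X : ℝ) ^ (-c0) * |Qf (q1 (ι := ι)) L| ≤ X * (X : ℝ) ^ (-c0) * (X : ℝ) ^ (c1 / 2) :=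
          mul_le_mul_of_nonneg_left (hQf'.trans h6) (by positivity)
      _ = (X : ℝ) ^ (1 + -c0 + c1 / 2) := by
          rw [Real.rpow_add hX0, Real.rpow_add hX0, Real.rpow_one]
      _ ≤ (X : ℝ) ^ (1 - c1 / 2) := Real.rpow_le_rpow_of_exponent_le hX1 (by linarith)
  have n4 : 4 * (X : ℝ) ^ (1 - c1 / 2) ≤ (X : ℝ) ^ (1 - c1 / 4) := by
    have h6 := h5 X (by omega)
    rw [pow_zero, mul_one] at h6
    calc 4 * (X : ℝ) ^ (1 - c1 / 2) ≤ (X : ℝ) ^ (c1 / 4) * (X : ℝ) ^ (1 - c1 / 2) :=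
          mul_le_mul_of_nonneg_right h6 (by positivity)
      _ = (X : ℝ) ^ (1 - c1 / 4) := by
          rw [← Real.rpow_add hX0]
          congr 1
          ring
  linarith

private theorem S1u_mem {w R p : ℕ} (h : p ∈ PP w R) : p.Prime ∧ w < p := by
  unfold PP at h
  exact (mem_filter.mp h).2

private theorem S1u_dm {P : Finset ℕ} {ι : Type} [Fintype ι] [DecidableEq ι] (ρ : Col P ι) :
    ∏ p : {p : ℕ // p ∈ P}, Dm (q1 p) 1 (ρ p) = 1 / (tot ρ : ℝ) := by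
  unfold tot
  push_cast
  rw [one_div, ← prod_inv_distrib]
  refine prod_congr rfl fun p _ => ?_
  cases h : ρ p with
  | none => simp [Dm]
  | some i => simp [Dm, q1]

private theorem S1u_upper (ι : Type) [Fintype ι] [DecidableEq ι] (K B : ℕ) : ∃ c : ℝ, 0 < c ∧ ∃ X₀ : ℕ,
    ∀ X z R Q : ℕ, X₀ ≤ X → Fintype.card ι ≤ z → (z : ℝ) ≤ (Real.log X) ^ B →
    R ≤ X → (Q : ℝ) ≤ (X : ℝ) ^ (2 / 5 : ℝ) →
    ∀ Ω : ℕ → Finset ℕ, (∀ p, (Ω p).card ≤ K) → (∀ p ∈ PP 0 z, ∀ c ∈ Ω p, c < p) →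
    ∀ h : ι → ℕ, (∀ i, h i ≤ X) → ∀ u : Col (PP z R) ι → ℝ, (∀ σ, |u σ| ≤ 1) →
    (∀ σ, u σ ≠ 0 → tot σ ≤ Q) →
    (∀ p ∈ PP z R, ∀ i j, i ≠ j → ¬ h i ≡ h j [MOD p]) →
    ∑ x ∈ Pre Ω z X, (FF h (lam u) x) ^ 2 ≤
      X * V1 Ω z * ∑ ρ : Col (PP z R) ι, u ρ ^ 2 / (tot ρ : ℝ) + (X : ℝ) ^ (1 - c) := by
  obtain ⟨c, hc, X₀, hlay⟩ := S1u_layer1 ι K B
  refine ⟨c, hc, X₀, ?_⟩
  intro X z R Q hX hι hz hR hQ Ω hK hΩ h hh u hu htot hij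
  have h1 := hlay X z R Q hX hz hR hQ Ω hK hΩ h hh (lam u) (fun σ => abs_lam_le u hu σ)
    (fun σ hσ => by
      obtain ⟨τ, h2, h3⟩ := lam_ext u σ hσ
      exact (tot_le_of_ext (fun p hp => (S1u_mem hp).1.one_lt.le) σ τ h3).trans (htot τ h2))
    (fun σ τ _ _ p i j _ _ hne => hij p p.2 i j hne)
  have h4 := Qf_le (P := PP z R) (ι := ι) q1 (fun p i => by unfold q1; positivity)
    (fun p => by
      unfold q1
      rw [sum_const, card_univ, nsmul_eq_mul, mul_one_div]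
      have h5 := (S1u_mem p.2).2
      have h6 : (0 : ℝ) < ((p : ℕ) : ℝ) := by
        exact_mod_cast (S1u_mem p.2).1.pos
      rw [div_le_one h6]
      exact_mod_cast (by omega : Fintype.card ι ≤ (p : ℕ))) (lam u)
  have h7 : ∑ ρ : Col (PP z R) ι, (∏ p : {p : ℕ // p ∈ PP z R}, Dm (q1 p) 1 (ρ p)) *
      (∑ σ : Col (PP z R) ι, (∏ p : {p : ℕ // p ∈ PP z R}, Amat (q1 p) (ρ p) (σ p)) *
        lam u σ) ^ 2 = ∑ ρ : Col (PP z R) ι, u ρ ^ 2 / (tot ρ : ℝ) := by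
    refine sum_congr rfl fun ρ _ => ?_
    rw [sum_lam_q1, S1u_dm]
    ring
  rw [h7] at h4
  have h8 : 0 ≤ V1 Ω z := by
    unfold V1
    refine prod_nonneg fun p hp => ?_
    have h9 : (Ω p).card ≤ p := by
      have h10 : Ω p ⊆ range p := fun c hc => mem_range.mpr (hΩ p hp c hc)
      calc (Ω p).card ≤ (range p).card := card_le_card h10
        _ = p := card_range p
    have h11 : (0 : ℝ) < (p : ℝ) := by exact_mod_cast (S1u_mem hp).1.pos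
    have h12 : ((Ω p).card : ℝ) / p ≤ 1 := by
      rw [div_le_one h11]
      exact_mod_cast h9
    linarith
  have h13 : (X : ℝ) * V1 Ω z * Qf (q1 (ι := ι)) (lam u) ≤
      X * V1 Ω z * ∑ ρ : Col (PP z R) ι, u ρ ^ 2 / (tot ρ : ℝ) :=
    mul_le_mul_of_nonneg_left h4 (mul_nonneg (Nat.cast_nonneg X) h8)
  have h14 := (abs_le.mp h1).2
  linarith

private theorem S1u_zz {P : Finset ℕ} {ι : Type} [Fintype ι] [DecidableEq ι] (g : ℕ → ℝ)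
    (hg0 : ∀ n, 0 ≤ g n) (hg1 : ∀ n, g n ≤ 1) (R : ℕ) (σ : Col P ι) : |zz g R σ| ≤ 1 := by
  have hmu : |mu σ| = 1 := by
    unfold mu
    rw [abs_prod]
    refine prod_eq_one fun p _ => ?_
    split_ifs <;> simp
  unfold zz
  rw [abs_mul, hmu, one_mul]
  unfold yy
  split_ifs
  · rw [abs_of_nonneg (prod_nonneg fun i _ => hg0 _)]
    exact prod_le_one (fun i _ => hg0 _) fun i _ => hg1 _
  · rw [abs_zero]
    exact zero_le_one

private theorem S1u_supp {P : Finset ℕ} {ι : Type} [Fintype ι] [DecidableEq ι] (g : ℕ → ℝ)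
    (R : ℕ) (σ : Col P ι) (h : zz g R σ ≠ 0) : tot σ ≤ R := by
  by_contra hc
  apply h
  unfold zz yy
  rw [if_neg hc, mul_zero]

theorem S1u (ι : Type) [Fintype ι] [DecidableEq ι] (K B : ℕ) : ∃ c : ℝ, 0 < c ∧ ∃ X₀ : ℕ,
    ∀ X z T R : ℕ, X₀ ≤ X → Fintype.card ι ≤ z → (z : ℝ) ≤ (Real.log X) ^ B → T ≤ X →
    (R : ℝ) ≤ (X : ℝ) ^ (1 / 5 : ℝ) →
    ∀ Ω : ℕ → Finset ℕ, (∀ p, (Ω p).card ≤ K) → (∀ p ∈ PP 0 z, ∀ c ∈ Ω p, c < p) →
    ∀ h : ι → ℕ, (∀ i, h i ≤ X) → (∀ p ∈ PP z T, ∀ i j, i ≠ j → ¬ h i ≡ h j [MOD p]) →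
    ∀ g : ℕ → ℝ, (∀ n, 0 ≤ g n) → (∀ n, g n ≤ 1) →
    ∑ x ∈ Pre Ω z X, (FF h (lam (zz g R : Col (PP z T) ι → ℝ)) x) ^ 2 ≤
      X * V1 Ω z * BB (PP z T) g ^ Fintype.card ι + (X : ℝ) ^ (1 - c) := by
  obtain ⟨c, hc, X₀, h1⟩ := S1u_upper ι K B
  refine ⟨c, hc, X₀ + 1, ?_⟩
  intro X z T R hX hιz hz hT hR Ω hK hΩ h hh hij g hg0 hg1
  have hX1 : (1 : ℝ) ≤ X := by
    have : 1 ≤ X := by omega
    exact_mod_cast this
  have hR2 : (R : ℝ) ≤ (X : ℝ) ^ (2 / 5 : ℝ) :=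
    hR.trans (Real.rpow_le_rpow_of_exponent_le hX1 (by norm_num))
  have h2 := h1 X z T R (by omega) hιz hz hT hR2 Ω hK hΩ h hh (zz g R)
    (fun σ => S1u_zz g hg0 hg1 R σ) (fun σ hσ => S1u_supp g R σ hσ) hij
  have h3 := S1_main (ι := ι) (P := PP z T) (fun p hp => (S1u_mem hp).1.one_lt.le) R g hg0
  have h8 : 0 ≤ V1 Ω z := by
    unfold V1
    refine prod_nonneg fun p hp => ?_
    have h9 : (Ω p).card ≤ p := by
      have h10 : Ω p ⊆ range p := fun c hc => mem_range.mpr (hΩ p hp c hc)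
      calc (Ω p).card ≤ (range p).card := card_le_card h10
        _ = p := card_range p
    have h11 : (0 : ℝ) < (p : ℝ) := by exact_mod_cast (S1u_mem hp).1.pos
    have h12 : ((Ω p).card : ℝ) / p ≤ 1 := by
      rw [div_le_one h11]
      exact_mod_cast h9
    linarith
  have h4 : (X : ℝ) * V1 Ω z * ∑ ρ : Col (PP z T) ι, zz g R ρ ^ 2 / (tot ρ : ℝ) ≤
      X * V1 Ω z * BB (PP z T) g ^ Fintype.card ι :=
    mul_le_mul_of_nonneg_left h3 (mul_nonneg (Nat.cast_nonneg X) h8)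
  linarith

end Pool.Agent.Lib.MP_092512_nt.FP
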