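import Pool.Agent.Lib.MP_092512_nt.FP.PairUp
import Pool.Agent.Lib.MP_092512_nt.FP.OneLo
import Pool.Agent.Lib.MP_092512_nt.FP.S1u
import Pool.Agent.Lib.MP_092512_nt.FP.Num
import Pool.Agent.Lib.MT.Moment

/-!
# F_P, NT: Maynard-Tao weights with sharp first and second moments

PROOF.  `η₁ = η/100`, `δ = η/1000`, `θ = δ/2`; `M₀` from `num η₁ θ`, `M₀ ≥ 2`.  `z = ⌊(log X)^(B+1)⌋₊`, `R = ⌊X^δ⌋₊`, `T = ⌊X^(1/4-δ)⌋₊`, `Z = ⌊X^(1/4-2δ)⌋₊`, `g` from
`num` (with `B+1`).  `w x = FF h (lam (zz g R)) x ^2` for `x ∈ Pre (Om h) z X`, `0` else.  `V1 = kap V2`, `V2 := V1/kap z` (`Om_eq`), `V1 ≥ 1/log X`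
(`Om_low`).  `Λ = X V2 AA^2 BB^(M-1)`, `W = ∑ w`, `μ = Λ/(W log X)`.
* `W ≤ X V1 BB^M + X^(1-c) ≤ (1+η₁) X V1 BB^M` (`S1u`, `Om_card`).
* (a) `th (x + h i) ≤ log (3X) ≤ (1+η₁) log X`, so the mass of `x + h i` prime is at least `(1/((1+η₁) log X)) ((1-4η₁) Λ - X/(log X)^A)`
  (`one_lo`), `Λ ≥ X/log X`, `A = 10`.  So `W > 0` and (a) holds.
* (b) `th (x + h m) ≥ log X`, so the mass of the pair is at most `(1/log X)((1+4η₁) X V2 AA^4 BB^(M-2)/(kap log Z) + X/(log X)^A)` (`pair_up`), `log Z ≥ (1/4 - 3δ) log X`,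
  and `(4+η) μ^2 W = (4+η) Λ^2/(W (log X)^2) ≥ (4+η)/(1+η₁) X V2 AA^4 BB^(M-2)/(kap (log X)^2)`.
* (c) `M μ ≥ M AA^2/((1+η₁) BB kap log X) ≥ 1/((1+η₁) η₁) ≥ 1/η`.
* (d) `∑_S w ≤ |S|^(1/2) (∑ FF^4)^(1/2)`, `∑ FF^4 ≤ L^4 X (log X)^C₁` (`MT.FF_moment`), `L = ∏(1 + M/p) ≤ (log X)^C₂` (`MT.prod_col_le`,
  `MT.abs_lam_le`), `W ≥ X/(log X)^4`; `C = C₁ + 4 C₂ + 20`.
-/

set_option autoImplicit false

open Finset

namespace Pool.Agent.Lib.MP_092512_nt.FP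

open Pool.Agent.Lib.MT

private theorem NT_b (η W X V κ A Bb l lZ P E : ℝ) (m : ℕ) (hη : 0 < η) (hη1 : η ≤ 1 / 8)
    (hX : 0 < X) (hV : 0 < V) (hκ : 0 < κ) (hA : 0 < A) (hB : 0 < Bb) (hl : 0 < l) (hW : 0 < W)
    (hWu : W ≤ (1 + η / 100) * (X * (κ * V) * Bb ^ (m + 2)))
    (hlZ : (1 / 4 - 3 * (η / 1000)) * l ≤ lZ)
    (hP : l * P ≤ (1 + 4 * (η / 100)) * (X * V * (A ^ 4 * Bb ^ m / (κ * lZ))) + E)
    (hE : E * l ≤ (η / 100) * (X * V * (A ^ 4 * Bb ^ m) / κ)) :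
    P ≤ (4 + η) * (X * V * (A ^ 2 * Bb ^ (m + 1)) / (W * l)) ^ 2 * W := by
  set Y : ℝ := X * V * (A ^ 4 * Bb ^ m) / κ with hY
  have hY0 : 0 < Y := by positivity
  have hd : (0 : ℝ) < 1 / 4 - 3 * (η / 1000) := by linarith
  have hlZ0 : 0 < lZ := lt_of_lt_of_le (mul_pos hd hl) hlZ
  have h1 : W * Y ≤ (1 + η / 100) * (X * V * (A ^ 2 * Bb ^ (m + 1))) ^ 2 := by
    refine (mul_le_mul_of_nonneg_right hWu hY0.le).trans (le_of_eq ?_)
    rw [hY]
    field_simp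
    ring
  have h2 : P * l ^ 2 ≤ ((1 + 4 * (η / 100)) / (1 / 4 - 3 * (η / 1000)) + η / 100) * Y := by
    have h3 : X * V * (A ^ 4 * Bb ^ m / (κ * lZ)) * l = Y * (l / lZ) := by
      rw [hY]
      field_simp
    have h4 : l / lZ ≤ 1 / (1 / 4 - 3 * (η / 1000)) := by
      rw [div_le_div_iff₀ hlZ0 hd]
      linarith
    calc P * l ^ 2 = l * P * l := by ring
      _ ≤ ((1 + 4 * (η / 100)) * (X * V * (A ^ 4 * Bb ^ m / (κ * lZ))) + E) * l :=
        mul_le_mul_of_nonneg_right hP hl.le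
      _ = (1 + 4 * (η / 100)) * (X * V * (A ^ 4 * Bb ^ m / (κ * lZ)) * l) + E * l := by ring
      _ = (1 + 4 * (η / 100)) * (Y * (l / lZ)) + E * l := by rw [h3]
      _ ≤ (1 + 4 * (η / 100)) * (Y * (1 / (1 / 4 - 3 * (η / 1000)))) + (η / 100) * Y := by
        refine add_le_add (mul_le_mul_of_nonneg_left (mul_le_mul_of_nonneg_left h4 hY0.le)
          (by positivity)) hE
      _ = _ := by ring
  have h5 : (1 + 4 * (η / 100)) / (1 / 4 - 3 * (η / 1000)) + η / 100 ≤ (4 + η) / (1 + η / 100) := by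
    rw [div_add' _ _ _ hd.ne', div_le_div_iff₀ hd (by positivity)]
    nlinarith [mul_pos hη hη, mul_pos (mul_pos hη hη) hη]
  have h6 : ((4 + η) / (1 + η / 100)) * Y ≤
      (4 + η) * (X * V * (A ^ 2 * Bb ^ (m + 1)) / (W * l)) ^ 2 * W * l ^ 2 := by
    have h7 : (4 + η) * (X * V * (A ^ 2 * Bb ^ (m + 1)) / (W * l)) ^ 2 * W * l ^ 2 =
        (4 + η) * ((X * V * (A ^ 2 * Bb ^ (m + 1))) ^ 2 / W) := by
      field_simp
    rw [h7, div_mul_eq_mul_div, mul_div_assoc]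
    refine mul_le_mul_of_nonneg_left ?_ (by positivity)
    rw [div_le_div_iff₀ (by positivity) hW]
    linarith
  have h8 : P * l ^ 2 ≤ (4 + η) * (X * V * (A ^ 2 * Bb ^ (m + 1)) / (W * l)) ^ 2 * W * l ^ 2 :=
    h2.trans ((mul_le_mul_of_nonneg_right h5 hY0.le).trans h6)
  exact le_of_mul_le_mul_right h8 (by positivity)

private theorem NT_c (η W X V κ a b l M : ℝ) (m : ℕ) (hη : 0 < η) (hη1 : η ≤ 1 / 8)
    (hX : 0 < X) (hV : 0 < V) (hκ : 0 < κ) (ha : 0 < a) (hb : 0 < b) (hl : 0 < l) (hW : 0 < W)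
    (hM : 0 < M) (hWu : W ≤ (1 + η / 100) * (X * (κ * V) * b ^ (m + 2)))
    (hr : 1 / (η / 100) ≤ M * a ^ 2 / (b * κ * l)) :
    1 / η ≤ M * (X * V * (a ^ 2 * b ^ (m + 1)) / (W * l)) := by
  have h1 : M * (X * V * (a ^ 2 * b ^ (m + 1)) /
      ((1 + η / 100) * (X * (κ * V) * b ^ (m + 2)) * l)) ≤
      M * (X * V * (a ^ 2 * b ^ (m + 1)) / (W * l)) := by
    refine mul_le_mul_of_nonneg_left ?_ hM.le
    exact div_le_div_of_nonneg_left (by positivity) (by positivity)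
      (mul_le_mul_of_nonneg_right hWu hl.le)
  refine le_trans ?_ h1
  have h2 : M * (X * V * (a ^ 2 * b ^ (m + 1)) /
      ((1 + η / 100) * (X * (κ * V) * b ^ (m + 2)) * l)) =
      M * a ^ 2 / (b * κ * l) / (1 + η / 100) := by
    have h3 : (0 : ℝ) < 1 + η / 100 := by positivity
    generalize 1 + η / 100 = y at h3 ⊢
    field_simp
    rw [← pow_succ]
  rw [h2, le_div_iff₀ (by positivity)]
  refine le_trans ?_ hr
  rw [div_mul_eq_mul_div, one_mul, div_le_div_iff₀ hη (by positivity)]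
  nlinarith

private theorem NT_a (η W L l Q : ℝ) (hη : 0 < η) (hL : 0 < L) (hl : 0 < l) (hW : 0 < W)
    (hQ : (1 - 5 * (η / 100)) * L ≤ (1 + η / 100) * l * Q) :
    (1 - η) * (L / (W * l)) * W ≤ Q := by
  have h1 : (1 - η) * (L / (W * l)) * W = (1 - η) * L / l := by
    field_simp
  rw [h1, div_le_iff₀ hl]
  have h2 : (1 + η / 100) * ((1 - η) * L) ≤ (1 - 5 * (η / 100)) * L := by
    have h3 : (1 + η / 100) * (1 - η) ≤ 1 - 5 * (η / 100) := by nlinarith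
    have h4 := mul_le_mul_of_nonneg_right h3 hL.le
    linarith
  have h5 : (1 + η / 100) * ((1 - η) * L) ≤ (1 + η / 100) * (Q * l) := by linarith
  exact le_of_mul_le_mul_left h5 (by positivity)

private theorem NT_log : Filter.Tendsto (fun X : ℕ => Real.log (X : ℝ)) Filter.atTop Filter.atTop :=
  Real.tendsto_log_atTop.comp tendsto_natCast_atTop_atTop

private theorem NT_large (K : ℝ) (c : ℝ) (hc : 0 < c) (n : ℕ) : ∃ X₀ : ℕ, ∀ X : ℕ, X₀ ≤ X →
    K ≤ Real.log X ∧ K * Real.log X ^ n ≤ (X : ℝ) ^ c := by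
  have h1 : ∀ᶠ X : ℕ in Filter.atTop, K ≤ Real.log X := NT_log.eventually_ge_atTop K
  have h2 : ∀ᶠ X : ℕ in Filter.atTop, K * Real.log X ^ n ≤ (X : ℝ) ^ c := by
    have h3 : (fun x : ℝ => Real.log x ^ (n : ℝ)) =o[Filter.atTop] fun x => x ^ c :=
      isLittleO_log_rpow_rpow_atTop (n : ℝ) hc
    have h4 := h3.comp_tendsto tendsto_natCast_atTop_atTop (α := ℝ) 
    have h5 := h4.def (show (0 : ℝ) < 1 / (|K| + 1) by positivity)
    filter_upwards [h5, h1, Filter.eventually_ge_atTop 3] with X hX _ hX3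
    have hX0 : (1 : ℝ) ≤ X := by exact_mod_cast (by omega : 1 ≤ X)
    have hl : 0 ≤ Real.log X := Real.log_nonneg hX0
    simp only [Function.comp_apply, Real.norm_eq_abs] at hX
    rw [Real.rpow_natCast, abs_of_nonneg (pow_nonneg hl n),
      abs_of_nonneg (Real.rpow_nonneg (by linarith) c)] at hX
    have h6 : (0 : ℝ) < |K| + 1 := by positivity
    rw [one_div, inv_mul_eq_div, le_div_iff₀ h6] at hX
    have h7 : K * Real.log X ^ n ≤ Real.log X ^ n * (|K| + 1) := by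
      rw [mul_comm]
      refine mul_le_mul_of_nonneg_left ?_ (pow_nonneg hl n)
      linarith [le_abs_self K]
    linarith
  obtain ⟨X₀, hX₀⟩ := Filter.eventually_atTop.1 (h1.and h2)
  exact ⟨X₀, fun X hX => hX₀ X hX⟩

private theorem NT_floor (X a b : ℝ) (hX : 1 ≤ X) (h : 2 ≤ X ^ b) (hab : 0 ≤ a - b) :
    X ^ (a - b) ≤ (⌊X ^ a⌋₊ : ℝ) := by
  have h0 : 0 < X := by linarith
  have h1 : X ^ a = X ^ (a - b) * X ^ b := by
    rw [← Real.rpow_add h0]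
    congr 1
    ring
  have h2 : 1 ≤ X ^ (a - b) := Real.one_le_rpow hX hab
  have h3 := Nat.lt_floor_add_one (X ^ a)
  rw [h1] at h3 ⊢
  nlinarith

private theorem NT_param (η : ℝ) (hη : 0 < η) (hη1 : η ≤ 1 / 8) (M B : ℕ) (c : ℝ) (hc : 0 < c) :
    ∃ X₀ : ℕ, ∀ X : ℕ, X₀ ≤ X → ∀ z R T Z : ℕ, z = ⌊(Real.log X) ^ (B + 1)⌋₊ →
      R = ⌊(X : ℝ) ^ (η / 1000)⌋₊ → T = ⌊(X : ℝ) ^ (1 / 4 - η / 1000)⌋₊ →
      Z = ⌊(X : ℝ) ^ (1 / 4 - 2 * (η / 1000))⌋₊ →
      (1 ≤ X ∧ 10 + 100 / η ≤ Real.log X ∧ 16 * (M : ℝ) ^ 2 ≤ η / 100 * z ∧ 8 * M + 2 ≤ z ∧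
        (z : ℝ) ≤ (Real.log X) ^ (B + 1) ∧ z ≤ X) ∧
      (T ≤ X ∧ (R : ℝ) ≤ (X : ℝ) ^ (1 / 5 : ℝ) ∧ 2 ≤ R ∧ (R : ℝ) ≤ (X : ℝ) ^ (η / 1000) ∧
        η / 1000 / 2 * Real.log X ≤ Real.log R ∧ R ≤ T ∧
        (1 / 4 - 3 * (η / 1000)) * Real.log X ≤ Real.log Z) ∧
      Real.log (3 * X) ≤ (1 + η / 100) * Real.log X ∧
      (X : ℝ) ^ (1 - c) ≤ η / 100 * (X / Real.log X) := by
  have he : 0 < 100 / η := by positivity
  obtain ⟨X₁, h₁⟩ := NT_large (16 * (M : ℝ) ^ 2 * (100 / η) + 8 * M + 13 + 200 / η) 1 one_pos 0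
  obtain ⟨X₂, h₂⟩ := NT_large 1 1 one_pos (B + 1)
  obtain ⟨X₃, h₃⟩ := NT_large 2 (η / 2000) (by positivity) 0
  obtain ⟨X₄, h₄⟩ := NT_large (100 / η) c hc 1
  refine ⟨X₁ + X₂ + X₃ + X₄ + 1, fun X hX z R T Z hz hR hT hZ => ?_⟩
  have hX1 : 1 ≤ X := by omega
  have hXr : (1 : ℝ) ≤ X := by exact_mod_cast hX1
  have hX0 : (0 : ℝ) < X := by linarith
  have g1 := (h₁ X (by omega)).1
  have g2 := (h₂ X (by omega)).2
  have g3 := (h₃ X (by omega)).2
  have g4 := (h₄ X (by omega)).2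
  rw [pow_zero, mul_one] at g3
  rw [pow_one] at g4
  rw [one_mul, Real.rpow_one] at g2
  set l := Real.log X with hl
  have hM0 : (0 : ℝ) ≤ M := Nat.cast_nonneg M
  have hMM : 0 ≤ 16 * (M : ℝ) ^ 2 * (100 / η) := by positivity
  have h200 : 200 / η = 100 / η + 100 / η := by ring
  have hl13 : 13 ≤ l := by linarith
  have hl0 : 0 < l := by linarith
  have hlz : l ≤ l ^ (B + 1) := le_self_pow₀ (by linarith) (by omega)
  have hzl : l - 1 ≤ z := by
    have := Nat.lt_floor_add_one (l ^ (B + 1))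
    rw [← hz] at this
    linarith
  have hzu : (z : ℝ) ≤ l ^ (B + 1) := by
    rw [hz]
    exact Nat.floor_le (by positivity)
  have hdel : η / 2000 ≤ η / 1000 := by
    have : η / 1000 = 2 * (η / 2000) := by ring
    rw [this]
    have : 0 < η / 2000 := by positivity
    linarith
  have hd0 : 0 < η / 1000 := by positivity
  have hd1 : η / 1000 ≤ 1 / 8000 := by linarith
  have g3' : (2 : ℝ) ≤ (X : ℝ) ^ (η / 1000) :=
    g3.trans (Real.rpow_le_rpow_of_exponent_le hXr hdel)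
  have hRu : (R : ℝ) ≤ (X : ℝ) ^ (η / 1000) := by
    rw [hR]
    exact Nat.floor_le (by positivity)
  have hRl : (X : ℝ) ^ (η / 1000 - η / 2000) ≤ R := by
    rw [hR]
    exact NT_floor X _ _ hXr g3 (by linarith)
  have hhalf : η / 1000 - η / 2000 = η / 2000 := by ring
  have hZl : (X : ℝ) ^ (1 / 4 - 2 * (η / 1000) - η / 1000) ≤ Z := by
    rw [hZ]
    exact NT_floor X _ _ hXr g3' (by linarith)
  refine ⟨⟨hX1, by linarith, ?_, ?_, hzu, ?_⟩, ⟨?_, ?_, ?_, hRu, ?_, ?_, ?_⟩, ?_, ?_⟩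
  · have h5 : 16 * (M : ℝ) ^ 2 * (100 / η) ≤ z := by linarith
    have h6 := mul_le_mul_of_nonneg_left h5 (show 0 ≤ η / 100 by positivity)
    refine le_trans (le_of_eq ?_) h6
    field_simp
  · have h5 : (8 * M + 2 : ℝ) ≤ z := by linarith
    exact_mod_cast h5
  · exact_mod_cast hzu.trans g2
  · rw [hT]
    refine Nat.floor_le_of_le ?_
    calc (X : ℝ) ^ (1 / 4 - η / 1000) ≤ (X : ℝ) ^ (1 : ℝ) :=
          Real.rpow_le_rpow_of_exponent_le hXr (by linarith)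
      _ = X := Real.rpow_one _
  · exact hRu.trans (Real.rpow_le_rpow_of_exponent_le hXr (by linarith))
  · rw [hhalf] at hRl
    exact_mod_cast g3.trans hRl
  · have h5 := Real.log_le_log (Real.rpow_pos_of_pos hX0 _) hRl
    rw [Real.log_rpow hX0] at h5
    refine le_trans (le_of_eq ?_) h5
    ring
  · rw [hR, hT]
    exact Nat.floor_mono (Real.rpow_le_rpow_of_exponent_le hXr (by linarith))
  · have h5 := Real.log_le_log (Real.rpow_pos_of_pos hX0 _) hZl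
    rw [Real.log_rpow hX0] at h5
    refine le_trans (le_of_eq ?_) h5
    ring
  · rw [Real.log_mul (by norm_num) hX0.ne']
    have h5 : Real.log 3 ≤ 2 := by
      have := Real.log_le_sub_one_of_pos (show (0 : ℝ) < 3 by norm_num)
      linarith
    have h6 : 2 ≤ η / 100 * l := by
      have h7 : 200 / η ≤ l := by linarith
      have h8 := mul_le_mul_of_nonneg_left h7 (show 0 ≤ η / 100 by positivity)
      refine le_trans (le_of_eq ?_) h8
      field_simp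
      norm_num
    rw [← hl]
    linarith
  · rw [Real.rpow_sub hX0, Real.rpow_one]
    have h5 : 0 < 100 / η * l := by positivity
    calc (X : ℝ) / (X : ℝ) ^ c ≤ X / (100 / η * l) := div_le_div_of_nonneg_left hX0.le h5 g4
      _ = η / 100 * (X / l) := by field_simp

private theorem NT_mu {P : Finset ℕ} {ι : Type} [Fintype ι] [DecidableEq ι] (σ : Col P ι) :
    |mu σ| = 1 := by
  unfold mu
  rw [Finset.abs_prod]
  refine prod_eq_one fun p _ => ?_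
  split_ifs
  · exact abs_one
  · rw [abs_neg, abs_one]

private theorem NT_zz {P : Finset ℕ} {ι : Type} [Fintype ι] [DecidableEq ι] (g : ℕ → ℝ)
    (hg0 : ∀ n, 0 ≤ g n) (hg1 : ∀ n, g n ≤ 1) (R : ℕ) (σ : Col P ι) : |zz g R σ| ≤ 1 := by
  unfold zz
  rw [abs_mul, NT_mu, one_mul]
  unfold yy
  split_ifs
  · rw [abs_of_nonneg (prod_nonneg fun i _ => hg0 _)]
    exact prod_le_one (fun i _ => hg0 _) fun i _ => hg1 _
  · rw [abs_zero]
    exact zero_le_one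

private theorem NT_kap_le (w : ℕ) : kap w ≤ 1 := by
  unfold kap
  refine prod_le_one (fun p hp => ?_) fun p hp => ?_
  · rw [PP, mem_filter] at hp
    have : (2 : ℝ) ≤ p := by exact_mod_cast hp.2.1.two_le
    rw [sub_nonneg, div_le_one (by linarith)]
    linarith
  · have : (0 : ℝ) ≤ 1 / (p : ℝ) := by positivity
    linarith

/-- sums of the weights extended by `0` -/
private theorem NT_sum (I J : Finset ℕ) (hJ : J ⊆ I) (F : ℕ → ℝ) (p : ℕ → Prop) [DecidablePred p] :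
    ∑ x ∈ I.filter p, (if x ∈ J then F x else 0) = ∑ x ∈ J.filter p, F x := by
  rw [← Finset.sum_filter]
  refine Finset.sum_congr ?_ fun _ _ => rfl
  ext x
  simp only [mem_filter]
  constructor
  · rintro ⟨⟨_, h2⟩, h3⟩
    exact ⟨h3, h2⟩
  · rintro ⟨h3, h2⟩
    exact ⟨⟨hJ h3, h2⟩, h3⟩

theorem nt_main (η : ℝ) (hη : 0 < η) (hη1 : η ≤ 1 / 8) : ∃ M₀ : ℕ, ∀ M : ℕ, M₀ ≤ M →
    ∀ B : ℕ, ∃ C X₀ : ℕ, ∀ X : ℕ, X₀ ≤ X → ∀ h : Fin M → ℕ, Function.Injective h →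
    (∀ i, (h i : ℝ) ≤ (Real.log X) ^ B) →
    (∀ p : ℕ, p.Prime → ∃ r : ℕ, ∀ i, ¬ h i ≡ r [MOD p]) →
    ∃ w : ℕ → ℝ, ∃ μ : ℝ, (∀ x, 0 ≤ w x) ∧ 0 < ∑ x ∈ Ioc X (2 * X), w x ∧ 1 / η ≤ M * μ ∧
      (∀ i, (1 - η) * μ * ∑ x ∈ Ioc X (2 * X), w x ≤
        ∑ x ∈ (Ioc X (2 * X)).filter (fun x => (x + h i).Prime), w x) ∧
      (∀ i j, i ≠ j →
        ∑ x ∈ (Ioc X (2 * X)).filter (fun x => (x + h i).Prime ∧ (x + h j).Prime), w x ≤
          (4 + η) * μ ^ 2 * ∑ x ∈ Ioc X (2 * X), w x) ∧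
      ∀ S ⊆ Ioc X (2 * X), (S.card : ℝ) ≤ X / (Real.log X) ^ C →
        ∑ x ∈ S, w x ≤ (∑ x ∈ Ioc X (2 * X), w x) / Real.log X := by
  classical
  obtain ⟨M₀, hM₀⟩ := num (η / 100) (η / 1000 / 2) (by positivity) (by linarith) (by positivity)
  refine ⟨M₀ + 2, fun M hM B => ?_⟩
  obtain ⟨m, rfl⟩ : ∃ m, M = m + 2 := ⟨M - 2, by omega⟩
  obtain ⟨Xn, hnum⟩ := hM₀ (m + 2) (by omega) (B + 1)
  obtain ⟨c, hc, Xs, hs1⟩ := S1u (Fin (m + 2)) (m + 2) (B + 1)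
  obtain ⟨Xo, hone⟩ := one_lo (m + 2) (B + 1) 10 (η / 100) (by positivity) (by linarith)
  obtain ⟨Xp, hpair⟩ := pair_up (m + 2) (B + 1) 10 (η / 1000) (η / 100) (by positivity)
    (by linarith) (by positivity) (by linarith)
  obtain ⟨Xl, hlow⟩ := Om_low (m + 2) (B + 1)
  obtain ⟨Xq, hpar⟩ := NT_param η hη hη1 (m + 2) B c hc
  have : Nonempty (Fin (m + 2)) := ⟨0⟩
  obtain ⟨C₁, X₁, hC₁⟩ := FF_moment (Fin (m + 2))
  obtain ⟨C₂, X₂, hC₂⟩ := prod_col_le (m + 2)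
  refine ⟨C₁ + 4 * C₂ + 8, Xn + Xs + Xo + Xp + Xl + Xq + X₁ + X₂,
    fun X hX h hinj hhB hadm => ?_⟩
  obtain ⟨z, hz⟩ : ∃ z : ℕ, z = ⌊(Real.log X) ^ (B + 1)⌋₊ := ⟨_, rfl⟩
  obtain ⟨R, hR⟩ : ∃ R : ℕ, R = ⌊(X : ℝ) ^ (η / 1000)⌋₊ := ⟨_, rfl⟩
  obtain ⟨T, hT⟩ : ∃ T : ℕ, T = ⌊(X : ℝ) ^ (1 / 4 - η / 1000)⌋₊ := ⟨_, rfl⟩
  obtain ⟨Z, hZ⟩ : ∃ Z : ℕ, Z = ⌊(X : ℝ) ^ (1 / 4 - 2 * (η / 1000))⌋₊ := ⟨_, rfl⟩
  obtain ⟨⟨hX1, hl10, hz16, hz8, hzu, hzX⟩, ⟨hTX, hR5, hR2, hRd, hRl, hRT, hZl⟩, hl3, hXc⟩ :=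
    hpar X (by omega) z R T Z hz hR hT hZ
  obtain ⟨l, hl⟩ : ∃ l : ℝ, l = Real.log X := ⟨_, rfl⟩
  have he : 0 < 100 / η := by positivity
  have hX0 : (0 : ℝ) < X := by exact_mod_cast hX1
  have hl10' : 10 + 100 / η ≤ l := by rw [hl]; exact hl10
  have hl0 : 0 < l := by linarith
  have hl1 : 1 ≤ l := by linarith
  have hhz : ∀ i, h i ≤ z := by
    intro i
    rw [hz]
    refine Nat.le_floor ((hhB i).trans ?_)
    rw [← hl]
    exact pow_le_pow_right₀ hl1 (by omega)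
  have hmod : ∀ p ∈ PP z T, ∀ i j, i ≠ j → ¬ h i ≡ h j [MOD p] := by
    intro p hp i j hij hc'
    rw [PP, mem_filter] at hp
    have h1 : h i = h j :=
      Nat.ModEq.eq_of_lt_of_lt hc' (lt_of_le_of_lt (hhz i) hp.2.2) (lt_of_le_of_lt (hhz j) hp.2.2)
    exact hij (hinj h1)
  obtain ⟨g, hg0, hg1, hga, hgs, hBB, hAA, hBL, hr⟩ := hnum X z T R (by omega) hzu hRl hRT
  have hV1 := hlow X z (by omega) hzu h hadm
  have hS := hs1 X z T R (by omega) (by rw [Fintype.card_fin]; omega) hzu hTX hR5 (Om h)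
    (fun p => by simpa using Om_card h p) (fun p _ => Om_lt h p) h
    (fun i => (hhz i).trans hzX) hmod g hg0 hg1
  rw [Fintype.card_fin] at hS
  obtain ⟨κ, hκ⟩ : ∃ κ : ℝ, κ = kap z := ⟨_, rfl⟩
  have hκ0 : 0 < κ := by rw [hκ]; exact kap_pos z
  have hκ1 : κ ≤ 1 := by rw [hκ]; exact NT_kap_le z
  obtain ⟨V, hV⟩ : ∃ V : ℝ, V = V1 (Om h) z / kap z := ⟨_, rfl⟩
  have hV2 : ∀ i, V2 (Om h) (h i) z = V := by
    intro i
    rw [hV, Om_eq h z i, mul_div_assoc, mul_comm, div_mul_cancel₀ _ (kap_pos z).ne']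
  have hV1e : V1 (Om h) z = κ * V := by
    rw [hV, hκ]
    field_simp [(kap_pos z).ne']
  rw [hV1e] at hS hV1
  obtain ⟨a, ha⟩ : ∃ a : ℝ, a = AA (PP z T) g := ⟨_, rfl⟩
  obtain ⟨b, hb⟩ : ∃ b : ℝ, b = BB (PP z T) g := ⟨_, rfl⟩
  obtain ⟨F, hF⟩ : ∃ F : ℕ → ℝ, F = fun x =>
    (FF h (lam (zz g R : Col (PP z T) (Fin (m + 2)) → ℝ)) x) ^ 2 := ⟨_, rfl⟩
  have hF0 : ∀ x, 0 ≤ F x := fun x => by rw [hF]; exact sq_nonneg _
  have hPre : Pre (Om h) z X ⊆ Ioc X (2 * X) := filter_subset _ _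
  have hPrime : ∀ p ∈ PP z T, p.Prime := by
    intro p hp
    rw [PP, mem_filter] at hp
    exact hp.2.1
  have hlam : ∀ σ : Col (PP z T) (Fin (m + 2)),
      |lam (zz g R : Col (PP z T) (Fin (m + 2)) → ℝ) σ| ≤ l ^ C₂ := by
    intro σ
    have h1 := abs_lam_le (zz g R : Col (PP z T) (Fin (m + 2)) → ℝ)
      (fun τ => NT_zz g hg0 hg1 R τ) σ
    rw [Fintype.card_fin] at h1
    rw [hl]
    exact h1.trans (hC₂ X (by omega) z T hTX)
  have hmom := hC₁ X (by omega) (PP z T) hPrime h (fun i => (hhz i).trans hzX) (l ^ C₂)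
    (lam (zz g R : Col (PP z T) (Fin (m + 2)) → ℝ)) (by positivity) hlam
  obtain ⟨W, hW⟩ : ∃ W : ℝ, W = ∑ x ∈ Pre (Om h) z X, F x := ⟨_, rfl⟩
  have hS' : W ≤ X * (κ * V) * b ^ (m + 2) + (X : ℝ) ^ (1 - c) := by
    rw [hW, hb, hF]
    exact hS
  obtain ⟨Q, hQ⟩ : ∃ Q : Fin (m + 2) → ℝ, Q = fun i =>
    ∑ x ∈ (Pre (Om h) z X).filter (fun x => (x + h i).Prime), F x := ⟨_, rfl⟩
  obtain ⟨Q2, hQ2⟩ : ∃ Q2 : Fin (m + 2) → Fin (m + 2) → ℝ, Q2 = fun i j =>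
    ∑ x ∈ (Pre (Om h) z X).filter (fun x => (x + h i).Prime ∧ (x + h j).Prime), F x := ⟨_, rfl⟩
  have hup : ∀ i, ∑ x ∈ Pre (Om h) z X, BV.th (x + h i) * F x ≤ (1 + η / 100) * l * Q i := by
    intro i
    rw [hQ]
    simp only
    rw [Finset.mul_sum, Finset.sum_filter]
    refine Finset.sum_le_sum fun x hx => ?_
    have hx' := mem_Ioc.1 (hPre hx)
    unfold BV.th
    split_ifs with hp
    · refine mul_le_mul_of_nonneg_right ?_ (hF0 x)
      rw [hl]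
      refine le_trans (Real.log_le_log ?_ ?_) hl3
      · exact_mod_cast hp.pos
      · have h1 : x + h i ≤ 3 * X := by
          have := hhz i
          omega
        exact_mod_cast h1
    · rw [zero_mul]
  have hlo : ∀ i j, l * Q2 i j ≤
      ∑ x ∈ (Pre (Om h) z X).filter (fun x => (x + h i).Prime), BV.th (x + h j) * F x := by
    intro i j
    rw [hQ2]
    simp only
    rw [Finset.mul_sum, ← Finset.filter_filter, Finset.sum_filter (fun x => (x + h j).Prime)]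
    refine Finset.sum_le_sum fun x hx => ?_
    have hx' := mem_Ioc.1 (hPre (mem_filter.1 hx).1)
    unfold BV.th
    split_ifs with hp
    · refine mul_le_mul_of_nonneg_right ?_ (hF0 x)
      rw [hl]
      refine Real.log_le_log hX0 ?_
      exact_mod_cast (by omega : X ≤ x + h j)
    · rw [zero_mul]
  have ha1 : 1 ≤ a := by rw [ha]; exact hAA
  have hb1 : 1 ≤ b := by rw [hb]; exact hBB
  rw [← hl] at hV1 hZl hXc
  have hV0 : 0 < V := by
    have h1 : 0 < κ * V := lt_of_lt_of_le (by positivity) hV1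
    exact pos_of_mul_pos_right h1 hκ0.le
  have hVl : 1 / l ≤ V := hV1.trans (mul_le_of_le_one_left hV0.le hκ1)
  have hXl : 0 < X / l := by positivity
  -- the main term
  obtain ⟨L, hL⟩ : ∃ L : ℝ, L = X * V * (a ^ 2 * b ^ (m + 1)) := ⟨_, rfl⟩
  have hLl : X / l ≤ L := by
    have h1 : 1 ≤ a ^ 2 * b ^ (m + 1) :=
      one_le_mul_of_one_le_of_one_le (one_le_pow₀ ha1) (one_le_pow₀ hb1)
    calc X / l = X * (1 / l) := by ring
      _ ≤ X * V := mul_le_mul_of_nonneg_left hVl hX0.le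
      _ ≤ X * V * (a ^ 2 * b ^ (m + 1)) := le_mul_of_one_le_right (by positivity) h1
      _ = L := hL.symm
  have hl9 : 100 / η ≤ l ^ 8 := by
    calc 100 / η ≤ l := by linarith
      _ = l ^ 1 := (pow_one l).symm
      _ ≤ l ^ 8 := pow_le_pow_right₀ hl1 (by norm_num)
  have hE1 : X / l ^ 10 * l ≤ η / 100 * (X / l) := by
    have h1 : X / l ^ 10 * l = X / l * (1 / l ^ 8) := by
      field_simp
    rw [h1, mul_comm (η / 100)]
    refine mul_le_mul_of_nonneg_left ?_ hXl.le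
    rw [div_le_iff₀ (by positivity)]
    have h2 := mul_le_mul_of_nonneg_left hl9 (show 0 ≤ η / 100 by positivity)
    refine le_trans (le_of_eq ?_) h2
    field_simp
  have hE0 : X / l ^ 10 ≤ η / 100 * (X / l) := by
    refine le_trans ?_ hE1
    exact le_mul_of_one_le_right (by positivity) hl1
  have hWu : W ≤ (1 + η / 100) * (X * (κ * V) * b ^ (m + 2)) := by
    have h1 : X / l ≤ X * (κ * V) * b ^ (m + 2) := by
      calc X / l = X * (1 / l) := by ring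
        _ ≤ X * (κ * V) := mul_le_mul_of_nonneg_left hV1 hX0.le
        _ ≤ X * (κ * V) * b ^ (m + 2) := le_mul_of_one_le_right (by positivity) (one_le_pow₀ hb1)
    have h2 := mul_le_mul_of_nonneg_left h1 (show 0 ≤ η / 100 by positivity)
    linarith
  -- first moments
  have hQl : ∀ i, (1 - 5 * (η / 100)) * L ≤ (1 + η / 100) * l * Q i := by
    intro i
    have h1 := hone X z R T (by omega) hz16 hzu hTX hR5 hR2 h hinj hhz i g hg0 hg1 hga hgs hBL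
    rw [hV2 i, ← ha, ← hb, ← hl] at h1
    have h0 := hup i
    rw [hF] at h0
    have h2 := h1.trans h0
    rw [show m + 2 - 1 = m + 1 from rfl, ← hL] at h2
    have h3 : X / l ^ 10 ≤ η / 100 * L :=
      hE0.trans (mul_le_mul_of_nonneg_left hLl (by positivity))
    linarith
  have hQW : ∀ i, Q i ≤ W := by
    intro i
    rw [hQ, hW]
    exact Finset.sum_le_sum_of_subset_of_nonneg (filter_subset _ _) (fun x _ _ => hF0 x)
  have hL0 : 0 < L := lt_of_lt_of_le hXl hLl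
  have hQ0 : 1 / 2 * (X / l) ≤ l * Q 0 := by
    have h1 := hQl 0
    have h2 : (1 + η / 100) * (1 / 2 * L) ≤ (1 - 5 * (η / 100)) * L := by
      have h5 : (1 + η / 100) * (1 / 2) ≤ 1 - 5 * (η / 100) := by linarith
      have h6 := mul_le_mul_of_nonneg_right h5 hL0.le
      linarith
    have h3 : (1 + η / 100) * (1 / 2 * L) ≤ (1 + η / 100) * (l * Q 0) := by linarith
    have h4 := le_of_mul_le_mul_left h3 (by positivity)
    linarith
  have hWl : X / l ^ 3 ≤ W := by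
    have h1 : 1 / 2 * (X / l) ≤ l * W := hQ0.trans (mul_le_mul_of_nonneg_left (hQW 0) hl0.le)
    have h2 : X / l ^ 3 * l ≤ l * W := by
      refine le_trans ?_ h1
      have h3 : X / l ^ 3 * l = X / l * (1 / l) := by field_simp
      rw [h3, mul_comm]
      refine mul_le_mul_of_nonneg_right ?_ hXl.le
      exact one_div_le_one_div_of_le (by norm_num) (by linarith)
    rw [mul_comm] at h2
    exact le_of_mul_le_mul_left h2 hl0
  have hW0 : 0 < W := lt_of_lt_of_le (by positivity) hWl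
  have hWs : ∑ x ∈ Ioc X (2 * X), (if x ∈ Pre (Om h) z X then F x else 0) = W := by
    rw [← Finset.sum_filter, Finset.filter_mem_eq_inter, Finset.inter_eq_right.2 hPre, hW]
  refine ⟨fun x => if x ∈ Pre (Om h) z X then F x else 0, L / (W * l), ?_, ?_, ?_, ?_, ?_, ?_⟩
  · intro x
    simp only
    split_ifs
    · exact hF0 x
    · exact le_rfl
  · rw [hWs]
    exact hW0
  · rw [hL]
    refine NT_c η W X V κ a b l _ m hη hη1 hX0 hV0 hκ0 (by linarith) (by linarith) hl0 hW0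
      (by positivity) hWu ?_
    rw [ha, hb, hκ, hl]
    exact hr
  · intro i
    rw [hWs, NT_sum (Ioc X (2 * X)) _ hPre F (fun x => (x + h i).Prime)]
    have h1 : Q i = ∑ x ∈ (Pre (Om h) z X).filter (fun x => (x + h i).Prime), F x := by rw [hQ]
    rw [← h1]
    exact NT_a η W L l (Q i) hη hL0 hl0 hW0 (hQl i)
  · intro i j hij
    rw [hWs, NT_sum (Ioc X (2 * X)) _ hPre F (fun x => (x + h i).Prime ∧ (x + h j).Prime)]
    have h1 : Q2 i j = ∑ x ∈ (Pre (Om h) z X).filter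
        (fun x => (x + h i).Prime ∧ (x + h j).Prime), F x := by rw [hQ2]
    rw [← h1, hL]
    refine NT_b η W X V κ a b l (Real.log Z) (Q2 i j) (X / l ^ 10) m hη hη1 hX0 hV0 hκ0
      (by linarith) (by linarith) hl0 hW0 hWu hZl ?_ ?_
    · have h2 := hpair X z R Z T (by omega) hz16 hz8 hzu (by omega) hRd hT hZ h hinj hhz i j hij g
        hg0 hg1 hga hAA
      rw [hV2 j, ← ha, ← hb, ← hl, ← hκ] at h2
      have h3 := hlo i j
      rw [hF] at h3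
      exact h3.trans h2
    · refine hE1.trans (mul_le_mul_of_nonneg_left ?_ (by positivity))
      have h4 : 1 ≤ a ^ 4 * b ^ m :=
        one_le_mul_of_one_le_of_one_le (one_le_pow₀ ha1) (one_le_pow₀ hb1)
      calc X / l = X * (1 / l) := by ring
        _ ≤ X * V := mul_le_mul_of_nonneg_left hVl hX0.le
        _ ≤ X * V * (a ^ 4 * b ^ m) := le_mul_of_one_le_right (by positivity) h4
        _ ≤ X * V * (a ^ 4 * b ^ m) / κ := by
          rw [le_div_iff₀ hκ0]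
          exact mul_le_of_le_one_right (by positivity) hκ1
  · intro S hSI hSc
    rw [hWs, ← hl]
    rw [← hl] at hSc hmom
    have h1 : (∑ x ∈ S, (if x ∈ Pre (Om h) z X then F x else 0)) ^ 2 ≤
        S.card * ∑ x ∈ S, (if x ∈ Pre (Om h) z X then F x else 0) ^ 2 :=
      sq_sum_le_card_mul_sum_sq
    have h2 : ∑ x ∈ S, (if x ∈ Pre (Om h) z X then F x else 0) ^ 2 ≤
        (l ^ C₂) ^ 4 * X * l ^ C₁ := by
      refine le_trans ?_ hmom
      refine le_trans (Finset.sum_le_sum (g := fun x => (FF h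
        (lam (zz g R : Col (PP z T) (Fin (m + 2)) → ℝ)) x) ^ 4) fun x _ => ?_)
        (Finset.sum_le_sum_of_subset_of_nonneg hSI fun x _ _ => by positivity)
      split_ifs
      · rw [hF]
        simp only
        rw [← pow_mul]
      · rw [zero_pow (by norm_num)]
        positivity
    have h3 : (∑ x ∈ S, (if x ∈ Pre (Om h) z X then F x else 0)) ^ 2 ≤ (X / l ^ 4) ^ 2 := by
      refine h1.trans ((mul_le_mul hSc h2 (Finset.sum_nonneg fun x _ => sq_nonneg _)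
        (by positivity)).trans (le_of_eq ?_))
      rw [pow_add, pow_add]
      field_simp
      ring
    have h4 : ∑ x ∈ S, (if x ∈ Pre (Om h) z X then F x else 0) ≤ X / l ^ 4 :=
      le_of_sq_le_sq h3 (by positivity)
    refine h4.trans ?_
    rw [le_div_iff₀ hl0]
    refine le_trans (le_of_eq ?_) hWl
    field_simp

end Pool.Agent.Lib.MP_092512_nt.FP
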