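import Pool.Agent.Lib.MP_092512_nt.FP.AmatAdd

/-!
# F_P, Pst: the Selberg coefficients for the colour `l` on top of given coefficients

PROOF.  For `ρ` avoiding `m` let `ρ'` be `ρ` with the colour `l` erased (`ρ' p = none` if `ρ p = some l`) and `s = part l ρ`.
`u ρ = (-1)^(card s) * V ρ' / Gr Z ρ'` if `pr s ≤ Z`, `0` if `pr s > Z`; `u ρ = 0` if `ρ` uses `m`.
The colourings avoiding `m` correspond to the pairs `(ρ', s)`, `ρ'` avoiding `l` and `m`, `s` a set of primes of `P` not coloured by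
`ρ'` (the same bijection, with a new colour `none` for `l`, is used in Lib/MT/Star.lean).
(1) `1 ≤ Gr Z ρ'` (term `s = ∅`, all terms are `≥ 0`), so `|u ρ| ≤ |V ρ'| ≤ B`.
(2) `u ρ ≠ 0`: `V ρ' ≠ 0`, so `tot ρ = tot ρ' * pr s ≤ R * Z`.
(3) With `d p j = -1/(p-1)` for `j = l`, `0` else, `-(q2 m p j) = -(ql l m p j) + d p j`, so by `AL_AL`
`AL (-q2 m) u σ = AL (-ql) (AL d u) σ`, and by `AL_avd` it is enough that `AL d u ρ' = V ρ'` for `ρ'` avoiding `l`, `m`:
`AL d u ρ' = ∑_s (∏_{p ∈ s} (-1/(p-1))) u (ρ' + s) = ∑_{pr s ≤ Z} phs s * V ρ' / Gr Z ρ' = V ρ'`.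
(4) `∏_p Dm (q2 m p) 1 (ρ p)` is `0` if `ρ` uses `m` and `(∏_{p coloured by ρ'} 1/(p-1)) * phs s` else; so the sum is
`∑_{ρ'} (∏ ..) V(ρ')^2/Gr^2 * ∑_{pr s ≤ Z} phs s = ∑_{ρ'} (∏ ..) V(ρ')^2/Gr`.
-/

set_option autoImplicit false

open Finset

namespace Pool.Agent.Lib.MP_092512_nt.FP

open Pool.Agent.Lib.MT

variable {P : Finset ℕ} {ι : Type} [Fintype ι] [DecidableEq ι]

/-- the uncoloured primes -/
private def pst_unc (ρ : Col P ι) : Finset ℕ := P.filter (fun p => ∀ i, p ∉ part i ρ)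

private lemma pst_unc_sub (ρ : Col P ι) : pst_unc ρ ⊆ P := filter_subset _ _

private lemma pst_unc_none (ρ : Col P ι) (s : Finset ℕ) (hs : s ⊆ pst_unc ρ)
    (p : {p : ℕ // p ∈ P}) (hp : (p : ℕ) ∈ s) : ρ p = none := by
  have h1 := hs hp
  rw [pst_unc, mem_filter] at h1
  cases h : ρ p with
  | none => rfl
  | some i =>
    exfalso
    exact h1.2 i ((mem_part i ρ p).2 ⟨p.2, h⟩)

/-- the colouring `ρ`, with the new colour `l` on `s` -/
private def pst_cb (l : ι) (ρ : Col P ι) (s : Finset ℕ) : Col P ι := fun p =>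
  match ρ p with
  | some i => some i
  | none => if (p : ℕ) ∈ s then some l else none

/-- the colouring without the colour `l` -/
private def pst_er (l : ι) (τ : Col P ι) : Col P ι := fun p => if τ p = some l then none else τ p

private lemma pst_mem (l : ι) (τ : Col P ι) (p : {p : ℕ // p ∈ P}) :
    ((p : ℕ) ∈ part l τ) ↔ τ p = some l := by
  rw [mem_part]
  constructor
  · rintro ⟨_, h⟩; exact h
  · intro h; exact ⟨p.2, h⟩

private lemma pst_cb_er (l : ι) (τ : Col P ι) : pst_cb l (pst_er l τ) (part l τ) = τ := by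
  funext p
  by_cases h : τ p = some l
  · simp [pst_cb, pst_er, h, pst_mem]
  · cases h2 : τ p with
    | none => simp [pst_cb, pst_er, h2, pst_mem]
    | some i =>
      rw [h2] at h
      simp only [pst_cb, pst_er, h2, if_neg h]

private lemma pst_er_cb (l : ι) (ρ : Col P ι) (hρ : ∀ p, ρ p ≠ some l) (s : Finset ℕ) :
    pst_er l (pst_cb l ρ s) = ρ := by
  funext p
  have h1 := hρ p
  cases h : ρ p with
  | some i =>
    rw [h] at h1
    simp only [pst_cb, pst_er, h, if_neg h1]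
  | none =>
    by_cases hs : (p : ℕ) ∈ s
    · simp [pst_cb, pst_er, h, hs]
    · simp [pst_cb, pst_er, h, hs]

private lemma pst_er_ne (l : ι) (τ : Col P ι) (p : {p : ℕ // p ∈ P}) : pst_er l τ p ≠ some l := by
  unfold pst_er
  by_cases h : τ p = some l
  · simp [h]
  · rw [if_neg h]
    exact h

private lemma pst_part_cb (l : ι) (ρ : Col P ι) (hρ : ∀ p, ρ p ≠ some l) (s : Finset ℕ)
    (hs : s ⊆ pst_unc ρ) : part l (pst_cb l ρ s) = s := by
  ext p
  rw [mem_part]
  constructor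
  · rintro ⟨hp, h⟩
    by_contra hns
    cases hr : ρ ⟨p, hp⟩ with
    | some i =>
      have h2 : pst_cb l ρ s ⟨p, hp⟩ = some i := by simp only [pst_cb, hr]
      rw [h2] at h
      exact hρ ⟨p, hp⟩ (hr.trans h)
    | none => simp [pst_cb, hr, hns] at h
  · intro h
    have hp : p ∈ P := (mem_filter.1 (hs h)).1
    refine ⟨hp, ?_⟩
    have := pst_unc_none ρ s hs ⟨p, hp⟩ h
    simp [pst_cb, this, h]

private lemma pst_part_sub (l : ι) (τ : Col P ι) : part l τ ⊆ pst_unc (pst_er l τ) := by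
  intro p hp
  rw [mem_part] at hp
  obtain ⟨hp, h⟩ := hp
  rw [pst_unc, mem_filter]
  refine ⟨hp, fun i hi => ?_⟩
  rw [mem_part] at hi
  obtain ⟨_, h2⟩ := hi
  simp [pst_er, h] at h2

private lemma pst_sum (l : ι) (f : Col P ι → ℝ) :
    ∑ τ : Col P ι, f τ = ∑ ρ ∈ univ.filter (fun ρ : Col P ι => ∀ p, ρ p ≠ some l),
      ∑ s ∈ (pst_unc ρ).powerset, f (pst_cb l ρ s) := by
  rw [Finset.sum_sigma']
  refine Finset.sum_bij' (fun τ _ => ⟨pst_er l τ, part l τ⟩) (fun q _ => pst_cb l q.1 q.2)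
    ?_ ?_ ?_ ?_ ?_
  · intro τ _
    rw [mem_sigma]
    refine ⟨?_, mem_powerset.2 (pst_part_sub l τ)⟩
    rw [mem_filter]
    exact ⟨mem_univ _, pst_er_ne l τ⟩
  · intro q _
    exact mem_univ _
  · intro τ _
    exact pst_cb_er l τ
  · rintro ⟨ρ, s⟩ hq
    rw [mem_sigma] at hq
    have h1 : s ⊆ pst_unc ρ := mem_powerset.1 hq.2
    have h2 : ∀ p, ρ p ≠ some l := (mem_filter.1 hq.1).2
    simp only
    rw [pst_er_cb l ρ h2, pst_part_cb l ρ h2 s h1]
  · intro τ _
    simp only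
    rw [pst_cb_er]

private lemma pst_prod_s (s : Finset ℕ) (hs : s ⊆ P) {M : Type} [CommMonoid M] (f : ℕ → M) :
    ∏ p : {p : ℕ // p ∈ P}, (if (p : ℕ) ∈ s then f p else 1) = ∏ p ∈ s, f p := by
  have h1 : ∏ p : {p : ℕ // p ∈ P}, (if (p : ℕ) ∈ s then f p else 1) =
      ∏ p ∈ P, (if p ∈ s then f p else 1) :=
    Finset.prod_coe_sort P (fun p => if p ∈ s then f p else 1)
  rw [h1, Finset.prod_ite_mem, Finset.inter_eq_right.2 hs]

private lemma pst_tot (l : ι) (ρ : Col P ι) (s : Finset ℕ) (hs : s ⊆ pst_unc ρ) :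
    tot (pst_cb l ρ s) = tot ρ * pr s := by
  rw [pr, ← pst_prod_s s (hs.trans (pst_unc_sub ρ)) (fun p => p), tot, tot,
    ← Finset.prod_mul_distrib]
  refine Finset.prod_congr rfl fun p _ => ?_
  by_cases hp : (p : ℕ) ∈ s
  · have h := pst_unc_none ρ s hs p hp
    simp [pst_cb, h, hp]
  · cases h : ρ p with
    | some i => simp [pst_cb, h, hp]
    | none => simp [pst_cb, h, hp]

private lemma pst_phs (hP : ∀ p ∈ P, p.Prime) (s : Finset ℕ) (hs : s ⊆ P) : 0 ≤ phs s := by
  unfold phs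
  refine Finset.prod_nonneg fun p hp => ?_
  have h2 : (2 : ℝ) ≤ p := by exact_mod_cast (hP p (hs hp)).two_le
  exact div_nonneg zero_le_one (by linarith)

private lemma pst_Gr (hP : ∀ p ∈ P, p.Prime) (Z : ℕ) (hZ : 1 ≤ Z) (ρ : Col P ι) : 1 ≤ Gr Z ρ := by
  have h1 : (∅ : Finset ℕ) ∈ (P.filter (fun p => ∀ i, p ∉ part i ρ)).powerset.filter
      (fun s => pr s ≤ Z) := by
    rw [mem_filter, mem_powerset]
    exact ⟨empty_subset _, by simpa [pr] using hZ⟩
  have h2 := Finset.single_le_sum (f := fun s => phs s) (fun s hs => by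
    rw [mem_filter, mem_powerset] at hs
    exact pst_phs hP s (hs.1.trans (pst_unc_sub ρ))) h1
  simpa [phs, Gr] using h2

/-- the sum over the sets of uncoloured primes -/
private lemma pst_sumZ (Z : ℕ) (ρ : Col P ι) (a : ℝ) :
    ∑ s ∈ (pst_unc ρ).powerset, a * (if pr s ≤ Z then phs s else 0) = a * Gr Z ρ := by
  rw [← Finset.mul_sum, ← Finset.sum_filter]
  rfl

open Classical in
/-- the coefficients -/
private noncomputable def pst_u (l m : ι) (Z : ℕ) (V : Col P ι → ℝ) (τ : Col P ι) : ℝ :=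
  if (∀ p, τ p ≠ some m) ∧ pr (part l τ) ≤ Z then
    (∏ _p ∈ part l τ, (-1 : ℝ)) * (V (pst_er l τ) / Gr Z (pst_er l τ)) else 0

private lemma pst_avd {l m : ι} {τ : Col P ι} (h : ∀ p, τ p ≠ some m) : Avd l m (pst_er l τ) := by
  intro p
  refine ⟨pst_er_ne l τ p, ?_⟩
  unfold pst_er
  by_cases h2 : τ p = some l
  · simp [h2]
  · rw [if_neg h2]
    exact h p

private lemma pst_u_cb (l m : ι) (hlm : l ≠ m) (Z : ℕ) (V : Col P ι → ℝ) (ρ : Col P ι)
    (hρ : Avd l m ρ) (s : Finset ℕ) (hs : s ⊆ pst_unc ρ) :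
    pst_u l m Z V (pst_cb l ρ s) =
      (∏ _p ∈ s, (-1 : ℝ)) * (if pr s ≤ Z then V ρ / Gr Z ρ else 0) := by
  have hl : ∀ p, ρ p ≠ some l := fun p => (hρ p).1
  have hm : ∀ p, pst_cb l ρ s p ≠ some m := by
    intro p
    have h1 := (hρ p).2
    cases h : ρ p with
    | some i =>
      rw [h] at h1
      simp only [pst_cb, h]
      exact h1
    | none =>
      by_cases hs : (p : ℕ) ∈ s
      · simp only [pst_cb, h, if_pos hs]
        intro h2
        exact hlm (Option.some.inj h2)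
      · simp [pst_cb, h, hs]
  unfold pst_u
  rw [pst_er_cb l ρ hl, pst_part_cb l ρ hl s hs]
  by_cases h : pr s ≤ Z
  · rw [if_pos ⟨hm, h⟩, if_pos h]
  · rw [if_neg fun h2 => h h2.2, if_neg h, mul_zero]

private lemma pst_u_cb0 (l m : ι) (Z : ℕ) (V : Col P ι → ℝ) (ρ : Col P ι)
    (hl : ∀ p, ρ p ≠ some l) (hρ : ¬ Avd l m ρ) (s : Finset ℕ) :
    pst_u l m Z V (pst_cb l ρ s) = 0 := by
  unfold pst_u
  refine if_neg fun h => hρ fun p => ⟨hl p, fun h2 => h.1 p ?_⟩
  simp only [pst_cb, h2]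

open Classical in
theorem pst (hP : ∀ p ∈ P, p.Prime) (l m : ι) (hlm : l ≠ m) (R Z : ℕ) (hZ : 1 ≤ Z)
    (V : Col P ι → ℝ) (B : ℝ) (hB0 : 0 ≤ B) (hB : ∀ ρ, Avd l m ρ → |V ρ| ≤ B)
    (hV : ∀ ρ, Avd l m ρ → V ρ ≠ 0 → tot ρ ≤ R) :
    ∃ u : Col P ι → ℝ, (∀ ρ, |u ρ| ≤ B) ∧ (∀ ρ, u ρ ≠ 0 → tot ρ ≤ R * Z) ∧
      (∀ σ, Avd l m σ → AL (fun p j => -(q2 m p j)) u σ = AL (fun p j => -(ql l m p j)) V σ) ∧
      ∑ ρ : Col P ι, (∏ p : {p : ℕ // p ∈ P}, Dm (q2 m p) 1 (ρ p)) * u ρ ^ 2 ≤
        ∑ ρ ∈ univ.filter (fun ρ : Col P ι => Avd l m ρ),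
          (∏ p : {p : ℕ // p ∈ P}, (if ρ p = none then (1 : ℝ) else 1 / (((p : ℕ) : ℝ) - 1))) *
            (V ρ ^ 2 / Gr Z ρ) := by
  refine ⟨pst_u l m Z V, ?_, ?_, ?_, ?_⟩
  · intro τ
    unfold pst_u
    split_ifs with h
    · have h1 := pst_Gr hP Z hZ (pst_er l τ)
      rw [abs_mul, Finset.abs_prod, Finset.prod_eq_one (fun p _ => by simp), one_mul, abs_div,
        abs_of_pos (show 0 < Gr Z (pst_er l τ) by linarith)]
      exact (div_le_self (abs_nonneg _) h1).trans (hB _ (pst_avd h.1))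
    · rw [abs_zero]
      exact hB0
  · intro τ hτ
    unfold pst_u at hτ
    split_ifs at hτ with h
    · have h1 : V (pst_er l τ) ≠ 0 := by
        intro h2
        rw [h2] at hτ
        simp at hτ
      have h2 := pst_tot l (pst_er l τ) (part l τ) (pst_part_sub l τ)
      rw [pst_cb_er] at h2
      rw [h2]
      exact Nat.mul_le_mul (hV _ (pst_avd h.1) h1) h.2
    · exact absurd rfl hτ
  · intro σ hσ
    set d : {p : ℕ // p ∈ P} → ι → ℝ := fun p j => if j = l then -(1 / (((p : ℕ) : ℝ) - 1)) else 0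
      with hd
    have h1 : (fun (p : {p : ℕ // p ∈ P}) (j : ι) => -(q2 m p j)) =
        fun p j => -(ql l m p j) + d p j := by
      funext p j
      rw [q2, ql, hd]
      by_cases hj : j = m
      · have hjl : ¬ j = l := fun h => hlm (h.symm.trans hj)
        simp only [if_pos hj, if_pos (Or.inr hj), if_neg hjl]
        ring
      · by_cases hjl : j = l
        · simp only [if_neg hj, if_pos (Or.inl hjl), if_pos hjl]
          ring
        · have : ¬ (j = l ∨ j = m) := fun h => h.elim hjl hj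
          simp only [if_neg hj, if_neg this, if_neg hjl]
          ring
    rw [h1, ← AL_AL]
    refine AL_avd _ l m (fun p => ⟨?_, ?_⟩) _ _ ?_ σ hσ
    · rw [ql, if_pos (Or.inl rfl), neg_zero]
    · rw [ql, if_pos (Or.inr rfl), neg_zero]
    intro ρ hρ
    have hGr := pst_Gr hP Z hZ ρ
    have hl : ∀ p, ρ p ≠ some l := fun p => (hρ p).1
    unfold AL
    rw [pst_sum l, Finset.sum_eq_single ρ]
    · have h2 : ∀ s ∈ (pst_unc ρ).powerset,
          (∏ p : {p : ℕ // p ∈ P}, Amat (d p) (ρ p) (pst_cb l ρ s p)) *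
            pst_u l m Z V (pst_cb l ρ s) =
          (V ρ / Gr Z ρ) * (if pr s ≤ Z then phs s else 0) := by
        intro s hs
        rw [mem_powerset] at hs
        rw [pst_u_cb l m hlm Z V ρ hρ s hs]
        have h3 : ∏ p : {p : ℕ // p ∈ P}, Amat (d p) (ρ p) (pst_cb l ρ s p) =
            ∏ p ∈ s, (-(1 / ((p : ℝ) - 1))) := by
          rw [← pst_prod_s s (hs.trans (pst_unc_sub ρ)) (fun p => (-(1 / ((p : ℝ) - 1))))]
          refine Finset.prod_congr rfl fun p _ => ?_
          by_cases hp : (p : ℕ) ∈ s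
          · have h := pst_unc_none ρ s hs p hp
            simp [pst_cb, h, hp, Amat, hd]
          · cases h : ρ p with
            | some i => simp [pst_cb, h, hp, Amat]
            | none => simp [pst_cb, h, hp, Amat]
        have h4 : (∏ p ∈ s, (-(1 / ((p : ℝ) - 1)))) * (∏ _p ∈ s, (-1 : ℝ)) = phs s := by
          rw [← Finset.prod_mul_distrib, phs]
          refine Finset.prod_congr rfl fun p _ => ?_
          ring
        rw [h3, ← mul_assoc, h4]
        split_ifs
        · ring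
        · ring
      rw [Finset.sum_congr rfl h2, pst_sumZ, div_mul_cancel₀]
      linarith
    · intro ρ' hρ' hne
      rw [mem_filter] at hρ'
      refine Finset.sum_eq_zero fun s _ => ?_
      have h2 : ∃ p, ρ' p ≠ ρ p := by
        by_contra hcon
        push Not at hcon
        exact hne (funext hcon)
      obtain ⟨p, hp⟩ := h2
      rw [Finset.prod_eq_zero (Finset.mem_univ p), zero_mul]
      have h5 := hρ'.2 p
      have h6 := hl p
      cases h : ρ' p with
      | none =>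
        cases h3 : ρ p with
        | none =>
          rw [h, h3] at hp
          exact absurd rfl hp
        | some i =>
          rw [h3] at h6
          have h7 : i ≠ l := fun h => h6 (by rw [h])
          by_cases hs : (p : ℕ) ∈ s
          · simp [pst_cb, h, hs, Amat, h7]
          · simp [pst_cb, h, hs, Amat]
      | some j =>
        rw [h] at h5
        have h7 : j ≠ l := fun h => h5 (by rw [h])
        cases h3 : ρ p with
        | none => simp [pst_cb, h, Amat, hd, h7]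
        | some i =>
          rw [h, h3] at hp
          have h8 : i ≠ j := fun h => hp (by rw [h])
          simp [pst_cb, h, Amat, h8]
    · intro h
      exact absurd (mem_filter.2 ⟨mem_univ _, hl⟩) h
  · rw [pst_sum l]
    have hsub : univ.filter (fun ρ : Col P ι => Avd l m ρ) ⊆
        univ.filter (fun ρ : Col P ι => ∀ p, ρ p ≠ some l) := by
      intro ρ hρ
      rw [mem_filter] at hρ ⊢
      exact ⟨hρ.1, fun p => (hρ.2 p).1⟩
    rw [← Finset.sum_subset hsub]
    · refine Finset.sum_le_sum fun ρ hρ => le_of_eq ?_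
      have hρ2 : Avd l m ρ := (mem_filter.1 hρ).2
      have hGr := pst_Gr hP Z hZ ρ
      have hG0 : Gr Z ρ ≠ 0 := by linarith
      set W : ℝ := ∏ p : {p : ℕ // p ∈ P}, (if ρ p = none then (1 : ℝ) else
        1 / (((p : ℕ) : ℝ) - 1)) with hW
      have h2 : ∀ s ∈ (pst_unc ρ).powerset,
          (∏ p : {p : ℕ // p ∈ P}, Dm (q2 m p) 1 (pst_cb l ρ s p)) *
            pst_u l m Z V (pst_cb l ρ s) ^ 2 =
          (W * (V ρ ^ 2 / Gr Z ρ ^ 2)) * (if pr s ≤ Z then phs s else 0) := by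
        intro s hs
        rw [mem_powerset] at hs
        rw [pst_u_cb l m hlm Z V ρ hρ2 s hs]
        have h3 : ∏ p : {p : ℕ // p ∈ P}, Dm (q2 m p) 1 (pst_cb l ρ s p) = W * phs s := by
          rw [phs, ← pst_prod_s s (hs.trans (pst_unc_sub ρ)) (fun p => (1 / ((p : ℝ) - 1))), hW,
            ← Finset.prod_mul_distrib]
          refine Finset.prod_congr rfl fun p _ => ?_
          by_cases hp : (p : ℕ) ∈ s
          · have h := pst_unc_none ρ s hs p hp
            simp [pst_cb, h, hp, Dm, q2, hlm]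
          · cases h : ρ p with
            | some i =>
              have h9 : i ≠ m := fun h' => (hρ2 p).2 (by rw [h, h'])
              simp [pst_cb, h, hp, Dm, q2, h9]
            | none => simp [pst_cb, h, hp, Dm]
        have h4 : (∏ _p ∈ s, (-1 : ℝ)) ^ 2 = 1 := by
          rw [Finset.prod_const, ← pow_mul, mul_comm, pow_mul]
          simp
        rw [h3, mul_pow, h4, one_mul]
        split_ifs
        · rw [div_pow]
          ring
        · ring
      rw [Finset.sum_congr rfl h2, pst_sumZ]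
      field_simp
    · intro ρ hρ hρ2
      refine Finset.sum_eq_zero fun s _ => ?_
      rw [pst_u_cb0 l m Z V ρ (mem_filter.1 hρ).2 (fun h => hρ2 (mem_filter.2 ⟨mem_univ _, h⟩)) s]
      ring

end Pool.Agent.Lib.MP_092512_nt.FP
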