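import Pool.Agent.Lib.MP_092512_nt.FP.S2lu
import Pool.Agent.Lib.MP_092512_nt.FP.FFeq
import Pool.Agent.Lib.MP_092512_nt.FP.Pst
import Pool.Agent.Lib.MP_092512_nt.FP.Cost
import Pool.Agent.Lib.MP_092512_nt.FP.OmL
import Pool.Agent.Lib.MP_092512_nt.FP.ThetaA

/-!
# F_P, PairUp: two primes `x + h l`, `x + h m`, upper bound

PROOF.  `V = AL (el l m) (zz g R)`; `-(ql) + el = -1/p`, so `lam (zz g R) = AL (-ql) V` (`lam_AL`, `AL_AL`).  `|V ρ| ≤ 2 AA^2 =: T₀` for `ρ` avoiding `l`, `m`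
(`V_le`, `g ≤ 1`, `2M ≤ z`), `V ρ ≠ 0 → tot ρ ≤ R` (`V_supp`).  `pst` gives `u`, `|u| ≤ T₀`, support `tot ≤ R * Z ≤ T`
(`R Z ≤ X^δ X^(1/4-2δ)`), with `AL (-q2 m) u = lam (zz g R)` on the colourings avoiding `l`, `m`.  For `X < x` with `x + h l` and `x + h m` prime no prime of
`P` (`≤ T ≤ X`) divides them, so the two `FF` agree (`FF_eq`); if `x + h m` is not prime the term is `0` (`BV.th = 0`).  So the sum is at most
`∑_{x ∈ Pre} th (x + h m) FF h (AL (-q2 m) u) x ^2 = T₀^2 ∑ .. (u/T₀)` (`AL`, `FF` are linear in `L`) and `S2u` with `Q = T`,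
`A' = A + 4C + 3` for `u/T₀` (`T₀^2 = 4 AA^4 ≤ 4 (log X)^(4C)`: `AA ≤ ∏_{p∈P}(1+1/p)`, `MT.prod_col_le`) gives
`≤ Th V2 ∑_ρ (∏ Dm) u^2 + X/(log X)^A`; `pst` and `cost` bound the form, `Th ≤ (1+η/2) X` (`theta_asymp`), `V2 ≥ 0`,
`(1 + 2M/z)^2 (1 + 8M/z) ≤ 1 + η` (`16M² ≤ η z`), and `(1+η/2)(1+η) ≤ 1 + 4η`.
`h i ≤ z < p` and `h` injective give the condition on `h i ≡ h j`; `h i ≤ z ≤ (log X)^B ≤ X^(1/2)`.
-/

set_option autoImplicit false

open Finset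

namespace Pool.Agent.Lib.MP_092512_nt.FP

open Pool.Agent.Lib.MT

private theorem PairUp_mem {z T p : ℕ} (hp : p ∈ PP z T) : p ≤ T ∧ p.Prime ∧ z < p := by
  unfold PP at hp
  rw [mem_filter, mem_range, Nat.lt_succ_iff] at hp
  exact hp

private theorem PairUp_log : Filter.Tendsto (fun X : ℕ => Real.log (X : ℝ)) Filter.atTop
    Filter.atTop := Real.tendsto_log_atTop.comp tendsto_natCast_atTop_atTop

private theorem PairUp_pow (a : ℝ) (ha : 0 < a) (n : ℕ) :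
    ∀ᶠ X : ℕ in Filter.atTop, (Real.log X) ^ n ≤ (X : ℝ) ^ a := by
  have h1 : ∀ᶠ x : ℝ in Filter.atTop, (Real.log x) ^ n ≤ x ^ a := by
    have h := isLittleO_log_rpow_rpow_atTop (n : ℝ) ha
    have h2 := h.bound (show (0 : ℝ) < 1 by norm_num)
    filter_upwards [h2, Filter.eventually_ge_atTop 1] with x h3 h4
    have h5 : 0 ≤ Real.log x := Real.log_nonneg h4
    rw [Real.rpow_natCast, Real.norm_of_nonneg (by positivity), Real.norm_of_nonneg (by positivity),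
      one_mul] at h3
    exact h3
  exact tendsto_natCast_atTop_atTop.eventually h1

private theorem PairUp_num (B : ℕ) (a : ℝ) (ha : 0 < a) : ∃ X₀ : ℕ, ∀ X : ℕ, X₀ ≤ X →
    1 ≤ X ∧ 4 ≤ Real.log X ∧ (Real.log X) ^ B ≤ (X : ℝ) ^ (1 / 2 : ℝ) ∧ 2 ≤ (X : ℝ) ^ a := by
  have h1 := PairUp_pow (1 / 2) (by norm_num) B
  have h2 := PairUp_pow a ha 1
  have h3 := PairUp_log.eventually_ge_atTop 4
  obtain ⟨X₀, h⟩ := Filter.eventually_atTop.mp
    (h1.and (h2.and (h3.and (Filter.eventually_ge_atTop 1))))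
  refine ⟨X₀, fun X hX => ?_⟩
  obtain ⟨h4, h5, h6, h7⟩ := h X hX
  have h8 : (4 : ℝ) ≤ Real.log X := h6
  refine ⟨h7, h8, h4, ?_⟩
  rw [pow_one] at h5
  linarith

private theorem PairUp_lin {P : Finset ℕ} {ι : Type} [Fintype ι] [DecidableEq ι] (h : ι → ℕ)
    (c : {p : ℕ // p ∈ P} → ι → ℝ) (u : Col P ι → ℝ) (t : ℝ) (ht : t ≠ 0) (x : ℕ) :
    FF h (AL c u) x = t * FF h (AL c (fun ρ => u ρ / t)) x := by
  have h1 : ∀ σ, AL c u σ = t * AL c (fun ρ => u ρ / t) σ := by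
    intro σ
    unfold AL
    rw [mul_sum]
    refine sum_congr rfl fun τ _ => ?_
    field_simp
  unfold FF
  rw [mul_sum]
  exact sum_congr rfl fun σ _ => h1 σ

private theorem PairUp_AA (P : Finset ℕ) (g : ℕ → ℝ) (hg1 : ∀ n, g n ≤ 1) :
    AA P g ≤ ∏ p ∈ P, (1 + 1 / (p : ℝ)) := by
  unfold AA
  rw [Finset.prod_one_add]
  refine sum_le_sum fun s _ => ?_
  have h1 : (1 : ℝ) / (pr s : ℝ) = ∏ p ∈ s, 1 / (p : ℝ) := by
    unfold pr
    push_cast
    simp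
  rw [← h1]
  exact div_le_div_of_nonneg_right (hg1 _) (Nat.cast_nonneg _)

/-- the operator `lam` is the composition of two operators -/
private theorem PairUp_split {P : Finset ℕ} {ι : Type} [Fintype ι] [DecidableEq ι] (l m : ι)
    (L : Col P ι → ℝ) (σ : Col P ι) :
    lam L σ = AL (fun p j => -(ql l m p j)) (AL (el l m) L) σ := by
  rw [lam_AL, AL_AL]
  congr 1
  funext p j
  unfold el
  ring

private theorem PairUp_one {M z : ℕ} (η : ℝ) (hη : 0 < η) (hη1 : η ≤ 1 / 8) (hM : 2 ≤ M)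
    (hz : 0 < z) (h : 16 * (M : ℝ) ^ 2 ≤ η * z) :
    (1 + 2 * (M : ℝ) / z) ^ 2 * (1 + 8 * (M : ℝ) / z) ≤ 1 + η := by
  have hz0 : (0 : ℝ) < z := by exact_mod_cast hz
  have hM2 : (2 : ℝ) ≤ M := by exact_mod_cast hM
  have h1 : 32 * (M : ℝ) ≤ η * z := by nlinarith
  have h2 : 2 * (M : ℝ) / z ≤ η / 16 := by
    rw [div_le_iff₀ hz0]
    linarith
  have h3 : 8 * (M : ℝ) / z ≤ η / 4 := by
    rw [div_le_iff₀ hz0]
    linarith
  have h4 : 0 ≤ 2 * (M : ℝ) / z := by positivity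
  have h5 : 0 ≤ 8 * (M : ℝ) / z := by positivity
  calc (1 + 2 * (M : ℝ) / z) ^ 2 * (1 + 8 * (M : ℝ) / z) ≤ (1 + η / 16) ^ 2 * (1 + η / 4) := by
        gcongr
    _ ≤ 1 + η := by nlinarith [mul_pos hη hη]

theorem pair_up (M B A : ℕ) (δ η : ℝ) (hδ : 0 < δ) (hδ1 : δ ≤ 1 / 100) (hη : 0 < η)
    (hη1 : η ≤ 1 / 8) : ∃ X₀ : ℕ, ∀ X z R Z T : ℕ, X₀ ≤ X → 16 * (M : ℝ) ^ 2 ≤ η * z →
    8 * M + 2 ≤ z → (z : ℝ) ≤ (Real.log X) ^ B → 1 ≤ R → (R : ℝ) ≤ (X : ℝ) ^ δ →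
    T = ⌊(X : ℝ) ^ (1 / 4 - δ)⌋₊ → Z = ⌊(X : ℝ) ^ (1 / 4 - 2 * δ)⌋₊ →
    ∀ h : Fin M → ℕ, Function.Injective h → (∀ i, h i ≤ z) → ∀ l m : Fin M, l ≠ m →
    ∀ g : ℕ → ℝ, (∀ n, 0 ≤ g n) → (∀ n, g n ≤ 1) → (∀ a b, a ≤ b → g b ≤ g a) →
    1 ≤ AA (PP z T) g →
    ∑ x ∈ (Pre (Om h) z X).filter (fun x => (x + h l).Prime),
        BV.th (x + h m) * (FF h (lam (zz g R : Col (PP z T) (Fin M) → ℝ)) x) ^ 2 ≤
      (1 + 4 * η) * (X * V2 (Om h) (h m) z *
        (AA (PP z T) g ^ 4 * BB (PP z T) g ^ (M - 2) / (kap z * Real.log Z))) +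
        X / (Real.log X) ^ A := by
  obtain ⟨C, X₁, hC⟩ := MT.prod_col_le 1
  obtain ⟨X₂, hS⟩ := S2u (Fin M) M B (A + (4 * C + 1)) δ hδ
  obtain ⟨X₃, hTh⟩ := theta_asymp (η / 2) (by linarith)
  obtain ⟨X₄, hN⟩ := PairUp_num B (1 / 4 - 2 * δ) (by linarith)
  refine ⟨max (max X₁ X₂) (max X₃ X₄), ?_⟩
  intro X z R Z T hX hzη hzM hzB hR1 hRδ hT hZ h hinj hhz l m hlm g hg0 hg1 hg2 hAA
  simp only [max_le_iff] at hX
  obtain ⟨⟨hX1, hX2⟩, hX3, hX4⟩ := hX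
  obtain ⟨n1, n2, n3, n4⟩ := hN X hX4
  have hXR : (1 : ℝ) ≤ X := by exact_mod_cast n1
  have hM2 : 2 ≤ M := by
    have h1 := l.2
    have h2 := m.2
    have h3 : (l : ℕ) ≠ m := fun e => hlm (Fin.ext e)
    omega
  have hTX : T ≤ X := by
    have h1 : (T : ℝ) ≤ X := by
      rw [hT]
      refine (Nat.floor_le (by positivity)).trans ?_
      calc (X : ℝ) ^ (1 / 4 - δ) ≤ (X : ℝ) ^ (1 : ℝ) :=
            Real.rpow_le_rpow_of_exponent_le hXR (by linarith)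
        _ = X := Real.rpow_one _
    exact_mod_cast h1
  have hZT : Z ≤ T := by
    rw [hZ, hT]
    exact Nat.floor_le_floor (Real.rpow_le_rpow_of_exponent_le hXR (by linarith))
  have hZ2 : 2 ≤ Z := by
    rw [hZ]
    exact Nat.le_floor (by exact_mod_cast n4)
  have hRZ : ((R * Z : ℕ) : ℝ) ≤ (X : ℝ) ^ (1 / 4 - δ) := by
    push_cast
    have h1 : (Z : ℝ) ≤ (X : ℝ) ^ (1 / 4 - 2 * δ) := by
      rw [hZ]
      exact Nat.floor_le (by positivity)
    calc (R : ℝ) * Z ≤ (X : ℝ) ^ δ * (X : ℝ) ^ (1 / 4 - 2 * δ) := by gcongr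
      _ = (X : ℝ) ^ (1 / 4 - δ) := by
        rw [← Real.rpow_add (by linarith)]
        congr 1
        ring
  have hz1 : 1 ≤ z := by omega
  have hcard : Fintype.card (Fin M) = M := Fintype.card_fin M
  have hP : ∀ p ∈ PP z T, p.Prime := fun p hp => (PairUp_mem hp).2.1
  have hPz : ∀ p ∈ PP z T, z < p := fun p hp => (PairUp_mem hp).2.2
  -- the size of `V`
  obtain ⟨a, ha⟩ : ∃ a : ℝ, a = AA (PP z T) g := ⟨_, rfl⟩
  rw [← ha] at hAA
  obtain ⟨t, ht⟩ : ∃ t : ℝ, t = 2 * a ^ 2 := ⟨_, rfl⟩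
  have ht0 : 0 < t := by
    rw [ht]
    positivity
  have hzR : (0 : ℝ) < z := by exact_mod_cast hz1
  have hM8 : 8 * (M : ℝ) + 2 ≤ z := by exact_mod_cast hzM
  have hVb : ∀ ρ : Col (PP z T) (Fin M), Avd l m ρ → |AL (el l m) (zz g R) ρ| ≤ t := by
    intro ρ hρ
    have h1 := V_le z hz1 hP hPz (by rw [hcard]; omega) R g hg0 hg2 l m hlm ρ hρ
    refine h1.trans ?_
    rw [hcard, ← ha, ht]
    have h2 : ∏ i ∈ (univ.erase l).erase m, g (prt i ρ) ≤ 1 :=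
      prod_le_one (fun i _ => hg0 _) fun i _ => hg1 _
    have h3 : 2 * (M : ℝ) / z ≤ 1 := by
      rw [div_le_one hzR]
      have : (0 : ℝ) ≤ M := Nat.cast_nonneg M
      linarith
    have h4 : 0 ≤ ∏ i ∈ (univ.erase l).erase m, g (prt i ρ) := prod_nonneg fun i _ => hg0 _
    have h5 : (∏ i ∈ (univ.erase l).erase m, g (prt i ρ)) * a ^ 2 ≤ 1 * a ^ 2 :=
      mul_le_mul_of_nonneg_right h2 (by positivity)
    calc (1 + 2 * (M : ℝ) / z) * ((∏ i ∈ (univ.erase l).erase m, g (prt i ρ)) * a ^ 2)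
        ≤ 2 * (1 * a ^ 2) := mul_le_mul (by linarith) h5 (by positivity) (by norm_num)
      _ = 2 * a ^ 2 := by ring
  obtain ⟨u, hu1, hu2, hu3, hu4⟩ := pst hP l m hlm R Z (by omega) (AL (el l m) (zz g R)) t ht0.le hVb
    (fun ρ _ h => V_supp hP R g l m ρ h)
  have hcost := cost (ι := Fin M) z T Z (by rw [hcard]; omega) hZ2 hZT R g hg0 hg2 l m hlm
  rw [hcard, ← ha] at hcost
  obtain ⟨W, hW⟩ : ∃ W : ℝ, W = a ^ 4 * BB (PP z T) g ^ (M - 2) / (kap z * Real.log Z) := ⟨_, rfl⟩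
  have hBB0 : 0 ≤ BB (PP z T) g := by
    unfold BB
    exact sum_nonneg fun s _ => by positivity
  have hW0 : 0 ≤ W := by
    rw [hW]
    have h1 := kap_pos z
    have h2 : 0 ≤ Real.log Z := Real.log_natCast_nonneg Z
    positivity
  rw [← hW] at hcost
  rw [← ha, ← hW]
  -- the form
  have hF : ∑ ρ : Col (PP z T) (Fin M), (∏ p : {p : ℕ // p ∈ PP z T}, Dm (q2 m p) 1 (ρ p)) *
      u ρ ^ 2 ≤ (1 + η) * W :=
    (hu4.trans hcost).trans (mul_le_mul_of_nonneg_right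
      (PairUp_one η hη hη1 hM2 (by omega) hzη) hW0)
  -- comparison of the sums
  have hΩ : ∀ p ∈ PP 0 z, ∀ c ∈ Om h p, c < p := fun p _ => Om_lt h p
  have hs := hS X z T (R * Z) hX2 (by rw [hcard]; omega) hzB hTX hRZ (Om h)
    (fun p => (Om_card h p).trans hcard.le) hΩ h
    (fun i => by
      have h1 : (h i : ℝ) ≤ z := by exact_mod_cast hhz i
      exact h1.trans (hzB.trans n3)) m
    (fun p hp i j hij hmod => by
      have h1 := hPz p hp
      have h2 := hhz i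
      have h3 := hhz j
      have h4 : h i % p = h j % p := hmod
      rw [Nat.mod_eq_of_lt (by omega), Nat.mod_eq_of_lt (by omega)] at h4
      exact hij (hinj h4))
    (fun ρ => u ρ / t)
    (fun ρ => by
      rw [abs_div, abs_of_pos ht0, div_le_one ht0]
      exact hu1 ρ)
    (fun ρ hρ => hu2 ρ (fun h0 => hρ (by
      show u ρ / t = 0
      rw [h0, zero_div])))
  have hterm : ∀ x ∈ (Pre (Om h) z X).filter (fun x => (x + h l).Prime),
      BV.th (x + h m) * (FF h (lam (zz g R : Col (PP z T) (Fin M) → ℝ)) x) ^ 2 =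
      t ^ 2 * (BV.th (x + h m) *
        (FF h (AL (fun p j => -(q2 m p j)) (fun ρ => u ρ / t)) x) ^ 2) := by
    intro x hx
    rw [mem_filter] at hx
    obtain ⟨hx1, hx2⟩ := hx
    by_cases hxm : (x + h m).Prime
    · have hxX : X < x := by
        unfold Pre at hx1
        rw [mem_filter, mem_Ioc] at hx1
        exact hx1.1.1
      have h1 : FF h (lam (zz g R : Col (PP z T) (Fin M) → ℝ)) x =
          FF h (AL (fun p j => -(q2 m p j)) u) x := by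
        refine FF_eq h _ _ l m (fun σ hσ => ?_) x (fun p hp => ?_)
        · rw [hu3 σ hσ, PairUp_split l m]
        · obtain ⟨h2, h3, -⟩ := PairUp_mem hp
          constructor
          · intro hd
            have h4 := (Nat.prime_dvd_prime_iff_eq h3 hx2).mp hd
            omega
          · intro hd
            have h4 := (Nat.prime_dvd_prime_iff_eq h3 hxm).mp hd
            omega
      rw [h1, PairUp_lin h _ u t ht0.ne' x]
      ring
    · have h1 : BV.th (x + h m) = 0 := by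
        unfold BV.th
        rw [if_neg hxm]
      rw [h1, zero_mul, zero_mul, mul_zero]
  rw [sum_congr rfl hterm, ← mul_sum]
  have hth0 : ∀ n, 0 ≤ BV.th n := by
    intro n
    unfold BV.th
    split_ifs
    · exact Real.log_natCast_nonneg n
    · exact le_rfl
  have h1 : ∑ x ∈ (Pre (Om h) z X).filter (fun x => (x + h l).Prime), BV.th (x + h m) *
        (FF h (AL (fun p j => -(q2 m p j)) (fun ρ => u ρ / t)) x) ^ 2 ≤
      ∑ x ∈ Pre (Om h) z X, BV.th (x + h m) *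
        (FF h (AL (fun p j => -(q2 m p j)) (fun ρ => u ρ / t)) x) ^ 2 :=
    sum_le_sum_of_subset_of_nonneg (filter_subset _ _)
      (fun x _ _ => mul_nonneg (hth0 _) (sq_nonneg _))
  have h2 := mul_le_mul_of_nonneg_left (h1.trans hs) (sq_nonneg t)
  refine h2.trans ?_
  have h3 : t ^ 2 * (Th X (h m) * V2 (Om h) (h m) z *
        ∑ ρ : Col (PP z T) (Fin M), (∏ p : {p : ℕ // p ∈ PP z T}, Dm (q2 m p) 1 (ρ p)) *
          (u ρ / t) ^ 2 + X / (Real.log X) ^ (A + (4 * C + 1))) =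
      Th X (h m) * V2 (Om h) (h m) z *
        ∑ ρ : Col (PP z T) (Fin M), (∏ p : {p : ℕ // p ∈ PP z T}, Dm (q2 m p) 1 (ρ p)) *
          u ρ ^ 2 + t ^ 2 * (X / (Real.log X) ^ (A + (4 * C + 1))) := by
    rw [mul_add]
    congr 1
    rw [mul_sum, mul_sum, mul_sum]
    refine sum_congr rfl fun ρ _ => ?_
    field_simp
  rw [h3]
  have hV2 : 0 ≤ V2 (Om h) (h m) z := V2_pos (Om h) (h m) z hΩ
  obtain ⟨hT1, hT2⟩ := hTh X (h m) hX3 (by
    have h1 : (h m : ℝ) ≤ z := by exact_mod_cast hhz m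
    exact h1.trans (hzB.trans n3))
  have hTh0 : 0 ≤ Th X (h m) := by
    unfold Th
    exact sum_nonneg fun n _ => hth0 n
  refine add_le_add ?_ ?_
  · obtain ⟨v, hv⟩ : ∃ v : ℝ, v = V2 (Om h) (h m) z := ⟨_, rfl⟩
    rw [← hv] at hV2 ⊢
    have h4 : Th X (h m) * v * ∑ ρ : Col (PP z T) (Fin M),
        (∏ p : {p : ℕ // p ∈ PP z T}, Dm (q2 m p) 1 (ρ p)) * u ρ ^ 2 ≤
        Th X (h m) * v * ((1 + η) * W) := mul_le_mul_of_nonneg_left hF (by positivity)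
    refine h4.trans ?_
    have h5 : Th X (h m) * (v * ((1 + η) * W)) ≤ (1 + η / 2) * X * (v * ((1 + η) * W)) :=
      mul_le_mul_of_nonneg_right hT2 (by positivity)
    have h6 : (1 + η / 2) * (1 + η) ≤ 1 + 4 * η := by nlinarith
    calc Th X (h m) * v * ((1 + η) * W) = Th X (h m) * (v * ((1 + η) * W)) := by ring
      _ ≤ (1 + η / 2) * X * (v * ((1 + η) * W)) := h5
      _ = ((1 + η / 2) * (1 + η)) * (X * v * W) := by ring
      _ ≤ (1 + 4 * η) * (X * v * W) := mul_le_mul_of_nonneg_right h6 (by positivity)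
  · have h4 : a ≤ (Real.log X) ^ C := by
      have h5 := hC X hX1 z T hTX
      have h6 : ∏ p : {p : ℕ // p ∈ PP z T}, (1 + ((1 : ℕ) : ℝ) / ((p : ℕ) : ℝ)) =
          ∏ p ∈ PP z T, (1 + ((1 : ℕ) : ℝ) / (p : ℝ)) :=
        Finset.prod_coe_sort (PP z T) (fun p => 1 + ((1 : ℕ) : ℝ) / (p : ℝ))
      rw [h6] at h5
      have h7 := PairUp_AA (PP z T) g hg1
      rw [← ha] at h7
      refine h7.trans ?_
      rw [Nat.cast_one] at h5
      exact h5
    obtain ⟨y, hy⟩ : ∃ y : ℝ, y = Real.log X := ⟨_, rfl⟩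
    rw [← hy] at n2 h4 ⊢
    have hy0 : 0 < y := by linarith
    have h5 : t ^ 2 ≤ y ^ (4 * C + 1) := by
      rw [ht]
      calc (2 * a ^ 2) ^ 2 = 4 * a ^ 4 := by ring
        _ ≤ y * (y ^ C) ^ 4 := by gcongr
        _ = y ^ (4 * C + 1) := by
          rw [← pow_mul]
          ring
    rw [pow_add, ← mul_div_assoc, div_le_div_iff₀ (by positivity) (by positivity)]
    calc t ^ 2 * X * y ^ A ≤ y ^ (4 * C + 1) * X * y ^ A := by gcongr
      _ = X * (y ^ A * y ^ (4 * C + 1)) := by ring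

end Pool.Agent.Lib.MP_092512_nt.FP
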