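import Pool.Agent.Lib.MP_092512_nt.FP.Lay2d
import Pool.Agent.Lib.MP_092512_nt.FP.AmatAdd
import Pool.Agent.Lib.MT.Quad

/-!
# F_P, S2lu: the weighted number of primes `x + h m`, lower and upper bound

PROOF of `S2l`: as `MT.S2_lower` (file Lib/MT/S2low.lean) from `layer2d`, `MT.le_Qf`, `MT.sum_lam` (`AL` is the sum there).
PROOF of `S2u`: `L = AL (-q2 m) u`; `|L σ| ≤ ∏ (1 + ∑_j |q2 m p j|) = ∏ (1 + (M-1)/(p-1)) ≤ ∏ (1 + M/p)` (`AL_abs`; `M = card ι ≤ z < p`),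
support by `AL_ext` and `MT.tot_le_of_ext`; `MT.Qf_le` with `q = q2 m`, and `AL (q2 m) (AL (-q2 m) u) = u` (`AL_AL`, `AL_zero`).
`V2 ≥ 0`, `Th ≥ 0` (see `V2_nonneg` in S2low.lean).
-/

set_option autoImplicit false

open Finset

namespace Pool.Agent.Lib.MP_092512_nt.FP

open Pool.Agent.Lib.MT

private theorem S2lu_mem {w R p : ℕ} (h : p ∈ PP w R) : p.Prime ∧ w < p := by
  unfold PP at h
  exact (mem_filter.mp h).2

private theorem S2lu_q0 {P : Finset ℕ} {ι : Type} [DecidableEq ι] (m : ι)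
    (p : {p : ℕ // p ∈ P}) (hp : (p : ℕ).Prime) (j : ι) : 0 ≤ q2 m p j := by
  unfold q2
  split_ifs
  · exact le_rfl
  · have h1 : (1 : ℝ) < ((p : ℕ) : ℝ) := by exact_mod_cast hp.one_lt
    have h2 : (0 : ℝ) < ((p : ℕ) : ℝ) - 1 := by linarith
    positivity

private theorem S2lu_qs {P : Finset ℕ} {ι : Type} [Fintype ι] [DecidableEq ι] (m : ι)
    (p : {p : ℕ // p ∈ P}) (hp : (p : ℕ).Prime) (h : Fintype.card ι ≤ (p : ℕ)) :
    ∑ j, q2 m p j ≤ 1 := by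
  have h1 : (1 : ℝ) < ((p : ℕ) : ℝ) := by exact_mod_cast hp.one_lt
  have h2 : (0 : ℝ) < ((p : ℕ) : ℝ) - 1 := by linarith
  have h3 : ∑ j, q2 m p j = ((Fintype.card ι : ℝ) - 1) * (1 / (((p : ℕ) : ℝ) - 1)) := by
    unfold q2
    rw [← add_sum_erase univ _ (mem_univ m), if_pos rfl, zero_add,
      sum_congr rfl (g := fun _ => 1 / (((p : ℕ) : ℝ) - 1)) (fun j hj => if_neg (ne_of_mem_erase hj)),
      sum_const, card_erase_of_mem (mem_univ m), card_univ, nsmul_eq_mul]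
    have h4 : 1 ≤ Fintype.card ι := Fintype.card_pos_iff.mpr ⟨m⟩
    rw [Nat.cast_sub h4, Nat.cast_one]
  rw [h3, mul_one_div, div_le_one h2]
  have h5 : (Fintype.card ι : ℝ) ≤ ((p : ℕ) : ℝ) := by exact_mod_cast h
  linarith

theorem V2_pos (Ω : ℕ → Finset ℕ) (a z : ℕ) (hΩ : ∀ p ∈ PP 0 z, ∀ c ∈ Ω p, c < p) :
    0 ≤ V2 Ω a z := by
  unfold V2
  refine prod_nonneg fun p hp => ?_
  have hpp := (S2lu_mem hp).1
  have h1 : (1 : ℝ) < (p : ℝ) := by exact_mod_cast hpp.one_lt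
  have h2 : (0 : ℝ) < (p : ℝ) - 1 := by linarith
  have h3 : ((Ω p).filter (fun c => ¬ p ∣ c + a)).card ≤ p - 1 := by
    have h4 : (Ω p).filter (fun c => ¬ p ∣ c + a) ⊆ (range p).erase ((p - a % p) % p) := by
      intro c hc
      rw [mem_filter] at hc
      rw [mem_erase]
      refine ⟨?_, mem_range.mpr (hΩ p hp c hc.1)⟩
      rintro rfl
      apply hc.2
      have h5 : a % p < p := Nat.mod_lt _ hpp.pos
      rw [Nat.dvd_iff_mod_eq_zero, Nat.add_mod, Nat.mod_mod, ← Nat.add_mod]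
      rw [Nat.add_mod, Nat.mod_eq_zero_of_dvd (n := ((p - a % p) % p + a % p))]
      have h6 : ((p - a % p) % p + a % p) % p = 0 := by
        rw [Nat.mod_add_mod, Nat.sub_add_cancel h5.le, Nat.mod_self]
      exact Nat.dvd_of_mod_eq_zero h6
    calc ((Ω p).filter (fun c => ¬ p ∣ c + a)).card ≤ ((range p).erase ((p - a % p) % p)).card :=
        card_le_card h4
      _ = p - 1 := by
        rw [card_erase_of_mem (mem_range.mpr (Nat.mod_lt _ hpp.pos)), card_range]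
  have h7 : (((Ω p).filter (fun c => ¬ p ∣ c + a)).card : ℝ) / ((p : ℝ) - 1) ≤ 1 := by
    rw [div_le_one h2]
    have h8 : (((Ω p).filter (fun c => ¬ p ∣ c + a)).card : ℝ) ≤ ((p - 1 : ℕ) : ℝ) := by
      exact_mod_cast h3
    rw [Nat.cast_sub hpp.one_lt.le, Nat.cast_one] at h8
    exact h8
  linarith

theorem S2l (ι : Type) [Fintype ι] [DecidableEq ι] (K B A : ℕ) (δ : ℝ) (hδ : 0 < δ) : ∃ X₀ : ℕ,
    ∀ X z T Q : ℕ, X₀ ≤ X → Fintype.card ι ≤ z → (z : ℝ) ≤ (Real.log X) ^ B → T ≤ X →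
    (Q : ℝ) ≤ (X : ℝ) ^ (1 / 4 - δ) →
    ∀ Ω : ℕ → Finset ℕ, (∀ p, (Ω p).card ≤ K) → (∀ p ∈ PP 0 z, ∀ c ∈ Ω p, c < p) →
    ∀ h : ι → ℕ, (∀ i, (h i : ℝ) ≤ (X : ℝ) ^ (1 / 2 : ℝ)) → ∀ m : ι,
    (∀ p ∈ PP z T, ∀ i j, i ≠ j → ¬ h i ≡ h j [MOD p]) → ∀ u : Col (PP z T) ι → ℝ,
    (∀ σ, |u σ| ≤ 1) → (∀ σ, u σ ≠ 0 → tot σ ≤ Q) →
    Th X (h m) * V2 Ω (h m) z *
        ∑ ρ : Col (PP z T) ι, (∏ p : {p : ℕ // p ∈ PP z T},
            Dm (q2 m p) (1 - ∑ i, q2 m p i) (ρ p)) *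
          (AL (fun p j => q2 m p j - 1 / ((p : ℕ) : ℝ)) u ρ) ^ 2 -
      X / (Real.log X) ^ A ≤
    ∑ x ∈ Pre Ω z X, BV.th (x + h m) * (FF h (lam u) x) ^ 2 := by
  obtain ⟨X₀, hlay⟩ := layer2d ι K B A δ hδ
  refine ⟨X₀, ?_⟩
  intro X z T Q hX hι hz hT hQ Ω hK hΩ h hh m hij u hu htot
  have h1 := hlay X z T Q hX hz hT hQ Ω hK hΩ h hh m hij (lam u) (fun σ => abs_lam_le u hu σ)
    (fun σ hσ => by
      obtain ⟨τ, h2, h3⟩ := lam_ext u σ hσ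
      exact (tot_le_of_ext (fun p hp => (S2lu_mem hp).1.one_lt.le) σ τ h3).trans (htot τ h2))
  have h4 := le_Qf (P := PP z T) (ι := ι) (q2 m) (fun p i => S2lu_q0 m p (S2lu_mem p.2).1 i)
    (fun p => S2lu_qs m p (S2lu_mem p.2).1 (by
      have := (S2lu_mem p.2).2
      omega)) (lam u)
  have h7 : ∀ ρ : Col (PP z T) ι, (∑ σ : Col (PP z T) ι,
      (∏ p : {p : ℕ // p ∈ PP z T}, Amat (q2 m p) (ρ p) (σ p)) * lam u σ) =
      AL (fun p j => q2 m p j - 1 / ((p : ℕ) : ℝ)) u ρ :=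
    fun ρ => sum_lam (q2 m) u ρ
  simp only [h7] at h4
  have h8 : 0 ≤ Th X (h m) * V2 Ω (h m) z :=
    mul_nonneg (sum_nonneg fun n _ => BV.th_nonneg n) (V2_pos Ω (h m) z hΩ)
  have h13 := mul_le_mul_of_nonneg_left h4 h8
  have h14 := (abs_le.mp h1).1
  linarith

private theorem S2lu_qm {P : Finset ℕ} {ι : Type} [Fintype ι] [DecidableEq ι] (m : ι)
    (p : {p : ℕ // p ∈ P}) (hp : (p : ℕ).Prime) (h : Fintype.card ι ≤ (p : ℕ)) :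
    ∑ j, |-(q2 m p j)| ≤ (Fintype.card ι : ℝ) / ((p : ℕ) : ℝ) := by
  have h1 : (1 : ℝ) < ((p : ℕ) : ℝ) := by exact_mod_cast hp.one_lt
  have h2 : (0 : ℝ) < ((p : ℕ) : ℝ) - 1 := by linarith
  have h3 : ∑ j, |-(q2 m p j)| = ((Fintype.card ι : ℝ) - 1) * (1 / (((p : ℕ) : ℝ) - 1)) := by
    have h0 : ∀ j, |-(q2 m p j)| = q2 m p j := fun j => by
      rw [abs_neg, abs_of_nonneg (S2lu_q0 m p hp j)]
    rw [sum_congr rfl fun j _ => h0 j]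
    unfold q2
    rw [← add_sum_erase univ _ (mem_univ m), if_pos rfl, zero_add,
      sum_congr rfl (g := fun _ => 1 / (((p : ℕ) : ℝ) - 1)) (fun j hj => if_neg (ne_of_mem_erase hj)),
      sum_const, card_erase_of_mem (mem_univ m), card_univ, nsmul_eq_mul]
    have h4 : 1 ≤ Fintype.card ι := Fintype.card_pos_iff.mpr ⟨m⟩
    rw [Nat.cast_sub h4, Nat.cast_one]
  rw [h3, mul_one_div, div_le_div_iff₀ h2 (by linarith)]
  have h5 : (Fintype.card ι : ℝ) ≤ ((p : ℕ) : ℝ) := by exact_mod_cast h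
  nlinarith

theorem S2u (ι : Type) [Fintype ι] [DecidableEq ι] (K B A : ℕ) (δ : ℝ) (hδ : 0 < δ) : ∃ X₀ : ℕ,
    ∀ X z T Q : ℕ, X₀ ≤ X → Fintype.card ι ≤ z → (z : ℝ) ≤ (Real.log X) ^ B → T ≤ X →
    (Q : ℝ) ≤ (X : ℝ) ^ (1 / 4 - δ) →
    ∀ Ω : ℕ → Finset ℕ, (∀ p, (Ω p).card ≤ K) → (∀ p ∈ PP 0 z, ∀ c ∈ Ω p, c < p) →
    ∀ h : ι → ℕ, (∀ i, (h i : ℝ) ≤ (X : ℝ) ^ (1 / 2 : ℝ)) → ∀ m : ι,
    (∀ p ∈ PP z T, ∀ i j, i ≠ j → ¬ h i ≡ h j [MOD p]) → ∀ u : Col (PP z T) ι → ℝ,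
    (∀ σ, |u σ| ≤ 1) → (∀ σ, u σ ≠ 0 → tot σ ≤ Q) →
    ∑ x ∈ Pre Ω z X, BV.th (x + h m) * (FF h (AL (fun p j => -(q2 m p j)) u) x) ^ 2 ≤
    Th X (h m) * V2 Ω (h m) z *
        ∑ ρ : Col (PP z T) ι, (∏ p : {p : ℕ // p ∈ PP z T}, Dm (q2 m p) 1 (ρ p)) * u ρ ^ 2 +
      X / (Real.log X) ^ A := by
  obtain ⟨X₀, hlay⟩ := layer2d ι K B A δ hδ
  refine ⟨X₀, ?_⟩
  intro X z T Q hX hι hz hT hQ Ω hK hΩ h hh m hij u hu htot
  have hp : ∀ p : {p : ℕ // p ∈ PP z T}, (p : ℕ).Prime ∧ Fintype.card ι ≤ (p : ℕ) := fun p => by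
    have h0 := S2lu_mem p.2
    exact ⟨h0.1, by omega⟩
  have h1 := hlay X z T Q hX hz hT hQ Ω hK hΩ h hh m hij (AL (fun p j => -(q2 m p j)) u)
    (fun σ => by
      refine (AL_abs (fun p j => -(q2 m p j)) u 1 hu σ).trans ?_
      rw [one_mul]
      refine prod_le_prod (fun p _ => ?_) (fun p _ => ?_)
      · have : 0 ≤ ∑ j, |-(q2 m p j)| := sum_nonneg fun j _ => abs_nonneg _
        linarith
      · have := S2lu_qm m p (hp p).1 (hp p).2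
        linarith)
    (fun σ hσ => by
      obtain ⟨τ, h2, h3⟩ := AL_ext (fun p j => -(q2 m p j)) u σ hσ
      exact (tot_le_of_ext (fun p hp => (S2lu_mem hp).1.one_lt.le) σ τ h3).trans (htot τ h2))
  have h4 := Qf_le (P := PP z T) (ι := ι) (q2 m) (fun p i => S2lu_q0 m p (S2lu_mem p.2).1 i)
    (fun p => S2lu_qs m p (hp p).1 (hp p).2) (AL (fun p j => -(q2 m p j)) u)
  have h7 : ∀ ρ : Col (PP z T) ι, (∑ σ : Col (PP z T) ι,
      (∏ p : {p : ℕ // p ∈ PP z T}, Amat (q2 m p) (ρ p) (σ p)) *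
        AL (fun p j => -(q2 m p j)) u σ) = u ρ := by
    intro ρ
    have h8 : AL (q2 m) (AL (fun p j => -(q2 m p j)) u) ρ = u ρ := by
      rw [AL_AL]
      have h9 : (fun (p : {p : ℕ // p ∈ PP z T}) (j : ι) => q2 m p j + -(q2 m p j)) =
          fun _ _ => 0 := by
        funext p j
        ring
      rw [h9, AL_zero]
    exact h8
  simp only [h7] at h4
  have h8 : 0 ≤ Th X (h m) * V2 Ω (h m) z :=
    mul_nonneg (sum_nonneg fun n _ => BV.th_nonneg n) (V2_pos Ω (h m) z hΩ)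
  have h13 := mul_le_mul_of_nonneg_left h4 h8
  have h14 := (abs_le.mp h1).2
  linarith

end Pool.Agent.Lib.MP_092512_nt.FP
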