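import Pool.Agent.Lib.MP_092512_nt.FP.Bins
import Pool.Agent.Lib.MP_092512_nt.FP.Blow

/-!
# F_P, Top

PROOF.  `bins k (ε/2)`, `blow k N M (ε/2)` with `γ = (1/4)^(k-1) - ε/2 ≤ 1` and `Gd D := X/(log X)^C ≤ cnt X D`; for `U i ⊆ A` the hypotheses of `bins` hold.
-/

set_option autoImplicit false

open Finset

namespace Pool.Agent.Lib.MP_092512_nt.FP

open Classical in
theorem top (k : ℕ) (hk : 1 ≤ k) (ε : ℝ) (hε : 0 < ε) : ∃ m₀ : ℕ, ∀ B : ℕ, ∃ C X₀ : ℕ,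
    ∀ X : ℕ, X₀ ≤ X → ∀ A : Finset ℕ, m₀ ≤ A.card → (∀ a ∈ A, (a : ℝ) ≤ (Real.log X) ^ B) →
    (∀ p : ℕ, p.Prime → ∃ r : ℕ, ∀ a ∈ A, ¬ a ≡ r [MOD p]) →
    ((1 / 4 : ℝ) ^ (k - 1) - ε) * ((powersetCard k A).card : ℝ) ≤
      ((powersetCard k A).filter (fun D => (X : ℝ) / (Real.log X) ^ C ≤ cnt X D)).card := by
  obtain ⟨N, M, hN, hM, hb⟩ := bins k hk (ε / 2) (by linarith)
  obtain ⟨V₀, hV⟩ := blow k N M hN hM (ε / 2) (by linarith)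
  refine ⟨V₀, fun B => ?_⟩
  obtain ⟨C, X₀, hX⟩ := hb B
  refine ⟨C, X₀, fun X hX0 A hA hAB hadm => ?_⟩
  have h1 := hV A hA (fun D => (X : ℝ) / (Real.log X) ^ C ≤ cnt X D) ((1 / 4 : ℝ) ^ (k - 1) - ε / 2)
    (by
      have : (1 / 4 : ℝ) ^ (k - 1) ≤ 1 := pow_le_one₀ (by norm_num) (by norm_num)
      linarith)
    (fun U hU hdis => hX X hX0 U (fun j => (hU j).2) hdis
      (fun j a ha => hAB a ((hU j).1 ha)) (fun p hp => by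
        obtain ⟨r, hr⟩ := hadm p hp
        exact ⟨r, fun j a ha => hr a ((hU j).1 ha)⟩))
  have h2 : (1 / 4 : ℝ) ^ (k - 1) - ε / 2 - ε / 2 = (1 / 4 : ℝ) ^ (k - 1) - ε := by ring
  rw [h2] at h1
  exact h1

end Pool.Agent.Lib.MP_092512_nt.FP
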