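import Pool.Agent.Lib.MP_092512_nt.FP.AmatAdd
import Pool.Agent.Lib.MP_092512_nt.FP.ColSum

/-!
# F_P, Vbd: size and support of `V = AL (el l m) (zz g R)` on the colourings avoiding `l`, `m`

PROOF.  `|V ρ| ≤ ∑_σ ∏_p |Amat (el p) (ρ p) (σ p)| * yy g R σ`, only the extensions `σ` of `ρ` matter (the other terms are 0),
`yy g R σ ≤ ∏_i g (prt i σ)`.  For `i ≠ l, m`: `g (prt i σ) ≤ g (prt i ρ)` (`part i ρ ⊆ part i σ`, so `prt i ρ ≤ prt i σ`; `g`
antitone).  The extra primes: colour `l` or `m`: factor `1/p`; another colour `j`: `0 ≤ el = 1/(p-1) - 1/p = 1/(p(p-1))`.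
So (sum over all colourings of the extra primes, `col_sum_le'` with `F l s = F m s = g (pr s)/pr s` and
`F j s = ∏_{p ∈ s} 1/(p(p-1))`; or directly) `|V ρ| ≤ (∏_{i ≠ l,m} g (prt i ρ)) * AA^2 * (∏_{p ∈ P} (1 + 1/(p(p-1))))^(card ι - 2)`,
and `(1 + x)^k`-product `≤`: use `∏_j ∑_s ∏_{p∈s} 1/(p(p-1)) = (∏_p (1 + 1/(p(p-1))))^(card ι - 2) ≤ exp (card ι / z) ≤ 1 + 2 card ι/z`.
(The map `σ ↦ σ` with the colours of `ρ` erased is injective on the extensions of `ρ`.)
Support: `AL_ext`, `zz g R σ ≠ 0` implies `tot σ ≤ R`, and `tot ρ ≤ tot σ` (`MT.tot_le_of_ext`).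
-/

set_option autoImplicit false

open Finset

namespace Pool.Agent.Lib.MP_092512_nt.FP

open Pool.Agent.Lib.MT

variable {P : Finset ℕ} {ι : Type} [Fintype ι] [DecidableEq ι]

omit [Fintype ι] [DecidableEq ι] in
private theorem Vbd_mu (σ : Col P ι) : |mu σ| = 1 := by
  unfold mu
  rw [abs_prod]
  refine prod_eq_one fun p _ => ?_
  split_ifs <;> simp

private theorem Vbd_zz (R : ℕ) (g : ℕ → ℝ) (hg0 : ∀ n, 0 ≤ g n) (σ : Col P ι) :
    |zz g R σ| ≤ ∏ i, g (prt i σ) := by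
  unfold zz
  rw [abs_mul, Vbd_mu, one_mul]
  unfold yy
  split_ifs
  · rw [abs_of_nonneg (prod_nonneg fun i _ => hg0 _)]
  · rw [abs_zero]
    exact prod_nonneg fun i _ => hg0 _

private theorem Vbd_tel (z : ℕ) (hz : 1 ≤ z) (N : ℕ) (hN : z ≤ N) :
    ∑ n ∈ Ioc z N, 1 / ((n : ℝ) * ((n : ℝ) - 1)) = 1 / z - 1 / N := by
  induction N, hN using Nat.le_induction with
  | base => simp
  | succ N hN ih =>
    rw [Finset.sum_Ioc_succ_top hN, ih]
    have h1 : (0 : ℝ) < N := by exact_mod_cast (by omega : 0 < N)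
    have h2 : (0 : ℝ) < z := by exact_mod_cast hz
    push_cast
    rw [add_sub_cancel_right]
    field_simp
    ring

private theorem Vbd_sum (z : ℕ) (hz : 1 ≤ z) (hPz : ∀ p ∈ P, z < p) :
    ∑ p ∈ P, 1 / ((p : ℝ) * ((p : ℝ) - 1)) ≤ 1 / z := by
  have h2 : (0 : ℝ) < z := by exact_mod_cast hz
  rcases P.eq_empty_or_nonempty with h | h
  · rw [h, sum_empty]
    positivity
  · have hsub : P ⊆ Ioc z (P.sup id) := by
      intro p hp
      rw [mem_Ioc]
      exact ⟨hPz p hp, le_sup (f := id) hp⟩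
    obtain ⟨p, hp⟩ := h
    have hN : z ≤ P.sup id := by
      have := mem_Ioc.1 (hsub hp)
      omega
    refine (sum_le_sum_of_subset_of_nonneg hsub fun n hn _ => ?_).trans
      ((Vbd_tel z hz _ hN).le.trans ?_)
    · have h3 : (1 : ℝ) ≤ n := by exact_mod_cast (by have := (mem_Ioc.1 hn).1; omega : 1 ≤ n)
      have h4 : (0 : ℝ) ≤ (n : ℝ) - 1 := by linarith
      positivity
    · have : (0 : ℝ) ≤ 1 / ((P.sup id : ℕ) : ℝ) := by positivity
      linarith

private theorem Vbd_exp (z k : ℕ) (hz : 1 ≤ z) (hPz : ∀ p ∈ P, z < p) (hk : k ≤ z) :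
    (∏ p ∈ P, (1 + 1 / ((p : ℝ) * ((p : ℝ) - 1)))) ^ k ≤ 1 + 2 * k / z := by
  have hz0 : (0 : ℝ) < z := by exact_mod_cast hz
  have hp0 : ∀ p ∈ P, (0 : ℝ) ≤ 1 / ((p : ℝ) * ((p : ℝ) - 1)) := by
    intro p hp
    have h3 : (1 : ℝ) ≤ p := by exact_mod_cast (by have := hPz p hp; omega : 1 ≤ p)
    have h4 : (0 : ℝ) ≤ (p : ℝ) - 1 := by linarith
    positivity
  have h1 : ∏ p ∈ P, (1 + 1 / ((p : ℝ) * ((p : ℝ) - 1))) ≤ Real.exp (1 / z) := by
    calc ∏ p ∈ P, (1 + 1 / ((p : ℝ) * ((p : ℝ) - 1))) ≤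
        ∏ p ∈ P, Real.exp (1 / ((p : ℝ) * ((p : ℝ) - 1))) := by
          refine prod_le_prod (fun p hp => ?_) fun p hp => ?_
          · have := hp0 p hp
            linarith
          · have := Real.add_one_le_exp (1 / ((p : ℝ) * ((p : ℝ) - 1)))
            linarith
      _ = Real.exp (∑ p ∈ P, 1 / ((p : ℝ) * ((p : ℝ) - 1))) := (Real.exp_sum _ _).symm
      _ ≤ _ := Real.exp_le_exp.2 (Vbd_sum z hz hPz)
  have h2 : (0 : ℝ) ≤ ∏ p ∈ P, (1 + 1 / ((p : ℝ) * ((p : ℝ) - 1))) := prod_nonneg fun p hp => by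
    have := hp0 p hp
    linarith
  have h3 : (∏ p ∈ P, (1 + 1 / ((p : ℝ) * ((p : ℝ) - 1)))) ^ k ≤ Real.exp (k / z) := by
    refine (pow_le_pow_left₀ h2 h1 k).trans ?_
    rw [← Real.exp_nat_mul]
    exact Real.exp_le_exp.2 (by rw [mul_one_div])
  have h4 : (0 : ℝ) ≤ k / z := by positivity
  have h5 : (k : ℝ) / z ≤ 1 := by
    rw [div_le_one hz0]
    exact_mod_cast hk
  have h6 := Real.abs_exp_sub_one_sub_id_le (x := (k : ℝ) / z) (by rw [abs_of_nonneg h4]; exact h5)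
  have h7 := (abs_le.1 h6).2
  have h8 : ((k : ℝ) / z) ^ 2 ≤ k / z := by nlinarith
  have h9 : 2 * (k : ℝ) / z = 2 * (k / z) := by ring
  rw [h9]
  linarith

/-- the colouring with the primes coloured by `ρ` erased -/
private def Vbd_er (ρ σ : Col P ι) : Col P ι := fun p => if ρ p = none then σ p else none

/-- the bound for the entries of the matrix -/
private noncomputable def Vbd_c (l m : ι) (p : ℕ) (j : ι) : ℝ :=
  if j = l ∨ j = m then 1 / (p : ℝ) else 1 / ((p : ℝ) * ((p : ℝ) - 1))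

private noncomputable def Vbd_G (g : ℕ → ℝ) (l m : ι) (j : ι) (s : Finset ℕ) : ℝ :=
  if j = l ∨ j = m then g (pr s) else 1

private noncomputable def Vbd_F (g : ℕ → ℝ) (l m : ι) (j : ι) (s : Finset ℕ) : ℝ :=
  Vbd_G g l m j s * ∏ p ∈ s, Vbd_c l m p j

omit [Fintype ι] in
private theorem Vbd_c0 (hP : ∀ p ∈ P, p.Prime) (l m : ι) (p : ℕ) (hp : p ∈ P) (j : ι) :
    0 ≤ Vbd_c l m p j := by
  unfold Vbd_c
  have h3 : (1 : ℝ) ≤ p := by exact_mod_cast (hP p hp).one_le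
  have h4 : (0 : ℝ) ≤ (p : ℝ) - 1 := by linarith
  split_ifs <;> positivity

omit [Fintype ι] in
private theorem Vbd_el (hP : ∀ p ∈ P, p.Prime) (l m : ι) (p : {p : ℕ // p ∈ P}) (j : ι) :
    |el l m p j| = Vbd_c l m p j := by
  have h3 : (1 : ℝ) < (p : ℕ) := by exact_mod_cast (hP p p.2).one_lt
  have h4 : (0 : ℝ) < ((p : ℕ) : ℝ) - 1 := by linarith
  unfold el ql Vbd_c
  split_ifs
  · rw [zero_sub, abs_neg, abs_of_nonneg (by positivity)]
  · have h5 : 1 / (((p : ℕ) : ℝ) - 1) - 1 / ((p : ℕ) : ℝ) =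
        1 / (((p : ℕ) : ℝ) * (((p : ℕ) : ℝ) - 1)) := by
      have h6 : ((p : ℕ) : ℝ) - 1 ≠ 0 := h4.ne'
      have h7 : ((p : ℕ) : ℝ) ≠ 0 := by linarith
      field_simp
      ring
    rw [h5, abs_of_nonneg (by positivity)]

private theorem Vbd_prodc (l m : ι) (τ : Col P ι) :
    ∏ j, ∏ p ∈ part j τ, Vbd_c l m p j =
      ∏ p : {p : ℕ // p ∈ P}, (match τ p with | none => 1 | some j => Vbd_c l m p j) := by
  have h1 : ∀ j, ∏ p ∈ part j τ, Vbd_c l m p j =
      ∏ p : {p : ℕ // p ∈ P}, if τ p = some j then Vbd_c l m p j else 1 := by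
    intro j
    unfold part
    rw [prod_image (fun a _ b _ h => Subtype.ext h), prod_filter]
  rw [prod_congr rfl fun j _ => h1 j, prod_comm]
  refine prod_congr rfl fun p _ => ?_
  rcases τ p with _ | i
  · simp
  · simp

private theorem Vbd_part (l m : ι) (ρ σ : Col P ι) (hρ : Avd l m ρ)
    (h : ∀ p i, ρ p = some i → σ p = some i) (j : ι) (hj : j = l ∨ j = m) :
    part j (Vbd_er ρ σ) = part j σ := by
  ext p
  rw [mem_part, mem_part]
  constructor
  · rintro ⟨hp, h1⟩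
    refine ⟨hp, ?_⟩
    unfold Vbd_er at h1
    split_ifs at h1 with h2
    exact h1
  · rintro ⟨hp, h1⟩
    refine ⟨hp, ?_⟩
    unfold Vbd_er
    rw [if_pos ?_]
    · exact h1
    · rcases h2 : ρ ⟨p, hp⟩ with _ | i
      · rfl
      · exfalso
        have h3 := h _ _ h2
        rw [h1] at h3
        have h4 := Option.some.inj h3
        rcases hj with hj | hj
        · exact (hρ ⟨p, hp⟩).1 (by rw [h2, ← h4, hj])
        · exact (hρ ⟨p, hp⟩).2 (by rw [h2, ← h4, hj])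

omit [Fintype ι] in
private theorem Vbd_prt_le (hP : ∀ p ∈ P, p.Prime) (ρ σ : Col P ι)
    (h : ∀ p i, ρ p = some i → σ p = some i) (j : ι) : prt j ρ ≤ prt j σ := by
  unfold prt
  refine Finset.prod_le_prod' fun p _ => ?_
  split_ifs with h1 h2 h2
  · exact le_rfl
  · exact absurd (h p j h1) h2
  · exact (hP p p.2).one_le
  · exact le_rfl

/-- the terms of the sum -/
private theorem Vbd_term (hP : ∀ p ∈ P, p.Prime) (g : ℕ → ℝ) (hg0 : ∀ n, 0 ≤ g n)
    (hg1 : ∀ a b, a ≤ b → g b ≤ g a) (l m : ι) (ρ σ : Col P ι) (hρ : Avd l m ρ)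
    (h : ∀ p i, ρ p = some i → σ p = some i) :
    (∏ p : {p : ℕ // p ∈ P}, |Amat (el l m p) (ρ p) (σ p)|) * ∏ i, g (prt i σ) ≤
      (∏ i, if i = l ∨ i = m then 1 else g (prt i ρ)) *
        ∏ j, Vbd_F g l m j (part j (Vbd_er ρ σ)) := by
  have h1 : ∏ p : {p : ℕ // p ∈ P}, |Amat (el l m p) (ρ p) (σ p)| =
      ∏ j, ∏ p ∈ part j (Vbd_er ρ σ), Vbd_c l m p j := by
    rw [Vbd_prodc]
    refine prod_congr rfl fun p _ => ?_
    unfold Vbd_er
    rcases h2 : ρ p with _ | i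
    · rw [if_pos rfl]
      rcases σ p with _ | j
      · simp [Amat]
      · simp only [Amat]
        exact Vbd_el hP l m p j
    · rw [h p i h2]
      simp [Amat]
  unfold Vbd_F
  rw [prod_mul_distrib, h1, ← mul_assoc, mul_comm]
  refine mul_le_mul_of_nonneg_right ?_ (prod_nonneg fun j _ => prod_nonneg fun p hp =>
    Vbd_c0 hP l m p (part_subset j _ hp) j)
  rw [← prod_mul_distrib]
  refine prod_le_prod (fun i _ => hg0 _) fun i _ => ?_
  unfold Vbd_G
  split_ifs with h2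
  · rw [one_mul, Vbd_part l m ρ σ hρ h i h2, prt_eq]
  · rw [mul_one]
    exact hg1 _ _ (Vbd_prt_le hP ρ σ h i)

omit [Fintype ι] in
private theorem Vbd_F0 (hP : ∀ p ∈ P, p.Prime) (g : ℕ → ℝ) (hg0 : ∀ n, 0 ≤ g n) (l m j : ι)
    (s : Finset ℕ) (hs : s ⊆ P) : 0 ≤ Vbd_F g l m j s := by
  unfold Vbd_F Vbd_G
  refine mul_nonneg ?_ (prod_nonneg fun p hp => Vbd_c0 hP l m p (hs hp) j)
  split_ifs
  · exact hg0 _
  · exact zero_le_one

omit [Fintype ι] in
private theorem Vbd_Fsum (g : ℕ → ℝ) (l m j : ι) :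
    ∑ s ∈ P.powerset, Vbd_F g l m j s =
      if j = l ∨ j = m then AA P g else ∏ p ∈ P, (1 + 1 / ((p : ℝ) * ((p : ℝ) - 1))) := by
  unfold Vbd_F Vbd_G Vbd_c
  split_ifs with h
  · unfold AA
    refine sum_congr rfl fun s _ => ?_
    rw [div_eq_mul_one_div]
    congr 1
    unfold pr
    rw [Nat.cast_prod, one_div, ← prod_inv_distrib]
    exact prod_congr rfl fun p _ => one_div _
  · rw [prod_one_add]
    exact sum_congr rfl fun s _ => one_mul _

theorem V_le (z : ℕ) (hz : 1 ≤ z) (hP : ∀ p ∈ P, p.Prime) (hPz : ∀ p ∈ P, z < p)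
    (hM : Fintype.card ι ≤ z) (R : ℕ) (g : ℕ → ℝ) (hg0 : ∀ n, 0 ≤ g n)
    (hg1 : ∀ a b, a ≤ b → g b ≤ g a) (l m : ι) (hlm : l ≠ m) (ρ : Col P ι) (hρ : Avd l m ρ) :
    |AL (el l m) (zz g R) ρ| ≤ (1 + 2 * Fintype.card ι / z) *
      ((∏ i ∈ (univ.erase l).erase m, g (prt i ρ)) * AA P g ^ 2) := by
  classical
  have hK0 : (0 : ℝ) ≤ ∏ i, if i = l ∨ i = m then 1 else g (prt i ρ) := by
    refine prod_nonneg fun i _ => ?_
    split_ifs
    · exact zero_le_one
    · exact hg0 _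
  have hK : (∏ i, if i = l ∨ i = m then 1 else g (prt i ρ)) =
      ∏ i ∈ (univ.erase l).erase m, g (prt i ρ) := by
    have h1 : m ∈ univ.erase l := mem_erase.2 ⟨hlm.symm, mem_univ _⟩
    rw [← mul_prod_erase univ _ (mem_univ l), ← mul_prod_erase (univ.erase l) _ h1,
      if_pos (Or.inl rfl), if_pos (Or.inr rfl), one_mul, one_mul]
    refine prod_congr rfl fun i hi => ?_
    rw [mem_erase, mem_erase] at hi
    rw [if_neg]
    rintro (h2 | h2)
    · exact hi.2.1 h2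
    · exact hi.1 h2
  -- the sum over the extensions
  have h1 : |AL (el l m) (zz g R) ρ| ≤
      ∑ σ ∈ univ.filter (fun σ : Col P ι => ∀ p i, ρ p = some i → σ p = some i),
        (∏ i, if i = l ∨ i = m then 1 else g (prt i ρ)) *
        ∏ j, Vbd_F g l m j (part j (Vbd_er ρ σ)) := by
    unfold AL
    refine (abs_sum_le_sum_abs _ _).trans ?_
    rw [sum_filter]
    refine sum_le_sum fun σ _ => ?_
    split_ifs with h
    · rw [abs_mul, abs_prod]
      refine le_trans (mul_le_mul_of_nonneg_left (Vbd_zz R g hg0 σ)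
        (prod_nonneg fun p _ => abs_nonneg _)) ?_
      exact Vbd_term hP g hg0 hg1 l m ρ σ hρ h
    · simp only [not_forall] at h
      obtain ⟨p, i, h2, h3⟩ := h
      have h4 : ∏ p : {p : ℕ // p ∈ P}, Amat (el l m p) (ρ p) (σ p) = 0 := by
        refine prod_eq_zero (mem_univ p) ?_
        rw [h2]
        rcases h5 : σ p with _ | j
        · rfl
        · simp only [Amat]
          rw [if_neg]
          intro h6
          rw [h5, h6] at h3
          exact h3 rfl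
      rw [h4, zero_mul, abs_zero]
  have hinj : Set.InjOn (Vbd_er ρ)
      (univ.filter (fun σ : Col P ι => ∀ p i, ρ p = some i → σ p = some i) : Finset (Col P ι)) := by
    intro σ hσ τ hτ he
    rw [mem_coe, mem_filter] at hσ hτ
    funext p
    rcases h2 : ρ p with _ | i
    · have h3 := congrFun he p
      unfold Vbd_er at h3
      rw [if_pos h2, if_pos h2] at h3
      exact h3
    · rw [hσ.2 p i h2, hτ.2 p i h2]
  have h2 : ∑ σ ∈ univ.filter (fun σ : Col P ι => ∀ p i, ρ p = some i → σ p = some i),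
        ∏ j, Vbd_F g l m j (part j (Vbd_er ρ σ)) ≤ ∑ τ : Col P ι, ∏ j, Vbd_F g l m j (part j τ) := by
    rw [← sum_image (f := fun τ => ∏ j, Vbd_F g l m j (part j τ)) hinj]
    exact sum_le_sum_of_subset_of_nonneg (subset_univ _) fun τ _ _ =>
      prod_nonneg fun j _ => Vbd_F0 hP g hg0 l m j _ (part_subset j τ)
  have h3 : ∑ τ : Col P ι, ∏ j, Vbd_F g l m j (part j τ) ≤
      ∏ j, ∑ s ∈ P.powerset, Vbd_F g l m j s := by
    have h4 := col_sum_le' (P := P) (fun j s => if s ⊆ P then Vbd_F g l m j s else 0) (by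
      intro j s
      split_ifs with h5
      · exact Vbd_F0 hP g hg0 l m j s h5
      · exact le_rfl)
    have h5 : ∑ τ : Col P ι, ∏ j, (if part j τ ⊆ P then Vbd_F g l m j (part j τ) else 0) =
        ∑ τ : Col P ι, ∏ j, Vbd_F g l m j (part j τ) :=
      sum_congr rfl fun τ _ => prod_congr rfl fun j _ => if_pos (part_subset j τ)
    have h6 : ∏ j, ∑ s ∈ P.powerset, (if s ⊆ P then Vbd_F g l m j s else 0) =
        ∏ j, ∑ s ∈ P.powerset, Vbd_F g l m j s :=
      prod_congr rfl fun j _ => sum_congr rfl fun s hs => if_pos (mem_powerset.1 hs)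
    rw [← h5, ← h6]
    exact h4
  have hAA : 0 ≤ AA P g := sum_nonneg fun s _ => div_nonneg (hg0 _) (Nat.cast_nonneg _)
  have hW1 : (1 : ℝ) ≤ ∏ p ∈ P, (1 + 1 / ((p : ℝ) * ((p : ℝ) - 1))) := by
    have h5 : ∏ p ∈ P, (1 : ℝ) ≤ ∏ p ∈ P, (1 + 1 / ((p : ℝ) * ((p : ℝ) - 1))) := by
      refine prod_le_prod (fun _ _ => zero_le_one) fun p hp => ?_
      have h6 : (1 : ℝ) ≤ p := by exact_mod_cast (hP p hp).one_le
      have h7 : (0 : ℝ) ≤ (p : ℝ) - 1 := by linarith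
      have h8 : (0 : ℝ) ≤ 1 / ((p : ℝ) * ((p : ℝ) - 1)) := by positivity
      linarith
    rwa [prod_const_one] at h5
  have h4 : ∏ j, ∑ s ∈ P.powerset, Vbd_F g l m j s ≤
      (1 + 2 * Fintype.card ι / z) * AA P g ^ 2 := by
    rw [prod_congr rfl fun j _ => Vbd_Fsum (P := P) g l m j]
    have h5 : m ∈ univ.erase l := mem_erase.2 ⟨hlm.symm, mem_univ _⟩
    rw [← mul_prod_erase univ _ (mem_univ l), ← mul_prod_erase (univ.erase l) _ h5,
      if_pos (Or.inl rfl), if_pos (Or.inr rfl)]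
    have h6 : ∏ j ∈ (univ.erase l).erase m, (if j = l ∨ j = m then AA P g else
        ∏ p ∈ P, (1 + 1 / ((p : ℝ) * ((p : ℝ) - 1)))) =
        (∏ p ∈ P, (1 + 1 / ((p : ℝ) * ((p : ℝ) - 1)))) ^ ((univ.erase l).erase m).card := by
      rw [← prod_const]
      refine prod_congr rfl fun i hi => ?_
      rw [mem_erase, mem_erase] at hi
      rw [if_neg]
      rintro (h2 | h2)
      · exact hi.2.1 h2
      · exact hi.1 h2
    rw [h6]
    have h7 : (∏ p ∈ P, (1 + 1 / ((p : ℝ) * ((p : ℝ) - 1)))) ^ ((univ.erase l).erase m).card ≤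
        1 + 2 * Fintype.card ι / z := by
      refine le_trans (pow_le_pow_right₀ hW1 ?_) (Vbd_exp z (Fintype.card ι) hz hPz hM)
      exact (card_le_card ((erase_subset _ _).trans (erase_subset _ _))).trans_eq card_univ
    have h8 : AA P g * (AA P g * (∏ p ∈ P, (1 + 1 / ((p : ℝ) * ((p : ℝ) - 1)))) ^
        ((univ.erase l).erase m).card) = (∏ p ∈ P, (1 + 1 / ((p : ℝ) * ((p : ℝ) - 1)))) ^
        ((univ.erase l).erase m).card * AA P g ^ 2 := by ring
    rw [h8]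
    exact mul_le_mul_of_nonneg_right h7 (by positivity)
  rw [← mul_sum] at h1
  rw [← hK]
  calc |AL (el l m) (zz g R) ρ| ≤ _ := h1
    _ ≤ (∏ i, if i = l ∨ i = m then 1 else g (prt i ρ)) *
        ((1 + 2 * Fintype.card ι / z) * AA P g ^ 2) :=
      mul_le_mul_of_nonneg_left (h2.trans (h3.trans h4)) hK0
    _ = _ := by ring

theorem V_supp (hP : ∀ p ∈ P, p.Prime) (R : ℕ) (g : ℕ → ℝ) (l m : ι) (ρ : Col P ι)
    (h : AL (el l m) (zz g R) ρ ≠ 0) : tot ρ ≤ R := by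
  obtain ⟨σ, h1, h2⟩ := AL_ext _ _ ρ h
  refine (tot_le_of_ext (fun p hp => (hP p hp).one_le) ρ σ h2).trans ?_
  by_contra h3
  apply h1
  unfold zz yy
  rw [if_neg h3, mul_zero]

end Pool.Agent.Lib.MP_092512_nt.FP
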