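import Pool.Agent.Lib.MP_092512_nt.FP.Defs
import Pool.Agent.Lib.MP_092512_nt.FP.ColSum
import Pool.Agent.Lib.MT.Zm

/-!
# F_P, ZmS: `MT.zm_lower` with the constant `1 - 2M/z`

PROOF. As Lib/MT/Zm.lean (constant 3/4 there).  For `ρ` avoiding `m` the sum is over the extensions `τ` of `ρ`; those where all the
extra primes have the colour `m` give `μ(ρ) YY m g R ρ`; with a nonempty set `t` of extra primes of colours `j ≠ m` (factor `1/(p(p-1))` each)
the sum over the `m`-part is at most `YY m g R (ρ + t) ≤ YY m g R ρ` in absolute value, so the error is at most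
`YY m g R ρ * (∏_{p ∈ P} (1 + (M-1)/(p(p-1))) - 1) ≤ (2M/z) YY m g R ρ` (`prod_inv`).
-/

set_option autoImplicit false

open Finset

namespace Pool.Agent.Lib.MP_092512_nt.FP

open Pool.Agent.Lib.MT

private theorem zms_avg {α β : Type} [Fintype α] [DecidableEq α] [Fintype β] (a : α) (F : (α → β) → ℝ) :
    ∑ τ : α → β, ∑ s : β, F (Function.update τ a s) = Fintype.card β * ∑ τ : α → β, F τ := by
  have hinv : Function.Involutive
      (fun x : (α → β) × β => ((Function.update x.1 a x.2, x.1 a) : (α → β) × β)) := by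
    intro x
    obtain ⟨τ, s⟩ := x
    simp
  have h1 : ∑ τ : α → β, ∑ s : β, F (Function.update τ a s) =
      ∑ x : (α → β) × β, F (Function.update x.1 a x.2) := by
    rw [← Finset.univ_product_univ, Finset.sum_product]
  have h2 := Equiv.sum_comp (Function.Involutive.toPerm _ hinv) (fun x : (α → β) × β => F x.1)
  have h3 : ∑ x : (α → β) × β, F x.1 = Fintype.card β * ∑ τ : α → β, F τ := by
    rw [← Finset.univ_product_univ, Finset.sum_product]
    simp only [Finset.sum_const, Finset.card_univ, nsmul_eq_mul]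
    rw [Finset.mul_sum]
  rw [h1, ← h3, ← h2]
  rfl

/-- one-site inequalities multiply -/
private theorem zms_tens {α β : Type} [Fintype α] [DecidableEq α] [Fintype β] (hβ : 0 < Fintype.card β)
    (y : (α → β) → ℝ) (U V : α → β → ℝ) (c : α → ℝ) (hU : ∀ a s, 0 ≤ U a s) (hV : ∀ a s, 0 ≤ V a s)
    (hc : ∀ a, 0 ≤ c a)
    (h : ∀ a τ, ∑ s, U a s * y (Function.update τ a s) ≤ c a * ∑ s, V a s * y (Function.update τ a s)) :
    ∑ τ : α → β, (∏ a, U a (τ a)) * y τ ≤ (∏ a, c a) * ∑ τ : α → β, (∏ a, V a (τ a)) * y τ := by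
  have key : ∀ S : Finset α, ∑ τ : α → β, (∏ a, U a (τ a)) * y τ ≤
      (∏ a ∈ S, c a) * ∑ τ : α → β, (∏ a, (if a ∈ S then V a (τ a) else U a (τ a))) * y τ := by
    intro S
    induction S using Finset.induction_on with
    | empty => simp
    | insert b S hb ih =>
      refine ih.trans ?_
      rw [Finset.prod_insert hb, mul_comm (c b), mul_assoc]
      refine mul_le_mul_of_nonneg_left ?_ (Finset.prod_nonneg (fun a _ => hc a))
      have e1 := zms_avg b (fun τ : α → β => (∏ a, (if a ∈ S then V a (τ a) else U a (τ a))) * y τ)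
      have e2 := zms_avg b (fun τ : α → β =>
        (∏ a, (if a ∈ insert b S then V a (τ a) else U a (τ a))) * y τ)
      have hb0 : (0 : ℝ) < Fintype.card β := by exact_mod_cast hβ
      refine le_of_mul_le_mul_left ?_ hb0
      rw [← e1, ← mul_assoc, mul_comm (Fintype.card β : ℝ), mul_assoc, ← e2, Finset.mul_sum]
      refine Finset.sum_le_sum (fun τ _ => ?_)
      have w0 : 0 ≤ ∏ a ∈ univ.erase b, (if a ∈ S then V a (τ a) else U a (τ a)) :=
        Finset.prod_nonneg (fun a _ => by split_ifs; exacts [hV _ _, hU _ _])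
      have f1 : ∀ s, (∏ a, (if a ∈ S then V a (Function.update τ b s a) else
          U a (Function.update τ b s a))) = U b s *
          ∏ a ∈ univ.erase b, (if a ∈ S then V a (τ a) else U a (τ a)) := by
        intro s
        rw [← Finset.mul_prod_erase univ _ (Finset.mem_univ b), if_neg hb, Function.update_self]
        congr 1
        refine Finset.prod_congr rfl (fun a ha => ?_)
        rw [Function.update_of_ne (Finset.ne_of_mem_erase ha)]
      have f2 : ∀ s, (∏ a, (if a ∈ insert b S then V a (Function.update τ b s a) else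
          U a (Function.update τ b s a))) = V b s *
          ∏ a ∈ univ.erase b, (if a ∈ S then V a (τ a) else U a (τ a)) := by
        intro s
        rw [← Finset.mul_prod_erase univ _ (Finset.mem_univ b), if_pos (Finset.mem_insert_self b S),
          Function.update_self]
        congr 1
        refine Finset.prod_congr rfl (fun a ha => ?_)
        have hab := Finset.ne_of_mem_erase ha
        rw [Function.update_of_ne hab]
        refine if_congr ?_ rfl rfl
        rw [Finset.mem_insert]
        exact ⟨fun h => h.resolve_left hab, Or.inr⟩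
      simp_rw [f1, f2]
      have g1 : ∑ s, U b s * (∏ a ∈ univ.erase b, (if a ∈ S then V a (τ a) else U a (τ a))) *
          y (Function.update τ b s) = (∏ a ∈ univ.erase b, (if a ∈ S then V a (τ a) else U a (τ a))) *
          ∑ s, U b s * y (Function.update τ b s) := by
        rw [Finset.mul_sum]; exact Finset.sum_congr rfl (fun s _ => by ring)
      have g2 : c b * ∑ s, V b s * (∏ a ∈ univ.erase b, (if a ∈ S then V a (τ a) else U a (τ a))) *
          y (Function.update τ b s) = (∏ a ∈ univ.erase b, (if a ∈ S then V a (τ a) else U a (τ a))) *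
          (c b * ∑ s, V b s * y (Function.update τ b s)) := by
        rw [Finset.mul_sum, Finset.mul_sum, Finset.mul_sum]
        exact Finset.sum_congr rfl (fun s _ => by ring)
      rw [g1, g2]
      exact mul_le_mul_of_nonneg_left (h b τ) w0
  have := key univ
  simpa using this

variable {ι : Type} [Fintype ι] [DecidableEq ι]

private theorem zms_tot_le {P : Finset ℕ} (hP : ∀ p ∈ P, 1 ≤ p) (τ : Col P ι) (p : {p : ℕ // p ∈ P})
    (s : Option ι) : tot (Function.update τ p none) ≤ tot (Function.update τ p s) := by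
  unfold tot
  refine Finset.prod_le_prod' (fun q _ => ?_)
  by_cases hq : q = p
  · rw [hq, Function.update_self, Function.update_self, if_pos rfl]
    have := hP p.1 p.2
    split_ifs
    · exact le_rfl
    · exact this
  · rw [Function.update_of_ne hq, Function.update_of_ne hq]

private theorem zms_prt_le {P : Finset ℕ} (hP : ∀ p ∈ P, 1 ≤ p) (τ : Col P ι) (p : {p : ℕ // p ∈ P})
    (s : Option ι) (i : ι) : prt i (Function.update τ p none) ≤ prt i (Function.update τ p s) := by
  unfold prt
  refine Finset.prod_le_prod' (fun q _ => ?_)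
  by_cases hq : q = p
  · rw [hq, Function.update_self, Function.update_self, if_neg (by simp)]
    have := hP p.1 p.2
    split_ifs
    · exact this
    · exact le_rfl
  · rw [Function.update_of_ne hq, Function.update_of_ne hq]

private theorem zms_yy_nonneg {P : Finset ℕ} (g : ℕ → ℝ) (hg0 : ∀ n, 0 ≤ g n) (R : ℕ) (τ : Col P ι) :
    0 ≤ yy g R τ := by
  unfold yy
  split_ifs
  · exact Finset.prod_nonneg (fun i _ => hg0 _)
  · exact le_rfl

private theorem zms_yy_le {P : Finset ℕ} (hP : ∀ p ∈ P, 1 ≤ p) (g : ℕ → ℝ) (hg0 : ∀ n, 0 ≤ g n)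
    (hg1 : ∀ a b, a ≤ b → g b ≤ g a) (R : ℕ) (τ : Col P ι) (p : {p : ℕ // p ∈ P})
    (s : Option ι) : yy g R (Function.update τ p s) ≤ yy g R (Function.update τ p none) := by
  by_cases h : tot (Function.update τ p s) ≤ R
  · have h' := (zms_tot_le hP τ p s).trans h
    unfold yy
    rw [if_pos h, if_pos h']
    exact Finset.prod_le_prod (fun i _ => hg0 _) (fun i _ => hg1 _ _ (zms_prt_le hP τ p s i))
  · have : yy g R (Function.update τ p s) = 0 := by unfold yy; rw [if_neg h]
    rw [this]
    exact zms_yy_nonneg g hg0 R _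

private theorem zms_core (P : Finset ℕ) (w R : ℕ) (hw : Fintype.card ι ≤ w) (hw1 : 1 ≤ w) (m : ι)
    (g : ℕ → ℝ) (hg0 : ∀ n, 0 ≤ g n) (hg1 : ∀ a b, a ≤ b → g b ≤ g a) (ρ : Col P ι)
    (hPp : ∀ p ∈ P, w < p) :
    (1 - 2 * Fintype.card ι / w) * YY m g R ρ ≤ |∑ τ : Col P ι, (∏ p : {p : ℕ // p ∈ P},
      Amat (fun j => q2 m p j - 1 / ((p : ℕ) : ℝ)) (ρ p) (τ p)) * zz g R τ| := by
  classical
  set k := Fintype.card ι with hk
  have hk1 : 1 ≤ k := Fintype.card_pos_iff.2 ⟨m⟩
  have hP1 : ∀ p ∈ P, 1 ≤ p := fun p hp => by have := hPp p hp; omega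
  have hp1 : ∀ p : {p : ℕ // p ∈ P}, (1 : ℝ) < ((p : ℕ) : ℝ) := fun p => by
    have := hPp p.1 p.2
    exact_mod_cast (by omega : 1 < p.1)
  set e : {p : ℕ // p ∈ P} → ℝ := fun p => 1 / (((p : ℕ) : ℝ) * (((p : ℕ) : ℝ) - 1)) with he
  have he0 : ∀ p, 0 ≤ e p := fun p => by
    have := hp1 p
    have h2 : (0 : ℝ) < ((p : ℕ) : ℝ) - 1 := by linarith
    have h3 : (0 : ℝ) < ((p : ℕ) : ℝ) := by linarith
    rw [he]
    positivity
  set sg : Option ι → ℝ := fun s => if s = none then 1 else -1 with hsg
  set K : {p : ℕ // p ∈ P} → Option ι → ℝ := fun p s =>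
    Amat (fun j => if j = m then 1 / ((p : ℕ) : ℝ) else 0) (ρ p) s with hK
  set E : {p : ℕ // p ∈ P} → Option ι → ℝ := fun p s =>
    if ρ p = none ∧ s ≠ none ∧ s ≠ some m then e p else 0 with hE
  have hK0 : ∀ p s, 0 ≤ K p s := by
    intro p s
    have := hp1 p
    have h3 : (0 : ℝ) < ((p : ℕ) : ℝ) := by linarith
    rw [hK]
    simp only
    rcases hρp : ρ p with _ | i <;> rcases s with _ | j
    · simp [Amat]
    · simp only [Amat]
      split_ifs
      · positivity
      · exact le_rfl
    · simp [Amat]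
    · simp only [Amat]
      split_ifs <;> norm_num
  have hE0 : ∀ p s, 0 ≤ E p s := fun p s => by
    rw [hE]; simp only; split_ifs; exacts [he0 p, le_rfl]
  have hC : ∀ p s, sg (ρ p) * sg s * Amat (fun j => q2 m p j - 1 / ((p : ℕ) : ℝ)) (ρ p) s =
      K p s - E p s := by
    intro p s
    have h1 := hp1 p
    have h3 : ((p : ℕ) : ℝ) ≠ 0 := by linarith
    have h4 : ((p : ℕ) : ℝ) - 1 ≠ 0 := by linarith
    rw [hK, hE, hsg]
    simp only
    rcases hρp : ρ p with _ | i <;> rcases s with _ | j
    · simp [Amat]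
    · by_cases hj : j = m
      · simp [Amat, hj, q2]
      · simp only [Amat, q2, if_neg hj, he, reduceCtorEq, if_false, if_true, ne_eq,
          not_false_eq_true, Option.some.injEq, hj, and_self]
        field_simp
        ring
    · simp [Amat]
    · simp [Amat]
  have hKE : ∀ p s, E p s ≠ 0 → K p s = 0 := by
    intro p s h
    rw [hE] at h
    simp only at h
    have h1 : ρ p = none ∧ s ≠ none ∧ s ≠ some m := by
      by_contra hc
      rw [if_neg hc] at h
      exact h rfl
    rw [hK]
    simp only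
    rw [h1.1]
    rcases s with _ | j
    · exact absurd rfl h1.2.1
    · have : j ≠ m := fun hj => h1.2.2 (by rw [hj])
      simp [Amat, this]
  have hmu : ∀ σ : Col P ι, mu σ = ∏ p, sg (σ p) := fun σ => rfl
  have hmu1 : |mu ρ| = 1 := by
    rw [hmu, Finset.abs_prod]
    refine Finset.prod_eq_one (fun p _ => ?_)
    rw [hsg]
    simp only
    split_ifs <;> simp
  have hy0 : ∀ τ : Col P ι, 0 ≤ yy g R τ := fun τ => zms_yy_nonneg g hg0 R τ
  set I := ∑ τ : Col P ι, (∏ p : {p : ℕ // p ∈ P},
      Amat (fun j => q2 m p j - 1 / ((p : ℕ) : ℝ)) (ρ p) (τ p)) * zz g R τ with hI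
  have h1 : mu ρ * I = ∑ τ : Col P ι, (∏ p, (K p (τ p) - E p (τ p))) * yy g R τ := by
    rw [hI, Finset.mul_sum]
    refine Finset.sum_congr rfl (fun τ _ => ?_)
    rw [← Finset.prod_congr rfl (fun p _ => hC p (τ p)), Finset.prod_mul_distrib,
      Finset.prod_mul_distrib, ← hmu, ← hmu]
    unfold zz
    ring
  have h2 : ∀ τ : Col P ι, 2 * ∏ p, K p (τ p) - ∏ p, (K p (τ p) + E p (τ p)) ≤
      ∏ p, (K p (τ p) - E p (τ p)) := by
    intro τ
    by_cases hall : ∀ p, E p (τ p) = 0
    · have a1 : ∏ p, (K p (τ p) + E p (τ p)) = ∏ p, K p (τ p) :=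
        Finset.prod_congr rfl (fun p _ => by rw [hall p, add_zero])
      have a2 : ∏ p, (K p (τ p) - E p (τ p)) = ∏ p, K p (τ p) :=
        Finset.prod_congr rfl (fun p _ => by rw [hall p, sub_zero])
      rw [a1, a2]
      linarith
    · push Not at hall
      obtain ⟨p, hp⟩ := hall
      have a1 : ∏ p, K p (τ p) = 0 := Finset.prod_eq_zero (Finset.mem_univ p) (hKE p _ hp)
      have a2 : |∏ p, (K p (τ p) - E p (τ p))| ≤ ∏ p, (K p (τ p) + E p (τ p)) := by
        rw [Finset.abs_prod]
        refine Finset.prod_le_prod (fun q _ => abs_nonneg _) (fun q _ => ?_)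
        rw [abs_le]
        have b1 := hK0 q (τ q)
        have b2 := hE0 q (τ q)
        constructor <;> linarith
      have := (abs_le.1 a2).1
      rw [a1]
      linarith
  have hYY : YY m g R ρ = ∑ τ : Col P ι, (∏ p, K p (τ p)) * yy g R τ := rfl
  have hcard : 0 < Fintype.card (Option ι) := Fintype.card_pos
  have h3 : ∑ τ : Col P ι, (∏ p, (K p (τ p) + E p (τ p))) * yy g R τ ≤
      (∏ p, (1 + k * e p)) * ∑ τ : Col P ι, (∏ p, K p (τ p)) * yy g R τ := by
    refine zms_tens hcard (yy g R) (fun p s => K p s + E p s) K (fun p => 1 + k * e p)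
      (fun p s => add_nonneg (hK0 p s) (hE0 p s)) hK0
      (fun p => by have := he0 p; positivity) ?_
    intro p τ
    have hS0 : 0 ≤ ∑ s, K p s * yy g R (Function.update τ p s) :=
      Finset.sum_nonneg (fun s _ => mul_nonneg (hK0 p s) (hy0 _))
    have hsplit : ∑ s, (K p s + E p s) * yy g R (Function.update τ p s) =
        ∑ s, K p s * yy g R (Function.update τ p s) + ∑ s, E p s * yy g R (Function.update τ p s) := by
      rw [← Finset.sum_add_distrib]
      exact Finset.sum_congr rfl (fun s _ => by ring)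
    rw [hsplit, add_mul, one_mul]
    refine add_le_add le_rfl ?_
    by_cases hρp : ρ p = none
    · have b1 : yy g R (Function.update τ p none) ≤ ∑ s, K p s * yy g R (Function.update τ p s) := by
        have b2 : K p none = 1 := by rw [hK]; simp only; rw [hρp]; rfl
        calc yy g R (Function.update τ p none) = K p none * yy g R (Function.update τ p none) := by
              rw [b2, one_mul]
          _ ≤ _ := Finset.single_le_sum (f := fun s => K p s * yy g R (Function.update τ p s))
              (fun s _ => mul_nonneg (hK0 p s) (hy0 _)) (Finset.mem_univ none)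
      rw [Fintype.sum_option]
      have b3 : E p none = 0 := by rw [hE]; simp
      rw [b3, zero_mul, zero_add]
      have b4 : ∀ j, E p (some j) * yy g R (Function.update τ p (some j)) ≤
          e p * yy g R (Function.update τ p none) := by
        intro j
        refine mul_le_mul ?_ (zms_yy_le hP1 g hg0 hg1 R τ p (some j)) (hy0 _) (he0 p)
        rw [hE]; simp only; split_ifs; exacts [le_rfl, he0 p]
      calc ∑ j, E p (some j) * yy g R (Function.update τ p (some j))
          ≤ ∑ _j : ι, e p * yy g R (Function.update τ p none) := Finset.sum_le_sum (fun j _ => b4 j)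
        _ = k * e p * yy g R (Function.update τ p none) := by
            rw [Finset.sum_const, Finset.card_univ, nsmul_eq_mul]; ring
        _ ≤ k * e p * ∑ s, K p s * yy g R (Function.update τ p s) :=
            mul_le_mul_of_nonneg_left b1 (mul_nonneg (by positivity) (he0 p))
    · have : ∀ s, E p s = 0 := fun s => by
        rw [hE]; simp only; rw [if_neg (fun h => hρp h.1)]
      simp only [this, zero_mul, Finset.sum_const_zero]
      exact mul_nonneg (mul_nonneg (by positivity) (he0 p)) hS0
  have h4 : ∏ p, (1 + k * e p) ≤ 1 + 2 * k / w := by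
    have c1 := prod_inv P w hw1 hPp k (by positivity) (by exact_mod_cast hw)
    rw [← Finset.prod_coe_sort P (fun p => 1 + (k : ℝ) / ((p : ℝ) * ((p : ℝ) - 1)))] at c1
    refine le_trans (le_of_eq ?_) c1
    refine Finset.prod_congr rfl (fun p _ => ?_)
    rw [he]
    simp only
    rw [mul_one_div]
  have hYY0 : 0 ≤ YY m g R ρ := by
    rw [hYY]
    exact Finset.sum_nonneg (fun τ _ => mul_nonneg (Finset.prod_nonneg (fun p _ => hK0 p _)) (hy0 τ))
  have h5 : (1 - 2 * k / w) * YY m g R ρ ≤ mu ρ * I := by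
    rw [h1]
    have d1 : ∑ τ : Col P ι, (2 * ∏ p, K p (τ p) - ∏ p, (K p (τ p) + E p (τ p))) * yy g R τ ≤
        ∑ τ : Col P ι, (∏ p, (K p (τ p) - E p (τ p))) * yy g R τ :=
      Finset.sum_le_sum (fun τ _ => mul_le_mul_of_nonneg_right (h2 τ) (hy0 τ))
    refine le_trans ?_ d1
    have d2 : ∑ τ : Col P ι, (2 * ∏ p, K p (τ p) - ∏ p, (K p (τ p) + E p (τ p))) * yy g R τ =
        2 * YY m g R ρ - ∑ τ : Col P ι, (∏ p, (K p (τ p) + E p (τ p))) * yy g R τ := by
      rw [hYY, Finset.mul_sum, ← Finset.sum_sub_distrib]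
      exact Finset.sum_congr rfl (fun τ _ => by ring)
    rw [d2]
    rw [← hYY] at h3
    have d3 := h3.trans (mul_le_mul_of_nonneg_right h4 hYY0)
    linarith
  calc (1 - 2 * k / w) * YY m g R ρ ≤ mu ρ * I := h5
    _ ≤ |mu ρ * I| := le_abs_self _
    _ = |I| := by rw [abs_mul, hmu1, one_mul]

theorem zm_low (z T : ℕ) (hz : Fintype.card ι ≤ z) (hz1 : 1 ≤ z) (R : ℕ) (m : ι) (g : ℕ → ℝ)
    (hg0 : ∀ n, 0 ≤ g n) (hg1 : ∀ a b, a ≤ b → g b ≤ g a) (ρ : Col (PP z T) ι)
    (hρ : ∀ p, ρ p ≠ some m) :
    (1 - 2 * Fintype.card ι / z) * YY m g R ρ ≤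
      |AL (fun p j => q2 m p j - 1 / ((p : ℕ) : ℝ)) (zz g R) ρ| := by
  have _ := hρ
  refine zms_core (PP z T) z R hz hz1 m g hg0 hg1 ρ (fun p hp => ?_)
  unfold PP at hp
  exact (Finset.mem_filter.1 hp).2.2

end Pool.Agent.Lib.MP_092512_nt.FP
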